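import Pool.Agent.Work.MP_0c1793_al.Model

/-!
# Cohomology from a functorial complex

`one` is an object of a `k`-linear abelian category with enough injectives.  A functorial complex
`D : Res k one` which is exact in the object, acyclic on injectives and represents `Hom(one, -)` in
degree zero maps onto the `Ext` groups `Ext one M n` (universal delta functor).  Natural operators
which commute with the differential act by Yoneda composition with classes in `Ext one one`, so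
that finiteness of the complex over the operators gives the finite generation property.
-/

namespace Pool.Agent.DG

open CategoryTheory Abelian

universe w v₁ u₀ u₁ u₂

/-- A functorial complex computing `Ext one M n`. -/
structure Res (k : Type u₀) [CommRing k] {𝓒 : Type u₁} [Category.{v₁} 𝓒] [Abelian 𝓒]
    [Linear k 𝓒] (one : 𝓒) where
  /-- the terms -/
  C : ℕ → 𝓒 → Type u₂
  instG : ∀ n M, AddCommGroup (C n M)
  instM : ∀ n M, Module k (C n M)
  /-- functoriality -/
  map : ∀ (n : ℕ) {M N : 𝓒}, (M ⟶ N) → (C n M →ₗ[k] C n N)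
  map_comp : ∀ (n : ℕ) {M N P : 𝓒} (f : M ⟶ N) (g : N ⟶ P) (x : C n M),
    map n (f ≫ g) x = map n g (map n f x)
  map_add : ∀ (n : ℕ) {M N : 𝓒} (f g : M ⟶ N) (x : C n M),
    map n (f + g) x = map n f x + map n g x
  map_smul : ∀ (n : ℕ) {M N : 𝓒} (c : k) (f : M ⟶ N) (x : C n M),
    map n (c • f) x = c • map n f x
  /-- the differential -/
  d : ∀ (n : ℕ) (M : 𝓒), C n M →ₗ[k] C (n + 1) M
  d_d : ∀ (n : ℕ) (M : 𝓒) (x : C n M), d (n + 1) M (d n M x) = 0
  d_map : ∀ (n : ℕ) {M N : 𝓒} (f : M ⟶ N) (x : C n M), d n N (map n f x) = map (n + 1) f (d n M x)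
  inj : ∀ (n : ℕ) (S : ShortComplex 𝓒), S.ShortExact → ∀ x : C n S.X₁, map n S.f x = 0 → x = 0
  surj : ∀ (n : ℕ) (S : ShortComplex 𝓒), S.ShortExact → ∀ x : C n S.X₃, ∃ y, map n S.g y = x
  exact : ∀ (n : ℕ) (S : ShortComplex 𝓒), S.ShortExact → ∀ x : C n S.X₂, map n S.g x = 0 →
    ∃ y, map n S.f y = x
  acyc : ∀ (I : 𝓒) [Injective I] (n : ℕ) (x : C (n + 1) I), d (n + 1) I x = 0 →
    ∃ y, d n I y = x
  /-- the universal cocycle of degree zero -/
  e : C 0 one
  d_e : d 0 one e = 0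
  e_inj : ∀ {M : 𝓒} (f : one ⟶ M), map 0 f e = 0 → f = 0
  e_surj : ∀ {M : 𝓒} (x : C 0 M), d 0 M x = 0 → ∃ f : one ⟶ M, map 0 f e = x

attribute [instance] Res.instG Res.instM

namespace Res

variable {k : Type u₀} [CommRing k] {𝓒 : Type u₁} [Category.{v₁} 𝓒] [Abelian 𝓒]
  [HasExt.{w} 𝓒] [Linear k 𝓒] {one : 𝓒} [EnoughInjectives 𝓒] (D : Res.{v₁, u₀, u₁, u₂} k one)

/-- The chosen short exact sequence `0 → M → I → M'' → 0` with `I` injective. -/
noncomputable abbrev ses (M : 𝓒) : ShortComplex 𝓒 where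
  X₁ := M
  X₂ := Injective.under M
  X₃ := Limits.cokernel (Injective.ι M)
  f := Injective.ι M
  g := Limits.cokernel.π (Injective.ι M)
  zero := Limits.cokernel.condition _

omit [HasExt.{w} 𝓒] in
theorem ses_exact (M : 𝓒) : (ses M).ShortExact :=
  { exact := ShortComplex.exact_of_g_is_cokernel _ (Limits.cokernelIsCokernel (Injective.ι M))
    mono_f := inferInstanceAs (Mono (Injective.ι M))
    epi_g := inferInstanceAs (Epi (Limits.cokernel.π (Injective.ι M))) }

omit [HasExt.{w} 𝓒] in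
/-- A morphism into the first object of the chosen sequence extends to short exact sequences. -/
theorem exists_ses_hom {S : ShortComplex 𝓒} (hS : S.ShortExact) {N : 𝓒} (f : S.X₁ ⟶ N) :
    ∃ φ : S ⟶ ses N, φ.τ₁ = f := by
  have := hS.mono_f
  have := hS.epi_g
  have h1 : S.f ≫ Injective.factorThru (f ≫ Injective.ι N) S.f = f ≫ Injective.ι N :=
    Injective.comp_factorThru _ _
  have h2 : S.f ≫ Injective.factorThru (f ≫ Injective.ι N) S.f ≫
      Limits.cokernel.π (Injective.ι N) = 0 := by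
    rw [← Category.assoc, h1, Category.assoc, Limits.cokernel.condition, Limits.comp_zero]
  exact ⟨⟨f, Injective.factorThru (f ≫ Injective.ι N) S.f, hS.exact.desc _ h2, h1.symm,
    (hS.exact.g_desc _ h2).symm⟩, rfl⟩

/-- The comparison map. -/
noncomputable def th : ∀ (n : ℕ) (M : 𝓒), D.C n M → Ext.{w} one M n
  | 0, M, z => open Classical in
    if h : ∃ f : one ⟶ M, D.map 0 f D.e = z then Ext.mk₀ h.choose else 0
  | n + 1, M, z => open Classical in
    if h : ∃ b : D.C n (ses M).X₂, D.d n (ses M).X₂ b = D.map (n + 1) (ses M).f z then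
      (th n (ses M).X₃ (D.map n (ses M).g h.choose)).comp (ses_exact M).extClass rfl else 0

theorem th_zero {M : 𝓒} (f : one ⟶ M) : D.th 0 M (D.map 0 f D.e) = Ext.mk₀ f := by
  have h : ∃ f' : one ⟶ M, D.map 0 f' D.e = D.map 0 f D.e := ⟨f, rfl⟩
  have h1 : h.choose = f := by
    have h2 := h.choose_spec
    have h3 : D.map 0 (h.choose - f) D.e = 0 := by
      have h4 := D.map_add 0 (h.choose - f) f D.e
      rw [sub_add_cancel, h2] at h4
      exact right_eq_add.1 h4
    exact sub_eq_zero.1 (D.e_inj _ h3)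
  unfold th
  rw [dif_pos h, h1]

omit [HasExt.{w} 𝓒] [EnoughInjectives 𝓒] in
theorem map_zero' (n : ℕ) {M N : 𝓒} (x : D.C n M) : D.map n (0 : M ⟶ N) x = 0 := by
  have h := D.map_add n (0 : M ⟶ N) 0 x
  rw [add_zero] at h
  exact left_eq_add.1 h

omit [HasExt.{w} 𝓒] in
/-- the chosen injective sequence: a preimage exists -/
theorem exists_b (n : ℕ) {M : 𝓒} (z : D.C (n + 1) M) (hz : D.d (n + 1) M z = 0) :
    ∃ b : D.C n (ses M).X₂, D.d n (ses M).X₂ b = D.map (n + 1) (ses M).f z := by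
  have hI : Injective (ses M).X₂ := inferInstanceAs (Injective (Injective.under M))
  apply D.acyc
  rw [D.d_map, hz, LinearMap.map_zero]

/-- the statement proved by induction on the degree -/
structure Good (n : ℕ) : Prop where
  add : ∀ {M : 𝓒} (x y : D.C n M), D.d n M x = 0 → D.d n M y = 0 →
    D.th n M (x + y) = D.th n M x + D.th n M y
  smul : ∀ {M : 𝓒} (c : k) (x : D.C n M), D.d n M x = 0 → D.th n M (c • x) = c • D.th n M x
  nat : ∀ {M N : 𝓒} (f : M ⟶ N) (x : D.C n M), D.d n M x = 0 →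
    D.th n N (D.map n f x) = (D.th n M x).comp (Ext.mk₀ f) (add_zero n)

theorem good_zero : D.Good 0 := by
  refine ⟨fun {M} x y hx hy => ?_, fun {M} c x hx => ?_, fun {M N} f x hx => ?_⟩
  · obtain ⟨f, rfl⟩ := D.e_surj x hx
    obtain ⟨g, rfl⟩ := D.e_surj y hy
    rw [← D.map_add, th_zero, th_zero, th_zero, Ext.mk₀_add]
  · obtain ⟨f, rfl⟩ := D.e_surj x hx
    rw [← D.map_smul, th_zero, th_zero, Ext.mk₀_smul]
  · obtain ⟨g, rfl⟩ := D.e_surj x hx
    rw [← D.map_comp, th_zero, th_zero, Ext.mk₀_comp_mk₀]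

variable {D}

/-- Compatibility with the chosen sequence: independence of the choice. -/
theorem Good.ses {n : ℕ} (h : D.Good n) {M : 𝓒} (z : D.C (n + 1) M) (b : D.C n (Res.ses M).X₂)
    (hb : D.d n (Res.ses M).X₂ b = D.map (n + 1) (Res.ses M).f z) :
    D.th (n + 1) M z =
      (D.th n (Res.ses M).X₃ (D.map n (Res.ses M).g b)).comp (ses_exact M).extClass rfl := by
  have hex : ∃ b : D.C n (Res.ses M).X₂, D.d n (Res.ses M).X₂ b = D.map (n + 1) (Res.ses M).f z :=
    ⟨b, hb⟩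
  rw [th, dif_pos hex]
  set c := hex.choose with hc
  have hc' : D.d n (Res.ses M).X₂ c = D.map (n + 1) (Res.ses M).f z := hex.choose_spec
  have h1 : D.d n (Res.ses M).X₂ (c - b) = 0 := by rw [LinearMap.map_sub, hc', hb, sub_self]
  have hdz : ∀ a : D.C n (Res.ses M).X₂, D.d n (Res.ses M).X₂ a = D.map (n + 1) (Res.ses M).f z →
      D.d n (Res.ses M).X₃ (D.map n (Res.ses M).g a) = 0 := by
    intro a ha
    rw [D.d_map, ha, ← D.map_comp, (Res.ses M).zero, map_zero']
  have h2 : D.th n (Res.ses M).X₃ (D.map n (Res.ses M).g c) =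
      D.th n (Res.ses M).X₃ (D.map n (Res.ses M).g (c - b)) +
        D.th n (Res.ses M).X₃ (D.map n (Res.ses M).g b) := by
    rw [← h.add _ _ (by rw [D.d_map, h1, LinearMap.map_zero]) (hdz b hb), ← LinearMap.map_add, sub_add_cancel]
  rw [h2, h.nat _ _ h1, Ext.add_comp, Ext.comp_assoc_of_second_deg_zero,
    ShortComplex.ShortExact.comp_extClass, Ext.comp_zero, zero_add]

/-- Compatibility with the connecting homomorphism of a short exact sequence. -/
theorem Good.shortExact {n : ℕ} (h : D.Good n) {S : ShortComplex 𝓒} (hS : S.ShortExact)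
    (z : D.C (n + 1) S.X₁) (b : D.C n S.X₂) (hb : D.d n S.X₂ b = D.map (n + 1) S.f z) :
    D.th (n + 1) S.X₁ z = (D.th n S.X₃ (D.map n S.g b)).comp hS.extClass rfl := by
  obtain ⟨φ, hφ⟩ := exists_ses_hom hS (𝟙 S.X₁)
  have h1 : D.d n (Res.ses S.X₁).X₂ (D.map n φ.τ₂ b) = D.map (n + 1) (Res.ses S.X₁).f z := by
    rw [D.d_map, hb, ← D.map_comp, ← φ.comm₁₂, hφ, Category.id_comp]
  have h2 : D.map n (Res.ses S.X₁).g (D.map n φ.τ₂ b) = D.map n φ.τ₃ (D.map n S.g b) := by
    rw [← D.map_comp, ← D.map_comp, φ.comm₂₃]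
  have h3 : D.d n S.X₃ (D.map n S.g b) = 0 := by
    rw [D.d_map, hb, ← D.map_comp, S.zero, map_zero']
  rw [h.ses z _ h1, h2, h.nat _ _ h3, Ext.comp_assoc_of_second_deg_zero,
    ← ShortComplex.ShortExact.extClass_naturality hS (ses_exact S.X₁) φ, hφ, Ext.comp_mk₀_id]

theorem Good.succ {n : ℕ} (h : D.Good n) : D.Good (n + 1) := by
  refine ⟨fun {M} x y hx hy => ?_, fun {M} c x hx => ?_, fun {M N} f x hx => ?_⟩
  · obtain ⟨b, hb⟩ := D.exists_b n x hx
    obtain ⟨b', hb'⟩ := D.exists_b n y hy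
    have hdz : ∀ (a : D.C n (Res.ses M).X₂) (x : D.C (n + 1) M),
        D.d n (Res.ses M).X₂ a = D.map (n + 1) (Res.ses M).f x →
        D.d n (Res.ses M).X₃ (D.map n (Res.ses M).g a) = 0 := by
      intro a x ha
      rw [D.d_map, ha, ← D.map_comp, (Res.ses M).zero, map_zero']
    rw [h.ses x b hb, h.ses y b' hb', h.ses (x + y) (b + b') (by rw [LinearMap.map_add, hb, hb', LinearMap.map_add]),
      LinearMap.map_add, h.add _ _ (hdz b x hb) (hdz b' y hb'), Ext.add_comp]
  · obtain ⟨b, hb⟩ := D.exists_b n x hx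
    have hdz : D.d n (Res.ses M).X₃ (D.map n (Res.ses M).g b) = 0 := by
      rw [D.d_map, hb, ← D.map_comp, (Res.ses M).zero, map_zero']
    rw [h.ses x b hb, h.ses (c • x) (c • b) (by rw [LinearMap.map_smul, hb, LinearMap.map_smul]),
      LinearMap.map_smul, h.smul _ _ hdz, Ext.smul_comp]
  · obtain ⟨b, hb⟩ := D.exists_b n x hx
    obtain ⟨φ, hφ⟩ := exists_ses_hom (ses_exact M) f
    have h1 : D.d n (Res.ses N).X₂ (D.map n φ.τ₂ b) =
        D.map (n + 1) (Res.ses N).f (D.map (n + 1) f x) := by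
      rw [D.d_map, hb, ← D.map_comp, ← φ.comm₁₂, hφ, D.map_comp]
    have h2 : D.map n (Res.ses N).g (D.map n φ.τ₂ b) =
        D.map n φ.τ₃ (D.map n (Res.ses M).g b) := by
      rw [← D.map_comp, ← D.map_comp, φ.comm₂₃]
    have h3 : D.d n (Res.ses M).X₃ (D.map n (Res.ses M).g b) = 0 := by
      rw [D.d_map, hb, ← D.map_comp, (Res.ses M).zero, map_zero']
    rw [h.ses x b hb, h.ses _ _ h1, h2, h.nat _ _ h3, Ext.comp_assoc_of_second_deg_zero,
      Ext.comp_assoc_of_third_deg_zero,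
      ← ShortComplex.ShortExact.extClass_naturality (ses_exact M) (ses_exact N) φ, hφ]

variable (D)

theorem good : ∀ n, D.Good n
  | 0 => D.good_zero
  | n + 1 => (good n).succ

theorem th_surj : ∀ (n : ℕ) (M : 𝓒) (x : Ext.{w} one M n),
    ∃ z : D.C n M, D.d n M z = 0 ∧ D.th n M z = x
  | 0, M, x => by
    obtain ⟨f, rfl⟩ := (Ext.mk₀_bijective one M).2 x
    exact ⟨D.map 0 f D.e, by rw [D.d_map, D.d_e, LinearMap.map_zero], D.th_zero f⟩
  | n + 1, M, x => by
    have hI : Injective (ses M).X₂ := inferInstanceAs (Injective (Injective.under M))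
    obtain ⟨y, hy⟩ := Ext.covariant_sequence_exact₁ one (ses_exact M) x
      (Ext.eq_zero_of_injective _) rfl
    obtain ⟨v, hv, rfl⟩ := th_surj n _ y
    obtain ⟨b, rfl⟩ := D.surj n (ses M) (ses_exact M) v
    obtain ⟨z, hz⟩ := D.exact (n + 1) (ses M) (ses_exact M) (D.d n _ b) (by rw [← D.d_map, hv])
    refine ⟨z, D.inj (n + 2) (ses M) (ses_exact M) _ ?_, ?_⟩
    · rw [← D.d_map, hz, D.d_d]
    · rw [(D.good n).ses z b hz.symm, hy]

/-- the comparison map vanishes on coboundaries -/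
theorem th_d (n : ℕ) {M : 𝓒} (b : D.C n M) : D.th (n + 1) M (D.d n M b) = 0 := by
  rw [(D.good n).ses (D.d n M b) (D.map n (ses M).f b) (D.d_map _ _ _), ← D.map_comp, (ses M).zero,
    map_zero']
  have h := (D.good n).smul (0 : k) (0 : D.C n (ses M).X₃) (LinearMap.map_zero _)
  rw [smul_zero, zero_smul] at h
  rw [h, Ext.zero_comp]

theorem th_map_zero (n : ℕ) (M : 𝓒) : D.th n M 0 = 0 := by
  have h := (D.good n).smul (0 : k) (0 : D.C n M) (LinearMap.map_zero _)
  rwa [smul_zero, zero_smul] at h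

/-- Natural operators of the complex. -/
structure Ops (ρ : Type) where
  deg : ρ → ℕ
  r : ∀ (i : ρ) (n : ℕ) (M : 𝓒), D.C n M →ₗ[k] D.C (deg i + n) M
  r_map : ∀ (i : ρ) (n : ℕ) {M N : 𝓒} (f : M ⟶ N) (x : D.C n M),
    r i n N (D.map n f x) = D.map (deg i + n) f (r i n M x)
  r_d : ∀ (i : ρ) (n : ℕ) (M : 𝓒) (x : D.C n M),
    r i (n + 1) M (D.d n M x) = D.d (deg i + n) M (r i n M x)

variable {D} {ρ : Type} (O : D.Ops ρ)

omit [HasExt.{w} 𝓒] [EnoughInjectives 𝓒] in
theorem Ops.r_cocycle (i : ρ) {n : ℕ} {M : 𝓒} {x : D.C n M} (hx : D.d n M x = 0) :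
    D.d (O.deg i + n) M (O.r i n M x) = 0 := by
  rw [← O.r_d, hx, LinearMap.map_zero]

/-- the class of an operator -/
noncomputable def Ops.cl (i : ρ) : Ext.{w} one one (O.deg i) :=
  D.th (O.deg i + 0) one (O.r i 0 one D.e)

/-- An operator acts by composition with its class. -/
theorem Ops.th_r (i : ρ) : ∀ (n : ℕ) {M : 𝓒} (x : D.C n M), D.d n M x = 0 →
    D.th (O.deg i + n) M (O.r i n M x) = (O.cl i).comp (D.th n M x) rfl
  | 0, M, x, hx => by
    obtain ⟨f, rfl⟩ := D.e_surj x hx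
    rw [O.r_map, (D.good _).nat _ _ (O.r_cocycle i D.d_e), th_zero]
    rfl
  | n + 1, M, x, hx => by
    obtain ⟨b, hb⟩ := D.exists_b n x hx
    have h3 : D.d n (Res.ses M).X₃ (D.map n (Res.ses M).g b) = 0 := by
      rw [D.d_map, hb, ← D.map_comp, (Res.ses M).zero, map_zero']
    have h1 : D.d (O.deg i + n) (Res.ses M).X₂ (O.r i n _ b) =
        D.map (O.deg i + n + 1) (Res.ses M).f (O.r i (n + 1) M x) := by
      rw [← O.r_d, hb, O.r_map]
      rfl
    have h2 := (D.good (O.deg i + n)).ses (O.r i (n + 1) M x) (O.r i n _ b) h1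
    rw [← O.r_map, Ops.th_r i n _ h3] at h2
    rw [(D.good n).ses x b hb]
    refine Eq.trans h2 ?_
    rw [Ext.comp_assoc]
    rfl

/-- The elements of the complex which are obtained from the elements `z j` by the operators and
linear combinations, up to coboundaries. -/
inductive Ops.Word {κ : Type} {M : 𝓒} {b : κ → ℕ} (z : ∀ j, D.C (b j) M) :
    ∀ n : ℕ, D.C n M → Prop
  | base (j : κ) : Ops.Word z (b j) (z j)
  | op (i : ρ) {n : ℕ} {x : D.C n M} : Ops.Word z n x →
      Ops.Word z (O.deg i + n) (O.r i n M x)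
  | zero (n : ℕ) : Ops.Word z n 0
  | add {n : ℕ} {x y : D.C n M} : Ops.Word z n x → Ops.Word z n y → Ops.Word z n (x + y)
  | smul {n : ℕ} (c : k) {x : D.C n M} : Ops.Word z n x → Ops.Word z n (c • x)
  | bd {n : ℕ} (x : D.C n M) : Ops.Word z (n + 1) (D.d n M x)

/-- the span of the compositions -/
noncomputable def Ops.T {κ : Type} {M : 𝓒} {b : κ → ℕ} (z : ∀ j, D.C (b j) M) (n : ℕ) :
    Submodule k (Ext.{w} one M n) :=
  Submodule.span k {y | ∃ (j : κ) (m : ℕ) (h : m + b j = n) (v : Ext.{w} one one m),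
    Gen k (fun i => Ops.cl.{w} O i) m v ∧ y = v.comp (D.th (b j) M (z j)) h}

theorem Ops.comp_mem_T {κ : Type} {M : 𝓒} {b : κ → ℕ} (z : ∀ j, D.C (b j) M) (i : ρ) {n : ℕ}
    {t : Ext.{w} one M n} (ht : t ∈ O.T z n) : (O.cl i).comp t rfl ∈ O.T z (O.deg i + n) := by
  unfold Ops.T at ht
  induction ht using Submodule.span_induction with
  | mem x hx =>
    obtain ⟨j, m, h, v, hv, rfl⟩ := hx
    subst h
    refine Submodule.subset_span ⟨j, O.deg i + m, add_assoc _ _ _, (O.cl i).comp v rfl,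
      Gen.comp rfl (Gen.gen i) hv, ?_⟩
    rw [Ext.comp_assoc]
    exact add_assoc _ _ _
  | zero => rw [Ext.comp_zero]; exact Submodule.zero_mem _
  | add x y _ _ hx hy => rw [Ext.comp_add]; exact Submodule.add_mem _ hx hy
  | smul c x _ hx => rw [Ext.comp_smul]; exact Submodule.smul_mem _ _ hx

theorem Ops.word_mem {κ : Type} {M : 𝓒} {b : κ → ℕ} (z : ∀ j, D.C (b j) M)
    (hz : ∀ j, D.d (b j) M (z j) = 0) {n : ℕ} {x : D.C n M} (hx : O.Word z n x) :
    D.d n M x = 0 ∧ D.th n M x ∈ O.T z n := by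
  induction hx with
  | base j =>
    refine ⟨hz j, Submodule.subset_span ⟨j, 0, zero_add _, Ext.mk₀ (𝟙 one), Gen.one, ?_⟩⟩
    rw [Ext.mk₀_id_comp]
  | op i _ ih => exact ⟨O.r_cocycle i ih.1, by rw [O.th_r i _ _ ih.1]; exact O.comp_mem_T z i ih.2⟩
  | zero n => exact ⟨LinearMap.map_zero _, by rw [th_map_zero]; exact Submodule.zero_mem _⟩
  | add _ _ ih₁ ih₂ =>
    refine ⟨by rw [LinearMap.map_add, ih₁.1, ih₂.1, add_zero], ?_⟩
    rw [(D.good _).add _ _ ih₁.1 ih₂.1]
    exact Submodule.add_mem _ ih₁.2 ih₂.2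
  | smul c _ ih =>
    refine ⟨by rw [LinearMap.map_smul, ih.1, smul_zero], ?_⟩
    rw [(D.good _).smul _ _ ih.1]
    exact Submodule.smul_mem _ _ ih.2
  | bd x => exact ⟨D.d_d _ _ _, by rw [th_d]; exact Submodule.zero_mem _⟩

omit [EnoughInjectives 𝓒] in
theorem gen_mono {ι κ : Type} {a : ι → ℕ} {b : κ → ℕ} {g : ∀ i, Ext.{w} one one (a i)}
    {g' : ∀ i, Ext.{w} one one (b i)} (h : ∀ i, Gen k g' (a i) (g i)) {n : ℕ}
    {x : Ext.{w} one one n} (hx : Gen k g n x) : Gen k g' n x := by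
  induction hx with
  | one => exact Gen.one
  | gen i => exact h i
  | zero n => exact Gen.zero n
  | add _ _ h1 h2 => exact Gen.add h1 h2
  | smul c _ h1 => exact Gen.smul c h1
  | comp h _ _ h1 h2 => exact Gen.comp h h1 h2

/-- The finite generation property from finiteness of the complex over the operators. -/
theorem Ops.fgc [Finite ρ] (P : 𝓒 → Prop) (hP : P one)
    (hfg : ∀ V : 𝓒, P V → ∃ (κ : Type) (_ : Finite κ) (b : κ → ℕ) (z : ∀ j, D.C (b j) V),
      (∀ j, D.d (b j) V (z j) = 0) ∧ ∀ (n : ℕ) (x : D.C n V), D.d n V x = 0 → O.Word z n x) :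
    FGC.{w} k one P := by
  refine ⟨?_, fun V hV => ?_⟩
  · obtain ⟨κ, hκ, b, z, hz, hfg⟩ := hfg one hP
    refine ⟨ρ ⊕ κ, inferInstance, Sum.elim O.deg b, fun i => match i with
      | .inl i => O.cl i
      | .inr j => D.th (b j) one (z j), fun n x => ?_⟩
    set g : ∀ i : ρ ⊕ κ, Ext.{w} one one (Sum.elim O.deg b i) := fun i => match i with
      | .inl i => O.cl i
      | .inr j => D.th (b j) one (z j) with hg
    obtain ⟨y, hy, rfl⟩ := D.th_surj n one x
    have h1 := (O.word_mem z hz (hfg n y hy)).2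
    generalize D.th n one y = x at h1 ⊢
    unfold Ops.T at h1
    induction h1 using Submodule.span_induction with
    | mem x hx =>
      obtain ⟨j, m, h, v, hv, rfl⟩ := hx
      exact Gen.comp h (gen_mono (g' := g) (fun i => Gen.gen (Sum.inl i)) hv)
        (Gen.gen (Sum.inr j))
    | zero => exact Gen.zero n
    | add x y _ _ hx hy => exact Gen.add hx hy
    | smul c x _ hx => exact Gen.smul c hx
  · obtain ⟨κ, hκ, b, z, hz, hfg⟩ := hfg V hV
    refine ⟨κ, hκ, b, fun j => D.th (b j) V (z j), fun n x => ?_⟩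
    obtain ⟨y, hy, rfl⟩ := D.th_surj n V x
    refine Submodule.span_mono ?_ (O.word_mem z hz (hfg n y hy)).2
    rintro _ ⟨j, m, h, v, _, rfl⟩
    exact ⟨j, m, h, v, rfl⟩

end Res

end Pool.Agent.DG
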