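import Pool.Agent.Work.MP_0c1793_al.Cx3

/-! # Coordinates of a finite commutative group -/

set_option autoImplicit false

namespace Pool.Agent.Work.MP_0c1793_al

theorem exists_coord (X : Type) [AddCommGroup X] [Finite X] : Nonempty (Coord X) := by
  obtain ⟨ι, hι, p, hp, e, ⟨φ⟩⟩ := AddCommGroup.equiv_directSum_zmod_of_finite X
  classical
  let ε : Fin (Fintype.card ι) ≃ ι := (Fintype.equivFin ι).symm
  let ψ : (∀ l : Fin (Fintype.card ι), ZMod (p (ε l) ^ e (ε l))) ≃+ (∀ i, ZMod (p i ^ e i)) :=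
    { Equiv.piCongrLeft (fun i => ZMod (p i ^ e i)) ε with
      map_add' := fun f g => by
        ext i
        obtain ⟨l, rfl⟩ := ε.surjective i
        simp [Equiv.piCongrLeft_apply_apply] }
  exact ⟨⟨Fintype.card ι, fun l => p (ε l) ^ e (ε l),
    fun l => ⟨pow_ne_zero _ (hp (ε l)).ne_zero⟩,
    (ψ.trans (DirectSum.addEquivProd (fun i => ZMod (p i ^ e i))).symm).trans φ.symm⟩⟩

end Pool.Agent.Work.MP_0c1793_al
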