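import Pool.Agent.Work.MP_0c1793_al.Ops

/-! # The functorial complex: definitions and operator identities -/

set_option autoImplicit false

universe u v

open MvPolynomial TensorProduct

namespace Pool.Agent.Work.MP_0c1793_al

variable {k : Type u} [Field k] {X : Type} [AddCommGroup X] [Fintype X] [DecidableEq X]

section Poly

variable (G : HCData k X)

/-- the polynomial variables: `inl i` is dual to `x i`, `inr j` is dual to `xi j` -/
abbrev Pol (G : HCData k X) : Type u := MvPolynomial (Fin G.m ⊕ Fin G.m) k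

/-- the variable dual to `x i` -/
noncomputable abbrev vy (i : Fin G.m) : Pol G := MvPolynomial.X (Sum.inl i)

/-- the variable dual to `xi j` -/
noncomputable abbrev vz (j : Fin G.m) : Pol G := MvPolynomial.X (Sum.inr j)

/-- the action of `s μ` on polynomials -/
noncomputable def trans (μ : X) : Pol G →ₐ[k] Pol G :=
  aeval (Sum.elim (fun i => vy G i) (fun j => vz G j + ∑ i, G.c i j μ • vy G i))

@[simp] theorem trans_y (μ : X) (i : Fin G.m) : trans G μ (vy G i) = vy G i := by
  simp [trans, vy]

@[simp] theorem trans_z (μ : X) (j : Fin G.m) :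
    trans G μ (vz G j) = vz G j + ∑ i, G.c i j μ • vy G i := by
  simp [trans, vz]

theorem trans_zero : trans G 0 = AlgHom.id k (Pol G) := by
  apply MvPolynomial.algHom_ext
  rintro (i | j)
  · exact trans_y G 0 i
  · refine (trans_z G 0 j).trans ?_
    simp

theorem trans_add (μ μ' : X) : trans G (μ + μ') = (trans G μ).comp (trans G μ') := by
  apply MvPolynomial.algHom_ext
  rintro (i | j)
  · rw [AlgHom.comp_apply, trans_y, trans_y, trans_y]
  · rw [AlgHom.comp_apply, trans_z, trans_z, map_add, trans_z, map_sum]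
    simp only [map_smul, trans_y, map_add, add_smul, Finset.sum_add_distrib]
    ring

theorem trans_wt (i : Fin G.m) : trans G (G.wt i) = AlgHom.id k (Pol G) := by
  apply MvPolynomial.algHom_ext
  rintro (i | j)
  · exact trans_y G _ i
  · refine (trans_z G _ j).trans ?_
    simp [G.jac]

theorem trans_neg_wt (i : Fin G.m) : trans G (-G.wt i) = AlgHom.id k (Pol G) := by
  have h := trans_add G (-G.wt i) (G.wt i)
  rw [neg_add_cancel, trans_zero, trans_wt] at h
  exact h.symm

/-- the quadratic polynomials `∑_{wt i = λ} y_i Z_i` -/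
noncomputable def Fq (l : X) : Pol G := ∑ i, if G.wt i = l then vy G i * vz G i else 0

/-- the invariant quadratic polynomials -/
noncomputable def Eq (l : X) : Pol G := Fq G l - Fq G (-l)

theorem trans_Eq (μ l : X) : trans G μ (Eq G l) = Eq G l := by
  have hF : ∀ l : X, trans G μ (Fq G l) = Fq G l +
      ∑ i, ∑ j, if G.wt i = l ∧ G.wt j = -l then G.c i j μ • (vy G i * vy G j) else 0 := by
    intro l
    unfold Fq
    rw [map_sum, ← Finset.sum_add_distrib]
    refine Finset.sum_congr rfl fun i _ => ?_
    by_cases h : G.wt i = l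
    · simp only [h, true_and, if_true]
      rw [map_mul, trans_y, trans_z, mul_add, Finset.mul_sum]
      congr 1
      refine Finset.sum_congr rfl fun j _ => ?_
      rw [mul_smul_comm, G.symm j i]
      by_cases h' : G.wt j = -l
      · rw [if_pos h']
      · rw [if_neg h']
        have : G.c i j = 0 := by
          by_contra hne
          apply h'
          have := G.inv i j hne
          rw [h] at this
          exact (neg_eq_of_add_eq_zero_right this).symm
        rw [this]
        simp
    · simp [h]
  unfold Eq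
  rw [map_sub, hF, hF]
  have hsym : (∑ i, ∑ j, if G.wt i = -l ∧ G.wt j = - -l then G.c i j μ • (vy G i * vy G j) else 0)
      = ∑ i, ∑ j, if G.wt i = l ∧ G.wt j = -l then G.c i j μ • (vy G i * vy G j) else 0 := by
    rw [Finset.sum_comm]
    refine Finset.sum_congr rfl fun i _ => Finset.sum_congr rfl fun j _ => ?_
    rw [neg_neg, G.symm j i, mul_comm (vy G j)]
    by_cases h1 : G.wt i = l <;> by_cases h2 : G.wt j = -l <;> simp [h1, h2]
  rw [hsym]
  ring

/-- `E_λ = 0` unless `λ` is a weight or the negative of a weight -/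
theorem Eq_zero {l : X} (h : ∀ i, G.wt i ≠ l) (h' : ∀ i, G.wt i ≠ -l) : Eq G l = 0 := by
  unfold Eq Fq
  simp [h, h']

end Poly

/-! ## Operators on `M ⊗ S` -/

section WOps

variable (G : HCData k X) (M : Type v) [AddCommGroup M] [Module k M] [Module (Dbl G) M]
  [IsScalarTower k (Dbl G) M]

/-- the coefficient module -/
abbrev W (G : HCData k X) (M : Type v) [AddCommGroup M] [Module k M] : Type _ := M ⊗[k] Pol G

/-- the action of the algebra on the first factor -/
noncomputable def act : Dbl G →ₐ[k] Module.End k (W G M) :=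
  (Module.endTensorEndAlgHom (R := k) (S := k) (A := k) (M := M) (N := Pol G)).comp
    (Algebra.TensorProduct.includeLeft.comp (Algebra.lsmul k k M))

/-- multiplication by a polynomial -/
noncomputable def mu : Pol G →ₐ[k] Module.End k (W G M) :=
  (Module.endTensorEndAlgHom (R := k) (S := k) (A := k) (M := M) (N := Pol G)).comp
    (Algebra.TensorProduct.includeRight.comp (Algebra.lmul k (Pol G)))

/-- the action of `s μ` on the second factor -/
noncomputable def tr (μ : X) : Module.End k (W G M) :=
  Module.endTensorEndAlgHom (R := k) (S := k) (A := k) (M := M) (N := Pol G)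
    ((1 : Module.End k M) ⊗ₜ[k] ((trans G μ).toLinearMap : Module.End k (Pol G)))

variable {G M}

@[simp] theorem act_tmul (a : Dbl G) (m : M) (f : Pol G) :
    act G M a (m ⊗ₜ[k] f) = (a • m) ⊗ₜ[k] f := rfl

@[simp] theorem mu_tmul (g : Pol G) (m : M) (f : Pol G) :
    mu G M g (m ⊗ₜ[k] f) = m ⊗ₜ[k] (g * f) := rfl

omit [Module (Dbl G) M] [IsScalarTower k (Dbl G) M] in
@[simp] theorem tr_tmul (μ : X) (m : M) (f : Pol G) :
    tr G M μ (m ⊗ₜ[k] f) = m ⊗ₜ[k] (trans G μ f) := rfl

theorem end_ext {a b : Module.End k (W G M)} (h : ∀ (m : M) (f : Pol G),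
    a (m ⊗ₜ[k] f) = b (m ⊗ₜ[k] f)) : a = b := TensorProduct.ext' h

theorem act_mu (a : Dbl G) (g : Pol G) : act G M a * mu G M g = mu G M g * act G M a :=
  end_ext fun _ _ => rfl

theorem act_tr (a : Dbl G) (μ : X) : act G M a * tr G M μ = tr G M μ * act G M a :=
  end_ext fun _ _ => rfl

theorem tr_mu (μ : X) (g : Pol G) : tr G M μ * mu G M g = mu G M (trans G μ g) * tr G M μ := by
  refine end_ext fun m f => ?_
  show m ⊗ₜ[k] (trans G μ (g * f)) = m ⊗ₜ[k] (trans G μ g * trans G μ f)
  rw [map_mul]

theorem tr_add (μ μ' : X) : tr G M (μ + μ') = tr G M μ * tr G M μ' := by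
  refine end_ext fun m f => ?_
  show m ⊗ₜ[k] (trans G (μ + μ') f) = m ⊗ₜ[k] (trans G μ (trans G μ' f))
  rw [trans_add]
  rfl

theorem tr_zero : tr G M 0 = 1 := by
  refine end_ext fun m f => ?_
  show m ⊗ₜ[k] (trans G 0 f) = m ⊗ₜ[k] f
  rw [trans_zero]
  rfl

variable (G M)

/-- the diagonal action of `X` -/
noncomputable def rhoHom : Multiplicative X →* Module.End k (W G M) where
  toFun μ := act G M ((gen G).s μ.toAdd) * tr G M μ.toAdd
  map_one' := by
    show act G M ((gen G).s 0) * tr G M 0 = 1
    rw [tr_zero, (gen G).s_zero, map_one, mul_one]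
  map_mul' μ μ' := by
    show act G M ((gen G).s (μ.toAdd + μ'.toAdd)) * tr G M (μ.toAdd + μ'.toAdd) = _
    rw [tr_add, ← (gen G).s_add, map_mul]
    rw [mul_assoc, mul_assoc, ← mul_assoc (act G M ((gen G).s μ'.toAdd)),
      act_tr ((gen G).s μ'.toAdd), mul_assoc]

/-- the diagonal action of `k[X]` -/
noncomputable def rho : AddMonoidAlgebra k X →ₐ[k] Module.End k (W G M) :=
  AddMonoidAlgebra.lift k _ X (rhoHom G M)

variable {G M}

theorem rho_single (μ : X) (r : k) : rho G M (AddMonoidAlgebra.single μ r) =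
    r • (act G M ((gen G).s μ) * tr G M μ) := by
  rw [rho, AddMonoidAlgebra.lift_single]
  rfl

/-- an operator which commutes with all `rho μ` commutes with `rho b` -/
theorem rho_comm {T : Module.End k (W G M)}
    (h : ∀ μ, T * (act G M ((gen G).s μ) * tr G M μ) = (act G M ((gen G).s μ) * tr G M μ) * T)
    (b : AddMonoidAlgebra k X) : T * rho G M b = rho G M b * T := by
  induction b using AddMonoidAlgebra.induction_linear with
  | zero => rw [map_zero, mul_zero, zero_mul]
  | add f g hf hg => rw [map_add, mul_add, add_mul, hf, hg]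
  | single μ r => rw [rho_single, mul_smul_comm, smul_mul_assoc, h]

theorem rho_rho (b b' : AddMonoidAlgebra k X) :
    rho G M b * rho G M b' = rho G M b' * rho G M b := by
  rw [← map_mul, ← map_mul, mul_comm]

/-- invariant polynomials commute with the diagonal action -/
theorem rho_mu (b : AddMonoidAlgebra k X) (g : Pol G) (hg : ∀ μ, trans G μ g = g) :
    mu G M g * rho G M b = rho G M b * mu G M g := by
  refine rho_comm (fun μ => ?_) b
  rw [← mul_assoc, ← act_mu, mul_assoc, mul_assoc, tr_mu, hg]

variable (G M)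

/-- the part `∑ x_i y_i + ∑ xi_j Z_j` of the differential -/
noncomputable def D0 : Module.End k (W G M) :=
  ∑ i, act G M ((gen G).x i) * mu G M (vy G i) + ∑ j, act G M ((gen G).xi j) * mu G M (vz G j)

variable {G M}

theorem D0_mu (g : Pol G) : D0 G M * mu G M g = mu G M g * D0 G M := by
  unfold D0
  rw [add_mul, mul_add, Finset.sum_mul, Finset.sum_mul, Finset.mul_sum, Finset.mul_sum]
  congr 1
  · refine Finset.sum_congr rfl fun i _ => ?_
    rw [mul_assoc, ← map_mul, mul_comm (vy G i), map_mul, ← mul_assoc, act_mu, mul_assoc]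
  · refine Finset.sum_congr rfl fun i _ => ?_
    rw [mul_assoc, ← map_mul, mul_comm (vz G i), map_mul, ← mul_assoc, act_mu, mul_assoc]

theorem D0_rho' (μ : X) : D0 G M * (act G M ((gen G).s μ) * tr G M μ) =
    (act G M ((gen G).s μ) * tr G M μ) * D0 G M := by
  have hx : ∀ i, act G M ((gen G).x i) * mu G M (vy G i) * (act G M ((gen G).s μ) * tr G M μ) =
      act G M ((gen G).s μ * (gen G).x i) * mu G M (vy G i) * tr G M μ +
      ∑ j, G.c i j μ • (act G M ((gen G).s μ * (gen G).xi j) * mu G M (vy G i) * tr G M μ) := by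
    intro i
    have h1 : (gen G).x i * (gen G).s μ = (gen G).s μ * (gen G).x i +
        ∑ j, G.c i j μ • ((gen G).s μ * (gen G).xi j) := by
      have := (gen G).x_s i μ
      rw [Finset.mul_sum] at this
      simp only [mul_smul_comm] at this
      rw [← this]
      abel
    rw [mul_assoc, ← mul_assoc (mu G M (vy G i)), ← act_mu, ← mul_assoc, ← mul_assoc, ← map_mul,
      h1, map_add, map_sum, add_mul, add_mul, Finset.sum_mul, Finset.sum_mul]
    simp only [map_smul, smul_mul_assoc]
  have hxi : ∀ j, act G M ((gen G).xi j) * mu G M (vz G j) *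
      (act G M ((gen G).s μ) * tr G M μ) =
      act G M ((gen G).s μ * (gen G).xi j) * mu G M (vz G j) * tr G M μ := by
    intro j
    rw [mul_assoc, ← mul_assoc (mu G M (vz G j)), ← act_mu, ← mul_assoc, ← mul_assoc, ← map_mul,
      (gen G).xi_s]
  have hx' : ∀ i, (act G M ((gen G).s μ) * tr G M μ) *
      (act G M ((gen G).x i) * mu G M (vy G i)) =
      act G M ((gen G).s μ * (gen G).x i) * mu G M (vy G i) * tr G M μ := by
    intro i
    rw [mul_assoc, ← mul_assoc (tr G M μ), ← act_tr, mul_assoc, tr_mu, trans_y, ← mul_assoc,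
      ← mul_assoc, ← map_mul, mul_assoc]
  have hxi' : ∀ j, (act G M ((gen G).s μ) * tr G M μ) *
      (act G M ((gen G).xi j) * mu G M (vz G j)) =
      act G M ((gen G).s μ * (gen G).xi j) * mu G M (vz G j) * tr G M μ +
      ∑ i, G.c i j μ • (act G M ((gen G).s μ * (gen G).xi j) * mu G M (vy G i) * tr G M μ) := by
    intro j
    rw [mul_assoc, ← mul_assoc (tr G M μ), ← act_tr, mul_assoc, tr_mu, trans_z, ← mul_assoc,
      ← mul_assoc, ← map_mul, map_add, map_sum, mul_add, add_mul, Finset.mul_sum,
      Finset.sum_mul]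
    simp only [map_smul, smul_mul_assoc, mul_smul_comm]
  unfold D0
  rw [add_mul, mul_add, Finset.sum_mul, Finset.sum_mul, Finset.mul_sum, Finset.mul_sum]
  rw [Finset.sum_congr rfl fun i _ => hx i, Finset.sum_congr rfl fun j _ => hxi j,
    Finset.sum_congr rfl fun i _ => hx' i, Finset.sum_congr rfl fun j _ => hxi' j,
    Finset.sum_add_distrib, Finset.sum_add_distrib]
  rw [Finset.sum_comm (f := fun i j => G.c i j μ •
    (act G M ((gen G).s μ * (gen G).xi j) * mu G M (vy G i) * tr G M μ))]
  abel

theorem D0_rho (b : AddMonoidAlgebra k X) : D0 G M * rho G M b = rho G M b * D0 G M :=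
  rho_comm D0_rho' b

end WOps

end Pool.Agent.Work.MP_0c1793_al
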