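import Pool.Agent.Work.MP_0c1793_al.StageS

/-!
# The induction over the polynomial variables
-/

namespace Pool.Agent.DG

open Finsupp TensorProduct

section S

variable (k : Type*) [CommRing k] {σ : Type*}

open Classical in
/-- the variables in `T` are put to zero -/
noncomputable def sT (T : Set σ) : MvPolynomial σ k →ₐ[k] MvPolynomial σ k :=
  MvPolynomial.aeval fun u => if u ∈ T then 0 else MvPolynomial.X u

/-- multiplication by a variable -/
noncomputable def mX (u : σ) : MvPolynomial σ k →ₗ[k] MvPolynomial σ k :=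
  LinearMap.mulLeft k (MvPolynomial.X u)

/-- division by a variable -/
noncomputable def dX (u : σ) : MvPolynomial σ k →ₗ[k] MvPolynomial σ k where
  toFun p := p.divMonomial (single u 1)
  map_add' p q := MvPolynomial.add_divMonomial _ _ _
  map_smul' c p := by
    ext s
    rw [MvPolynomial.coeff_divMonomial, RingHom.id_apply, MvPolynomial.coeff_smul,
      MvPolynomial.coeff_smul, MvPolynomial.coeff_divMonomial]

variable {k}

open Classical in
theorem sT_monomial (T : Set σ) (a : σ →₀ ℕ) (c : k) : sT k T (MvPolynomial.monomial a c) =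
    if ∀ u ∈ T, a u = 0 then MvPolynomial.monomial a c else 0 := by
  unfold sT
  rw [MvPolynomial.aeval_monomial]
  split_ifs with h
  · rw [MvPolynomial.monomial_eq]
    congr 1
    refine Finset.prod_congr rfl fun u hu => ?_
    show (if u ∈ T then 0 else MvPolynomial.X u) ^ (a u) = MvPolynomial.X u ^ (a u)
    rw [if_neg (fun h1 => (Finsupp.mem_support_iff.1 hu) (h u h1))]
  · push Not at h
    obtain ⟨u, hu, hau⟩ := h
    rw [Finsupp.prod, Finset.prod_eq_zero (Finsupp.mem_support_iff.2 hau), mul_zero]
    show (if u ∈ T then 0 else MvPolynomial.X u) ^ (a u) = (0 : MvPolynomial σ k)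
    rw [if_pos hu, zero_pow hau]

theorem sT_X_mem {T : Set σ} {u : σ} (h : u ∈ T) : sT k T (MvPolynomial.X u) = 0 := by
  unfold sT
  rw [MvPolynomial.aeval_X, if_pos h]

theorem sT_X_notMem {T : Set σ} {u : σ} (h : u ∉ T) :
    sT k T (MvPolynomial.X u) = MvPolynomial.X u := by
  unfold sT
  rw [MvPolynomial.aeval_X, if_neg h]

theorem sT_sT (T T' : Set σ) (p : MvPolynomial σ k) : sT k T (sT k T' p) = sT k (T ∪ T') p := by
  have : (sT k T).comp (sT k T') = sT k (T ∪ T') := by
    refine MvPolynomial.algHom_ext fun u => ?_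
    rw [AlgHom.comp_apply]
    by_cases h' : u ∈ T'
    · rw [sT_X_mem h', map_zero, sT_X_mem (Set.mem_union_right T h')]
    · rw [sT_X_notMem h']
      by_cases h : u ∈ T
      · rw [sT_X_mem h, sT_X_mem (Set.mem_union_left T' h)]
      · rw [sT_X_notMem h, sT_X_notMem (by rintro (h1 | h1) <;> contradiction)]
  exact DFunLike.congr_fun this p

theorem sT_empty (p : MvPolynomial σ k) : sT k ∅ p = p := by
  have : sT k (∅ : Set σ) = AlgHom.id k _ := by
    refine MvPolynomial.algHom_ext fun u => ?_
    rw [sT_X_notMem (Set.notMem_empty u)]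
    rfl
  rw [this]
  rfl

theorem sT_univ (p : MvPolynomial σ k) :
    sT k Set.univ p = MvPolynomial.constantCoeff p • (1 : MvPolynomial σ k) := by
  classical
  induction p using MvPolynomial.induction_on' with
  | monomial a c =>
    rw [sT_monomial, MvPolynomial.constantCoeff_monomial]
    by_cases h : a = 0
    · subst h
      rw [if_pos (fun u _ => Finsupp.zero_apply), if_pos rfl, MvPolynomial.smul_eq_C_mul, mul_one]
      rfl
    · rw [if_neg (fun h1 => h (Finsupp.ext fun u => h1 u (Set.mem_univ u))), if_neg h, zero_smul]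
  | add p q hp hq => rw [map_add, hp, hq, map_add, add_smul]

theorem sT_mX {T : Set σ} {u : σ} (h : u ∉ T) (p : MvPolynomial σ k) :
    sT k T (mX k u p) = mX k u (sT k T p) := by
  unfold mX
  rw [LinearMap.mulLeft_apply, LinearMap.mulLeft_apply, map_mul, sT_X_notMem h]

theorem dX_mX (u : σ) (p : MvPolynomial σ k) : dX k u (mX k u p) = p :=
  MvPolynomial.X_mul_divMonomial u p

theorem mX_dX_add (u : σ) (p : MvPolynomial σ k) : mX k u (dX k u p) + sT k {u} p = p := by
  classical
  induction p using MvPolynomial.induction_on' with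
  | monomial a c =>
    rw [sT_monomial]
    by_cases h : a u = 0
    · have h1 : dX k u (MvPolynomial.monomial a c) = 0 := by
        ext s
        show MvPolynomial.coeff s ((MvPolynomial.monomial a c).divMonomial (single u 1)) = _
        rw [MvPolynomial.coeff_divMonomial, MvPolynomial.coeff_monomial, if_neg,
          MvPolynomial.coeff_zero]
        intro h2
        have := DFunLike.congr_fun h2 u
        rw [Finsupp.add_apply, Finsupp.single_eq_same] at this
        omega
      rw [h1, map_zero, zero_add, if_pos]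
      intro v hv
      rw [Set.mem_singleton_iff.1 hv, h]
    · rw [if_neg (fun h1 => h (h1 u rfl)), add_zero]
      obtain ⟨b, rfl⟩ : ∃ b, a = b + single u 1 :=
        ⟨a - single u 1, (tsub_add_cancel_of_le
          (Finsupp.single_le_iff.2 (Nat.one_le_iff_ne_zero.2 h))).symm⟩
      have h1 : MvPolynomial.monomial (b + single u 1) c = mX k u (MvPolynomial.monomial b c) := by
        unfold mX
        rw [LinearMap.mulLeft_apply, MvPolynomial.X, MvPolynomial.monomial_mul, one_mul, add_comm]
      rw [h1, dX_mX]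
  | add p q hp hq =>
    rw [map_add, map_add, map_add]
    nth_rewrite 3 [← hp]
    nth_rewrite 3 [← hq]
    abel

theorem hom_sT (T : Set σ) {d : ℕ} {p : MvPolynomial σ k} (hp : p.IsHomogeneous d) :
    (sT k T p).IsHomogeneous d := by
  classical
  unfold sT
  have := hp.aeval (fun u => if u ∈ T then (0 : MvPolynomial σ k) else MvPolynomial.X u) (n := 1)
    (fun u => by
      split_ifs
      · exact MvPolynomial.isHomogeneous_zero _ _ _
      · exact MvPolynomial.isHomogeneous_X _ _)
  rwa [one_mul] at this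

theorem hom_mX (u : σ) {d : ℕ} {p : MvPolynomial σ k} (hp : p.IsHomogeneous d) :
    (mX k u p).IsHomogeneous (d + 1) := by
  rw [add_comm]
  exact (MvPolynomial.isHomogeneous_X k u).mul hp

theorem hom_dX (u : σ) {d : ℕ} {p : MvPolynomial σ k} (hp : p.IsHomogeneous (d + 1)) :
    (dX k u p).IsHomogeneous d := by
  intro s hs
  have h1 : MvPolynomial.coeff (single u 1 + s) p ≠ 0 := by
    rwa [← MvPolynomial.coeff_divMonomial]
  have h2 := hp h1
  rw [map_add] at h2
  rw [Finsupp.weight_single] at h2
  simp only [Pi.one_apply, smul_eq_mul, mul_one] at h2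
  omega

theorem hom_zero {p : MvPolynomial σ k} (hp : p.IsHomogeneous 0) :
    ∃ c : k, p = c • (1 : MvPolynomial σ k) := by
  obtain ⟨c, hc⟩ : ∃ c, p = MvPolynomial.C c := ⟨MvPolynomial.coeff 0 p, by
    have := MvPolynomial.totalDegree_eq_zero_iff_eq_C.1 (Nat.le_zero.1 hp.totalDegree_le)
    exact this⟩
  exact ⟨c, by rw [hc, MvPolynomial.smul_eq_C_mul, mul_one]⟩

theorem dX_hom_zero (u : σ) {p : MvPolynomial σ k} (hp : p.IsHomogeneous 0) : dX k u p = 0 := by
  classical
  obtain ⟨c, rfl⟩ := hom_zero hp
  have h1 : dX k u (1 : MvPolynomial σ k) = 0 := by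
    ext s
    show MvPolynomial.coeff s ((1 : MvPolynomial σ k).divMonomial (single u 1)) = _
    rw [MvPolynomial.coeff_divMonomial, MvPolynomial.coeff_one, if_neg, MvPolynomial.coeff_zero]
    intro h2
    have := DFunLike.congr_fun h2 u
    rw [Finsupp.add_apply, Finsupp.single_eq_same, Finsupp.zero_apply] at this
    omega
  rw [map_smul, h1, smul_zero]

theorem constCoeff_hom {d : ℕ} (hd : d ≠ 0) {p : MvPolynomial σ k} (hp : p.IsHomogeneous d) :
    MvPolynomial.constantCoeff p = 0 := by
  rw [MvPolynomial.constantCoeff_eq]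
  exact hp.coeff_eq_zero (by rw [map_zero]; exact Ne.symm hd)

end S

section C

variable (k M : Type*) [CommRing k] [AddCommGroup M] [Module k M] (σ : Type*) (r : ℕ)

/-- the terms of the complex -/
abbrev CC : Type _ := (Fin r →₀ ℕ) →₀ (M ⊗[k] MvPolynomial σ k)

/-- a linear map of the polynomial ring as an operator of the complex -/
noncomputable def cm {k : Type*} (M : Type*) [CommRing k] [AddCommGroup M] [Module k M] {σ : Type*}
    (r : ℕ) (φ : MvPolynomial σ k →ₗ[k] MvPolynomial σ k) : CC k M σ r →ₗ[k] CC k M σ r :=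
  Finsupp.mapRange.linearMap (LinearMap.lTensor M φ)

/-- the elements of total degree `n` -/
noncomputable def GrC (n : ℕ) : Submodule k (CC k M σ r) :=
  Submodule.span k {f | ∃ (a : Fin r →₀ ℕ) (d : ℕ) (m : M) (p : MvPolynomial σ k),
    a.degree + d = n ∧ p.IsHomogeneous d ∧ f = single a (m ⊗ₜ p)}

variable {k M σ r}

theorem cm_single (φ : MvPolynomial σ k →ₗ[k] MvPolynomial σ k) (a : Fin r →₀ ℕ) (m : M)
    (p : MvPolynomial σ k) : cm M r φ (single a (m ⊗ₜ p)) = single a (m ⊗ₜ φ p) := by
  unfold cm
  rw [Finsupp.mapRange.linearMap_apply, Finsupp.mapRange_single, LinearMap.lTensor_tmul]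

theorem cc_ext {N : Type*} [AddCommGroup N] [Module k N] {f g : CC k M σ r →ₗ[k] N}
    (h : ∀ a m p, f (single a (m ⊗ₜ p)) = g (single a (m ⊗ₜ p))) : f = g := by
  refine Finsupp.lhom_ext' fun a => TensorProduct.ext' fun m p => ?_
  exact h a m p

theorem single_mem_GrC {n : ℕ} {a : Fin r →₀ ℕ} {d : ℕ} (h : a.degree + d = n) (m : M)
    {p : MvPolynomial σ k} (hp : p.IsHomogeneous d) :
    (single a (m ⊗ₜ p) : CC k M σ r) ∈ GrC k M σ r n :=
  Submodule.subset_span ⟨a, d, m, p, h, hp, rfl⟩

theorem GrC_map {n : ℕ} {N : Type*} [AddCommGroup N] [Module k N] (G : Submodule k N)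
    (φ : CC k M σ r →ₗ[k] N)
    (h : ∀ (a : Fin r →₀ ℕ) (d : ℕ) (m : M) (p : MvPolynomial σ k), a.degree + d = n →
      p.IsHomogeneous d → φ (single a (m ⊗ₜ p)) ∈ G) :
    ∀ f ∈ GrC k M σ r n, φ f ∈ G := by
  intro f hf
  have : GrC k M σ r n ≤ G.comap φ := by
    refine Submodule.span_le.2 ?_
    rintro _ ⟨a, d, m, p, h1, h2, rfl⟩
    exact h a d m p h1 h2
  exact this hf

/-- the variables in `T` are put to zero -/
noncomputable abbrev piC (k M : Type*) [CommRing k] [AddCommGroup M] [Module k M] {σ : Type*}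
    (r : ℕ) (T : Set σ) : CC k M σ r →ₗ[k] CC k M σ r := cm M r (sT k T).toLinearMap

/-- multiplication by a variable -/
noncomputable abbrev vC (k M : Type*) [CommRing k] [AddCommGroup M] [Module k M] {σ : Type*}
    (r : ℕ) (u : σ) : CC k M σ r →ₗ[k] CC k M σ r := cm M r (mX k u)

/-- division by a variable -/
noncomputable abbrev dC (k M : Type*) [CommRing k] [AddCommGroup M] [Module k M] {σ : Type*}
    (r : ℕ) (u : σ) : CC k M σ r →ₗ[k] CC k M σ r := cm M r (dX k u)

theorem piC_single (T : Set σ) (a : Fin r →₀ ℕ) (m : M) (p : MvPolynomial σ k) :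
    piC k M r T (single a (m ⊗ₜ p)) = single a (m ⊗ₜ sT k T p) := cm_single _ _ _ _

theorem piC_piC (T T' : Set σ) (f : CC k M σ r) :
    piC k M r T (piC k M r T' f) = piC k M r (T ∪ T') f := by
  have : piC k M r T ∘ₗ piC k M r T' = piC k M r (T ∪ T') := by
    refine cc_ext fun a m p => ?_
    rw [LinearMap.comp_apply, piC_single, piC_single, piC_single, sT_sT]
  exact LinearMap.congr_fun this f

theorem piC_empty (f : CC k M σ r) : piC k M r (∅ : Set σ) f = f := by
  have : piC k M r (∅ : Set σ) = LinearMap.id := by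
    refine cc_ext fun a m p => ?_
    rw [piC_single, sT_empty, LinearMap.id_apply]
  exact LinearMap.congr_fun this f

theorem piC_vC {T : Set σ} {u : σ} (h : u ∉ T) (f : CC k M σ r) :
    piC k M r T (vC k M r u f) = vC k M r u (piC k M r T f) := by
  have : piC k M r T ∘ₗ vC k M r u = vC k M r u ∘ₗ piC k M r T := by
    refine cc_ext fun a m p => ?_
    rw [LinearMap.comp_apply, LinearMap.comp_apply, cm_single, cm_single, cm_single, cm_single]
    exact congrArg (fun q => single a (m ⊗ₜ[k] q)) (sT_mX h p)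
  exact LinearMap.congr_fun this f

theorem vC_dC (u : σ) (f : CC k M σ r) :
    vC k M r u (dC k M r u f) + piC k M r {u} f = f := by
  have : vC k M r u ∘ₗ dC k M r u + piC k M r {u} = LinearMap.id := by
    refine cc_ext fun a m p => ?_
    rw [LinearMap.add_apply, LinearMap.comp_apply, cm_single, cm_single, cm_single,
      LinearMap.id_apply, ← Finsupp.single_add, ← TensorProduct.tmul_add]
    exact congrArg (fun q => single a (m ⊗ₜ[k] q)) (mX_dX_add u p)
  exact LinearMap.congr_fun this f

theorem dC_vC (u : σ) (f : CC k M σ r) : dC k M r u (vC k M r u f) = f := by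
  have : dC k M r u ∘ₗ vC k M r u = LinearMap.id := by
    refine cc_ext fun a m p => ?_
    rw [LinearMap.comp_apply, cm_single, cm_single, dX_mX, LinearMap.id_apply]
  exact LinearMap.congr_fun this f

theorem gr_piC (T : Set σ) (n : ℕ) :
    ∀ f ∈ GrC k M σ r n, piC k M r T f ∈ GrC k M σ r n :=
  GrC_map _ _ fun a d m p h hp => by
    rw [piC_single]
    exact single_mem_GrC h m (hom_sT T hp)

theorem gr_vC (u : σ) (n : ℕ) :
    ∀ f ∈ GrC k M σ r n, vC k M r u f ∈ GrC k M σ r (n + 1) :=
  GrC_map _ _ fun a d m p h hp => by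
    rw [cm_single]
    exact single_mem_GrC (by omega) m (hom_mX u hp)

theorem gr_dC (u : σ) (n : ℕ) :
    ∀ f ∈ GrC k M σ r (n + 1), dC k M r u f ∈ GrC k M σ r n :=
  GrC_map _ _ fun a d m p h hp => by
    rw [cm_single]
    rcases d with _ | d
    · rw [dX_hom_zero u hp, TensorProduct.tmul_zero, Finsupp.single_zero]
      exact Submodule.zero_mem _
    · exact single_mem_GrC (by omega) m (hom_dX u hp)

/-- the coefficient -/
noncomputable def coW (k M : Type*) [CommRing k] [AddCommGroup M] [Module k M] {σ : Type*}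
    (s : σ →₀ ℕ) : M ⊗[k] MvPolynomial σ k →ₗ[k] M :=
  (TensorProduct.rid k M).toLinearMap ∘ₗ LinearMap.lTensor M (MvPolynomial.lcoeff k s)

theorem coW_tmul (s : σ →₀ ℕ) (m : M) (p : MvPolynomial σ k) :
    coW k M s (m ⊗ₜ p) = MvPolynomial.coeff s p • m := by
  unfold coW
  rw [LinearMap.comp_apply, LinearMap.lTensor_tmul, LinearEquiv.coe_coe, TensorProduct.rid_tmul]
  rfl

/-- inclusion of the constants -/
noncomputable def inc (k M : Type*) [CommRing k] [AddCommGroup M] [Module k M] (σ : Type*)
    (r : ℕ) : ((Fin r →₀ ℕ) →₀ M) →ₗ[k] CC k M σ r :=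
  Finsupp.mapRange.linearMap ((TensorProduct.mk k M (MvPolynomial σ k)).flip 1)

theorem inc_single (a : Fin r →₀ ℕ) (m : M) :
    inc k M σ r (single a m) = single a (m ⊗ₜ 1) := by
  unfold inc
  rw [Finsupp.mapRange.linearMap_apply, Finsupp.mapRange_single]
  rfl

/-- the constant coefficient -/
noncomputable def cst (k M : Type*) [CommRing k] [AddCommGroup M] [Module k M] (σ : Type*)
    (r : ℕ) : CC k M σ r →ₗ[k] ((Fin r →₀ ℕ) →₀ M) :=
  Finsupp.mapRange.linearMap (coW k M 0)

theorem cst_single (a : Fin r →₀ ℕ) (m : M) (p : MvPolynomial σ k) :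
    cst k M σ r (single a (m ⊗ₜ p)) = single a (MvPolynomial.constantCoeff p • m) := by
  unfold cst
  rw [Finsupp.mapRange.linearMap_apply, Finsupp.mapRange_single, coW_tmul,
    MvPolynomial.constantCoeff_eq]

theorem cst_inc (f : (Fin r →₀ ℕ) →₀ M) : cst k M σ r (inc k M σ r f) = f := by
  have : cst k M σ r ∘ₗ inc k M σ r = LinearMap.id := by
    refine Finsupp.lhom_ext fun a m => ?_
    rw [LinearMap.comp_apply, inc_single, cst_single, map_one, one_smul, LinearMap.id_apply]
  exact LinearMap.congr_fun this f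

theorem inc_cst (f : CC k M σ r) :
    inc k M σ r (cst k M σ r f) = piC k M r (Set.univ : Set σ) f := by
  have : inc k M σ r ∘ₗ cst k M σ r = piC k M r (Set.univ : Set σ) := by
    refine cc_ext fun a m p => ?_
    rw [LinearMap.comp_apply, cst_single, inc_single, piC_single, sT_univ,
      TensorProduct.smul_tmul]
  exact LinearMap.congr_fun this f

theorem gr_cst (n : ℕ) : ∀ f ∈ GrC k M σ r n, cst k M σ r f ∈ gr k M r n :=
  GrC_map _ _ fun a d m p h hp => by
    rw [cst_single]
    rcases Nat.eq_zero_or_pos d with rfl | hd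
    · exact single_mem_gr h _
    · rw [constCoeff_hom hd.ne' hp, zero_smul, Finsupp.single_zero]
      exact Submodule.zero_mem _

theorem gr_inc (n : ℕ) : ∀ f ∈ gr k M r n, inc k M σ r f ∈ GrC k M σ r n := by
  intro f hf
  rw [← Finsupp.sum_single f, Finsupp.sum, map_sum]
  refine Submodule.sum_mem _ fun a ha => ?_
  rw [inc_single]
  exact single_mem_GrC (d := 0) ((Finsupp.mem_supported k f).1 hf ha) _
    (MvPolynomial.isHomogeneous_one _ _)

theorem GrC_zero {f : CC k M σ r} (hf : f ∈ GrC k M σ r 0) :
    ∃ w : M, f = single 0 (w ⊗ₜ 1) := by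
  unfold GrC at hf
  induction hf using Submodule.span_induction with
  | mem f hf =>
    obtain ⟨a, d, m, p, h, hp, rfl⟩ := hf
    have hd : d = 0 := by omega
    have ha : a = 0 := (Finsupp.degree_eq_zero_iff a).1 (by omega)
    subst hd ha
    obtain ⟨c, rfl⟩ := hom_zero hp
    exact ⟨c • m, by rw [TensorProduct.smul_tmul]⟩
  | zero => exact ⟨0, by rw [TensorProduct.zero_tmul, Finsupp.single_zero]⟩
  | add f g _ _ hf hg =>
    obtain ⟨w, rfl⟩ := hf
    obtain ⟨w', rfl⟩ := hg
    exact ⟨w + w', by rw [TensorProduct.add_tmul, Finsupp.single_add]⟩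
  | smul c f _ hf =>
    obtain ⟨w, rfl⟩ := hf
    exact ⟨c • w, by rw [← TensorProduct.smul_tmul', Finsupp.smul_single]⟩

/-- The data of the complex: a differential `D` on `M ⊗ k[X_u] ⊗ (divided powers)`. -/
structure VarCx [Fintype σ] (op : σ → M →ₗ[k] M) (P N : Fin r → M →ₗ[k] M) (idx : σ → ℕ)
    (D : CC k M σ r →ₗ[k] CC k M σ r) : Prop where
  DD : ∀ f, D (D f) = 0
  gr : ∀ n, ∀ f ∈ GrC k M σ r n, D f ∈ GrC k M σ r (n + 1)
  ideal : ∀ n f, piC k M r {u | n ≤ idx u} (D (piC k M r {u | n ≤ idx u} f)) =
    piC k M r {u | n ≤ idx u} (D f)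
  comm : ∀ u f, piC k M r {u' | idx u + 1 ≤ idx u'} (D (vC k M r u f)) =
    piC k M r {u' | idx u + 1 ≤ idx u'} (vC k M r u (D f))
  one : ∀ w : M, D (single 0 (w ⊗ₜ 1)) = ∑ u, single 0 (op u w ⊗ₜ MvPolynomial.X u) +
    ∑ l, single (ev l) (P l w ⊗ₜ 1)
  base : ∀ f, piC k M r (Set.univ : Set σ) (D (inc k M σ r f)) = inc k M σ r (dd P N 0 f)

/-- the divisibility conditions -/
def DivC (op : σ → M →ₗ[k] M) (P : Fin r → M →ₗ[k] M) (idx : σ → ℕ) : Prop :=
  ∀ (u : σ) (w : M), (∀ u', idx u' ≤ idx u → op u' w = 0) → (∀ l, P l w = 0) →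
    ∃ b, op u b = w ∧ (∀ u', idx u' < idx u → op u' b = 0) ∧ ∀ l, P l b = 0

theorem VarCx.shift [Fintype σ] {op : σ → M →ₗ[k] M} {P N : Fin r → M →ₗ[k] M} {idx : σ → ℕ}
    {D : CC k M σ r →ₗ[k] CC k M σ r} (h : VarCx op P N idx D) (hidx : Function.Injective idx)
    (hdiv : DivC op P idx) (u : σ) :
    Shift (GrC k M σ r) (piC k M r {u' | idx u + 1 ≤ idx u'}) (piC k M r {u}) (vC k M r u)
      (dC k M r u) D D where
  FF f := by rw [piC_piC, Set.union_self]
  FDF f := h.ideal _ f
  Fv f := piC_vC (by simp) f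
  vdl f := vC_dC u f
  v_inj f hf := by rw [← dC_vC u f, hf, map_zero]
  Dv f := h.comm u f
  DD f := by rw [h.DD, map_zero]
  gr_F := gr_piC _
  gr_v := gr_vC _
  gr_dl := gr_dC _
  gr_D := h.gr
  zero f hf hDf := by
    classical
    obtain ⟨w, rfl⟩ := GrC_zero hf
    have hF : ∀ w : M, piC k M r {u' | idx u + 1 ≤ idx u'} (D (single 0 (w ⊗ₜ 1))) =
        ∑ u', (if idx u' ≤ idx u then single 0 (op u' w ⊗ₜ MvPolynomial.X u') else 0) +
          ∑ l, single (ev l) (P l w ⊗ₜ 1) := by
      intro w
      rw [h.one, map_add, map_sum, map_sum]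
      congr 1
      · refine Finset.sum_congr rfl fun u' _ => ?_
        rw [piC_single]
        by_cases h1 : idx u' ≤ idx u
        · rw [if_pos h1, sT_X_notMem (by simp only [Set.mem_ofPred_eq]; omega)]
        · rw [if_neg h1, sT_X_mem (by simp only [Set.mem_ofPred_eq]; omega),
            TensorProduct.tmul_zero, Finsupp.single_zero]
      · refine Finset.sum_congr rfl fun l _ => ?_
        rw [piC_single, map_one]
    rw [hF] at hDf
    have h1 : ∀ u', idx u' ≤ idx u → op u' w = 0 := by
      intro u' hu'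
      have h2 := congrArg (fun g : CC k M σ r => coW k M (single u' 1) (g 0)) hDf
      simp only [Finsupp.add_apply, Finsupp.finsetSum_apply, map_add, map_sum,
        Finsupp.zero_apply, map_zero] at h2
      rw [Finset.sum_eq_single u', if_pos hu', Finsupp.single_eq_same, coW_tmul,
        MvPolynomial.coeff_X, if_pos rfl, one_smul, Finset.sum_eq_zero, add_zero] at h2
      · exact h2
      · intro l _
        rw [Finsupp.single_eq_of_ne', map_zero]
        intro h3
        have := DFunLike.congr_fun h3 l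
        rw [ev_same, Finsupp.zero_apply] at this
        exact one_ne_zero this
      · intro u'' _ hne
        split_ifs
        · rw [Finsupp.single_eq_same, coW_tmul, MvPolynomial.coeff_X, if_neg, zero_smul]
          intro h3
          have := DFunLike.congr_fun h3 u''
          rw [Finsupp.single_eq_same, Finsupp.single_eq_of_ne' hne.symm] at this
          exact one_ne_zero this
        · rw [Finsupp.zero_apply, map_zero]
      · intro h3
        exact absurd (Finset.mem_univ _) h3
    have h2 : ∀ l, P l w = 0 := by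
      intro l
      have h2 := congrArg (fun g : CC k M σ r => coW k M 0 (g (ev l))) hDf
      simp only [Finsupp.add_apply, Finsupp.finsetSum_apply, map_add, map_sum,
        Finsupp.zero_apply, map_zero] at h2
      rw [Finset.sum_eq_zero, zero_add, Finset.sum_eq_single l, Finsupp.single_eq_same,
        coW_tmul, MvPolynomial.coeff_zero_one, one_smul] at h2
      · exact h2
      · intro l' _ hne
        rw [Finsupp.single_eq_of_ne', map_zero]
        intro h3
        have := DFunLike.congr_fun h3 l'
        rw [ev_same, ev_ne hne.symm] at this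
        exact one_ne_zero this
      · intro h3
        exact absurd (Finset.mem_univ _) h3
      · intro u' _
        split_ifs
        · rw [Finsupp.single_eq_of_ne', map_zero]
          intro h3
          have := DFunLike.congr_fun h3 l
          rw [ev_same, Finsupp.zero_apply] at this
          exact zero_ne_one this
        · rw [Finsupp.zero_apply, map_zero]
    obtain ⟨b, hb1, hb2, hb3⟩ := hdiv u w h1 h2
    refine ⟨single 0 (b ⊗ₜ 1), single_mem_GrC (d := 0) (by rw [map_zero]) _
      (MvPolynomial.isHomogeneous_one _ _), ?_⟩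
    rw [map_sub, hF, piC_vC (by simp), piC_single, cm_single, map_one]
    have e1 : mX k u (1 : MvPolynomial σ k) = MvPolynomial.X u := by
      unfold mX
      rw [LinearMap.mulLeft_apply, mul_one]
    rw [e1, Finset.sum_eq_single u, if_pos le_rfl, hb1, Finset.sum_eq_zero, add_zero, sub_self]
    · intro l _
      rw [hb3, TensorProduct.zero_tmul, Finsupp.single_zero]
    · intro u' _ hne
      split_ifs with h3
      · rw [hb2 u' (lt_of_le_of_ne h3 (fun h4 => hne (hidx h4))), TensorProduct.zero_tmul,
          Finsupp.single_zero]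
      · rfl
    · intro h3
      exact absurd (Finset.mem_univ _) h3

/-- The complex is acyclic in positive degrees. -/
theorem VarCx.acyclic [Fintype σ] {op : σ → M →ₗ[k] M} {P N : Fin r → M →ₗ[k] M} {idx : σ → ℕ}
    {D : CC k M σ r →ₗ[k] CC k M σ r} (h : VarCx op P N idx D) (hidx : Function.Injective idx)
    (hdiv : DivC op P idx) (hc : Comm P N) (hDS : DS P N) (n : ℕ) (f : CC k M σ r)
    (hf : f ∈ GrC k M σ r (n + 1)) (hDf : D f = 0) : ∃ g ∈ GrC k M σ r n, D g = f := by
  have key : ∀ j, Ac (GrC k M σ r) (piC k M r {u | j ≤ idx u}) D := by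
    intro j
    induction j with
    | zero =>
      have hu : {u : σ | 0 ≤ idx u} = Set.univ := Set.eq_univ_of_forall fun u => Nat.zero_le _
      rw [hu]
      intro n f hf hDf
      have h1 := h.ideal 0 f
      rw [hu] at h1
      rw [← inc_cst f] at h1
      rw [h.base, hDf] at h1
      have h2 : dd P N 0 (cst k M σ r f) = 0 := by
        rw [← cst_inc (k := k) (σ := σ) (dd P N 0 (cst k M σ r f)), h1, map_zero]
      obtain ⟨g, hg, hg'⟩ := dd_acyclic hc hDS 0 n _ (gr_cst _ f hf) h2
      refine ⟨inc k M σ r g, gr_inc _ g hg, ?_⟩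
      rw [map_sub, ← inc_cst f, h.base, hg', sub_self]
    | succ j ih =>
      by_cases hj : ∃ u, idx u = j
      · obtain ⟨u, rfl⟩ := hj
        refine (h.shift hidx hdiv u).ac_self ?_
        have : piC k M r {u} ∘ₗ piC k M r {u' | idx u + 1 ≤ idx u'} =
            piC k M r {u' | idx u ≤ idx u'} := by
          refine LinearMap.ext fun f => ?_
          rw [LinearMap.comp_apply, piC_piC]
          congr 2
          ext u'
          simp only [Set.mem_union, Set.mem_singleton_iff, Set.mem_ofPred_eq]
          constructor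
          · rintro (rfl | h1)
            · exact le_rfl
            · omega
          · intro h1
            rcases Nat.eq_or_lt_of_le h1 with h2 | h2
            · exact Or.inl (hidx h2.symm)
            · exact Or.inr h2
        rw [this]
        exact ih
      · have : {u | j + 1 ≤ idx u} = {u | j ≤ idx u} := by
          ext u
          simp only [Set.mem_ofPred_eq]
          constructor
          · intro h1
            omega
          · intro h1
            rcases Nat.eq_or_lt_of_le h1 with h2 | h2
            · exact absurd ⟨u, h2.symm⟩ hj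
            · exact h2
        rw [this]
        exact ih
  obtain ⟨B, hB⟩ : ∃ B, ∀ u, idx u < B :=
    ⟨(∑ u, idx u) + 1, fun u => Nat.lt_succ_of_le
      (Finset.single_le_sum (f := idx) (fun _ _ => Nat.zero_le _) (Finset.mem_univ u))⟩
  have hB' : {u | B ≤ idx u} = ∅ := by
    ext u
    simp only [Set.mem_ofPred_eq, Set.mem_empty_iff_false, iff_false, not_le]
    exact hB u
  obtain ⟨g, hg, hg'⟩ := key B n f hf (by rw [hDf, map_zero])
  rw [hB', piC_empty, sub_eq_zero] at hg'
  exact ⟨g, hg, hg'.symm⟩

end C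

end Pool.Agent.DG
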