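import Pool.Agent.Work.MP_0c1793_al.StageS

/-! # The total differential: abstract part -/

set_option autoImplicit false

namespace Pool.Agent.DG

open Finsupp

variable {k W : Type*} [CommRing k] [AddCommGroup W] [Module k W] {r : ℕ}

/-- the operator `D0` with sign -/
noncomputable def zz (D0 : W →ₗ[k] W) : ((Fin r →₀ ℕ) →₀ W) →ₗ[k] ((Fin r →₀ ℕ) →₀ W) :=
  Finsupp.lsum k fun a => ((-1 : k) ^ a.degree) • (Finsupp.lsingle a ∘ₗ D0)

/-- the lowering operator -/
noncomputable def kk (K : Fin r → W →ₗ[k] W) :
    ((Fin r →₀ ℕ) →₀ W) →ₗ[k] ((Fin r →₀ ℕ) →₀ W) :=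
  Finsupp.lsum k fun a => ∑ l : Fin r,
    if Odd (a l) then sg k l a • (Finsupp.lsingle (a - ev l) ∘ₗ K l) else 0

/-- the total differential -/
noncomputable def tot (D0 : W →ₗ[k] W) (P N K : Fin r → W →ₗ[k] W) :
    ((Fin r →₀ ℕ) →₀ W) →ₗ[k] ((Fin r →₀ ℕ) →₀ W) :=
  zz D0 + dd P N 0 + kk K

theorem zz_single (D0 : W →ₗ[k] W) (a : Fin r →₀ ℕ) (m : W) :
    zz D0 (single a m) = ((-1 : k) ^ a.degree) • single a (D0 m) := by
  unfold zz
  rw [Finsupp.lsum_single]
  rfl

theorem kk_single (K : Fin r → W →ₗ[k] W) (a : Fin r →₀ ℕ) (m : W) :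
    kk K (single a m) = ∑ l : Fin r,
      if Odd (a l) then sg k l a • single (a - ev l) (K l m) else 0 := by
  unfold kk
  rw [Finsupp.lsum_single, LinearMap.sum_apply]
  refine Finset.sum_congr rfl fun l _ => ?_
  split_ifs <;> rfl

theorem dd_zero_single (P N : Fin r → W →ₗ[k] W) (a : Fin r →₀ ℕ) (m : W) :
    dd P N 0 (single a m) =
      ∑ l : Fin r, sg k l a • single (a + ev l) (opn P N l (a l) m) := by
  rw [dd_single]
  simp only [add_zero]

theorem tot_single (D0 : W →ₗ[k] W) (P N K : Fin r → W →ₗ[k] W) (a : Fin r →₀ ℕ) (m : W) :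
    tot D0 P N K (single a m) = ((-1 : k) ^ a.degree) • single a (D0 m) +
      ∑ l : Fin r, sg k l a • single (a + ev l) (opn P N l (a l) m) +
      ∑ l : Fin r, if Odd (a l) then sg k l a • single (a - ev l) (K l m) else 0 := by
  unfold tot
  rw [LinearMap.add_apply, LinearMap.add_apply, zz_single, dd_zero_single, kk_single]

theorem zz_zz (D0 : W →ₗ[k] W) (f : (Fin r →₀ ℕ) →₀ W) :
    zz D0 (zz D0 f) = Finsupp.mapRange.linearMap (D0 ∘ₗ D0) f := by
  have h1 : zz D0 ∘ₗ zz D0 =
      (Finsupp.mapRange.linearMap (D0 ∘ₗ D0) : ((Fin r →₀ ℕ) →₀ W) →ₗ[k] _) := by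
    refine Finsupp.lhom_ext fun a m => ?_
    rw [LinearMap.comp_apply, zz_single, map_smul, zz_single, smul_smul, ← mul_pow]
    simp
  exact LinearMap.congr_fun h1 f

/-- `D0` anticommutes with `dd` -/
theorem zz_dd (D0 : W →ₗ[k] W) (P N : Fin r → W →ₗ[k] W)
    (hP : ∀ l m, D0 (P l m) = P l (D0 m)) (hN : ∀ l m, D0 (N l m) = N l (D0 m))
    (f : (Fin r →₀ ℕ) →₀ W) : zz D0 (dd P N 0 f) + dd P N 0 (zz D0 f) = 0 := by
  have hop : ∀ l n m, D0 (opn P N l n m) = opn P N l n (D0 m) := by
    intro l n m
    unfold opn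
    split_ifs
    · exact hP l m
    · exact hN l m
  have h1 : zz D0 ∘ₗ dd P N 0 + dd P N 0 ∘ₗ zz D0 = 0 := by
    refine Finsupp.lhom_ext fun a m => ?_
    rw [LinearMap.add_apply, LinearMap.comp_apply, LinearMap.comp_apply, dd_zero_single,
      zz_single, map_smul, dd_zero_single, map_sum, Finset.smul_sum, ← Finset.sum_add_distrib,
      LinearMap.zero_apply]
    refine Finset.sum_eq_zero fun l _ => ?_
    rw [map_smul, zz_single, hop, map_add, degree_ev, pow_succ, smul_smul, smul_smul, ← add_smul]
    have : sg k l a * ((-1) ^ a.degree * -1) + (-1) ^ a.degree * sg k l a = 0 := by ring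
    rw [this, zero_smul]
  exact LinearMap.congr_fun h1 f

theorem sub_ev_add' {l : Fin r} {a : Fin r →₀ ℕ} (h : Odd (a l)) : a - ev l + ev l = a :=
  sub_ev_add (Nat.ne_of_gt h.pos)

theorem sub_ev_ne {l l' : Fin r} {a : Fin r →₀ ℕ} (h : l ≠ l') : (a - ev l) l' = a l' := by
  simp only [Finsupp.tsub_apply]
  rw [ev_ne h]
  omega

theorem sg_sub {l l' : Fin r} {a : Fin r →₀ ℕ} (h : Odd (a l)) :
    sg k l' (a - ev l) = sg k l' a * (if l < l' then -1 else 1) := by
  have h1 : sg k l' a = sg k l' (a - ev l) * (if l < l' then -1 else 1) := by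
    rw [← sg_single l' l, ← sg_add, sub_ev_add' h]
  rw [h1]
  split_ifs <;> ring

theorem neg_one_pow_sub {l : Fin r} {a : Fin r →₀ ℕ} (h : Odd (a l)) :
    ((-1 : k) ^ (a - ev l).degree) = -(-1) ^ a.degree := by
  have h1 : a.degree = (a - ev l).degree + 1 := by
    rw [← degree_ev l, ← map_add, sub_ev_add' h]
  rw [h1, pow_succ]
  ring

/-- `D0` anticommutes with `kk` -/
theorem zz_kk (D0 : W →ₗ[k] W) (K : Fin r → W →ₗ[k] W)
    (hK : ∀ l m, D0 (K l m) = K l (D0 m)) (f : (Fin r →₀ ℕ) →₀ W) :
    zz D0 (kk K f) + kk K (zz D0 f) = 0 := by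
  have h1 : zz D0 ∘ₗ kk K + kk K ∘ₗ zz D0 = 0 := by
    refine Finsupp.lhom_ext fun a m => ?_
    rw [LinearMap.add_apply, LinearMap.comp_apply, LinearMap.comp_apply, kk_single,
      zz_single, map_smul, kk_single, map_sum, Finset.smul_sum, ← Finset.sum_add_distrib,
      LinearMap.zero_apply]
    refine Finset.sum_eq_zero fun l _ => ?_
    by_cases h : Odd (a l)
    · rw [if_pos h, if_pos h, map_smul, zz_single, hK, neg_one_pow_sub h, smul_smul, smul_smul,
        ← add_smul]
      have : sg k l a * -(-1) ^ a.degree + (-1) ^ a.degree * sg k l a = 0 := by ring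
      rw [this, zero_smul]
    · rw [if_neg h, if_neg h, map_zero, smul_zero, add_zero]
  exact LinearMap.congr_fun h1 f

theorem kk_kk (K : Fin r → W →ₗ[k] W) (hK : ∀ l l' m, K l (K l' m) = K l' (K l m))
    (f : (Fin r →₀ ℕ) →₀ W) : kk K (kk K f) = 0 := by
  have h1 : kk K ∘ₗ kk K = 0 := by
    refine Finsupp.lhom_ext fun a m => ?_
    rw [LinearMap.comp_apply, kk_single, map_sum, LinearMap.zero_apply]
    have e1 : ∀ l : Fin r, kk K (if Odd (a l) then sg k l a • single (a - ev l) (K l m) else 0) =
        ∑ l', if Odd (a l) ∧ Odd ((a - ev l) l') then (sg k l a * sg k l' (a - ev l)) •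
          single (a - ev l - ev l') (K l' (K l m)) else 0 := by
      intro l
      by_cases h : Odd (a l)
      · rw [if_pos h, map_smul, kk_single, Finset.smul_sum]
        refine Finset.sum_congr rfl fun l' _ => ?_
        by_cases h' : Odd ((a - ev l) l')
        · rw [if_pos h', if_pos ⟨h, h'⟩, smul_smul]
        · rw [if_neg h', if_neg (fun hh => h' hh.2), smul_zero]
      · rw [if_neg h, map_zero]
        symm
        exact Finset.sum_eq_zero fun l' _ => if_neg (fun hh => h hh.1)
    rw [Finset.sum_congr rfl fun l _ => e1 l, ← Finset.sum_product']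
    refine Finset.sum_involution (fun p _ => (p.2, p.1)) ?_ ?_ ?_ ?_
    · rintro ⟨l, l'⟩ _
      by_cases hl : l = l'
      · subst hl
        have h2 : ¬ (Odd (a l) ∧ Odd ((a - ev l) l)) := by
          rintro ⟨h1, h2⟩
          have : a l = (a - ev l) l + 1 := by
            conv_lhs => rw [← sub_ev_add' h1]
            rw [Finsupp.add_apply, ev_same]
          rw [this, Nat.odd_add_one] at h1
          exact h1 h2
        simp only [if_neg h2, add_zero]
      · by_cases h : Odd (a l)
        · by_cases h' : Odd (a l')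
          · have c1 : Odd (a l) ∧ Odd ((a - ev l) l') := ⟨h, by rwa [sub_ev_ne hl]⟩
            have c2 : Odd (a l') ∧ Odd ((a - ev l') l) := ⟨h', by rwa [sub_ev_ne (Ne.symm hl)]⟩
            have e4 : a - ev l' - ev l = a - ev l - ev l' := by
              rw [tsub_tsub, tsub_tsub, add_comm]
            simp only [if_pos c1, if_pos c2]
            rw [sg_sub h, sg_sub h', e4, hK l l', ← add_smul]
            have e5 : sg k l a * (sg k l' a * (if l < l' then -1 else 1)) +
                sg k l' a * (sg k l a * (if l' < l then -1 else 1)) = 0 := by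
              rcases lt_or_gt_of_ne hl with h' | h'
              · rw [if_pos h', if_neg (not_lt.2 h'.le)]
                ring
              · rw [if_pos h', if_neg (not_lt.2 h'.le)]
                ring
            rw [e5, zero_smul]
          · have c1 : ¬ (Odd (a l) ∧ Odd ((a - ev l) l')) := by
              rw [sub_ev_ne hl]; exact fun hh => h' hh.2
            have c2 : ¬ (Odd (a l') ∧ Odd ((a - ev l') l)) := fun hh => h' hh.1
            simp only [if_neg c1, if_neg c2, add_zero]
        · have c1 : ¬ (Odd (a l) ∧ Odd ((a - ev l) l')) := fun hh => h hh.1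
          have c2 : ¬ (Odd (a l') ∧ Odd ((a - ev l') l)) := by
            rw [sub_ev_ne (Ne.symm hl)]; exact fun hh => h hh.2
          simp only [if_neg c1, if_neg c2, add_zero]
    · rintro ⟨l, l'⟩ _ hne heq
      simp only [Prod.mk.injEq] at heq
      obtain ⟨rfl, _⟩ := heq
      apply hne
      have h2 : ¬ (Odd (a l') ∧ Odd ((a - ev l') l')) := by
        rintro ⟨h1, h2⟩
        have : a l' = (a - ev l') l' + 1 := by
          conv_lhs => rw [← sub_ev_add' h1]
          rw [Finsupp.add_apply, ev_same]
        rw [this, Nat.odd_add_one] at h1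
        exact h1 h2
      simp only [if_neg h2]
    · rintro ⟨l, l'⟩ _
      simp
    · rintro ⟨l, l'⟩ _
      rfl
  exact LinearMap.congr_fun h1 f

theorem dd_kk (P N K : Fin r → W →ₗ[k] W) (hP : ∀ l l' m, K l (P l' m) = P l' (K l m))
    (hN : ∀ l l' m, K l (N l' m) = N l' (K l m)) (f : (Fin r →₀ ℕ) →₀ W) :
    dd P N 0 (kk K f) + kk K (dd P N 0 f) =
      Finsupp.mapRange.linearMap (∑ l, P l ∘ₗ K l) f := by
  have hop : ∀ l l' n m, K l (opn P N l' n m) = opn P N l' n (K l m) := by
    intro l l' n m
    unfold opn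
    split_ifs
    · exact hP l l' m
    · exact hN l l' m
  have h1 : dd P N 0 ∘ₗ kk K + kk K ∘ₗ dd P N 0 =
      (Finsupp.mapRange.linearMap (∑ l, P l ∘ₗ K l) : ((Fin r →₀ ℕ) →₀ W) →ₗ[k] _) := by
    refine Finsupp.lhom_ext fun a m => ?_
    rw [LinearMap.add_apply, LinearMap.comp_apply, LinearMap.comp_apply, kk_single,
      dd_zero_single, map_sum, map_sum]
    -- first the two double sums
    have e1 : ∀ l : Fin r, dd P N 0 (if Odd (a l) then sg k l a • single (a - ev l) (K l m)
        else 0) = ∑ l', if Odd (a l) then (sg k l a * sg k l' (a - ev l)) •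
          single (a - ev l + ev l') (opn P N l' ((a - ev l) l') (K l m)) else 0 := by
      intro l
      by_cases h : Odd (a l)
      · rw [if_pos h, map_smul, dd_zero_single, Finset.smul_sum]
        refine Finset.sum_congr rfl fun l' _ => ?_
        rw [if_pos h, smul_smul]
      · rw [if_neg h, map_zero]
        symm
        exact Finset.sum_eq_zero fun l' _ => if_neg h
    have e2 : ∀ l' : Fin r, kk K (sg k l' a • single (a + ev l') (opn P N l' (a l') m)) =
        ∑ l, if Odd ((a + ev l') l) then (sg k l' a * sg k l (a + ev l')) •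
          single (a + ev l' - ev l) (opn P N l' (a l') (K l m)) else 0 := by
      intro l'
      rw [map_smul, kk_single, Finset.smul_sum]
      refine Finset.sum_congr rfl fun l _ => ?_
      by_cases h : Odd ((a + ev l') l)
      · rw [if_pos h, if_pos h, smul_smul, hop]
      · rw [if_neg h, if_neg h, smul_zero]
    rw [Finset.sum_congr rfl fun l _ => e1 l, Finset.sum_congr rfl fun l _ => e2 l,
      Finset.sum_comm (f := fun l' l => if Odd ((a + ev l') l) then
        (sg k l' a * sg k l (a + ev l')) • single (a + ev l' - ev l) (opn P N l' (a l') (K l m))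
        else 0), ← Finset.sum_add_distrib]
    have e3 : ∀ l : Fin r, ((∑ l', if Odd (a l) then (sg k l a * sg k l' (a - ev l)) •
          single (a - ev l + ev l') (opn P N l' ((a - ev l) l') (K l m)) else 0) +
        ∑ l', if Odd ((a + ev l') l) then (sg k l' a * sg k l (a + ev l')) •
          single (a + ev l' - ev l) (opn P N l' (a l') (K l m)) else 0) =
        single a (P l (K l m)) := by
      intro l
      rw [← Finset.sum_add_distrib, Finset.sum_eq_single l]
      · by_cases h : Odd (a l)
        · have h2 : ¬ Odd ((a + ev l) l) := by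
            rw [Finsupp.add_apply, ev_same, Nat.odd_add_one]
            exact fun hh => hh h
          rw [if_pos h, if_neg h2, add_zero, sub_ev_add' h, sg_sub h, if_neg (lt_irrefl l),
            mul_one, sg_mul_self, one_smul]
          have h3 : Even ((a - ev l) l) := by
            have h4 : a l = (a - ev l) l + 1 := by
              conv_lhs => rw [← sub_ev_add' h]
              rw [Finsupp.add_apply, ev_same]
            rw [h4, Nat.odd_add_one, Nat.not_odd_iff_even] at h
            exact h
          rw [opn, if_pos h3]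
        · have h2 : Odd ((a + ev l) l) := by
            rw [Finsupp.add_apply, ev_same, Nat.odd_add_one]
            exact h
          rw [if_neg h, if_pos h2, zero_add, add_tsub_cancel_right, sg_add, sg_single,
            if_neg (lt_irrefl l), mul_one, sg_mul_self, one_smul, opn,
            if_pos (Nat.not_odd_iff_even.1 h)]
      · intro l' _ hl
        have hl' : (a + ev l') l = a l := by
          rw [Finsupp.add_apply, ev_ne hl, add_zero]
        by_cases h : Odd (a l)
        · have h2 : Odd ((a + ev l') l) := by rwa [hl']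
          have e4 : a + ev l' - ev l = a - ev l + ev l' := by
            conv_lhs => rw [← sub_ev_add' h, add_right_comm, add_tsub_cancel_right]
          rw [if_pos h, if_pos h2, sg_sub h, sg_add, sg_single, sub_ev_ne (Ne.symm hl), e4,
            ← add_smul]
          have e5 : sg k l a * (sg k l' a * (if l < l' then -1 else 1)) +
              sg k l' a * (sg k l a * (if l' < l then -1 else 1)) = 0 := by
            rcases lt_or_gt_of_ne hl with h' | h'
            · rw [if_pos h', if_neg (not_lt.2 h'.le)]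
              ring
            · rw [if_pos h', if_neg (not_lt.2 h'.le)]
              ring
          rw [e5, zero_smul]
        · have h2 : ¬ Odd ((a + ev l') l) := by rwa [hl']
          rw [if_neg h, if_neg h2, add_zero]
      · intro h
        exact absurd (Finset.mem_univ l) h
    rw [Finset.sum_congr rfl fun l _ => e3 l]
    rw [Finsupp.mapRange.linearMap_apply, Finsupp.mapRange_single, LinearMap.sum_apply]
    exact (map_sum (Finsupp.singleAddHom a) (fun l => P l (K l m)) Finset.univ).symm
  exact LinearMap.congr_fun h1 f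

/-- the total differential is a differential -/
theorem tot_tot (D0 : W →ₗ[k] W) (P N K : Fin r → W →ₗ[k] W) (hc : Comm P N)
    (hDP : ∀ l m, D0 (P l m) = P l (D0 m)) (hDN : ∀ l m, D0 (N l m) = N l (D0 m))
    (hDK : ∀ l m, D0 (K l m) = K l (D0 m)) (hKK : ∀ l l' m, K l (K l' m) = K l' (K l m))
    (hKP : ∀ l l' m, K l (P l' m) = P l' (K l m)) (hKN : ∀ l l' m, K l (N l' m) = N l' (K l m))
    (hsq : ∀ m, D0 (D0 m) + ∑ l, P l (K l m) = 0) (f : (Fin r →₀ ℕ) →₀ W) :
    tot D0 P N K (tot D0 P N K f) = 0 := by
  have h1 : Finsupp.mapRange.linearMap (D0 ∘ₗ D0) f +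
      Finsupp.mapRange.linearMap (∑ l, P l ∘ₗ K l) f = 0 := by
    ext a
    simp only [Finsupp.add_apply, Finsupp.mapRange.linearMap_apply, Finsupp.mapRange_apply,
      LinearMap.comp_apply, LinearMap.sum_apply]
    exact hsq _
  unfold tot
  simp only [LinearMap.add_apply, map_add]
  rw [zz_zz, dd_dd hc, kk_kk K hKK]
  have h2 := zz_dd D0 P N hDP hDN f
  have h3 := zz_kk D0 K hDK f
  have h4 := dd_kk P N K hKP hKN f
  calc _ = (zz D0 (dd P N 0 f) + dd P N 0 (zz D0 f)) + (zz D0 (kk K f) + kk K (zz D0 f)) +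
      ((dd P N 0 (kk K f) + kk K (dd P N 0 f)) + Finsupp.mapRange.linearMap (D0 ∘ₗ D0) f) := by
        abel
    _ = 0 := by rw [h2, h3, h4, zero_add, zero_add, add_comm]; exact h1

end Pool.Agent.DG
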