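import Pool.Agent.Work.MP_0c1793_al.Cx
import Pool.Agent.Work.MP_0c1793_al.Tot
import Pool.Agent.Work.MP_0c1793_al.StageW

/-! # The square of `D0` and the correction terms -/

set_option autoImplicit false

universe u v

open MvPolynomial TensorProduct

namespace Pool.Agent.Work.MP_0c1793_al

open Pool.Agent.DG

variable {k : Type u} [Field k] {X : Type} [AddCommGroup X] [Fintype X] [DecidableEq X]

section Aug

/-- the element `s^l` of `k[X]` -/
noncomputable abbrev sk (k : Type u) [Field k] {X : Type} (l : X) : AddMonoidAlgebra k X :=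
  AddMonoidAlgebra.single l 1

omit [Fintype X] [DecidableEq X] in
theorem sk_add (l l' : X) : sk k l * sk k l' = sk k (l + l') := by
  rw [sk, sk, AddMonoidAlgebra.single_mul_single, mul_one]

omit [Fintype X] [DecidableEq X] in
theorem sk_zero : sk k (0 : X) = 1 := rfl

omit [Fintype X] [DecidableEq X] in
/-- the augmentation ideal is generated by `s_l - 1` for a generating family -/
theorem exists_beta {r : ℕ} (e : Fin r → X) (he : AddSubgroup.closure (Set.range e) = ⊤) (l : X) :
    ∃ β : Fin r → AddMonoidAlgebra k X, ∑ j, β j * (sk k (e j) - 1) = sk k l - 1 := by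
  have key : sk k l - 1 ∈ Ideal.span (Set.range fun j => sk k (e j) - 1) := by
    have hl : l ∈ AddSubgroup.closure (Set.range e) := by rw [he]; trivial
    induction hl using AddSubgroup.closure_induction with
    | mem x hx =>
      obtain ⟨j, rfl⟩ := hx
      exact Ideal.subset_span ⟨j, rfl⟩
    | zero => rw [sk_zero, sub_self]; exact Ideal.zero_mem _
    | add x y _ _ hx hy =>
      have : sk k (x + y) - 1 = sk k x * (sk k y - 1) + (sk k x - 1) := by
        rw [← sk_add]; ring
      rw [this]
      exact Ideal.add_mem _ (Ideal.mul_mem_left _ _ hy) hx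
    | neg x _ hx =>
      have h1 : sk k (-x) * sk k x = 1 := by rw [sk_add, neg_add_cancel, sk_zero]
      have : sk k (-x) - 1 = -(sk k (-x) * (sk k x - 1)) := by
        rw [mul_sub, h1]; ring
      rw [this]
      exact neg_mem (Ideal.mul_mem_left _ _ hx)
  rw [Ideal.mem_span_range_iff_exists_fun] at key
  exact key

end Aug

section Square

variable {G : HCData k X} {M : Type v} [AddCommGroup M] [Module k M] [Module (Dbl G) M]
  [IsScalarTower k (Dbl G) M]

/-- the odd generators -/
noncomputable def opg (G : HCData k X) : Fin G.m ⊕ Fin G.m → Dbl G :=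
  Sum.elim (gen G).x (gen G).xi

theorem D0_eq : D0 G M = ∑ v, act G M (opg G v) * mu G M (MvPolynomial.X v) := by
  rw [D0, Fintype.sum_sum_type]
  rfl

/-- the brackets act by zero -/
def NB (G : HCData k X) (M : Type v) [AddCommGroup M] [Module k M] [Module (Dbl G) M] : Prop :=
  ∀ (i j : Fin G.m) (m : M), (∑ ν : X, G.c i j ν • (gen G).e ν) • m = 0

/-- the element `(s^(wt i) - s^(-wt i))/2` -/
noncomputable def av (G : HCData k X) (i : Fin G.m) : Dbl G :=
  (2⁻¹ : k) • ((gen G).s (G.wt i) - (gen G).s (-G.wt i))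

theorem D0_sq (h2 : (2 : k) ≠ 0) (hN : NB G M) :
    D0 G M * D0 G M = ∑ i, act G M (av G i) * mu G M (vy G i * vz G i) := by
  -- the double sum
  have h1 : D0 G M * D0 G M = ∑ v, ∑ v', act G M (opg G v * opg G v') *
      mu G M (MvPolynomial.X v * MvPolynomial.X v') := by
    rw [D0_eq, Finset.sum_mul]
    refine Finset.sum_congr rfl fun v _ => ?_
    rw [Finset.mul_sum]
    refine Finset.sum_congr rfl fun v' _ => ?_
    rw [mul_assoc, ← mul_assoc (mu G M (MvPolynomial.X v)), ← act_mu, map_mul, map_mul]
    simp only [mul_assoc]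
  have h1' : D0 G M * D0 G M = ∑ v, ∑ v', act G M (opg G v' * opg G v) *
      mu G M (MvPolynomial.X v * MvPolynomial.X v') := by
    rw [h1, Finset.sum_comm]
    refine Finset.sum_congr rfl fun v _ => Finset.sum_congr rfl fun v' _ => ?_
    rw [mul_comm (MvPolynomial.X v)]
  have h3 : (2 : k) • (D0 G M * D0 G M) = ∑ v, ∑ v', act G M (opg G v * opg G v' +
      opg G v' * opg G v) * mu G M (MvPolynomial.X v * MvPolynomial.X v') := by
    calc (2 : k) • (D0 G M * D0 G M) = D0 G M * D0 G M + D0 G M * D0 G M := two_smul k _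
      _ = (∑ v, ∑ v', act G M (opg G v * opg G v') *
          mu G M (MvPolynomial.X v * MvPolynomial.X v')) + ∑ v, ∑ v', act G M (opg G v' * opg G v) *
          mu G M (MvPolynomial.X v * MvPolynomial.X v') := by rw [← h1, ← h1']
      _ = _ := by
        rw [← Finset.sum_add_distrib]
        refine Finset.sum_congr rfl fun v _ => ?_
        rw [← Finset.sum_add_distrib]
        refine Finset.sum_congr rfl fun v' _ => ?_
        rw [map_add, add_mul]
  have hc : ∀ i j : Fin G.m, act G M (∑ ν : X, G.c i j ν • (gen G).e ν) = 0 := by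
    intro i j
    refine end_ext fun m f => ?_
    rw [act_tmul, hN, TensorProduct.zero_tmul]
    rfl
  have h4 : (2 : k) • (D0 G M * D0 G M) =
      (2 : k) • ∑ i, act G M (av G i) * mu G M (vy G i * vz G i) := by
    rw [h3, Fintype.sum_sum_type]
    simp only [Fintype.sum_sum_type]
    have e1 : ∀ i j : Fin G.m, act G M (opg G (Sum.inl i) * opg G (Sum.inl j) +
        opg G (Sum.inl j) * opg G (Sum.inl i)) = 0 := by
      intro i j
      show act G M ((gen G).x i * (gen G).x j + (gen G).x j * (gen G).x i) = 0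
      rw [(gen G).x_x, hc]
    have e2 : ∀ i j : Fin G.m, act G M (opg G (Sum.inr i) * opg G (Sum.inr j) +
        opg G (Sum.inr j) * opg G (Sum.inr i)) = 0 := by
      intro i j
      show act G M ((gen G).xi i * (gen G).xi j + (gen G).xi j * (gen G).xi i) = 0
      rw [(gen G).xi_xi, map_zero]
    have e3 : ∀ i j : Fin G.m, opg G (Sum.inl i) * opg G (Sum.inr j) +
        opg G (Sum.inr j) * opg G (Sum.inl i) = if i = j then av G i else 0 := by
      intro i j
      exact (gen G).x_xi i j
    have e4 : ∀ i j : Fin G.m, opg G (Sum.inr i) * opg G (Sum.inl j) +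
        opg G (Sum.inl j) * opg G (Sum.inr i) = if i = j then av G i else 0 := by
      intro i j
      rw [add_comm, e3]
      by_cases h : i = j
      · subst h; rfl
      · rw [if_neg h, if_neg (Ne.symm h)]
    simp only [e1, e2, e3, e4, zero_mul, Finset.sum_const_zero, zero_add, add_zero]
    have e5 : ∀ i : Fin G.m, (∑ j, act G M (if i = j then av G i else 0) *
        mu G M (MvPolynomial.X (Sum.inl i) * MvPolynomial.X (Sum.inr j))) =
        act G M (av G i) * mu G M (vy G i * vz G i) := by
      intro i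
      rw [Finset.sum_eq_single i]
      · rw [if_pos rfl]
      · intro j _ hj
        rw [if_neg (Ne.symm hj), map_zero, zero_mul]
      · intro h
        exact absurd (Finset.mem_univ i) h
    have e6 : ∀ i : Fin G.m, (∑ j, act G M (if i = j then av G i else 0) *
        mu G M (MvPolynomial.X (Sum.inr i) * MvPolynomial.X (Sum.inl j))) =
        act G M (av G i) * mu G M (vy G i * vz G i) := by
      intro i
      rw [Finset.sum_eq_single i]
      · rw [if_pos rfl, mul_comm (MvPolynomial.X (Sum.inr i))]
      · intro j _ hj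
        rw [if_neg (Ne.symm hj), map_zero, zero_mul]
      · intro h
        exact absurd (Finset.mem_univ i) h
    rw [Finset.sum_congr rfl fun i _ => e5 i, Finset.sum_congr rfl fun i _ => e6 i, two_smul]
  exact smul_right_injective _ h2 h4

/-- the element `(s^l - s^(-l))/2` of the group algebra -/
noncomputable def ak (k : Type u) [Field k] {X : Type} [AddCommGroup X] (l : X) :
    AddMonoidAlgebra k X := (2⁻¹ : k) • (sk k l - sk k (-l))

/-- `act` of the antisymmetric element -/
theorem rho_ak_Eq (l : X) : rho G M (ak k l) * mu G M (Eq G l) =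
    act G M ((2⁻¹ : k) • ((gen G).s l - (gen G).s (-l))) * mu G M (Eq G l) := by
  by_cases h : (∀ i, G.wt i ≠ l) ∧ (∀ i, G.wt i ≠ -l)
  · rw [Eq_zero G h.1 h.2, map_zero, mul_zero, mul_zero]
  · have ht : tr G M l = 1 ∧ tr G M (-l) = 1 := by
      have : ∃ i, G.wt i = l ∨ G.wt i = -l := by
        by_contra hc
        push Not at hc
        exact h ⟨fun i => (hc i).1, fun i => (hc i).2⟩
      obtain ⟨i, hi⟩ := this
      have hid : ∀ μ : X, trans G μ = AlgHom.id k (Pol G) → tr G M μ = 1 := by
        intro μ hμ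
        refine end_ext fun m f => ?_
        rw [tr_tmul, hμ]
        rfl
      rcases hi with hi | hi
      · subst hi
        exact ⟨hid _ (trans_wt G i), hid _ (trans_neg_wt G i)⟩
      · have h1 := trans_wt G i
        have h2 := trans_neg_wt G i
        rw [hi] at h1 h2
        rw [neg_neg] at h2
        exact ⟨hid _ h2, hid _ h1⟩
    congr 1
    rw [ak, map_smul, map_sub, rho_single, rho_single, ht.1, ht.2, one_smul, one_smul, mul_one,
      mul_one, map_smul, map_sub]

/-- the square of `D0` through the invariant polynomials -/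
theorem D0_sq' (h2 : (2 : k) ≠ 0) (hN : NB G M) :
    D0 G M * D0 G M = ∑ l : X, rho G M ((2⁻¹ : k) • ak k l) * mu G M (Eq G l) := by
  rw [D0_sq h2 hN]
  have hodd : ∀ l : X, (2⁻¹ : k) • ((gen G).s (-l) - (gen G).s (- -l)) =
      (-1 : k) • ((2⁻¹ : k) • ((gen G).s l - (gen G).s (-l)) : Dbl G) := by
    intro l
    rw [neg_neg, neg_one_smul, ← smul_neg, neg_sub]
  set A : X → Module.End k (W G M) :=
    fun l => act G M ((2⁻¹ : k) • ((gen G).s l - (gen G).s (-l))) with hA
  have hAodd : ∀ l, A (-l) = (-1 : k) • A l := by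
    intro l
    show act G M _ = (-1 : k) • act G M _
    rw [hodd, map_smul]
  have e1 : ∑ l : X, rho G M ((2⁻¹ : k) • ak k l) * mu G M (Eq G l) =
      ∑ l : X, A l * mu G M (Fq G l) := by
    have e2 : ∀ l : X, rho G M ((2⁻¹ : k) • ak k l) * mu G M (Eq G l) =
        (2⁻¹ : k) • (A l * mu G M (Fq G l)) - (2⁻¹ : k) • (A l * mu G M (Fq G (-l))) := by
      intro l
      rw [map_smul, smul_mul_assoc, rho_ak_Eq, Eq, map_sub, mul_sub, smul_sub]
    rw [Finset.sum_congr rfl fun l _ => e2 l, Finset.sum_sub_distrib]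
    have e3 : ∑ l : X, (2⁻¹ : k) • (A l * mu G M (Fq G (-l))) =
        (-1 : k) • ∑ l : X, (2⁻¹ : k) • (A l * mu G M (Fq G l)) := by
      rw [Finset.smul_sum, ← Equiv.sum_comp (Equiv.neg X)]
      refine Finset.sum_congr rfl fun l _ => ?_
      show (2⁻¹ : k) • (A (-l) * mu G M (Fq G (- -l))) = _
      rw [hAodd, neg_neg, smul_mul_assoc, smul_comm]
    rw [e3, ← Finset.smul_sum]
    have e5 : ∀ S : Module.End k (W G M), (2⁻¹ : k) • S - (-1 : k) • (2⁻¹ : k) • S = S := by
      intro S
      refine LinearMap.ext fun w => ?_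
      show (2⁻¹ : k) • S w - (-1 : k) • (2⁻¹ : k) • S w = S w
      rw [smul_smul, ← sub_smul]
      have : (2⁻¹ : k) - -1 * 2⁻¹ = 1 := by field_simp; norm_num
      rw [this, one_smul]
    exact e5 _
  rw [e1]
  have e4 : ∀ l : X, A l * mu G M (Fq G l) =
      ∑ i, if G.wt i = l then A l * mu G M (vy G i * vz G i) else 0 := by
    intro l
    rw [Fq, map_sum, Finset.mul_sum]
    refine Finset.sum_congr rfl fun i _ => ?_
    split_ifs
    · rfl
    · rw [map_zero, mul_zero]
  rw [Finset.sum_congr rfl fun l _ => e4 l, Finset.sum_comm]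
  refine Finset.sum_congr rfl fun i _ => ?_
  rw [Finset.sum_ite_eq]
  simp only [Finset.mem_univ, if_true]
  rfl

end Square

end Pool.Agent.Work.MP_0c1793_al
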