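import Pool.Agent.Work.MP_0c1793_al.Cx2

/-! # The total differential -/

set_option autoImplicit false

universe u v

open MvPolynomial TensorProduct

namespace Pool.Agent.Work.MP_0c1793_al

open Pool.Agent.DG

/-- a decomposition of `X` into cyclic groups -/
structure Coord (X : Type) [AddCommGroup X] where
  r : ℕ
  ql : Fin r → ℕ
  ne : ∀ l, NeZero (ql l)
  phi : (∀ l, ZMod (ql l)) ≃+ X

namespace Coord

variable {X : Type} [AddCommGroup X] (κ : Coord X)

/-- the generators -/
def e (l : Fin κ.r) : X := κ.phi (Pi.single l 1)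

theorem ql_e (l : Fin κ.r) : κ.ql l • κ.e l = 0 := by
  unfold e
  rw [← map_nsmul, ← Pi.single_smul]
  simp

theorem closure_e : AddSubgroup.closure (Set.range κ.e) = ⊤ := by
  rw [eq_top_iff]
  rintro x -
  obtain ⟨f, rfl⟩ := κ.phi.surjective x
  have h1 : ∀ (l : Fin κ.r) (c : ZMod (κ.ql l)),
      κ.phi (Pi.single l c) = c.val • κ.e l := by
    intro l c
    have := κ.ne l
    unfold e
    rw [← map_nsmul, ← Pi.single_smul, nsmul_eq_mul, mul_one, ZMod.natCast_zmod_val]
  rw [← Finset.univ_sum_single f, map_sum]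
  refine AddSubgroup.sum_mem _ fun l _ => ?_
  have h2 : κ.e l ∈ AddSubgroup.closure (Set.range κ.e) :=
    AddSubgroup.subset_closure (Set.mem_range_self l)
  rw [h1]
  exact AddSubgroup.nsmul_mem _ h2 _

end Coord

variable {k : Type u} [Field k] {X : Type} [AddCommGroup X] [Fintype X] [DecidableEq X]

/-- the norm element -/
noncomputable def nk (k : Type u) [Field k] {X : Type} [AddCommGroup X] (n : ℕ) (e : X) :
    AddMonoidAlgebra k X := ∑ a ∈ Finset.range n, sk k (a • e)

omit [Fintype X] [DecidableEq X] in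
theorem nk_mul {n : ℕ} {e : X} (h : n • e = 0) : (sk k e - 1) * nk k n e = 0 := by
  have h1 : ∀ n : ℕ, (sk k e - 1) * nk k n e = sk k (n • e) - 1 := by
    intro n
    induction n with
    | zero => rw [nk, Finset.sum_range_zero, mul_zero, zero_smul, sk_zero, sub_self]
    | succ n ih =>
      have : nk k (n + 1) e = nk k n e + sk k (n • e) := Finset.sum_range_succ _ _
      rw [this, mul_add, ih, sub_mul, one_mul, sk_add, succ_nsmul']
      ring
  rw [h1, h, sk_zero, sub_self]

section

variable (k) (κ : Coord X)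

omit [Fintype X] [DecidableEq X] in
theorem exists_bet (l : X) : ∃ β : Fin κ.r → AddMonoidAlgebra k X,
    ∑ j, (sk k (κ.e j) - 1) * β j = -((2⁻¹ : k) • ak k l) := by
  obtain ⟨b, hb⟩ := exists_beta (k := k) κ.e κ.closure_e l
  obtain ⟨b', hb'⟩ := exists_beta (k := k) κ.e κ.closure_e (-l)
  refine ⟨fun j => -((2⁻¹ : k) • (2⁻¹ : k) • (b j - b' j)), ?_⟩
  have h1 : ∑ j, (sk k (κ.e j) - 1) * (b j - b' j) = sk k l - sk k (-l) := by
    calc ∑ j, (sk k (κ.e j) - 1) * (b j - b' j) =
        ∑ j, b j * (sk k (κ.e j) - 1) - ∑ j, b' j * (sk k (κ.e j) - 1) := by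
          rw [← Finset.sum_sub_distrib]
          exact Finset.sum_congr rfl fun j _ => by ring
      _ = _ := by rw [hb, hb']; ring
  simp only [mul_neg, mul_smul_comm, Finset.sum_neg_distrib, ← Finset.smul_sum]
  rw [h1]
  rfl

/-- the coefficients of the correction terms -/
noncomputable def bet (j : Fin κ.r) (l : X) : AddMonoidAlgebra k X :=
  (exists_bet k κ l).choose j

omit [Fintype X] [DecidableEq X] in
theorem bet_sum (l : X) : ∑ j, (sk k (κ.e j) - 1) * bet k κ j l = -((2⁻¹ : k) • ak k l) :=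
  (exists_bet k κ l).choose_spec

end

section Ops

variable (G : HCData k X) (κ : Coord X) (M : Type v) [AddCommGroup M] [Module k M]
  [Module (Dbl G) M] [IsScalarTower k (Dbl G) M]

/-- `ρ(s_l) - 1` -/
noncomputable def PW (l : Fin κ.r) : Module.End k (W G M) := rho G M (sk k (κ.e l) - 1)

/-- `ρ(N_l)` -/
noncomputable def NW (l : Fin κ.r) : Module.End k (W G M) := rho G M (nk k (κ.ql l) (κ.e l))

/-- the correction terms -/
noncomputable def KW (l : Fin κ.r) : Module.End k (W G M) :=
  ∑ x : X, rho G M (bet k κ l x) * mu G M (Eq G x)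

variable {G κ M}

theorem rho_commute_mu (b : AddMonoidAlgebra k X) (g : Pol G) (hg : ∀ μ, trans G μ g = g) :
    Commute (rho G M b) (mu G M g) := (rho_mu b g hg).symm

theorem KW_commute_rho (l : Fin κ.r) (b : AddMonoidAlgebra k X) :
    Commute (KW G κ M l) (rho G M b) := by
  unfold KW
  refine Commute.sum_left _ _ _ fun x _ => ?_
  have h1 : Commute (rho G M (bet k κ l x)) (rho G M b) := rho_rho _ _
  exact h1.mul_left (rho_commute_mu b _ fun μ => trans_Eq G μ x).symm

theorem KW_commute_mu (l : Fin κ.r) (g : Pol G) (hg : ∀ μ, trans G μ g = g) :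
    Commute (KW G κ M l) (mu G M g) := by
  unfold KW
  refine Commute.sum_left _ _ _ fun x _ => ?_
  refine (rho_commute_mu _ g hg).mul_left ?_
  show mu G M _ * mu G M _ = mu G M _ * mu G M _
  rw [← map_mul, ← map_mul, mul_comm]

theorem KW_commute (l l' : Fin κ.r) : Commute (KW G κ M l) (KW G κ M l') := by
  nth_rewrite 2 [KW]
  refine Commute.sum_right _ _ _ fun x _ => ?_
  exact (KW_commute_rho l _).mul_right (KW_commute_mu l _ fun μ => trans_Eq G μ x)

theorem D0_commute_rho (b : AddMonoidAlgebra k X) : Commute (D0 G M) (rho G M b) := D0_rho b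

theorem D0_commute_KW (l : Fin κ.r) : Commute (D0 G M) (KW G κ M l) := by
  unfold KW
  refine Commute.sum_right _ _ _ fun x _ => ?_
  exact (D0_commute_rho _).mul_right (D0_mu _)

theorem sq_add (h2 : (2 : k) ≠ 0) (hN : NB G M) :
    D0 G M * D0 G M + ∑ l, PW G κ M l * KW G κ M l = 0 := by
  rw [D0_sq' h2 hN]
  have h1 : ∑ l, PW G κ M l * KW G κ M l =
      ∑ x : X, rho G M (-((2⁻¹ : k) • ak k x)) * mu G M (Eq G x) := by
    simp only [PW, KW, Finset.mul_sum]
    rw [Finset.sum_comm]
    refine Finset.sum_congr rfl fun x _ => ?_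
    rw [← bet_sum k κ x, map_sum, Finset.sum_mul]
    refine Finset.sum_congr rfl fun l _ => ?_
    rw [map_mul, mul_assoc]
  rw [h1, ← Finset.sum_add_distrib]
  refine Finset.sum_eq_zero fun x _ => ?_
  rw [← add_mul, ← map_add, add_neg_cancel, map_zero, zero_mul]

theorem comm_PW_NW : Comm (PW G κ M) (NW G κ M) where
  comm l l' n n' m _ := by
    have h : ∀ (l : Fin κ.r) (n : ℕ), ∃ b, opn (PW G κ M) (NW G κ M) l n = rho G M b := by
      intro l n
      unfold opn
      split_ifs
      · exact ⟨_, rfl⟩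
      · exact ⟨_, rfl⟩
    obtain ⟨b, hb⟩ := h l n
    obtain ⟨b', hb'⟩ := h l' n'
    rw [hb, hb']
    exact LinearMap.congr_fun (rho_rho b b') m
  zero l n m := by
    have h1 : PW G κ M l * NW G κ M l = 0 := by
      rw [PW, NW, ← map_mul, nk_mul (κ.ql_e l), map_zero]
    have h2 : NW G κ M l * PW G κ M l = 0 := by
      rw [PW, NW, ← map_mul, mul_comm, nk_mul (κ.ql_e l), map_zero]
    unfold opn
    by_cases h : Even n
    · have h' : ¬ Even (n + 1) := by rw [Nat.even_add_one, not_not]; exact h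
      rw [if_pos h, if_neg h']
      exact LinearMap.congr_fun h2 m
    · have h' : Even (n + 1) := by rw [Nat.even_add_one]; exact h
      rw [if_neg h, if_pos h']
      exact LinearMap.congr_fun h1 m

variable (G κ M)

/-- the total differential -/
noncomputable def DC : CC k M (Fin G.m ⊕ Fin G.m) κ.r →ₗ[k] CC k M (Fin G.m ⊕ Fin G.m) κ.r :=
  tot (D0 G M) (PW G κ M) (NW G κ M) (KW G κ M)

variable {G κ M}

theorem DC_DC (h2 : (2 : k) ≠ 0) (hN : NB G M) (f : CC k M (Fin G.m ⊕ Fin G.m) κ.r) :
    DC G κ M (DC G κ M f) = 0 := by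
  refine tot_tot _ _ _ _ comm_PW_NW ?_ ?_ ?_ ?_ ?_ ?_ ?_ f
  · exact fun l m => LinearMap.congr_fun (D0_commute_rho (sk k (κ.e l) - 1)) m
  · exact fun l m => LinearMap.congr_fun (D0_commute_rho (nk k (κ.ql l) (κ.e l))) m
  · exact fun l m => LinearMap.congr_fun (D0_commute_KW l) m
  · exact fun l l' m => LinearMap.congr_fun (KW_commute l l') m
  · exact fun l l' m => LinearMap.congr_fun (KW_commute_rho l (sk k (κ.e l') - 1)) m
  · exact fun l l' m => LinearMap.congr_fun (KW_commute_rho l (nk k (κ.ql l') (κ.e l'))) m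
  · intro m
    have := LinearMap.congr_fun (sq_add (κ := κ) h2 hN) m
    rw [LinearMap.add_apply, LinearMap.sum_apply] at this
    exact this

end Ops

end Pool.Agent.Work.MP_0c1793_al
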