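import Pool.Agent.Work.MP_0c1793_al.StageW

/-!
# The grading of the complex, functoriality and exactness in the coefficient module
-/

namespace Pool.Agent.DG

open Finsupp TensorProduct

section

variable (k M : Type*) [CommRing k] [AddCommGroup M] [Module k M] (σ : Type*) (r : ℕ)

/-- the projection onto the part of degree `n` -/
noncomputable def prC (n : ℕ) : CC k M σ r →ₗ[k] CC k M σ r :=
  Finsupp.lsum k fun a => if a.degree ≤ n then
    Finsupp.lsingle a ∘ₗ LinearMap.lTensor M (MvPolynomial.homogeneousComponent (n - a.degree))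
  else 0

variable {k M σ r}

theorem prC_single (n : ℕ) (a : Fin r →₀ ℕ) (m : M) (p : MvPolynomial σ k) :
    prC k M σ r n (single a (m ⊗ₜ p)) = if a.degree ≤ n then
      single a (m ⊗ₜ MvPolynomial.homogeneousComponent (n - a.degree) p) else 0 := by
  unfold prC
  rw [Finsupp.lsum_single]
  split_ifs
  · rw [LinearMap.comp_apply, LinearMap.lTensor_tmul]
    rfl
  · rfl

theorem cc_induct {N : Type*} [AddCommGroup N] [Module k N] (G : Submodule k N)
    (φ : CC k M σ r →ₗ[k] N) (h : ∀ a m p, φ (single a (m ⊗ₜ p)) ∈ G) (f : CC k M σ r) :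
    φ f ∈ G := by
  induction f using Finsupp.induction_linear with
  | zero => rw [map_zero]; exact Submodule.zero_mem _
  | add f g hf hg => rw [map_add]; exact Submodule.add_mem _ hf hg
  | single a w =>
    induction w using TensorProduct.induction_on with
    | zero => rw [Finsupp.single_zero, map_zero]; exact Submodule.zero_mem _
    | tmul m p => exact h a m p
    | add x y hx hy => rw [Finsupp.single_add, map_add]; exact Submodule.add_mem _ hx hy

theorem prC_mem (n : ℕ) (f : CC k M σ r) : prC k M σ r n f ∈ GrC k M σ r n := by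
  refine cc_induct _ _ (fun a m p => ?_) f
  rw [prC_single]
  split_ifs with h
  · exact single_mem_GrC (by omega) m (MvPolynomial.homogeneousComponent_isHomogeneous _ _)
  · exact Submodule.zero_mem _

theorem prC_of_mem {n : ℕ} {f : CC k M σ r} (hf : f ∈ GrC k M σ r n) :
    prC k M σ r n f = f := by
  have := GrC_map (⊥ : Submodule k (CC k M σ r)) (prC k M σ r n - LinearMap.id)
    (fun a d m p h hp => by
      rw [LinearMap.sub_apply, prC_single, if_pos (by omega), LinearMap.id_apply,
        show n - a.degree = d by omega, MvPolynomial.homogeneousComponent_of_mem hp, if_pos rfl,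
        sub_self]
      exact Submodule.zero_mem _) f hf
  rw [Submodule.mem_bot, LinearMap.sub_apply, LinearMap.id_apply, sub_eq_zero] at this
  exact this

theorem prC_of_ne {n n' : ℕ} (hn : n ≠ n') {f : CC k M σ r} (hf : f ∈ GrC k M σ r n') :
    prC k M σ r n f = 0 := by
  have := GrC_map (⊥ : Submodule k (CC k M σ r)) (prC k M σ r n)
    (fun a d m p h hp => by
      rw [prC_single]
      split_ifs with h1
      · rw [MvPolynomial.homogeneousComponent_of_mem hp, if_neg (by omega),
          TensorProduct.tmul_zero, Finsupp.single_zero]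
        exact Submodule.zero_mem _
      · exact Submodule.zero_mem _) f hf
  exact (Submodule.mem_bot k).1 this

/-- linear maps which agree on homogeneous elements are equal -/
theorem gr_ext {N : Type*} [AddCommGroup N] [Module k N] {φ ψ : CC k M σ r →ₗ[k] N}
    (h : ∀ n, ∀ f ∈ GrC k M σ r n, φ f = ψ f) : φ = ψ := by
  refine cc_ext fun a m p => ?_
  have e : (single a (m ⊗ₜ p) : CC k M σ r) = ∑ d ∈ Finset.range (p.totalDegree + 1),
      single a (m ⊗ₜ MvPolynomial.homogeneousComponent d p) := by
    conv_lhs => rw [← MvPolynomial.sum_homogeneousComponent p, TensorProduct.tmul_sum]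
    exact map_sum (Finsupp.lsingle (R := k) a) _ _
  rw [e, map_sum, map_sum]
  exact Finset.sum_congr rfl fun d _ => h (a.degree + d) _
    (single_mem_GrC rfl m (MvPolynomial.homogeneousComponent_isHomogeneous _ _))

theorem prC_comm {c : ℕ} {D : CC k M σ r →ₗ[k] CC k M σ r}
    (hD : ∀ n, ∀ f ∈ GrC k M σ r n, D f ∈ GrC k M σ r (n + c)) (n : ℕ) (f : CC k M σ r) :
    D (prC k M σ r n f) = prC k M σ r (n + c) (D f) := by
  have : D ∘ₗ prC k M σ r n = prC k M σ r (n + c) ∘ₗ D := by
    refine gr_ext fun n' f hf => ?_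
    rw [LinearMap.comp_apply, LinearMap.comp_apply]
    by_cases h : n = n'
    · subst h
      rw [prC_of_mem hf, prC_of_mem (hD _ _ hf)]
    · rw [prC_of_ne h hf, map_zero, prC_of_ne (by omega) (hD _ _ hf)]
  exact LinearMap.congr_fun this f

/-- every element is the sum of its homogeneous parts -/
theorem sum_prC (f : CC k M σ r) :
    ∃ B, ∀ B' ≥ B, ∑ n ∈ Finset.range B', prC k M σ r n f = f := by
  induction f using Finsupp.induction_linear with
  | zero => exact ⟨0, fun B' _ => by simp⟩
  | add f g hf hg =>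
    obtain ⟨B, hB⟩ := hf
    obtain ⟨C, hC⟩ := hg
    refine ⟨max B C, fun B' hB' => ?_⟩
    simp only [map_add, Finset.sum_add_distrib]
    rw [hB _ (le_trans (le_max_left _ _) hB'), hC _ (le_trans (le_max_right _ _) hB')]
  | single a w =>
    induction w using TensorProduct.induction_on with
    | zero => exact ⟨0, fun B' _ => by simp⟩
    | add x y hf hg =>
      obtain ⟨B, hB⟩ := hf
      obtain ⟨C, hC⟩ := hg
      refine ⟨max B C, fun B' hB' => ?_⟩
      simp only [Finsupp.single_add, map_add, Finset.sum_add_distrib]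
      rw [hB _ (le_trans (le_max_left _ _) hB'), hC _ (le_trans (le_max_right _ _) hB')]
    | tmul m p =>
      have key : ∀ p : MvPolynomial σ k, ∃ B, ∀ B' ≥ B,
          ∑ n ∈ Finset.range B', prC k M σ r n (single a (m ⊗ₜ p)) = single a (m ⊗ₜ p) := by
        intro p
        induction p using MvPolynomial.induction_on' with
        | monomial s c =>
          refine ⟨a.degree + s.degree + 1, fun B' hB' => ?_⟩
          have hm : (single a (m ⊗ₜ MvPolynomial.monomial s c) : CC k M σ r) ∈
              GrC k M σ r (a.degree + s.degree) :=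
            single_mem_GrC rfl m (MvPolynomial.isHomogeneous_monomial c rfl)
          rw [Finset.sum_eq_single (a.degree + s.degree), prC_of_mem hm]
          · intro n _ hn
            exact prC_of_ne hn hm
          · intro h
            exact absurd (Finset.mem_range.2 (by omega)) h
        | add p q hf hg =>
          obtain ⟨B, hB⟩ := hf
          obtain ⟨C, hC⟩ := hg
          refine ⟨max B C, fun B' hB' => ?_⟩
          simp only [TensorProduct.tmul_add, Finsupp.single_add, map_add, Finset.sum_add_distrib]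
          rw [hB _ (le_trans (le_max_left _ _) hB'), hC _ (le_trans (le_max_right _ _) hB')]
      exact key p

end

section

variable {k : Type*} [CommRing k] {σ : Type*} {r : ℕ}

/-- functoriality in the coefficient module -/
noncomputable def mapC {M N : Type*} [AddCommGroup M] [Module k M] [AddCommGroup N] [Module k N]
    (σ : Type*) (r : ℕ) (φ : M →ₗ[k] N) : CC k M σ r →ₗ[k] CC k N σ r :=
  Finsupp.mapRange.linearMap (LinearMap.rTensor (MvPolynomial σ k) φ)

variable {M N P : Type*} [AddCommGroup M] [Module k M] [AddCommGroup N] [Module k N]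
  [AddCommGroup P] [Module k P]

theorem mapC_single (φ : M →ₗ[k] N) (a : Fin r →₀ ℕ) (m : M) (p : MvPolynomial σ k) :
    mapC σ r φ (single a (m ⊗ₜ p)) = single a (φ m ⊗ₜ p) := by
  unfold mapC
  rw [Finsupp.mapRange.linearMap_apply, Finsupp.mapRange_single, LinearMap.rTensor_tmul]

theorem mapC_comp (ψ : N →ₗ[k] P) (φ : M →ₗ[k] N) (f : CC k M σ r) :
    mapC σ r (ψ ∘ₗ φ) f = mapC σ r ψ (mapC σ r φ f) := by
  have : mapC σ r (ψ ∘ₗ φ) = mapC σ r ψ ∘ₗ mapC σ r φ := cc_ext fun a m p => by
    rw [LinearMap.comp_apply, mapC_single, mapC_single, mapC_single, LinearMap.comp_apply]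
  exact LinearMap.congr_fun this f

theorem mapC_add (φ ψ : M →ₗ[k] N) (f : CC k M σ r) :
    mapC σ r (φ + ψ) f = mapC σ r φ f + mapC σ r ψ f := by
  have : mapC σ r (φ + ψ) = mapC σ r φ + mapC σ r ψ := cc_ext fun a m p => by
    rw [LinearMap.add_apply, mapC_single, mapC_single, mapC_single, LinearMap.add_apply,
      TensorProduct.add_tmul, Finsupp.single_add]
  exact LinearMap.congr_fun this f

theorem mapC_smul (c : k) (φ : M →ₗ[k] N) (f : CC k M σ r) :
    mapC σ r (c • φ) f = c • mapC σ r φ f := by
  have : mapC σ r (c • φ) = c • mapC σ r φ := cc_ext fun a m p => by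
    rw [LinearMap.smul_apply, mapC_single, mapC_single, LinearMap.smul_apply,
      ← TensorProduct.smul_tmul', Finsupp.smul_single]
  exact LinearMap.congr_fun this f

theorem mapC_mem (φ : M →ₗ[k] N) (n : ℕ) :
    ∀ f ∈ GrC k M σ r n, mapC σ r φ f ∈ GrC k N σ r n :=
  GrC_map _ _ fun a d m p h hp => by
    rw [mapC_single]
    exact single_mem_GrC h _ hp

theorem mapC_prC (φ : M →ₗ[k] N) (n : ℕ) (f : CC k M σ r) :
    mapC σ r φ (prC k M σ r n f) = prC k N σ r n (mapC σ r φ f) := by
  have : mapC σ r φ ∘ₗ prC k M σ r n = prC k N σ r n ∘ₗ mapC σ r φ := by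
    refine gr_ext fun n' f hf => ?_
    rw [LinearMap.comp_apply, LinearMap.comp_apply]
    by_cases h : n = n'
    · subst h
      rw [prC_of_mem hf, prC_of_mem (mapC_mem φ _ _ hf)]
    · rw [prC_of_ne h hf, map_zero, prC_of_ne h (mapC_mem φ _ _ hf)]
  exact LinearMap.congr_fun this f

theorem mapC_cm (φ : M →ₗ[k] N) (ψ : MvPolynomial σ k →ₗ[k] MvPolynomial σ k) (f : CC k M σ r) :
    mapC σ r φ (cm M r ψ f) = cm N r ψ (mapC σ r φ f) := by
  have : mapC σ r φ ∘ₗ cm M r ψ = cm N r ψ ∘ₗ mapC σ r φ := cc_ext fun a m p => by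
    rw [LinearMap.comp_apply, LinearMap.comp_apply, cm_single, mapC_single, mapC_single, cm_single]
  exact LinearMap.congr_fun this f

theorem mapC_injective {φ : M →ₗ[k] N} (h : Function.Injective φ) (f : CC k M σ r)
    (hf : mapC σ r φ f = 0) : f = 0 := by
  have h1 : Function.Injective (LinearMap.rTensor (MvPolynomial σ k) φ) :=
    Module.Flat.rTensor_preserves_injective_linearMap φ h
  ext1 a
  apply h1
  have := DFunLike.congr_fun hf a
  rw [Finsupp.zero_apply, map_zero]
  exact this

theorem mapC_surjective {φ : M →ₗ[k] N} (h : Function.Surjective φ) (f : CC k N σ r) :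
    ∃ g, mapC σ r φ g = f := by
  induction f using Finsupp.induction_linear with
  | zero => exact ⟨0, map_zero _⟩
  | add f g hf hg =>
    obtain ⟨x, rfl⟩ := hf
    obtain ⟨y, rfl⟩ := hg
    exact ⟨x + y, map_add _ _ _⟩
  | single a w =>
    obtain ⟨v, rfl⟩ := LinearMap.rTensor_surjective (MvPolynomial σ k) h w
    refine ⟨single a v, ?_⟩
    unfold mapC
    rw [Finsupp.mapRange.linearMap_apply, Finsupp.mapRange_single]

theorem mapC_exact {φ : M →ₗ[k] N} {ψ : N →ₗ[k] P} (h : Function.Exact φ ψ) (f : CC k N σ r)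
    (hf : mapC σ r ψ f = 0) : ∃ g, mapC σ r φ g = f := by
  have h1 : Function.Exact (LinearMap.rTensor (MvPolynomial σ k) φ)
      (LinearMap.rTensor (MvPolynomial σ k) ψ) := Module.Flat.rTensor_exact _ h
  have h2 : ∀ a, ∃ v, LinearMap.rTensor (MvPolynomial σ k) φ v = f a := fun a =>
    (h1 (f a)).1 (DFunLike.congr_fun hf a)
  choose v hv using h2
  refine ⟨∑ a ∈ f.support, single a (v a), ?_⟩
  rw [map_sum]
  conv_rhs => rw [← Finsupp.sum_single f]
  refine Finset.sum_congr rfl fun a _ => ?_
  unfold mapC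
  rw [Finsupp.mapRange.linearMap_apply, Finsupp.mapRange_single, hv]

theorem mapC_surjective_gr {φ : M →ₗ[k] N} (h : Function.Surjective φ) {n : ℕ} {f : CC k N σ r}
    (hf : f ∈ GrC k N σ r n) : ∃ g ∈ GrC k M σ r n, mapC σ r φ g = f := by
  obtain ⟨g, rfl⟩ := mapC_surjective h f
  exact ⟨prC k M σ r n g, prC_mem n g, by rw [mapC_prC, prC_of_mem hf]⟩

theorem mapC_exact_gr {φ : M →ₗ[k] N} {ψ : N →ₗ[k] P} (h : Function.Exact φ ψ) {n : ℕ}
    {f : CC k N σ r} (hf : f ∈ GrC k N σ r n) (hf' : mapC σ r ψ f = 0) :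
    ∃ g ∈ GrC k M σ r n, mapC σ r φ g = f := by
  obtain ⟨g, rfl⟩ := mapC_exact h f hf'
  exact ⟨prC k M σ r n g, prC_mem n g, by rw [mapC_prC, prC_of_mem hf]⟩

end

end Pool.Agent.DG
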