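import Pool.Agent.Work.MP_0c1793_al.Cx
import Pool.Agent.Work.MP_0c1793_al.Tot
import Pool.Agent.Work.MP_0c1793_al.Gr

/-! # The projector onto the part of degree zero -/

set_option autoImplicit false
set_option linter.unusedSectionVars false

universe u v

open MvPolynomial TensorProduct

namespace Pool.Agent.DG

open Finsupp

/-- the total differential is natural -/
theorem tot_nat {k W W' : Type*} [CommRing k] [AddCommGroup W] [Module k W] [AddCommGroup W']
    [Module k W'] {r : ℕ} (T : W →ₗ[k] W') (D0 : W →ₗ[k] W) (P N K : Fin r → W →ₗ[k] W)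
    (D0' : W' →ₗ[k] W') (P' N' K' : Fin r → W' →ₗ[k] W')
    (hD : ∀ w, T (D0 w) = D0' (T w)) (hP : ∀ l w, T (P l w) = P' l (T w))
    (hN : ∀ l w, T (N l w) = N' l (T w)) (hK : ∀ l w, T (K l w) = K' l (T w))
    (f : (Fin r →₀ ℕ) →₀ W) :
    Finsupp.mapRange.linearMap T (tot D0 P N K f) =
      tot D0' P' N' K' (Finsupp.mapRange.linearMap T f) := by
  have hms : ∀ (a : Fin r →₀ ℕ) (w : W), (Finsupp.mapRange.linearMap T) (single a w) =
      single a (T w) := fun a w => by
    rw [Finsupp.mapRange.linearMap_apply, Finsupp.mapRange_single]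
  have hop : ∀ l n w, T (opn P N l n w) = opn P' N' l n (T w) := by
    intro l n w
    unfold opn
    split_ifs
    · exact hP l w
    · exact hN l w
  have h : (Finsupp.mapRange.linearMap T : ((Fin r →₀ ℕ) →₀ W) →ₗ[k] _) ∘ₗ tot D0 P N K =
      tot D0' P' N' K' ∘ₗ Finsupp.mapRange.linearMap T := by
    refine Finsupp.lhom_ext fun a w => ?_
    rw [LinearMap.comp_apply, LinearMap.comp_apply, hms, tot_single, tot_single, map_add, map_add,
      map_sum, map_sum, map_smul, hms, hD]
    congr 1
    · congr 1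
      refine Finset.sum_congr rfl fun l _ => ?_
      rw [map_smul, hms, hop]
    · refine Finset.sum_congr rfl fun l _ => ?_
      split_ifs
      · rw [map_smul, hms, hK]
      · rw [map_zero]
  exact LinearMap.congr_fun h f

end Pool.Agent.DG

namespace Pool.Agent.Work.MP_0c1793_al

open Pool.Agent.DG

/-- homogeneous substitutions preserve weighted homogeneity -/
theorem wh_aeval {k σ Y : Type*} [CommRing k] [AddCommMonoid Y] {w : σ → Y}
    {f : σ → MvPolynomial σ k} (hf : ∀ u, IsWeightedHomogeneous w (f u) (w u))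
    {p : MvPolynomial σ k} {δ : Y} (hp : IsWeightedHomogeneous w p δ) :
    IsWeightedHomogeneous w (aeval f p) δ := by
  rw [p.as_sum, map_sum]
  refine IsWeightedHomogeneous.sum _ _ _ fun s hs => ?_
  rw [aeval_monomial, algebraMap_eq]
  have h1 : Finsupp.weight w s = δ := hp (mem_support_iff.1 hs)
  have h2 : IsWeightedHomogeneous w (s.prod fun i n => f i ^ n) δ := by
    rw [← h1, Finsupp.weight_apply, Finsupp.sum]
    exact IsWeightedHomogeneous.prod _ _ _ fun i _ => (hf i).pow _
  exact h2.C_mul _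

/-- the homogeneous components of homogeneous polynomials are homogeneous -/
theorem hom_whc {k σ Y : Type*} [CommRing k] [AddCommMonoid Y] {w : σ → Y} {d : ℕ}
    {p : MvPolynomial σ k} (hp : p.IsHomogeneous d) (δ : Y) :
    (weightedHomogeneousComponent w δ p).IsHomogeneous d := by
  classical
  intro s hs
  rw [coeff_weightedHomogeneousComponent] at hs
  split_ifs at hs with h
  · exact hp hs
  · exact absurd rfl hs

variable {k : Type u} [Field k] {X : Type} [AddCommGroup X] [Fintype X] [DecidableEq X]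

/-- the sign of a parity -/
def sgn (k : Type*) [Ring k] (s : ZMod 2) : k := if s = 0 then 1 else -1

theorem sgn_add_one (s : ZMod 2) : sgn k (s + 1) = -sgn k s := by
  have h : s = 0 ∨ s = 1 := by
    fin_cases s
    · exact Or.inl rfl
    · exact Or.inr rfl
  rcases h with rfl | rfl
  · simp [sgn]
  · have : (1 + 1 : ZMod 2) = 0 := rfl
    simp [sgn, this]

variable (G : HCData k X)

/-- the idempotent of degree `κ` -/
noncomputable def eps (κ : X × ZMod 2) : Dbl G :=
  (2⁻¹ : k) • ((gen G).e κ.1 * (1 + sgn k κ.2 • (gen G).par))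

theorem par_e_comm (ν : X) : (gen G).par * (gen G).e ν = (gen G).e ν * (gen G).par :=
  (gen G).par_e ν

theorem eps_mul (h2 : (2 : k) ≠ 0) (κ κ' : X × ZMod 2) :
    eps G κ * eps G κ' = if κ = κ' then eps G κ else 0 := by
  obtain ⟨ν, s⟩ := κ
  obtain ⟨ν', s'⟩ := κ'
  have h1 : eps G (ν, s) * eps G (ν', s') = (2⁻¹ * 2⁻¹ : k) • (((gen G).e ν * (gen G).e ν') *
      ((1 + sgn k s * sgn k s') • (1 : Dbl G) + (sgn k s + sgn k s') • (gen G).par)) := by
    unfold eps
    rw [smul_mul_smul_comm]
    congr 1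
    have hc : (1 + sgn k s • (gen G).par) * (gen G).e ν' =
        (gen G).e ν' * (1 + sgn k s • (gen G).par) := by
      rw [add_mul, mul_add, one_mul, mul_one, smul_mul_assoc, mul_smul_comm, par_e_comm]
    have hp : (1 + sgn k s • (gen G).par) * (1 + sgn k s' • (gen G).par) =
        (1 + sgn k s * sgn k s') • (1 : Dbl G) + (sgn k s + sgn k s') • (gen G).par := by
      rw [add_mul, mul_add, mul_add, one_mul, one_mul, mul_one, smul_mul_smul_comm,
        (gen G).par_sq, add_smul, add_smul, one_smul]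
      abel
    rw [← hp]
    simp only [mul_assoc]
    congr 1
    rw [← mul_assoc, hc, mul_assoc]
  rw [h1, (gen G).e_mul]
  by_cases hν : ν = ν'
  · subst hν
    rw [if_pos rfl]
    by_cases hs : s = s'
    · subst hs
      rw [if_pos rfl]
      have e1 : sgn k s * sgn k s = 1 := by unfold sgn; split_ifs <;> ring
      unfold eps
      rw [e1, show (1 : k) + 1 = 2 by norm_num, show sgn k s + sgn k s = 2 * sgn k s by ring,
        mul_smul (2 : k) (sgn k s), ← smul_add, mul_smul_comm, smul_smul]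
      congr 1
      field_simp
    · rw [if_neg (fun h => hs (Prod.mk.inj h).2)]
      have e1 : sgn k s + sgn k s' = 0 := by
        have : s' = s + 1 := by
          fin_cases s <;> fin_cases s' <;> first | exact absurd rfl hs | rfl
        rw [this, sgn_add_one]
        ring
      have e2 : 1 + sgn k s * sgn k s' = 0 := by
        have e3 : sgn k s * sgn k s = 1 := by unfold sgn; split_ifs <;> ring
        have : sgn k s' = -sgn k s := by rw [← add_eq_zero_iff_neg_eq.1 e1]
        rw [this, mul_neg, e3]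
        ring
      rw [e1, e2, zero_smul, zero_smul, add_zero, mul_zero, smul_zero]
  · rw [if_neg hν, if_neg (fun h => hν (Prod.mk.inj h).1), zero_mul, smul_zero]

theorem x_eps (i : Fin G.m) (κ : X × ZMod 2) :
    (gen G).x i * eps G κ = eps G (κ + (G.wt i, 1)) * (gen G).x i := by
  unfold eps
  rw [mul_smul_comm, smul_mul_assoc]
  congr 1
  rw [← mul_assoc, (gen G).x_e, mul_assoc, mul_assoc]
  show (gen G).e (κ.1 + G.wt i) * _ = (gen G).e (κ.1 + G.wt i) * ((1 + sgn k (κ.2 + 1) • _) * _)
  congr 1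
  rw [sgn_add_one, mul_add, add_mul, mul_one, one_mul, mul_smul_comm, smul_mul_assoc,
    (gen G).par_x, neg_smul_neg]

theorem xi_eps (i : Fin G.m) (κ : X × ZMod 2) :
    (gen G).xi i * eps G κ = eps G (κ + (-G.wt i, 1)) * (gen G).xi i := by
  unfold eps
  rw [mul_smul_comm, smul_mul_assoc]
  congr 1
  rw [← mul_assoc, (gen G).xi_e, mul_assoc, mul_assoc]
  show (gen G).e (κ.1 - G.wt i) * _ = (gen G).e (κ.1 + -G.wt i) * ((1 + sgn k (κ.2 + 1) • _) * _)
  rw [sub_eq_add_neg]
  congr 1
  rw [sgn_add_one, mul_add, add_mul, mul_one, one_mul, mul_smul_comm, smul_mul_assoc,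
    (gen G).par_xi, neg_smul_neg]

theorem s_eps (μ : X) (κ : X × ZMod 2) :
    (gen G).s μ * eps G κ = eps G κ * (gen G).s μ := by
  unfold eps
  rw [mul_smul_comm, smul_mul_assoc]
  congr 1
  rw [← mul_assoc, (gen G).s_e, mul_assoc, mul_assoc]
  congr 1
  rw [mul_add, add_mul, mul_one, one_mul, mul_smul_comm, smul_mul_assoc, (gen G).par_s]

/-- the degrees of the variables -/
def wgt (u : Fin G.m ⊕ Fin G.m) : X × ZMod 2 :=
  Sum.elim (fun i => (-G.wt i, 1)) (fun j => (G.wt j, 1)) u

omit [Fintype X] [DecidableEq X] in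
theorem wh_y (i : Fin G.m) : IsWeightedHomogeneous (wgt G) (vy G i) (-G.wt i, 1) :=
  isWeightedHomogeneous_X _ _ _

omit [Fintype X] [DecidableEq X] in
theorem wh_z (j : Fin G.m) : IsWeightedHomogeneous (wgt G) (vz G j) (G.wt j, 1) :=
  isWeightedHomogeneous_X _ _ _

theorem wh_trans (μ : X) {p : Pol G} {δ : X × ZMod 2} (hp : IsWeightedHomogeneous (wgt G) p δ) :
    IsWeightedHomogeneous (wgt G) (trans G μ p) δ := by
  refine wh_aeval ?_ hp
  rintro (i | j)
  · exact wh_y G i
  · refine (wh_z G j).add (IsWeightedHomogeneous.sum _ _ _ fun i _ => ?_)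
    by_cases h : G.c i j = 0
    · rw [h, AddMonoidHom.zero_apply, zero_smul]
      exact isWeightedHomogeneous_zero _ _ _
    · have h1 := G.inv i j h
      have h2 := (wh_y G i).C_mul (G.c i j μ)
      rw [neg_eq_of_add_eq_zero_right h1] at h2
      rw [MvPolynomial.smul_eq_C_mul]
      exact h2

theorem wh_Fq (l : X) : IsWeightedHomogeneous (wgt G) (Fq G l) 0 := by
  unfold Fq
  refine IsWeightedHomogeneous.sum _ _ _ fun i _ => ?_
  split_ifs
  · have := (wh_y G i).mul (wh_z G i)
    have e : ((-G.wt i, 1) : X × ZMod 2) + (G.wt i, 1) = 0 := by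
      refine Prod.ext ?_ ?_
      · exact neg_add_cancel _
      · rfl
    rwa [e] at this
  · exact isWeightedHomogeneous_zero _ _ _

theorem wh_Eq (l : X) : IsWeightedHomogeneous (wgt G) (Eq G l) 0 :=
  (wh_Fq G l).sub (wh_Fq G (-l))

section Ops

variable (M : Type v) [AddCommGroup M] [Module k M] [Module (Dbl G) M] [IsScalarTower k (Dbl G) M]

/-- the projector on `M ⊗ S` -/
noncomputable def E0W : Module.End k (W G M) :=
  ∑ κ : X × ZMod 2, act G M (eps G κ) * LinearMap.lTensor M (weightedHomogeneousComponent (wgt G) (-κ))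

variable {G M}

theorem E0W_tmul {p : Pol G} {δ : X × ZMod 2} (hp : IsWeightedHomogeneous (wgt G) p δ) (m : M) :
    E0W G M (m ⊗ₜ p) = (eps G (-δ) • m) ⊗ₜ p := by
  unfold E0W
  rw [LinearMap.sum_apply, Finset.sum_eq_single (-δ)]
  · rw [Module.End.mul_apply, LinearMap.lTensor_tmul, neg_neg,
      hp.weightedHomogeneousComponent_same]
    rfl
  · intro κ _ hκ
    rw [Module.End.mul_apply, LinearMap.lTensor_tmul,
      hp.weightedHomogeneousComponent_ne _ (fun h => hκ (by rw [← h, neg_neg])),
      TensorProduct.tmul_zero, map_zero]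
  · intro h
    exact absurd (Finset.mem_univ _) h

omit [Fintype X] [DecidableEq X] [Module (Dbl G) M] [IsScalarTower k (Dbl G) M] in
/-- linear maps which agree on homogeneous tensors are equal -/
theorem w_ext {N : Type*} [AddCommGroup N] [Module k N] {f g : W G M →ₗ[k] N}
    (h : ∀ (δ : X × ZMod 2) (m : M) (p : Pol G), IsWeightedHomogeneous (wgt G) p δ →
      f (m ⊗ₜ p) = g (m ⊗ₜ p)) : f = g := by
  refine TensorProduct.ext' fun m p => ?_
  induction p using MvPolynomial.induction_on' with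
  | monomial s c => exact h _ m _ (isWeightedHomogeneous_monomial _ s c rfl)
  | add p q hp hq => rw [TensorProduct.tmul_add, map_add, map_add, hp, hq]

theorem E0W_E0W (h2 : (2 : k) ≠ 0) : E0W G M * E0W G M = E0W G M := by
  refine w_ext fun δ m p hp => ?_
  rw [Module.End.mul_apply, E0W_tmul hp, E0W_tmul hp, smul_smul, eps_mul G h2, if_pos rfl]

theorem E0W_mu {g : Pol G} (hg : IsWeightedHomogeneous (wgt G) g 0) :
    E0W G M * mu G M g = mu G M g * E0W G M := by
  refine w_ext fun δ m p hp => ?_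
  have h1 := hg.mul hp
  rw [zero_add] at h1
  rw [Module.End.mul_apply, Module.End.mul_apply, mu_tmul, E0W_tmul h1, E0W_tmul hp, mu_tmul]

theorem E0W_rho (b : AddMonoidAlgebra k X) : E0W G M * rho G M b = rho G M b * E0W G M := by
  refine rho_comm (fun μ => ?_) b
  refine w_ext fun δ m p hp => ?_
  rw [Module.End.mul_apply, Module.End.mul_apply, Module.End.mul_apply, Module.End.mul_apply,
    tr_tmul, act_tmul, E0W_tmul (wh_trans G μ hp), E0W_tmul hp, tr_tmul, act_tmul, smul_smul,
    smul_smul, s_eps]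

theorem E0W_D0 : E0W G M * D0 G M = D0 G M * E0W G M := by
  refine w_ext fun δ m p hp => ?_
  rw [Module.End.mul_apply, Module.End.mul_apply, E0W_tmul hp]
  unfold D0
  simp only [LinearMap.add_apply, LinearMap.sum_apply, Module.End.mul_apply, mu_tmul, act_tmul,
    map_add, map_sum]
  congr 1
  · refine Finset.sum_congr rfl fun i _ => ?_
    rw [E0W_tmul ((wh_y G i).mul hp), smul_smul, smul_smul, x_eps]
    congr 4
    refine Prod.ext ?_ ?_
    · simp
    · show -(1 + δ.2) = -δ.2 + 1
      rw [neg_add, add_comm]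
      rfl
  · refine Finset.sum_congr rfl fun i _ => ?_
    rw [E0W_tmul ((wh_z G i).mul hp), smul_smul, smul_smul, xi_eps]
    congr 4
    refine Prod.ext ?_ ?_
    · simp
    · show -(1 + δ.2) = -δ.2 + 1
      rw [neg_add, add_comm]
      rfl

variable (G M)

/-- the projector on the complex -/
noncomputable def E0 (r : ℕ) : CC k M (Fin G.m ⊕ Fin G.m) r →ₗ[k] CC k M (Fin G.m ⊕ Fin G.m) r :=
  Finsupp.mapRange.linearMap (E0W G M)

variable {G M} {r : ℕ}

theorem E0_single (a : Fin r →₀ ℕ) (w : W G M) :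
    E0 G M r (Finsupp.single a w) = Finsupp.single a (E0W G M w) := by
  unfold E0
  rw [Finsupp.mapRange.linearMap_apply, Finsupp.mapRange_single]

theorem E0_E0 (h2 : (2 : k) ≠ 0) (f : CC k M (Fin G.m ⊕ Fin G.m) r) :
    E0 G M r (E0 G M r f) = E0 G M r f := by
  have : E0 G M r ∘ₗ E0 G M r = E0 G M r := by
    refine Finsupp.lhom_ext fun a w => ?_
    rw [LinearMap.comp_apply, E0_single, E0_single, ← Module.End.mul_apply, E0W_E0W h2]
  exact LinearMap.congr_fun this f

theorem E0_gr (n : ℕ) : ∀ f ∈ GrC k M (Fin G.m ⊕ Fin G.m) r n, E0 G M r f ∈ GrC k M _ r n :=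
  GrC_map _ _ fun a d m p h hp => by
    have e1 : E0W G M (m ⊗ₜ p) = ∑ κ : X × ZMod 2,
        (eps G κ • m) ⊗ₜ[k] weightedHomogeneousComponent (wgt G) (-κ) p := by
      unfold E0W
      rw [LinearMap.sum_apply]
      rfl
    have e : (Finsupp.single a (∑ κ : X × ZMod 2,
        (eps G κ • m) ⊗ₜ[k] weightedHomogeneousComponent (wgt G) (-κ) p) :
        CC k M (Fin G.m ⊕ Fin G.m) r) = ∑ κ : X × ZMod 2, Finsupp.single a
          ((eps G κ • m) ⊗ₜ[k] weightedHomogeneousComponent (wgt G) (-κ) p) :=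
      map_sum (Finsupp.lsingle (R := k) a) _ _
    rw [E0_single, e1, e]
    exact Submodule.sum_mem _ fun κ _ => single_mem_GrC h _ (hom_whc hp _)

theorem E0_prC (n : ℕ) (f : CC k M (Fin G.m ⊕ Fin G.m) r) :
    E0 G M r (prC k M _ r n f) = prC k M _ r n (E0 G M r f) :=
  prC_comm (c := 0) E0_gr n f

variable {N : Type*} [AddCommGroup N] [Module k N] [Module (Dbl G) N] [IsScalarTower k (Dbl G) N]

theorem E0_mapC (φ : M →ₗ[k] N) (hφ : ∀ (a : Dbl G) (m : M), φ (a • m) = a • φ m)
    (f : CC k M (Fin G.m ⊕ Fin G.m) r) :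
    mapC _ r φ (E0 G M r f) = E0 G N r (mapC _ r φ f) := by
  have h1 : LinearMap.rTensor (Pol G) φ ∘ₗ E0W G M = E0W G N ∘ₗ LinearMap.rTensor (Pol G) φ := by
    refine w_ext fun δ m p hp => ?_
    rw [LinearMap.comp_apply, LinearMap.comp_apply, E0W_tmul hp, LinearMap.rTensor_tmul,
      LinearMap.rTensor_tmul, E0W_tmul hp, hφ]
  have : mapC _ r φ ∘ₗ E0 G M r = E0 G N r ∘ₗ mapC _ r φ := by
    refine cc_ext fun a m p => ?_
    rw [LinearMap.comp_apply, LinearMap.comp_apply, E0_single, mapC_single, E0_single]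
    unfold mapC
    rw [Finsupp.mapRange.linearMap_apply, Finsupp.mapRange_single]
    exact congrArg (Finsupp.single a) (LinearMap.congr_fun h1 (m ⊗ₜ[k] p))
  exact LinearMap.congr_fun this f

end Ops

end Pool.Agent.Work.MP_0c1793_al
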