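import Pool.Agent.Work.MP_0c1793_al.Noeth
import Pool.Agent.Work.MP_0c1793_al.E0
import Pool.Agent.Work.MP_0c1793_al.Tot

/-! # The operators commute with the projector and the differential -/

set_option autoImplicit false

universe u v

open MvPolynomial TensorProduct

namespace Pool.Agent.Work.MP_0c1793_al

open Pool.Agent.DG

section Weight

variable {k : Type u} [Field k] {X : Type} [AddCommGroup X] [Fintype X] [DecidableEq X]
  (G : HCData k X)

theorem wh_rr (u : Fin G.m ⊕ Fin G.m) : IsWeightedHomogeneous (wgt G) (rr G u) 0 := by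
  unfold rr
  have h1 : ∀ μ : X, IsWeightedHomogeneous (wgt G) (trans G μ (MvPolynomial.X u)) (wgt G u) :=
    fun μ => wh_trans G μ (isWeightedHomogeneous_X _ _ _)
  have h2 := (IsWeightedHomogeneous.prod (Finset.univ : Finset X)
    (fun μ => trans G μ (MvPolynomial.X u)) (fun _ => wgt G u) (fun μ _ => h1 μ)).pow 2
  rw [Finset.sum_const, Finset.card_univ] at h2
  have h3 : (2 : ℕ) • (Fintype.card X • wgt G u) = 0 := by
    refine Prod.ext ?_ ?_
    · show (2 : ℕ) • (Fintype.card X • (wgt G u).1) = 0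
      rw [card_nsmul_eq_zero, nsmul_zero]
    · show (2 : ℕ) • (Fintype.card X • (wgt G u).2) = 0
      rw [nsmul_eq_mul]
      have : ((2 : ℕ) : ZMod 2) = 0 := rfl
      rw [this, zero_mul]
  rwa [h3] at h2

variable {G} {M : Type v} [AddCommGroup M] [Module k M] [Module (Dbl G) M]
  [IsScalarTower k (Dbl G) M] {r : ℕ}

theorem E0_opsC (i : (Fin G.m ⊕ Fin G.m) ⊕ Fin r) (f : CC k M (Fin G.m ⊕ Fin G.m) r) :
    E0 G M r (opsC M r (rr G) i f) = opsC M r (rr G) i (E0 G M r f) := by
  rcases i with u | l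
  · show E0 G M r (cm M r (LinearMap.mulLeft k (rr G u)) f) =
      cm M r (LinearMap.mulLeft k (rr G u)) (E0 G M r f)
    rw [cm_mulLeft]
    have h : E0 G M r ∘ₗ Finsupp.mapRange.linearMap (mu G M (rr G u)) =
        Finsupp.mapRange.linearMap (mu G M (rr G u)) ∘ₗ E0 G M r := by
      refine Finsupp.lhom_ext fun a w => ?_
      rw [LinearMap.comp_apply, LinearMap.comp_apply, E0_single,
        Finsupp.mapRange.linearMap_apply, Finsupp.mapRange.linearMap_apply,
        Finsupp.mapRange_single, Finsupp.mapRange_single, E0_single, ← Module.End.mul_apply,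
        E0W_mu (wh_rr G u), Module.End.mul_apply]
    exact LinearMap.congr_fun h f
  · show E0 G M r (chiC k M _ l f) = chiC k M _ l (E0 G M r f)
    have h : E0 G M r ∘ₗ chiC k M _ l = chiC k M _ l ∘ₗ E0 G M r := by
      refine Finsupp.lhom_ext fun a w => ?_
      rw [LinearMap.comp_apply, LinearMap.comp_apply, E0_single, chiC_single, chiC_single,
        E0_single]
    exact LinearMap.congr_fun h f

end Weight

section Diff

variable {k M : Type*} [Field k] [AddCommGroup M] [Module k M] {σ : Type*} {r : ℕ}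

theorem tot_chiC (D0 : (M ⊗[k] MvPolynomial σ k) →ₗ[k] (M ⊗[k] MvPolynomial σ k))
    (P N K : Fin r → (M ⊗[k] MvPolynomial σ k) →ₗ[k] (M ⊗[k] MvPolynomial σ k)) (l : Fin r)
    (f : CC k M σ r) : tot D0 P N K (chiC k M σ l f) = chiC k M σ l (tot D0 P N K f) := by
  have hdeg : ∀ a : Fin r →₀ ℕ, ((-1 : k)) ^ (a + Finsupp.single l 2).degree = (-1) ^ a.degree := by
    intro a
    rw [map_add, Finsupp.degree_single, pow_add]
    norm_num
  have hsg : ∀ (l' : Fin r) (a : Fin r →₀ ℕ), sg k l' (a + Finsupp.single l 2) = sg k l' a := by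
    intro l' a
    have h2 : (Finsupp.single l 2 : Fin r →₀ ℕ) = ev l + ev l := by
      rw [← Finsupp.single_add]
    rw [h2, sg_add, sg_add, sg_mul_self, mul_one]
  have hval : ∀ (l' : Fin r) (a : Fin r →₀ ℕ), (a + Finsupp.single l 2 : Fin r →₀ ℕ) l' = a l' ∨
      (a + Finsupp.single l 2 : Fin r →₀ ℕ) l' = a l' + 1 + 1 := by
    intro l' a
    by_cases h : l = l'
    · subst h
      right
      simp
    · left
      simp [Finsupp.single_eq_of_ne' h]
  have hopn : ∀ (l' : Fin r) (a : Fin r →₀ ℕ), opn P N l' ((a + Finsupp.single l 2 : Fin r →₀ ℕ) l') =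
      opn P N l' (a l') := by
    intro l' a
    rcases hval l' a with h | h
    · rw [h]
    · rw [h, opn_add_two]
  have hodd : ∀ (l' : Fin r) (a : Fin r →₀ ℕ), Odd ((a + Finsupp.single l 2 : Fin r →₀ ℕ) l') ↔
      Odd (a l') := by
    intro l' a
    rcases hval l' a with h | h
    · rw [h]
    · rw [h, Nat.odd_add_one, Nat.odd_add_one, not_not]
  have hsub : ∀ (l' : Fin r) (a : Fin r →₀ ℕ), Odd (a l') →
      a + Finsupp.single l 2 - ev l' = a - ev l' + Finsupp.single l 2 := by
    intro l' a ho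
    have h1 : ev l' ≤ a := by
      intro j
      by_cases h : l' = j
      · subst h
        rw [ev_same]
        exact ho.pos
      · rw [ev_ne h]
        exact Nat.zero_le _
    rw [tsub_add_eq_add_tsub h1]
  have h : tot D0 P N K ∘ₗ chiC k M σ l = chiC k M σ l ∘ₗ tot D0 P N K := by
    refine Finsupp.lhom_ext fun a w => ?_
    rw [LinearMap.comp_apply, LinearMap.comp_apply, chiC_single, tot_single, tot_single,
      LinearMap.map_add, LinearMap.map_add, map_smul, chiC_single, map_sum, map_sum, hdeg]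
    congr 1
    · congr 1
      refine Finset.sum_congr rfl fun l' _ => ?_
      rw [map_smul, chiC_single, hsg, hopn, add_right_comm]
    · refine Finset.sum_congr rfl fun l' _ => ?_
      by_cases ho : Odd (a l')
      · rw [if_pos ho, if_pos ((hodd l' a).2 ho), map_smul, chiC_single, hsg, hsub l' a ho]
      · rw [if_neg ho, if_neg (fun h => ho ((hodd l' a).1 h)), map_zero]
  exact LinearMap.congr_fun h f

/-- multiplication by a polynomial commutes with the total differential -/
theorem tot_mulC (g : MvPolynomial σ k)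
    (D0 : (M ⊗[k] MvPolynomial σ k) →ₗ[k] (M ⊗[k] MvPolynomial σ k))
    (P N K : Fin r → (M ⊗[k] MvPolynomial σ k) →ₗ[k] (M ⊗[k] MvPolynomial σ k))
    (hD : ∀ w, LinearMap.lTensor M (LinearMap.mulLeft k g) (D0 w) =
      D0 (LinearMap.lTensor M (LinearMap.mulLeft k g) w))
    (hP : ∀ l w, LinearMap.lTensor M (LinearMap.mulLeft k g) (P l w) =
      P l (LinearMap.lTensor M (LinearMap.mulLeft k g) w))
    (hN : ∀ l w, LinearMap.lTensor M (LinearMap.mulLeft k g) (N l w) =
      N l (LinearMap.lTensor M (LinearMap.mulLeft k g) w))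
    (hK : ∀ l w, LinearMap.lTensor M (LinearMap.mulLeft k g) (K l w) =
      K l (LinearMap.lTensor M (LinearMap.mulLeft k g) w))
    (f : CC k M σ r) : tot D0 P N K (cm M r (LinearMap.mulLeft k g) f) =
      cm M r (LinearMap.mulLeft k g) (tot D0 P N K f) :=
  (tot_nat (LinearMap.lTensor M (LinearMap.mulLeft k g)) D0 P N K D0 P N K hD hP hN hK f).symm

/-- the operators commute with the total differential -/
theorem tot_opsC (g : σ → MvPolynomial σ k)
    (D0 : (M ⊗[k] MvPolynomial σ k) →ₗ[k] (M ⊗[k] MvPolynomial σ k))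
    (P N K : Fin r → (M ⊗[k] MvPolynomial σ k) →ₗ[k] (M ⊗[k] MvPolynomial σ k))
    (hD : ∀ u w, LinearMap.lTensor M (LinearMap.mulLeft k (g u)) (D0 w) =
      D0 (LinearMap.lTensor M (LinearMap.mulLeft k (g u)) w))
    (hP : ∀ u l w, LinearMap.lTensor M (LinearMap.mulLeft k (g u)) (P l w) =
      P l (LinearMap.lTensor M (LinearMap.mulLeft k (g u)) w))
    (hN : ∀ u l w, LinearMap.lTensor M (LinearMap.mulLeft k (g u)) (N l w) =
      N l (LinearMap.lTensor M (LinearMap.mulLeft k (g u)) w))
    (hK : ∀ u l w, LinearMap.lTensor M (LinearMap.mulLeft k (g u)) (K l w) =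
      K l (LinearMap.lTensor M (LinearMap.mulLeft k (g u)) w))
    (i : σ ⊕ Fin r) (f : CC k M σ r) :
    tot D0 P N K (opsC M r g i f) = opsC M r g i (tot D0 P N K f) := by
  rcases i with u | l
  · exact tot_mulC (g u) D0 P N K (hD u) (hP u) (hN u) (hK u) f
  · exact tot_chiC D0 P N K l f

end Diff

end Pool.Agent.Work.MP_0c1793_al
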