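import Pool.Agent.Work.MP_0c1793_al.Cx3
import Pool.Agent.Work.MP_0c1793_al.E0
import Pool.Agent.Work.MP_0c1793_al.NoethE

/-! # The complex satisfies the conditions of the abstract part -/

set_option autoImplicit false
set_option linter.unusedSectionVars false

universe u v

open MvPolynomial TensorProduct

namespace Pool.Agent.DG

open Finsupp

theorem opn_int {k W W' : Type*} [CommRing k] [AddCommGroup W] [Module k W] [AddCommGroup W']
    [Module k W'] {r : ℕ} (A B B' : W →ₗ[k] W) (P N : Fin r → W →ₗ[k] W)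
    (hP : ∀ l w, A (P l (B w)) = A (B' (P l w))) (hN : ∀ l w, A (N l (B w)) = A (B' (N l w)))
    (l : Fin r) (n : ℕ) (w : W) : A (opn P N l n (B w)) = A (B' (opn P N l n w)) := by
  unfold opn
  split_ifs
  · exact hP l w
  · exact hN l w

/-- intertwining for the total differential -/
theorem tot_int {k W : Type*} [CommRing k] [AddCommGroup W] [Module k W] {r : ℕ}
    (A B B' : W →ₗ[k] W) (D0 : W →ₗ[k] W) (P N K : Fin r → W →ₗ[k] W)
    (hD : ∀ w, A (D0 (B w)) = A (B' (D0 w)))
    (hP : ∀ l w, A (P l (B w)) = A (B' (P l w))) (hN : ∀ l w, A (N l (B w)) = A (B' (N l w)))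
    (hK : ∀ l w, A (K l (B w)) = A (B' (K l w))) (f : (Fin r →₀ ℕ) →₀ W) :
    Finsupp.mapRange.linearMap A (tot D0 P N K (Finsupp.mapRange.linearMap B f)) =
      Finsupp.mapRange.linearMap A (Finsupp.mapRange.linearMap B' (tot D0 P N K f)) := by
  have hms : ∀ (C : W →ₗ[k] W) (a : Fin r →₀ ℕ) (w : W), (Finsupp.mapRange.linearMap C)
      (single a w) = single a (C w) := fun C a w => by
    rw [Finsupp.mapRange.linearMap_apply, Finsupp.mapRange_single]
  have hop := opn_int (W' := W) A B B' P N hP hN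
  have h : Finsupp.mapRange.linearMap A ∘ₗ tot D0 P N K ∘ₗ Finsupp.mapRange.linearMap B =
      Finsupp.mapRange.linearMap A ∘ₗ Finsupp.mapRange.linearMap B' ∘ₗ tot D0 P N K := by
    refine Finsupp.lhom_ext fun a w => ?_
    simp only [LinearMap.comp_apply]
    rw [hms, tot_single, tot_single]
    simp only [map_add, map_sum, map_smul, hms, hD]
    congr 1
    · congr 1
      refine Finset.sum_congr rfl fun l _ => ?_
      rw [hop]
    · refine Finset.sum_congr rfl fun l _ => ?_
      split_ifs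
      · simp only [map_smul, hms, hK]
      · simp only [map_zero]
  exact LinearMap.congr_fun h f

theorem sg_zero {k : Type*} [Ring k] {r : ℕ} (l : Fin r) : sg k l (0 : Fin r →₀ ℕ) = 1 := by
  unfold sg
  simp

end Pool.Agent.DG

namespace Pool.Agent.Work.MP_0c1793_al

open Pool.Agent.DG

variable {k : Type u} [Field k] {X : Type} [AddCommGroup X] [Fintype X] [DecidableEq X]

section

variable (G : HCData k X) (κ : Coord X) (M : Type v) [AddCommGroup M] [Module k M]
  [Module (Dbl G) M] [IsScalarTower k (Dbl G) M]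

/-- the order of the variables -/
def idx : Fin G.m ⊕ Fin G.m → ℕ := Sum.elim (fun i => G.m + i) (fun j => j)

omit [Fintype X] [DecidableEq X] in
theorem idx_injective : Function.Injective (idx G) := by
  rintro (i | i) (j | j) h
  · simp only [idx, Sum.elim_inl] at h
    congr 1
    exact Fin.ext (by omega)
  · simp only [idx, Sum.elim_inl, Sum.elim_inr] at h
    have := j.2
    omega
  · simp only [idx, Sum.elim_inl, Sum.elim_inr] at h
    have := i.2
    omega
  · simp only [idx, Sum.elim_inr] at h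
    congr 1
    exact Fin.ext (by omega)

/-- the odd generators on the coefficient module -/
noncomputable def opM (v : Fin G.m ⊕ Fin G.m) : M →ₗ[k] M := Algebra.lsmul k k M (opg G v)

/-- the operators `s_l - 1` on the coefficient module -/
noncomputable def PM (l : Fin κ.r) : M →ₗ[k] M := Algebra.lsmul k k M ((gen G).s (κ.e l) - 1)

/-- the norm operators on the coefficient module -/
noncomputable def NM (l : Fin κ.r) : M →ₗ[k] M :=
  Algebra.lsmul k k M (∑ a ∈ Finset.range (κ.ql l), (gen G).s (a • κ.e l))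

/-- the variables in `T` are put to zero -/
noncomputable def piW (T : Set (Fin G.m ⊕ Fin G.m)) : Module.End k (W G M) :=
  LinearMap.lTensor M (sT k T).toLinearMap

variable {G κ M}

theorem opM_apply (v : Fin G.m ⊕ Fin G.m) (m : M) : opM G M v m = opg G v • m := rfl

theorem PM_apply (l : Fin κ.r) (m : M) : PM G κ M l m = ((gen G).s (κ.e l) - 1) • m := rfl

theorem NM_apply (l : Fin κ.r) (m : M) :
    NM G κ M l m = (∑ a ∈ Finset.range (κ.ql l), (gen G).s (a • κ.e l)) • m := rfl

theorem piW_tmul (T : Set (Fin G.m ⊕ Fin G.m)) (m : M) (p : Pol G) :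
    piW G M T (m ⊗ₜ[k] p) = m ⊗ₜ[k] sT k T p := rfl

/-! ### Operators which preserve the ideal of a set of variables -/

/-- the operator preserves the ideal -/
def Pres (T : Set (Fin G.m ⊕ Fin G.m)) (O : Module.End k (W G M)) : Prop :=
  piW G M T * O * piW G M T = piW G M T * O

/-- the operator commutes with a multiplication modulo the ideal -/
def Cm (T : Set (Fin G.m ⊕ Fin G.m)) (v : Fin G.m ⊕ Fin G.m) (O : Module.End k (W G M)) : Prop :=
  piW G M T * O * mu G M (MvPolynomial.X v) = piW G M T * (mu G M (MvPolynomial.X v) * O)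

variable {T : Set (Fin G.m ⊕ Fin G.m)} {v : Fin G.m ⊕ Fin G.m} {O O' : Module.End k (W G M)}

theorem Pres.add (h : Pres T O) (h' : Pres T O') : Pres T (O + O') := by
  unfold Pres at *
  rw [mul_add, add_mul, h, h']

theorem Pres.mul (h : Pres T O) (h' : Pres T O') : Pres T (O * O') := by
  unfold Pres at *
  calc piW G M T * (O * O') * piW G M T = (piW G M T * O) * O' * piW G M T := by
        rw [← mul_assoc (piW G M T) O O']
    _ = (piW G M T * O * piW G M T) * O' * piW G M T := by rw [h]
    _ = (piW G M T * O) * (piW G M T * O' * piW G M T) := by simp only [mul_assoc]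
    _ = (piW G M T * O) * (piW G M T * O') := by rw [h']
    _ = (piW G M T * O * piW G M T) * O' := by simp only [mul_assoc]
    _ = piW G M T * (O * O') := by rw [h, mul_assoc]

theorem Pres.smul (c : k) (h : Pres T O) : Pres T (c • O) := by
  unfold Pres at *
  rw [mul_smul_comm, smul_mul_assoc, h]

theorem Pres.zero : Pres T (0 : Module.End k (W G M)) := by
  unfold Pres
  rw [mul_zero, zero_mul]

theorem Pres.sum {ι : Type*} (s : Finset ι) {O : ι → Module.End k (W G M)}
    (h : ∀ i ∈ s, Pres T (O i)) : Pres T (∑ i ∈ s, O i) := by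
  classical
  induction s using Finset.induction_on with
  | empty => rw [Finset.sum_empty]; exact Pres.zero
  | insert i s hi ih =>
    rw [Finset.sum_insert hi]
    exact (h i (Finset.mem_insert_self i s)).add
      (ih fun j hj => h j (Finset.mem_insert_of_mem hj))

theorem Cm.add (h : Cm T v O) (h' : Cm T v O') : Cm T v (O + O') := by
  unfold Cm at *
  rw [mul_add, add_mul, h, h', mul_add, mul_add]

theorem Cm.mul (hp : Pres T O) (h : Cm T v O) (h' : Cm T v O') : Cm T v (O * O') := by
  unfold Cm Pres at *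
  calc piW G M T * (O * O') * mu G M (MvPolynomial.X v) =
        (piW G M T * O) * O' * mu G M (MvPolynomial.X v) := by rw [← mul_assoc (piW G M T) O O']
    _ = (piW G M T * O) * (piW G M T * O' * mu G M (MvPolynomial.X v)) := by
        nth_rewrite 1 [← hp]; simp only [mul_assoc]
    _ = (piW G M T * O * piW G M T) * (mu G M (MvPolynomial.X v) * O') := by
        rw [h']; simp only [mul_assoc]
    _ = (piW G M T * O * mu G M (MvPolynomial.X v)) * O' := by rw [hp]; simp only [mul_assoc]
    _ = _ := by rw [h]; simp only [mul_assoc]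

theorem Cm.smul (c : k) (h : Cm T v O) : Cm T v (c • O) := by
  unfold Cm at *
  rw [mul_smul_comm, smul_mul_assoc, h, mul_smul_comm, mul_smul_comm]

theorem Cm.zero : Cm T v (0 : Module.End k (W G M)) := by
  unfold Cm
  rw [mul_zero, zero_mul, mul_zero, mul_zero]

theorem Cm.sum {ι : Type*} (s : Finset ι) {O : ι → Module.End k (W G M)}
    (h : ∀ i ∈ s, Cm T v (O i)) : Cm T v (∑ i ∈ s, O i) := by
  classical
  induction s using Finset.induction_on with
  | empty => rw [Finset.sum_empty]; exact Cm.zero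
  | insert i s hi ih =>
    rw [Finset.sum_insert hi]
    exact (h i (Finset.mem_insert_self i s)).add
      (ih fun j hj => h j (Finset.mem_insert_of_mem hj))

theorem Cm.of_commute (h : Commute O (mu G M (MvPolynomial.X v))) : Cm T v O := by
  unfold Cm
  rw [mul_assoc, h.eq]

theorem piW_mu (T : Set (Fin G.m ⊕ Fin G.m)) (g : Pol G) :
    piW G M T * mu G M g = mu G M (sT k T g) * piW G M T := by
  refine end_ext fun m f => ?_
  show m ⊗ₜ[k] sT k T (g * f) = m ⊗ₜ[k] (sT k T g * sT k T f)
  rw [map_mul]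

theorem piW_piW (T : Set (Fin G.m ⊕ Fin G.m)) : piW G M T * piW G M T = piW G M T := by
  refine end_ext fun m f => ?_
  show m ⊗ₜ[k] sT k T (sT k T f) = m ⊗ₜ[k] sT k T f
  rw [sT_sT, Set.union_self]

theorem pres_act (T : Set (Fin G.m ⊕ Fin G.m)) (a : Dbl G) : Pres T (act G M a) := by
  have h : piW G M T * act G M a = act G M a * piW G M T := end_ext fun _ _ => rfl
  unfold Pres
  rw [h, mul_assoc, piW_piW]

theorem pres_mu (T : Set (Fin G.m ⊕ Fin G.m)) (g : Pol G) : Pres T (mu G M g) := by
  unfold Pres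
  rw [piW_mu, mul_assoc, piW_piW]

/-- upper sets of variables -/
abbrev upp (G : HCData k X) (n : ℕ) : Set (Fin G.m ⊕ Fin G.m) := {u | n ≤ idx G u}

omit [Fintype X] [DecidableEq X] in
theorem upp_inl {n : ℕ} {j : Fin G.m} (h : Sum.inr j ∈ upp G n) (i : Fin G.m) :
    Sum.inl i ∈ upp G n := by
  simp only [upp, Set.mem_ofPred_eq, idx, Sum.elim_inl, Sum.elim_inr] at h ⊢
  have := j.2
  omega

theorem sT_trans (n : ℕ) (μ : X) (p : Pol G) :
    sT k (upp G n) (trans G μ (sT k (upp G n) p)) = sT k (upp G n) (trans G μ p) := by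
  have : ((sT k (upp G n)).comp (trans G μ)).comp (sT k (upp G n)) =
      (sT k (upp G n)).comp (trans G μ) := by
    refine MvPolynomial.algHom_ext fun u => ?_
    rw [AlgHom.comp_apply]
    by_cases hu : u ∈ upp G n
    · rw [sT_X_mem hu, map_zero, AlgHom.comp_apply]
      rcases u with i | j
      · rw [show trans G μ (MvPolynomial.X (Sum.inl i)) = vy G i from trans_y G μ i,
          sT_X_mem hu]
      · rw [show trans G μ (MvPolynomial.X (Sum.inr j)) = _ from trans_z G μ j, map_add,
          sT_X_mem hu, zero_add, map_sum]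
        symm
        refine Finset.sum_eq_zero fun i _ => ?_
        rw [map_smul, sT_X_mem (upp_inl hu i), smul_zero]
    · rw [sT_X_notMem hu]
  exact DFunLike.congr_fun this p

theorem pres_tr (n : ℕ) (μ : X) : Pres (upp G n) (tr G M μ) := by
  refine end_ext fun m f => ?_
  exact congrArg (fun q => m ⊗ₜ[k] q) (sT_trans n μ f)

theorem pres_rho (n : ℕ) (b : AddMonoidAlgebra k X) : Pres (upp G n) (rho G M b) := by
  induction b using AddMonoidAlgebra.induction_linear with
  | zero => rw [map_zero]; exact Pres.zero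
  | add f g hf hg => rw [map_add]; exact hf.add hg
  | single μ r => rw [rho_single]; exact ((pres_act _ _).mul (pres_tr n μ)).smul r

theorem pres_D0 (T : Set (Fin G.m ⊕ Fin G.m)) : Pres T (D0 G M) := by
  rw [D0_eq]
  exact Pres.sum _ fun v _ => (pres_act _ _).mul (pres_mu _ _)

theorem pres_KW (n : ℕ) (l : Fin κ.r) : Pres (upp G n) (KW G κ M l) := by
  unfold KW
  exact Pres.sum _ fun v _ => (pres_rho _ _).mul (pres_mu _ _)

theorem sT_trans_X (v : Fin G.m ⊕ Fin G.m) (μ : X) :
    sT k (upp G (idx G v + 1)) (trans G μ (MvPolynomial.X v)) =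
      sT k (upp G (idx G v + 1)) (MvPolynomial.X v) := by
  rcases v with i | j
  · rw [show trans G μ (MvPolynomial.X (Sum.inl i)) = vy G i from trans_y G μ i]
  · rw [show trans G μ (MvPolynomial.X (Sum.inr j)) = _ from trans_z G μ j, map_add, map_sum,
      Finset.sum_eq_zero, add_zero]
    intro i _
    rw [map_smul, sT_X_mem, smul_zero]
    simp only [upp, Set.mem_ofPred_eq, idx, Sum.elim_inl, Sum.elim_inr]
    have := j.2
    omega

theorem cm_tr (v : Fin G.m ⊕ Fin G.m) (μ : X) : Cm (upp G (idx G v + 1)) v (tr G M μ) := by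
  unfold Cm
  rw [mul_assoc, tr_mu, ← mul_assoc, ← mul_assoc, piW_mu, sT_trans_X, ← piW_mu]

theorem cm_act (v : Fin G.m ⊕ Fin G.m) (a : Dbl G) : Cm T v (act G M a) :=
  Cm.of_commute (act_mu a _)

theorem cm_mu (v : Fin G.m ⊕ Fin G.m) (g : Pol G) : Cm T v (mu G M g) :=
  Cm.of_commute (by
    show mu G M _ * mu G M _ = mu G M _ * mu G M _
    rw [← map_mul, ← map_mul, mul_comm])

theorem cm_rho (v : Fin G.m ⊕ Fin G.m) (b : AddMonoidAlgebra k X) :
    Cm (upp G (idx G v + 1)) v (rho G M b) := by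
  induction b using AddMonoidAlgebra.induction_linear with
  | zero => rw [map_zero]; exact Cm.zero
  | add f g hf hg => rw [map_add]; exact hf.add hg
  | single μ r => rw [rho_single]; exact (Cm.mul (pres_act _ _) (cm_act v _) (cm_tr v μ)).smul r

theorem cm_D0 (v : Fin G.m ⊕ Fin G.m) : Cm T v (D0 G M) := Cm.of_commute (D0_mu _)

theorem cm_KW (v : Fin G.m ⊕ Fin G.m) (l : Fin κ.r) :
    Cm (upp G (idx G v + 1)) v (KW G κ M l) := by
  unfold KW
  exact Cm.sum _ fun x _ => Cm.mul (pres_rho _ _) (cm_rho v _) (cm_mu v _)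

/-! ### Degrees -/

variable (G M) in
/-- the tensors of polynomial degree `d` -/
noncomputable def GrW (d : ℕ) : Submodule k (W G M) :=
  Submodule.span k {w | ∃ (m : M) (p : Pol G), p.IsHomogeneous d ∧ w = m ⊗ₜ[k] p}

theorem tmul_mem_GrW {d : ℕ} (m : M) {p : Pol G} (hp : p.IsHomogeneous d) :
    m ⊗ₜ[k] p ∈ GrW G M d := Submodule.subset_span ⟨m, p, hp, rfl⟩

/-- the operator has degree `e` -/
def HasDeg (e : ℕ) (O : Module.End k (W G M)) : Prop :=
  ∀ d, ∀ w ∈ GrW G M d, O w ∈ GrW G M (d + e)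

theorem hasDeg_of {e : ℕ} {O : Module.End k (W G M)} (h : ∀ (d : ℕ) (m : M) (p : Pol G),
    p.IsHomogeneous d → O (m ⊗ₜ[k] p) ∈ GrW G M (d + e)) : HasDeg e O := by
  intro d w hw
  have : GrW G M d ≤ (GrW G M (d + e)).comap O := by
    refine Submodule.span_le.2 ?_
    rintro _ ⟨m, p, hp, rfl⟩
    exact h d m p hp
  exact this hw

theorem HasDeg.add {e : ℕ} (h : HasDeg e O) (h' : HasDeg e O') : HasDeg e (O + O') :=
  fun d w hw => add_mem (h d w hw) (h' d w hw)

theorem HasDeg.zero {e : ℕ} : HasDeg e (0 : Module.End k (W G M)) :=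
  fun _ _ _ => Submodule.zero_mem _

theorem HasDeg.smul {e : ℕ} (c : k) (h : HasDeg e O) : HasDeg e (c • O) :=
  fun d w hw => Submodule.smul_mem _ c (h d w hw)

theorem HasDeg.sum {e : ℕ} {ι : Type*} (s : Finset ι) {O : ι → Module.End k (W G M)}
    (h : ∀ i ∈ s, HasDeg e (O i)) : HasDeg e (∑ i ∈ s, O i) := by
  classical
  induction s using Finset.induction_on with
  | empty => rw [Finset.sum_empty]; exact HasDeg.zero
  | insert i s hi ih =>
    rw [Finset.sum_insert hi]
    exact (h i (Finset.mem_insert_self i s)).add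
      (ih fun j hj => h j (Finset.mem_insert_of_mem hj))

theorem HasDeg.mul {e e' : ℕ} (h : HasDeg e O) (h' : HasDeg e' O') : HasDeg (e' + e) (O * O') := by
  intro d w hw
  rw [← add_assoc]
  exact h _ _ (h' d w hw)

theorem deg_act (a : Dbl G) : HasDeg 0 (act G M a) :=
  hasDeg_of fun _ _ _ hp => tmul_mem_GrW _ hp

theorem deg_mu {e : ℕ} {g : Pol G} (hg : g.IsHomogeneous e) : HasDeg e (mu G M g) :=
  hasDeg_of fun d m p hp => by
    rw [mu_tmul, add_comm]
    exact tmul_mem_GrW m (hg.mul hp)

theorem hom_trans (μ : X) {d : ℕ} {p : Pol G} (hp : p.IsHomogeneous d) :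
    (trans G μ p).IsHomogeneous d := by
  have := hp.aeval (Sum.elim (fun i => vy G i) (fun j => vz G j + ∑ i, G.c i j μ • vy G i))
    (n := 1) (by
      rintro (i | j)
      · exact isHomogeneous_X _ _
      · refine (isHomogeneous_X _ _).add ?_
        refine IsHomogeneous.sum _ _ _ fun i _ => ?_
        rw [MvPolynomial.smul_eq_C_mul]
        exact (isHomogeneous_X _ _).C_mul _)
  rwa [one_mul] at this

theorem deg_tr (μ : X) : HasDeg 0 (tr G M μ) :=
  hasDeg_of fun _ m _ hp => tmul_mem_GrW m (hom_trans μ hp)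

theorem deg_rho (b : AddMonoidAlgebra k X) : HasDeg 0 (rho G M b) := by
  induction b using AddMonoidAlgebra.induction_linear with
  | zero => rw [map_zero]; exact HasDeg.zero
  | add f g hf hg => rw [map_add]; exact hf.add hg
  | single μ r => rw [rho_single]; exact ((deg_act _).mul (deg_tr μ)).smul r

theorem deg_D0 : HasDeg 1 (D0 G M) := by
  rw [D0_eq]
  exact HasDeg.sum _ fun v _ => (deg_act _).mul (deg_mu (isHomogeneous_X _ _))

theorem hom_Fq (x : X) : (Fq G x).IsHomogeneous 2 := by
  unfold Fq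
  refine IsHomogeneous.sum _ _ _ fun i _ => ?_
  split_ifs
  · exact (isHomogeneous_X _ _).mul (isHomogeneous_X _ _)
  · exact isHomogeneous_zero _ _ _

theorem hom_Eq (x : X) : (Eq G x).IsHomogeneous 2 := (hom_Fq x).sub (hom_Fq (-x))

theorem deg_KW (l : Fin κ.r) : HasDeg 2 (KW G κ M l) := by
  unfold KW
  exact HasDeg.sum _ fun x _ => (deg_rho _).mul (deg_mu (hom_Eq x))

theorem single_mem_GrC' {r n : ℕ} {a : Fin r →₀ ℕ} {d : ℕ} (h : a.degree + d = n) {w : W G M}
    (hw : w ∈ GrW G M d) : (Finsupp.single a w : CC k M (Fin G.m ⊕ Fin G.m) r) ∈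
      GrC k M (Fin G.m ⊕ Fin G.m) r n := by
  have : GrW G M d ≤ (GrC k M (Fin G.m ⊕ Fin G.m) r n).comap (Finsupp.lsingle a) := by
    refine Submodule.span_le.2 ?_
    rintro _ ⟨m, p, hp, rfl⟩
    exact single_mem_GrC h m hp
  exact this hw

theorem DC_gr (n : ℕ) : ∀ f ∈ GrC k M (Fin G.m ⊕ Fin G.m) κ.r n,
    DC G κ M f ∈ GrC k M (Fin G.m ⊕ Fin G.m) κ.r (n + 1) :=
  GrC_map _ _ fun a d m p h hp => by
    unfold DC
    rw [tot_single]
    have hw := tmul_mem_GrW (G := G) (k := k) m hp
    refine add_mem (add_mem ?_ ?_) ?_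
    · exact Submodule.smul_mem _ _ (single_mem_GrC' (d := d + 1) (by omega) (deg_D0 d _ hw))
    · refine Submodule.sum_mem _ fun l _ => Submodule.smul_mem _ _ ?_
      refine single_mem_GrC' (d := d) (by rw [map_add, degree_ev]; omega) ?_
      unfold opn
      split_ifs
      · exact deg_rho _ d _ hw
      · exact deg_rho _ d _ hw
    · refine Submodule.sum_mem _ fun l _ => ?_
      split_ifs with ho
      · refine Submodule.smul_mem _ _ ?_
        refine single_mem_GrC' (d := d + 2) ?_ (deg_KW l d _ hw)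
        have h1 : a.degree = (a - ev l).degree + 1 := by
          rw [← degree_ev l, ← map_add, sub_ev_add' ho]
        omega
      · exact Submodule.zero_mem _

/-! ### The conditions of the abstract part -/

theorem trans_one (μ : X) : trans G μ 1 = 1 := map_one _

theorem rho_sk_one (μ : X) (m : M) :
    rho G M (sk k μ) (m ⊗ₜ[k] (1 : Pol G)) = ((gen G).s μ • m) ⊗ₜ[k] (1 : Pol G) := by
  rw [rho_single, one_smul, Module.End.mul_apply, tr_tmul, act_tmul, trans_one]

theorem PW_one (l : Fin κ.r) (m : M) :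
    PW G κ M l (m ⊗ₜ[k] (1 : Pol G)) = PM G κ M l m ⊗ₜ[k] (1 : Pol G) := by
  rw [PW, map_sub, map_one, LinearMap.sub_apply, rho_sk_one, Module.End.one_apply, PM_apply,
    sub_smul, one_smul, TensorProduct.sub_tmul]

theorem NW_one (l : Fin κ.r) (m : M) :
    NW G κ M l (m ⊗ₜ[k] (1 : Pol G)) = NM G κ M l m ⊗ₜ[k] (1 : Pol G) := by
  rw [NW, nk, map_sum, LinearMap.sum_apply, NM_apply, Finset.sum_smul, TensorProduct.sum_tmul]
  exact Finset.sum_congr rfl fun a _ => rho_sk_one _ _

theorem opn_one (l : Fin κ.r) (n : ℕ) (m : M) :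
    opn (PW G κ M) (NW G κ M) l n (m ⊗ₜ[k] (1 : Pol G)) =
      opn (PM G κ M) (NM G κ M) l n m ⊗ₜ[k] (1 : Pol G) := by
  unfold opn
  split_ifs
  · exact PW_one l m
  · exact NW_one l m

theorem comm_PM_NM : Comm (PM G κ M) (NM G κ M) where
  comm l l' n n' m h := by
    have h1 := (comm_PW_NW (G := G) (κ := κ) (M := M)).comm l l' n n' (m ⊗ₜ[k] (1 : Pol G)) h
    simp only [opn_one] at h1
    have h2 := congrArg (coW k M (0 : (Fin G.m ⊕ Fin G.m) →₀ ℕ)) h1
    rwa [coW_tmul, coW_tmul, MvPolynomial.coeff_zero_one, one_smul, one_smul] at h2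
  zero l n m := by
    have h1 := (comm_PW_NW (G := G) (κ := κ) (M := M)).zero l n (m ⊗ₜ[k] (1 : Pol G))
    simp only [opn_one] at h1
    have h2 := congrArg (coW k M (0 : (Fin G.m ⊕ Fin G.m) →₀ ℕ)) h1
    rwa [coW_tmul, map_zero, MvPolynomial.coeff_zero_one, one_smul] at h2

theorem D0_one (m : M) : D0 G M (m ⊗ₜ[k] (1 : Pol G)) =
    ∑ v, opM G M v m ⊗ₜ[k] (MvPolynomial.X v : Pol G) := by
  rw [D0_eq, LinearMap.sum_apply]
  refine Finset.sum_congr rfl fun v _ => ?_
  rw [Module.End.mul_apply, mu_tmul, act_tmul, mul_one, opM_apply]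

theorem piC_eq (T : Set (Fin G.m ⊕ Fin G.m)) (r : ℕ) :
    piC k M r T = Finsupp.mapRange.linearMap (piW G M T) := rfl

theorem vC_eq (v : Fin G.m ⊕ Fin G.m) (r : ℕ) :
    vC k M r v = Finsupp.mapRange.linearMap (mu G M (MvPolynomial.X v)) := rfl

theorem varCx (h2 : (2 : k) ≠ 0) (hN : NB G M) :
    VarCx (opM G M) (PM G κ M) (NM G κ M) (idx G) (DC G κ M) where
  DD := DC_DC h2 hN
  gr := DC_gr
  ideal n f := by
    have hp : ∀ {O : Module.End k (W G M)}, Pres (upp G n) O → ∀ w,
        piW G M (upp G n) (O (piW G M (upp G n) w)) =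
          piW G M (upp G n) ((LinearMap.id : W G M →ₗ[k] W G M) (O w)) :=
      fun h w => LinearMap.congr_fun h w
    have h := tot_int (piW G M (upp G n)) (piW G M (upp G n)) LinearMap.id (D0 G M) (PW G κ M)
      (NW G κ M) (KW G κ M) (hp (pres_D0 _)) (fun l => hp (pres_rho n _))
      (fun l => hp (pres_rho n _)) (fun l => hp (pres_KW n l)) f
    rw [Finsupp.mapRange.linearMap_id, LinearMap.id_apply] at h
    exact h
  comm v f := by
    have hp : ∀ {O : Module.End k (W G M)}, Cm (upp G (idx G v + 1)) v O → ∀ w,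
        piW G M (upp G (idx G v + 1)) (O (mu G M (MvPolynomial.X v) w)) =
          piW G M (upp G (idx G v + 1)) (mu G M (MvPolynomial.X v) (O w)) :=
      fun h w => LinearMap.congr_fun h w
    exact tot_int (piW G M (upp G (idx G v + 1))) (mu G M (MvPolynomial.X v))
      (mu G M (MvPolynomial.X v)) (D0 G M) (PW G κ M)
      (NW G κ M) (KW G κ M) (hp (cm_D0 _)) (fun l => hp (cm_rho v _))
      (fun l => hp (cm_rho v _)) (fun l => hp (cm_KW v l)) f
  one w := by
    unfold DC
    rw [tot_single, D0_one]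
    have e1 : (Finsupp.single 0 (∑ v, opM G M v w ⊗ₜ[k] (MvPolynomial.X v : Pol G)) :
        CC k M (Fin G.m ⊕ Fin G.m) κ.r) = ∑ v, Finsupp.single 0 (opM G M v w ⊗ₜ[k]
          (MvPolynomial.X v : Pol G)) := map_sum (Finsupp.lsingle (R := k) 0) _ _
    rw [e1, map_zero, pow_zero, one_smul]
    have e2 : (∑ l : Fin κ.r, if Odd ((0 : Fin κ.r →₀ ℕ) l) then sg k l 0 •
        (Finsupp.single (0 - ev l) (KW G κ M l (w ⊗ₜ[k] (1 : Pol G))) :
          CC k M (Fin G.m ⊕ Fin G.m) κ.r) else 0) = 0 :=
      Finset.sum_eq_zero fun l _ => if_neg (by rw [Finsupp.zero_apply]; decide)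
    rw [e2, add_zero]
    congr 1
    refine Finset.sum_congr rfl fun l _ => ?_
    rw [sg_zero, one_smul, zero_add, Finsupp.zero_apply, opn_one]
    rfl
  base f := by
    have h : piC k M κ.r (Set.univ : Set (Fin G.m ⊕ Fin G.m)) ∘ₗ DC G κ M ∘ₗ
        inc k M (Fin G.m ⊕ Fin G.m) κ.r = inc k M (Fin G.m ⊕ Fin G.m) κ.r ∘ₗ
        dd (PM G κ M) (NM G κ M) 0 := by
      refine Finsupp.lhom_ext fun a m => ?_
      simp only [LinearMap.comp_apply]
      rw [inc_single, dd_zero_single]
      unfold DC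
      rw [tot_single, D0_one]
      have hu : upp G 0 = Set.univ := Set.eq_univ_of_forall fun u => Nat.zero_le _
      have hms : ∀ (a : Fin κ.r →₀ ℕ) (w : W G M), piC k M κ.r
          (Set.univ : Set (Fin G.m ⊕ Fin G.m)) (Finsupp.single a w) =
            Finsupp.single a (piW G M Set.univ w) := fun a w => by
        rw [piC_eq, Finsupp.mapRange.linearMap_apply, Finsupp.mapRange_single]
      have e1 : piW G M Set.univ (∑ v, opM G M v m ⊗ₜ[k] (MvPolynomial.X v : Pol G)) = 0 := by
        rw [map_sum]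
        refine Finset.sum_eq_zero fun v _ => ?_
        rw [piW_tmul, sT_X_mem (Set.mem_univ v), TensorProduct.tmul_zero]
      have e2 : ∀ l, piW G M Set.univ (KW G κ M l (m ⊗ₜ[k] (1 : Pol G))) = 0 := by
        intro l
        unfold KW
        rw [LinearMap.sum_apply, map_sum]
        refine Finset.sum_eq_zero fun x _ => ?_
        have e3 : sT k (Set.univ : Set (Fin G.m ⊕ Fin G.m)) (Eq G x) = 0 := by
          rw [sT_univ, constCoeff_hom two_ne_zero (hom_Eq x), zero_smul]
        have e4 : piW G M Set.univ * (rho G M (bet k κ l x) * mu G M (Eq G x)) = 0 := by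
          rw [← rho_mu _ _ fun μ => trans_Eq G μ x, ← mul_assoc, piW_mu, e3, map_zero, zero_mul,
            zero_mul]
        exact LinearMap.congr_fun e4 _
      simp only [map_add, map_sum, map_smul, hms, e1, Finsupp.single_zero, smul_zero, zero_add]
      rw [Finset.sum_eq_zero (s := Finset.univ) (f := fun l => piC k M κ.r Set.univ
        (if Odd (a l) then sg k l a • (Finsupp.single (a - ev l)
          (KW G κ M l (m ⊗ₜ[k] (1 : Pol G))) : CC k M (Fin G.m ⊕ Fin G.m) κ.r) else 0)), add_zero]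
      · refine Finset.sum_congr rfl fun l _ => ?_
        rw [opn_one, inc_single, piW_tmul, map_one]
      · intro l _
        split_ifs
        · rw [map_smul, hms, e2, Finsupp.single_zero, smul_zero]
        · rw [map_zero]
    exact LinearMap.congr_fun h f

/-! ### Functoriality -/

section Nat

variable {N : Type*} [AddCommGroup N] [Module k N] [Module (Dbl G) N] [IsScalarTower k (Dbl G) N]
  (φ : M →ₗ[k] N)

theorem rT_act (hφ : ∀ (a : Dbl G) (m : M), φ (a • m) = a • φ m) (a : Dbl G) (w : W G M) :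
    LinearMap.rTensor (Pol G) φ (act G M a w) = act G N a (LinearMap.rTensor (Pol G) φ w) := by
  have : LinearMap.rTensor (Pol G) φ ∘ₗ act G M a = act G N a ∘ₗ LinearMap.rTensor (Pol G) φ :=
    TensorProduct.ext' fun m p => by
      rw [LinearMap.comp_apply, LinearMap.comp_apply, act_tmul, LinearMap.rTensor_tmul,
        LinearMap.rTensor_tmul, act_tmul, hφ]
  exact LinearMap.congr_fun this w

theorem rT_mu (g : Pol G) (w : W G M) :
    LinearMap.rTensor (Pol G) φ (mu G M g w) = mu G N g (LinearMap.rTensor (Pol G) φ w) := by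
  have : LinearMap.rTensor (Pol G) φ ∘ₗ mu G M g = mu G N g ∘ₗ LinearMap.rTensor (Pol G) φ :=
    TensorProduct.ext' fun m p => rfl
  exact LinearMap.congr_fun this w

theorem rT_tr (μ : X) (w : W G M) :
    LinearMap.rTensor (Pol G) φ (tr G M μ w) = tr G N μ (LinearMap.rTensor (Pol G) φ w) := by
  have : LinearMap.rTensor (Pol G) φ ∘ₗ tr G M μ = tr G N μ ∘ₗ LinearMap.rTensor (Pol G) φ :=
    TensorProduct.ext' fun m p => rfl
  exact LinearMap.congr_fun this w

variable {φ}

theorem rT_rho (hφ : ∀ (a : Dbl G) (m : M), φ (a • m) = a • φ m) (b : AddMonoidAlgebra k X)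
    (w : W G M) :
    LinearMap.rTensor (Pol G) φ (rho G M b w) = rho G N b (LinearMap.rTensor (Pol G) φ w) := by
  induction b using AddMonoidAlgebra.induction_linear with
  | zero => rw [map_zero, map_zero, LinearMap.zero_apply, LinearMap.zero_apply, map_zero]
  | add f g hf hg =>
    rw [map_add, map_add, LinearMap.add_apply, LinearMap.add_apply, map_add, hf, hg]
  | single μ r =>
    rw [rho_single, rho_single, LinearMap.smul_apply, LinearMap.smul_apply, map_smul,
      Module.End.mul_apply, Module.End.mul_apply, rT_act φ hφ, rT_tr]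

theorem rT_D0 (hφ : ∀ (a : Dbl G) (m : M), φ (a • m) = a • φ m) (w : W G M) :
    LinearMap.rTensor (Pol G) φ (D0 G M w) = D0 G N (LinearMap.rTensor (Pol G) φ w) := by
  rw [D0_eq, D0_eq, LinearMap.sum_apply, LinearMap.sum_apply, map_sum]
  refine Finset.sum_congr rfl fun v _ => ?_
  rw [Module.End.mul_apply, Module.End.mul_apply, rT_act φ hφ, rT_mu]

theorem rT_KW (hφ : ∀ (a : Dbl G) (m : M), φ (a • m) = a • φ m) (l : Fin κ.r) (w : W G M) :
    LinearMap.rTensor (Pol G) φ (KW G κ M l w) = KW G κ N l (LinearMap.rTensor (Pol G) φ w) := by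
  unfold KW
  rw [LinearMap.sum_apply, LinearMap.sum_apply, map_sum]
  refine Finset.sum_congr rfl fun v _ => ?_
  rw [Module.End.mul_apply, Module.End.mul_apply, rT_rho hφ, rT_mu]

/-- the differential is natural -/
theorem DC_mapC (hφ : ∀ (a : Dbl G) (m : M), φ (a • m) = a • φ m)
    (f : CC k M (Fin G.m ⊕ Fin G.m) κ.r) :
    mapC _ κ.r φ (DC G κ M f) = DC G κ N (mapC _ κ.r φ f) :=
  tot_nat (LinearMap.rTensor (Pol G) φ) _ _ _ _ _ _ _ _ (rT_D0 hφ)
    (fun _ => rT_rho hφ _) (fun _ => rT_rho hφ _) (fun l => rT_KW hφ l) f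

end Nat

/-! ### Operators which commute with the differential -/

/-- an operator on the coefficients which commutes with everything commutes with the
differential -/
theorem DC_map_comm {S : Module.End k (W G M)} (hD : S * D0 G M = D0 G M * S)
    (hr : ∀ b, S * rho G M b = rho G M b * S) (hE : ∀ x : X, S * mu G M (Eq G x) =
      mu G M (Eq G x) * S) (f : CC k M (Fin G.m ⊕ Fin G.m) κ.r) :
    Finsupp.mapRange.linearMap S (DC G κ M f) = DC G κ M (Finsupp.mapRange.linearMap S f) := by
  have hK : ∀ l, S * KW G κ M l = KW G κ M l * S := by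
    intro l
    unfold KW
    rw [Finset.mul_sum, Finset.sum_mul]
    refine Finset.sum_congr rfl fun x _ => ?_
    rw [← mul_assoc, hr, mul_assoc, hE, mul_assoc]
  exact tot_nat S _ _ _ _ _ _ _ _ (fun w => LinearMap.congr_fun hD w)
    (fun _ w => LinearMap.congr_fun (hr _) w) (fun _ w => LinearMap.congr_fun (hr _) w)
    (fun l w => LinearMap.congr_fun (hK l) w) f

theorem DC_E0 (f : CC k M (Fin G.m ⊕ Fin G.m) κ.r) :
    E0 G M κ.r (DC G κ M f) = DC G κ M (E0 G M κ.r f) :=
  DC_map_comm E0W_D0 E0W_rho (fun x => E0W_mu (wh_Eq G x)) f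

theorem DC_mulLeft {g : Pol G} (hg : ∀ μ, trans G μ g = g)
    (f : CC k M (Fin G.m ⊕ Fin G.m) κ.r) :
    cm M κ.r (LinearMap.mulLeft k g) (DC G κ M f) =
      DC G κ M (cm M κ.r (LinearMap.mulLeft k g) f) := by
  rw [cm_mulLeft G M]
  refine DC_map_comm (D0_mu g).symm (fun b => rho_mu b g hg) (fun x => ?_) f
  rw [← map_mul, ← map_mul, mul_comm]

theorem sg_add_two (l l' : Fin κ.r) (a : Fin κ.r →₀ ℕ) :
    sg k l' (a + Finsupp.single l 2) = sg k l' a := by
  have h : (Finsupp.single l 2 : Fin κ.r →₀ ℕ) = ev l + ev l := by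
    rw [← Finsupp.single_add]
  rw [h, sg_add, sg_add, sg_mul_self, mul_one]

theorem DC_chiC (l : Fin κ.r) (f : CC k M (Fin G.m ⊕ Fin G.m) κ.r) :
    chiC k M _ l (DC G κ M f) = DC G κ M (chiC k M _ l f) := by
  have h : chiC k M (Fin G.m ⊕ Fin G.m) l ∘ₗ DC G κ M =
      DC G κ M ∘ₗ chiC k M (Fin G.m ⊕ Fin G.m) l := by
    refine Finsupp.lhom_ext fun a w => ?_
    simp only [LinearMap.comp_apply, chiC_single]
    unfold DC
    rw [tot_single, tot_single]
    simp only [map_add, map_sum, map_smul, chiC_single]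
    congr 1
    · congr 1
      · rw [Finsupp.degree_single, pow_add]
        norm_num
      · refine Finset.sum_congr rfl fun l' _ => ?_
        rw [sg_add_two, add_right_comm]
        congr 2
        by_cases hl : l = l'
        · subst hl
          rw [Finsupp.add_apply, Finsupp.single_eq_same]
          show _ = opn _ _ l (a l + 1 + 1) w
          rw [opn_add_two]
        · rw [Finsupp.add_apply, Finsupp.single_eq_of_ne' hl, add_zero]
    · refine Finset.sum_congr rfl fun l' _ => ?_
      have ho : Odd ((a + Finsupp.single l 2 : Fin κ.r →₀ ℕ) l') ↔ Odd (a l') := by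
        by_cases hl : l = l'
        · subst hl
          rw [Finsupp.add_apply, Finsupp.single_eq_same, show a l + 2 = a l + 1 + 1 from rfl,
            Nat.odd_add_one, Nat.not_odd_iff_even, Nat.even_add_one, Nat.not_even_iff_odd]
        · rw [Finsupp.add_apply, Finsupp.single_eq_of_ne' hl, add_zero]
      by_cases h1 : Odd (a l')
      · rw [if_pos h1, if_pos (ho.2 h1), map_smul, chiC_single, sg_add_two]
        congr 2
        conv_rhs => rw [← sub_ev_add' h1, add_right_comm, add_tsub_cancel_right]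
      · rw [if_neg h1, if_neg (fun hh => h1 (ho.1 hh)), map_zero]
  exact LinearMap.congr_fun h f

theorem DC_opsC (i : (Fin G.m ⊕ Fin G.m) ⊕ Fin κ.r) (f : CC k M (Fin G.m ⊕ Fin G.m) κ.r) :
    DC G κ M (opsC M κ.r (rr G) i f) = opsC M κ.r (rr G) i (DC G κ M f) := by
  rcases i with u | l
  · exact (DC_mulLeft (fun μ => trans_rr G μ u) f).symm
  · exact (DC_chiC l f).symm

end

end Pool.Agent.Work.MP_0c1793_al
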