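import Pool.Agent.Work.MP_0c1793_al.Model

/-! # Drinfeld doubles of finite supergroup schemes with diagonalizable even part: definitions -/

set_option autoImplicit false

universe u

open CategoryTheory

namespace Pool.Agent.Work.MP_0c1793_al

section Algebra

variable {k : Type u} [Field k] {X : Type} [AddCommGroup X] [Fintype X] [DecidableEq X]

/-- The relations with the rescaled `xi i`. -/
inductive Rel (G : HCData k X) : FreeAlgebra k (Gen X G.m) → FreeAlgebra k (Gen X G.m) → Prop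
  | e_mul (ν ν' : X) : Rel G (fg k (.e ν) * fg k (.e ν')) (if ν = ν' then fg k (.e ν) else 0)
  | e_sum : Rel G (∑ ν : X, fg k (.e ν)) 1
  | par_sq : Rel G (fg k .par * fg k .par) 1
  | par_e (ν : X) : Rel G (fg k .par * fg k (.e ν)) (fg k (.e ν) * fg k .par)
  | par_s (μ : X) : Rel G (fg k .par * fg k (.s μ)) (fg k (.s μ) * fg k .par)
  | par_x (i : Fin G.m) : Rel G (fg k .par * fg k (.x i)) (-(fg k (.x i) * fg k .par))
  | par_xi (i : Fin G.m) : Rel G (fg k .par * fg k (.xi i)) (-(fg k (.xi i) * fg k .par))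
  | s_zero : Rel G (fg k (.s 0)) 1
  | s_add (μ μ' : X) : Rel G (fg k (.s μ) * fg k (.s μ')) (fg k (.s (μ + μ')))
  | s_e (μ ν : X) : Rel G (fg k (.s μ) * fg k (.e ν)) (fg k (.e ν) * fg k (.s μ))
  | x_e (i : Fin G.m) (ν : X) :
      Rel G (fg k (.x i) * fg k (.e ν)) (fg k (.e (ν + G.wt i)) * fg k (.x i))
  | xi_e (i : Fin G.m) (ν : X) :
      Rel G (fg k (.xi i) * fg k (.e ν)) (fg k (.e (ν - G.wt i)) * fg k (.xi i))
  | x_x (i j : Fin G.m) :
      Rel G (fg k (.x i) * fg k (.x j) + fg k (.x j) * fg k (.x i))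
        (∑ ν : X, G.c i j ν • fg k (.e ν))
  | xi_xi (i j : Fin G.m) :
      Rel G (fg k (.xi i) * fg k (.xi j) + fg k (.xi j) * fg k (.xi i)) 0
  | xi_s (i : Fin G.m) (μ : X) :
      Rel G (fg k (.xi i) * fg k (.s μ)) (fg k (.s μ) * fg k (.xi i))
  | x_xi (i j : Fin G.m) :
      Rel G (fg k (.x i) * fg k (.xi j) + fg k (.xi j) * fg k (.x i))
        (if i = j then (2⁻¹ : k) • (fg k (.s (G.wt i)) - fg k (.s (-G.wt i))) else 0)
  | x_s (i : Fin G.m) (μ : X) :
      Rel G (fg k (.x i) * fg k (.s μ) - fg k (.s μ) * fg k (.x i))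
        (fg k (.s μ) * ∑ j, G.c i j μ • fg k (.xi j))

/-- the algebra with the rescaled generators (on the principal block the same as `DD G`) -/
def Dbl (G : HCData k X) : Type u := RingQuot (Rel G)

noncomputable instance (G : HCData k X) : Ring (Dbl G) := inferInstanceAs (Ring (RingQuot (Rel G)))

noncomputable instance (G : HCData k X) : Algebra k (Dbl G) :=
  inferInstanceAs (Algebra k (RingQuot (Rel G)))

end Algebra

end Pool.Agent.Work.MP_0c1793_al
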