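import Pool.Agent.Work.MP_0c1793_al.FinRes
import Pool.Agent.Work.MP_0c1793_al.NoethE

/-! # The finite generation property -/

set_option autoImplicit false
set_option linter.unusedSectionVars false

universe u v

open MvPolynomial TensorProduct CategoryTheory

namespace Pool.Agent.Work.MP_0c1793_al

open Pool.Agent.DG

variable {k : Type u} [Field k] {X : Type} [AddCommGroup X] [Fintype X] [DecidableEq X]

section

variable {σ : Type*} {r : ℕ} {M N : Type*} [AddCommGroup M] [Module k M] [AddCommGroup N]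
  [Module k N]

theorem mapC_opsC (φ : M →ₗ[k] N) (g : σ → MvPolynomial σ k) (i : σ ⊕ Fin r) (f : CC k M σ r) :
    mapC σ r φ (opsC M r g i f) = opsC N r g i (mapC σ r φ f) := by
  rcases i with u | l
  · exact mapC_cm φ _ f
  · show mapC σ r φ (chiC k M σ l f) = chiC k N σ l (mapC σ r φ f)
    have : mapC σ r φ ∘ₗ chiC k M σ l = chiC k N σ l ∘ₗ mapC σ r φ := cc_ext fun a m p => by
      rw [LinearMap.comp_apply, LinearMap.comp_apply, chiC_single, mapC_single, mapC_single,
        chiC_single]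
    exact LinearMap.congr_fun this f

end

namespace Dif

variable {G : HCData k X} {r : ℕ} (Δ : Dif G r)

open scoped ModuleCat

variable (r) in
/-- the operators on the cochains -/
noncomputable def chR (i : (Fin G.m ⊕ Fin G.m) ⊕ Fin r) (n : ℕ) (M : ModuleCat.{u} (Dbl G)) :
    Ch G r n M →ₗ[k] Ch G r (degC (Fin G.m ⊕ Fin G.m) r (Fintype.card X * 2) i + n) M :=
  ((opsC M r (rr G) i).comp (S G r M n).subtype).codRestrict
    (S G r M (degC (Fin G.m ⊕ Fin G.m) r (Fintype.card X * 2) i + n))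
    fun x => ⟨opsC_GrC (rr_homog G) i n _ x.2.1, by
      show E0 G M r (opsC M r (rr G) i x) = opsC M r (rr G) i x
      rw [E0_opsC]
      exact congrArg _ x.2.2⟩

theorem chR_val (i : (Fin G.m ⊕ Fin G.m) ⊕ Fin r) (n : ℕ) (M : ModuleCat.{u} (Dbl G))
    (x : Ch G r n M) : (chR r i n M x : CC k M (Fin G.m ⊕ Fin G.m) r) =
      opsC M r (rr G) i x := rfl

/-- the operators of the resolution -/
noncomputable def opsR (h2 : (2 : k) ≠ 0)
    (hops : ∀ (M : Type u) [AddCommGroup M] [Module k M] [Module (Dbl G) M]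
      [IsScalarTower k (Dbl G) M] (i : (Fin G.m ⊕ Fin G.m) ⊕ Fin r)
      (f : CC k M (Fin G.m ⊕ Fin G.m) r),
      Δ.D M (opsC M r (rr G) i f) = opsC M r (rr G) i (Δ.D M f)) :
    (Δ.res h2).Ops ((Fin G.m ⊕ Fin G.m) ⊕ Fin r) where
  deg := degC (Fin G.m ⊕ Fin G.m) r (Fintype.card X * 2)
  r i n M := chR r i n M
  r_map i n _ _ f x := Subtype.ext (mapC_opsC (kl f) (rr G) i _).symm
  r_d i n M x := Subtype.ext (hops M i _).symm

/-- Finiteness of the complex over the operators. -/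
theorem words (h2 : (2 : k) ≠ 0)
    (hops : ∀ (M : Type u) [AddCommGroup M] [Module k M] [Module (Dbl G) M]
      [IsScalarTower k (Dbl G) M] (i : (Fin G.m ⊕ Fin G.m) ⊕ Fin r)
      (f : CC k M (Fin G.m ⊕ Fin G.m) r),
      Δ.D M (opsC M r (rr G) i f) = opsC M r (rr G) i (Δ.D M f))
    (V : ModuleCat.{u} (Dbl G)) (hV : Module.Finite k V) :
    ∃ (κ : Type) (_ : Finite κ) (b : κ → ℕ) (z : ∀ j, (Δ.res h2).C (b j) V),
      (∀ j, (Δ.res h2).d (b j) V (z j) = 0) ∧
        ∀ (n : ℕ) (x : (Δ.res h2).C n V), (Δ.res h2).d n V x = 0 →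
          (Δ.opsR h2 hops).Word z n x := by
  obtain ⟨κ, hκ, b, z, hz, hgen⟩ := exists_cocycle_gens (M := V) (finite_rr G) (rr_homog G)
    (Δ.D V) (E0 G V r) (Δ.gr V) E0_gr (hops V) (fun i f => E0_opsC i f)
  refine ⟨κ, hκ, b, fun j => ⟨z j, (hz j).1, (hz j).2.2⟩, fun j => Subtype.ext (hz j).2.1, ?_⟩
  intro n x hx
  have hx' : Δ.D V x.1 = 0 := congrArg Subtype.val hx
  refine HGen.sub (S G r V) (fun j => ⟨(hz j).1, (hz j).2.2⟩)
    (fun i n x hx => ⟨opsC_GrC (rr_homog G) i n _ hx.1, by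
      show E0 G V r (opsC V r (rr G) i x) = opsC V r (rr G) i x
      rw [E0_opsC]
      exact congrArg _ hx.2⟩)
    (fun n y => (Δ.opsR h2 hops).Word (fun j => (⟨z j, (hz j).1, (hz j).2.2⟩ :
      Ch G r (b j) V)) n y) ?_ ?_ ?_ ?_ ?_ (hgen n x.1 x.2.1 hx' x.2.2) x.2
  · exact fun j => Res.Ops.Word.base j
  · exact fun i _ _ hx h => Res.Ops.Word.op i h
  · exact fun n => Res.Ops.Word.zero n
  · exact fun _ _ _ hx hy => Res.Ops.Word.add hx hy
  · exact fun _ c _ hx => Res.Ops.Word.smul c hx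

theorem finite_triv : Module.Finite k (unitObj G) := by
  refine ⟨⟨{uv G}, ?_⟩⟩
  rw [eq_top_iff]
  rintro m -
  have hm : m = (show k from m) • uv G := by
    rw [← algebraMap_smul (Dbl G)]
    show m = (algebraMap k (Dbl G) m) • (show Triv G from (1 : k))
    rw [triv_smul, AlgHom.commutes]
    exact (mul_one (show k from m)).symm
  rw [hm]
  exact Submodule.smul_mem _ _ (Submodule.subset_span (by simp))

/-- The finite generation property. -/
theorem fgc (h2 : (2 : k) ≠ 0)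
    (hops : ∀ (M : Type u) [AddCommGroup M] [Module k M] [Module (Dbl G) M]
      [IsScalarTower k (Dbl G) M] (i : (Fin G.m ⊕ Fin G.m) ⊕ Fin r)
      (f : CC k M (Fin G.m ⊕ Fin G.m) r),
      Δ.D M (opsC M r (rr G) i f) = opsC M r (rr G) i (Δ.D M f)) :
    Pool.Agent.DG.FGC.{u} k (unitObj G) (fun V => Module.Finite k V) :=
  (Δ.opsR h2 hops).fgc _ finite_triv (Δ.words h2 hops)

end Dif

end Pool.Agent.Work.MP_0c1793_al
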