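import Pool.Agent.Work.MP_0c1793_al.E0
import Pool.Agent.Work.MP_0c1793_al.Cx2
import Pool.Agent.Work.MP_0c1793_al.Abs

/-! # The functorial resolution -/

set_option autoImplicit false
set_option linter.unusedSectionVars false

universe u v

open MvPolynomial TensorProduct CategoryTheory

namespace Pool.Agent.DG

open Finsupp

/-- the components of a cochain of degree one -/
theorem one_zero {k M σ : Type*} [CommRing k] [AddCommGroup M] [Module k M] [Fintype σ] {r : ℕ}
    (a : σ → M) (b : Fin r → M)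
    (h : (∑ u, single 0 (a u ⊗ₜ MvPolynomial.X u) + ∑ l, single (ev l) (b l ⊗ₜ 1) :
      CC k M σ r) = 0) : (∀ u, a u = 0) ∧ ∀ l, b l = 0 := by
  classical
  constructor
  · intro u'
    have h2 := congrArg (fun g : CC k M σ r => coW k M (single u' 1) (g 0)) h
    simp only [Finsupp.add_apply, Finsupp.finsetSum_apply, map_add, map_sum,
      Finsupp.zero_apply, map_zero] at h2
    rw [Finset.sum_eq_single u', Finsupp.single_eq_same, coW_tmul,
      MvPolynomial.coeff_X, if_pos rfl, one_smul, Finset.sum_eq_zero, add_zero] at h2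
    · exact h2
    · intro l _
      rw [Finsupp.single_eq_of_ne', map_zero]
      intro h3
      have := DFunLike.congr_fun h3 l
      rw [ev_same, Finsupp.zero_apply] at this
      exact one_ne_zero this
    · intro u'' _ hne
      rw [Finsupp.single_eq_same, coW_tmul, MvPolynomial.coeff_X, if_neg, zero_smul]
      intro h3
      have := DFunLike.congr_fun h3 u''
      rw [Finsupp.single_eq_same, Finsupp.single_eq_of_ne' hne.symm] at this
      exact one_ne_zero this
    · intro h3
      exact absurd (Finset.mem_univ _) h3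
  · intro l
    have h2 := congrArg (fun g : CC k M σ r => coW k M 0 (g (ev l))) h
    simp only [Finsupp.add_apply, Finsupp.finsetSum_apply, map_add, map_sum,
      Finsupp.zero_apply, map_zero] at h2
    rw [Finset.sum_eq_zero, zero_add, Finset.sum_eq_single l, Finsupp.single_eq_same,
      coW_tmul, MvPolynomial.coeff_zero_one, one_smul] at h2
    · exact h2
    · intro l' _ hne
      rw [Finsupp.single_eq_of_ne', map_zero]
      intro h3
      have := DFunLike.congr_fun h3 l'
      rw [ev_same, ev_ne hne.symm] at this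
      exact one_ne_zero this
    · intro h3
      exact absurd (Finset.mem_univ _) h3
    · intro u' _
      rw [Finsupp.single_eq_of_ne', map_zero]
      intro h3
      have := DFunLike.congr_fun h3 l
      rw [ev_same, Finsupp.zero_apply] at this
      exact zero_ne_one this

end Pool.Agent.DG

namespace Pool.Agent.Work.MP_0c1793_al

open Pool.Agent.DG

variable {k : Type u} [Field k] {X : Type} [AddCommGroup X] [Fintype X] [DecidableEq X]

/-! ## The block of the trivial module -/

section Block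

variable (G : HCData k X)

open Classical in
/-- the central idempotent of the degrees on which the brackets vanish -/
noncomputable def eN : Dbl G := ∑ ν : X, if ∀ i j, G.c i j ν = 0 then (gen G).e ν else 0

theorem NBdeg_add (i : Fin G.m) (ν : X) :
    (∀ i' j, G.c i' j (ν + G.wt i) = 0) ↔ ∀ i' j, G.c i' j ν = 0 := by
  refine forall_congr' fun i' => forall_congr' fun j => ?_
  rw [map_add, G.jac, add_zero]

theorem e_eN (ν : X) : (gen G).e ν * eN G = eN G * (gen G).e ν := by
  classical
  unfold eN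
  rw [Finset.mul_sum, Finset.sum_mul]
  refine Finset.sum_congr rfl fun ν' _ => ?_
  split_ifs
  · rw [(gen G).e_mul, (gen G).e_mul]
    by_cases h : ν = ν'
    · subst h; rfl
    · rw [if_neg h, if_neg (Ne.symm h)]
  · rw [mul_zero, zero_mul]

theorem par_eN : (gen G).par * eN G = eN G * (gen G).par := by
  classical
  unfold eN
  rw [Finset.mul_sum, Finset.sum_mul]
  refine Finset.sum_congr rfl fun ν' _ => ?_
  split_ifs
  · exact (gen G).par_e ν'
  · rw [mul_zero, zero_mul]

theorem s_eN (μ : X) : (gen G).s μ * eN G = eN G * (gen G).s μ := by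
  classical
  unfold eN
  rw [Finset.mul_sum, Finset.sum_mul]
  refine Finset.sum_congr rfl fun ν' _ => ?_
  split_ifs
  · exact (gen G).s_e μ ν'
  · rw [mul_zero, zero_mul]

theorem x_eN (i : Fin G.m) : (gen G).x i * eN G = eN G * (gen G).x i := by
  classical
  unfold eN
  rw [Finset.mul_sum, Finset.sum_mul, ← Equiv.sum_comp (Equiv.addRight (G.wt i))
    (fun ν => (if ∀ i j, G.c i j ν = 0 then (gen G).e ν else 0) * (gen G).x i)]
  refine Finset.sum_congr rfl fun ν' _ => ?_
  rw [Equiv.coe_addRight]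
  by_cases h : ∀ i j, G.c i j ν' = 0
  · rw [if_pos h, if_pos ((NBdeg_add G i ν').2 h)]
    exact (gen G).x_e i ν'
  · rw [if_neg h, if_neg (fun h' => h ((NBdeg_add G i ν').1 h')), mul_zero, zero_mul]

theorem xi_eN (i : Fin G.m) : (gen G).xi i * eN G = eN G * (gen G).xi i := by
  classical
  unfold eN
  rw [Finset.mul_sum, Finset.sum_mul, ← Equiv.sum_comp (Equiv.subRight (G.wt i))
    (fun ν => (if ∀ i j, G.c i j ν = 0 then (gen G).e ν else 0) * (gen G).xi i)]
  refine Finset.sum_congr rfl fun ν' _ => ?_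
  rw [Equiv.subRight_apply]
  have h0 := NBdeg_add G i (ν' - G.wt i)
  rw [sub_add_cancel] at h0
  by_cases h : ∀ i j, G.c i j ν' = 0
  · rw [if_pos h, if_pos (h0.1 h)]
    exact (gen G).xi_e i ν'
  · rw [if_neg h, if_neg (fun h' => h (h0.2 h')), mul_zero, zero_mul]

theorem c_weight (i j : Fin G.m) (s : (Fin G.m ⊕ Fin G.m) →₀ ℕ) :
    G.c i j (Finsupp.weight (wgt G) s).1 = 0 := by
  rw [Finsupp.weight_apply, Finsupp.sum, Prod.fst_sum, map_sum]
  refine Finset.sum_eq_zero fun u _ => ?_
  rw [Prod.smul_fst, map_nsmul]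
  rcases u with u | u
  · show s (Sum.inl u) • G.c i j (-G.wt u) = 0
    rw [map_neg, G.jac, neg_zero, smul_zero]
  · show s (Sum.inr u) • G.c i j (G.wt u) = 0
    rw [G.jac, smul_zero]

theorem eN_eps {κ : X × ZMod 2} (h : ∀ i j, G.c i j κ.1 = 0) : eN G * eps G κ = eps G κ := by
  classical
  unfold eps
  rw [mul_smul_comm, ← mul_assoc]
  congr 2
  unfold eN
  rw [Finset.sum_mul, Finset.sum_eq_single κ.1]
  · rw [if_pos h, (gen G).e_mul, if_pos rfl]
  · intro ν _ hν
    split_ifs
    · rw [(gen G).e_mul, if_neg hν]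
    · rw [zero_mul]
  · intro h'
    exact absurd (Finset.mem_univ _) h'

variable (M : Type v) [AddCommGroup M] [Module k M] [Module (Dbl G) M] [IsScalarTower k (Dbl G) M]

variable {M}

theorem eN_smul_comm (a : Dbl G) (m : M) : eN G • (a • m) = a • (eN G • m) := by
  have key := map_smul_of_gen G (M := M) (N := M) (Algebra.lsmul k k M (eN G))
    (fun ν m => by
      show eN G • (gen G).e ν • m = (gen G).e ν • eN G • m
      rw [smul_smul, smul_smul, e_eN])
    (fun m => by
      show eN G • (gen G).par • m = (gen G).par • eN G • m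
      rw [smul_smul, smul_smul, par_eN])
    (fun μ m => by
      show eN G • (gen G).s μ • m = (gen G).s μ • eN G • m
      rw [smul_smul, smul_smul, s_eN])
    (fun i m => by
      show eN G • (gen G).x i • m = (gen G).x i • eN G • m
      rw [smul_smul, smul_smul, x_eN])
    (fun i m => by
      show eN G • (gen G).xi i • m = (gen G).xi i • eN G • m
      rw [smul_smul, smul_smul, xi_eN])
  exact key a m

theorem eN_idem : eN G * eN G = eN G := by
  classical
  conv_lhs => enter [2]; rw [eN]
  rw [Finset.mul_sum]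
  conv_rhs => rw [eN]
  refine Finset.sum_congr rfl fun ν _ => ?_
  split_ifs with h
  · unfold eN
    rw [Finset.sum_mul, Finset.sum_eq_single ν]
    · rw [if_pos h, (gen G).e_mul, if_pos rfl]
    · intro ν' _ hν
      split_ifs
      · rw [(gen G).e_mul, if_neg hν]
      · rw [zero_mul]
    · intro h'
      exact absurd (Finset.mem_univ _) h'
  · rw [mul_zero]

variable (M)

/-- the block of the trivial module -/
def MN : Submodule (Dbl G) M where
  carrier := {m | eN G • m = m}
  add_mem' {a b} ha hb := by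
    show eN G • (a + b) = a + b
    rw [smul_add, ha, hb]
  zero_mem' := smul_zero _
  smul_mem' a m hm := by
    show eN G • a • m = a • m
    rw [eN_smul_comm, hm]

/-- the projection onto the block -/
noncomputable def piN' : M →ₗ[Dbl G] MN G M where
  toFun m := ⟨eN G • m, by
    show eN G • eN G • m = eN G • m
    rw [smul_smul, eN_idem]⟩
  map_add' a b := Subtype.ext (smul_add _ _ _)
  map_smul' a m := Subtype.ext (eN_smul_comm G a m)

theorem NB_MN : NB G (MN G M) := by
  classical
  intro i j m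
  have hm : eN G • (m : M) = m := m.2
  apply Subtype.ext
  show (∑ ν : X, G.c i j ν • (gen G).e ν) • (m : M) = 0
  rw [← hm, smul_smul]
  have : (∑ ν : X, G.c i j ν • (gen G).e ν) * eN G = 0 := by
    unfold eN
    rw [Finset.sum_mul]
    refine Finset.sum_eq_zero fun ν _ => ?_
    rw [Finset.mul_sum]
    refine Finset.sum_eq_zero fun ν' _ => ?_
    split_ifs with h
    · rw [smul_mul_assoc, (gen G).e_mul]
      by_cases h' : ν = ν'
      · subst h'
        rw [h, zero_smul]
      · rw [if_neg h', smul_zero]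
    · rw [mul_zero]
  rw [this, zero_smul]

/-- the inclusion, over `k` -/
noncomputable def iN : MN G M →ₗ[k] M := (MN G M).subtype.restrictScalars k

/-- the projection, over `k` -/
noncomputable def pN : M →ₗ[k] MN G M := (piN' G M).restrictScalars k

variable {M} {r : ℕ}

theorem mapC_pN {f : CC k M (Fin G.m ⊕ Fin G.m) r} (hf : E0 G M r f = f) :
    mapC _ r (iN G M) (mapC _ r (pN G M) f) = f := by
  have h1 : (mapC _ r (iN G M) ∘ₗ mapC _ r (pN G M)) ∘ₗ E0 G M r = E0 G M r := by
    refine Finsupp.lhom_ext' fun a => ?_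
    refine w_ext (G := G) fun δ m p hp => ?_
    simp only [LinearMap.comp_apply, Finsupp.lsingle_apply]
    rw [E0_single, E0W_tmul hp, mapC_single, mapC_single]
    by_cases h0 : p = 0
    · rw [h0, TensorProduct.tmul_zero, TensorProduct.tmul_zero]
    · obtain ⟨s, hs⟩ := MvPolynomial.ne_zero_iff.1 h0
      have h2 := hp hs
      have h3 : ∀ i j, G.c i j (-δ).1 = 0 := by
        intro i j
        rw [Prod.fst_neg, map_neg, ← h2, c_weight, neg_zero]
      have h4 : iN G M (pN G M (eps G (-δ) • m)) = eps G (-δ) • m := by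
        show eN G • eps G (-δ) • m = eps G (-δ) • m
        rw [smul_smul, eN_eps G h3]
      rw [h4]
  have h2 := LinearMap.congr_fun h1 f
  rw [LinearMap.comp_apply, hf, LinearMap.comp_apply] at h2
  exact h2

end Block

/-! ## The abstract differential -/

/-- what is used about the differential -/
structure Dif (G : HCData k X) (r : ℕ) where
  /-- the differential -/
  D : ∀ (M : Type u) [AddCommGroup M] [Module k M] [Module (Dbl G) M] [IsScalarTower k (Dbl G) M],
    CC k M (Fin G.m ⊕ Fin G.m) r →ₗ[k] CC k M (Fin G.m ⊕ Fin G.m) r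
  /-- the generators of the group -/
  gens : Fin r → X
  hgens : AddSubgroup.closure (Set.range gens) = ⊤
  gr : ∀ (M : Type u) [AddCommGroup M] [Module k M] [Module (Dbl G) M] [IsScalarTower k (Dbl G) M]
    (n : ℕ), ∀ f ∈ GrC k M (Fin G.m ⊕ Fin G.m) r n, D M f ∈ GrC k M _ r (n + 1)
  nat : ∀ (M N : Type u) [AddCommGroup M] [Module k M] [Module (Dbl G) M]
    [IsScalarTower k (Dbl G) M] [AddCommGroup N] [Module k N] [Module (Dbl G) N]
    [IsScalarTower k (Dbl G) N] (φ : M →ₗ[k] N) (_ : ∀ (a : Dbl G) (m : M), φ (a • m) = a • φ m)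
    (f : CC k M (Fin G.m ⊕ Fin G.m) r), mapC _ r φ (D M f) = D N (mapC _ r φ f)
  e0 : ∀ (M : Type u) [AddCommGroup M] [Module k M] [Module (Dbl G) M]
    [IsScalarTower k (Dbl G) M] (f : CC k M (Fin G.m ⊕ Fin G.m) r),
    E0 G M r (D M f) = D M (E0 G M r f)
  one : ∀ (M : Type u) [AddCommGroup M] [Module k M] [Module (Dbl G) M]
    [IsScalarTower k (Dbl G) M] (w : M), D M (Finsupp.single 0 (w ⊗ₜ 1)) =
      ∑ v, Finsupp.single 0 ((opg G v • w) ⊗ₜ MvPolynomial.X v) +
        ∑ l, Finsupp.single (ev l) (((gen G).s (gens l) • w - w) ⊗ₜ 1)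
  dd : ∀ (M : Type u) [AddCommGroup M] [Module k M] [Module (Dbl G) M]
    [IsScalarTower k (Dbl G) M], NB G M → ∀ f, D M (D M f) = 0
  acyc : ∀ (M : Type u) [AddCommGroup M] [Module k M] [Module (Dbl G) M]
    [IsScalarTower k (Dbl G) M], NB G M → Injective (ModuleCat.of (Dbl G) M) →
    ∀ n, ∀ f ∈ GrC k M (Fin G.m ⊕ Fin G.m) r (n + 1), D M f = 0 →
      ∃ g ∈ GrC k M (Fin G.m ⊕ Fin G.m) r n, D M g = f

namespace Dif

variable {G : HCData k X} {r : ℕ} (Δ : Dif G r)

section

variable (M : Type u) [AddCommGroup M] [Module k M] [Module (Dbl G) M] [IsScalarTower k (Dbl G) M]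

/-- the cochains of degree `n` -/
noncomputable def S (G : HCData k X) (r : ℕ) (M : Type u) [AddCommGroup M] [Module k M]
    [Module (Dbl G) M] [IsScalarTower k (Dbl G) M] (n : ℕ) :
    Submodule k (CC k M (Fin G.m ⊕ Fin G.m) r) :=
  GrC k M _ r n ⊓ LinearMap.eqLocus (E0 G M r) LinearMap.id

theorem mem_S {n : ℕ} {f : CC k M (Fin G.m ⊕ Fin G.m) r} :
    f ∈ S G r M n ↔ f ∈ GrC k M _ r n ∧ E0 G M r f = f := Iff.rfl

variable {M}

theorem iN_lin (a : Dbl G) (m : MN G M) : iN G M (a • m) = a • iN G M m := rfl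

theorem pN_lin (a : Dbl G) (m : M) : pN G M (a • m) = a • pN G M m := (piN' G M).map_smul a m

theorem pN_iN (m : MN G M) : pN G M (iN G M m) = m := Subtype.ext m.2

/-- `D D = 0` on the part of degree zero, for all modules -/
theorem D_D {f : CC k M (Fin G.m ⊕ Fin G.m) r} (hf : E0 G M r f = f) : Δ.D M (Δ.D M f) = 0 := by
  rw [← mapC_pN G hf, ← Δ.nat _ _ _ (iN_lin (G := G)), ← Δ.nat _ _ _ (iN_lin (G := G)),
    Δ.dd _ (NB_MN G M), map_zero]

theorem acyc' (h2 : (2 : k) ≠ 0) (hI : Injective (ModuleCat.of (Dbl G) M)) {n : ℕ}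
    {f : CC k M (Fin G.m ⊕ Fin G.m) r}
    (hf : f ∈ S G r M (n + 1)) (hDf : Δ.D M f = 0) : ∃ g ∈ S G r M n, Δ.D M g = f := by
  have hI' : Injective (ModuleCat.of (Dbl G) (MN G M)) := by
    refine Retract.injective (Y := ModuleCat.of (Dbl G) M)
      ⟨ModuleCat.ofHom (MN G M).subtype, ModuleCat.ofHom (piN' G M), ?_⟩
    refine ModuleCat.hom_ext (LinearMap.ext fun m => ?_)
    exact Subtype.ext m.2
  obtain ⟨g, hg, hg'⟩ := Δ.acyc _ (NB_MN G M) hI' n (mapC _ r (pN G M) f)
    (mapC_mem _ _ _ hf.1) (by rw [← Δ.nat _ _ _ (pN_lin (G := G)), hDf, map_zero])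
  refine ⟨E0 G M r (mapC _ r (iN G M) g), ⟨E0_gr _ _ (mapC_mem _ _ _ hg), E0_E0 h2 _⟩, ?_⟩
  rw [← Δ.e0, ← Δ.nat _ _ _ (iN_lin (G := G)), hg', mapC_pN G hf.2]
  exact hf.2

end

open scoped ModuleCat

/-- a morphism as a `k`-linear map -/
noncomputable def kl {M N : ModuleCat.{u} (Dbl G)} (f : M ⟶ N) : M →ₗ[k] N where
  toFun := f.hom
  map_add' := f.hom.map_add
  map_smul' c m := by
    show f.hom (c • m) = c • f.hom m
    rw [← algebraMap_smul (Dbl G) c m, ← algebraMap_smul (Dbl G) c (f.hom m), map_smul]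

theorem kl_lin {M N : ModuleCat.{u} (Dbl G)} (f : M ⟶ N) (a : Dbl G) (m : M) :
    kl f (a • m) = a • kl f m := f.hom.map_smul a m

theorem kl_comp {M N P : ModuleCat.{u} (Dbl G)} (f : M ⟶ N) (g : N ⟶ P) :
    kl (f ≫ g) = kl g ∘ₗ kl f := rfl

theorem kl_add {M N : ModuleCat.{u} (Dbl G)} (f g : M ⟶ N) : kl (f + g) = kl f + kl g := rfl

theorem kl_smul {M N : ModuleCat.{u} (Dbl G)} (c : k) (f : M ⟶ N) :
    kl (c • f) = c • kl f := rfl

variable (G r) in
/-- the cochains of degree `n` as a type -/
abbrev Ch (n : ℕ) (M : ModuleCat.{u} (Dbl G)) : Type u := S G r M n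

variable (r) in
/-- functoriality -/
noncomputable def chMap (n : ℕ) {M N : ModuleCat.{u} (Dbl G)} (f : M ⟶ N) :
    Ch G r n M →ₗ[k] Ch G r n N :=
  ((mapC (Fin G.m ⊕ Fin G.m) r (kl f)).comp (S G r M n).subtype).codRestrict (S G r N n)
    fun x => ⟨mapC_mem _ _ _ x.2.1, by
      show E0 G N r (mapC _ r (kl f) x) = mapC _ r (kl f) x
      have := E0_mapC (kl f) (kl_lin f) (x : CC k M (Fin G.m ⊕ Fin G.m) r)
      rw [← this]
      exact congrArg _ x.2.2⟩

theorem chMap_val (n : ℕ) {M N : ModuleCat.{u} (Dbl G)} (f : M ⟶ N) (x : Ch G r n M) :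
    (chMap r n f x : CC k N (Fin G.m ⊕ Fin G.m) r) = mapC _ r (kl f) x := rfl

/-- the differential -/
noncomputable def chD (n : ℕ) (M : ModuleCat.{u} (Dbl G)) : Ch G r n M →ₗ[k] Ch G r (n + 1) M :=
  ((Δ.D M).comp (S G r M n).subtype).codRestrict (S G r M (n + 1))
    fun x => ⟨Δ.gr _ _ _ x.2.1, by
      show E0 G M r (Δ.D M x) = Δ.D M x
      rw [Δ.e0]
      exact congrArg _ x.2.2⟩

theorem chD_val (n : ℕ) (M : ModuleCat.{u} (Dbl G)) (x : Ch G r n M) :
    (Δ.chD n M x : CC k M (Fin G.m ⊕ Fin G.m) r) = Δ.D M x := rfl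

theorem eps_triv (h2 : (2 : k) ≠ 0) (m : Triv G) : eps G 0 • m = m := by
  rw [triv_smul]
  have : aug G (eps G 0) = 1 := by
    unfold eps aug
    rw [map_smul, map_mul, map_add, map_smul, map_one, lift_e, lift_par]
    show (2⁻¹ : k) • ((if (0 : X) = 0 then (1 : k) else 0) *
      (1 + (if (0 : ZMod 2) = 0 then (1 : k) else -1) • (1 : k))) = 1
    rw [if_pos rfl, if_pos rfl, one_smul, one_mul, smul_eq_mul]
    field_simp
    norm_num
  rw [this, one_smul]

theorem opg_triv (v : Fin G.m ⊕ Fin G.m) (m : Triv G) : opg G v • m = 0 := by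
  rw [triv_smul]
  have : aug G (opg G v) = 0 := by
    unfold aug
    rcases v with v | v
    · exact lift_x (augOps G) v
    · exact lift_xi (augOps G) v
  rw [this, zero_smul]
  rfl

theorem s_triv (μ : X) (m : Triv G) : (gen G).s μ • m = m := by
  rw [triv_smul]
  have : aug G ((gen G).s μ) = 1 := lift_s (augOps G) μ
  rw [this, one_smul]

/-- the unit vector of the trivial module -/
noncomputable def uv (G : HCData k X) : unitObj G := (1 : k)

/-- the universal cochain -/
noncomputable def uc0 (G : HCData k X) (r : ℕ) : CC k (unitObj G) (Fin G.m ⊕ Fin G.m) r :=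
  Finsupp.single 0 (uv G ⊗ₜ[k] 1)

theorem uc0_mem (h2 : (2 : k) ≠ 0) : uc0 G r ∈ S G r (unitObj G) 0 := by
  refine ⟨single_mem_GrC (d := 0) (by rw [map_zero]) _ (isHomogeneous_one _ _), ?_⟩
  show E0 G (unitObj G) r (uc0 G r) = uc0 G r
  unfold uc0
  rw [E0_single, E0W_tmul (isWeightedHomogeneous_one k _), neg_zero,
    show eps G 0 • uv G = uv G from eps_triv h2 _]

theorem D_uc0 : Δ.D (unitObj G) (uc0 G r) = 0 := by
  unfold uc0
  rw [Δ.one, Finset.sum_eq_zero, Finset.sum_eq_zero, add_zero]
  · intro l _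
    rw [show (gen G).s (Δ.gens l) • uv G = uv G from s_triv _ _, sub_self,
      TensorProduct.zero_tmul, Finsupp.single_zero]
  · intro v _
    rw [show opg G v • uv G = 0 from opg_triv _ _, TensorProduct.zero_tmul, Finsupp.single_zero]

theorem kl_uc0 {M : ModuleCat.{u} (Dbl G)} (f : unitObj G ⟶ M) :
    mapC _ r (kl f) (uc0 G r) = Finsupp.single 0 (kl f (uv G) ⊗ₜ[k] 1) := by
  unfold uc0
  rw [mapC_single]

theorem eq_of_uv {M : ModuleCat.{u} (Dbl G)} (f g : unitObj G ⟶ M)
    (h : f.hom (uv G) = g.hom (uv G)) : f = g := by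
  refine ModuleCat.hom_ext (LinearMap.ext fun m => ?_)
  have hm : m = algebraMap k (Dbl G) m • uv G := by
    show m = (algebraMap k (Dbl G) m) • (show Triv G from (1 : k))
    rw [triv_smul, AlgHom.commutes]
    exact (mul_one (show k from m)).symm
  rw [hm, map_smul, map_smul, h]

theorem e_eps (ν : X) (κ : X × ZMod 2) :
    (gen G).e ν * eps G κ = if ν = κ.1 then eps G κ else 0 := by
  unfold eps
  rw [mul_smul_comm, ← mul_assoc, (gen G).e_mul]
  split_ifs with h
  · rw [h]
  · rw [zero_mul, smul_zero]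

theorem par_eps0 : (gen G).par * eps G 0 = eps G 0 := by
  unfold eps
  rw [mul_smul_comm]
  congr 1
  have h1 : sgn k (0 : X × ZMod 2).2 = 1 := if_pos rfl
  rw [h1, one_smul, ← mul_assoc, (gen G).par_e, mul_assoc, mul_add, mul_one, (gen G).par_sq,
    add_comm]

theorem e_inv {M : Type*} [AddCommGroup M] [Module (Dbl G) M] {w : M} (he : eps G 0 • w = w)
    (ν : X) : (gen G).e ν • w = if ν = 0 then w else 0 := by
  rw [← he, smul_smul, e_eps]
  show (if ν = 0 then eps G 0 else 0) • w = _
  split_ifs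
  · rfl
  · rw [zero_smul]

theorem par_inv {M : Type*} [AddCommGroup M] [Module (Dbl G) M] {w : M} (he : eps G 0 • w = w) :
    (gen G).par • w = w := by
  conv_lhs => rw [← he, smul_smul, par_eps0]
  exact he

/-- the linear map from the trivial module given by an invariant vector -/
noncomputable def ofInv' {M : ModuleCat.{u} (Dbl G)} (w : M) : Triv G →ₗ[k] M :=
  show k →ₗ[k] M from LinearMap.toSpanSingleton k M w

theorem ofInv'_apply {M : ModuleCat.{u} (Dbl G)} (w : M) (c : Triv G) :
    ofInv' w c = (show k from c) • w := rfl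

/-- the morphism from the unit object given by an invariant vector -/
noncomputable def ofInv {M : ModuleCat.{u} (Dbl G)} (w : M) (he : eps G 0 • w = w)
    (hv : ∀ v, opg G v • w = 0) (hs : ∀ μ, (gen G).s μ • w = w) : unitObj G ⟶ M :=
  ModuleCat.ofHom
    { toFun := ofInv' w
      map_add' := (ofInv' w).map_add
      map_smul' := fun a m => by
        rw [RingHom.id_apply]
        have hc : ∀ (b : Dbl G) (c : k), b • (c • w : M) = c • (b • w : M) := by
          intro b c
          rw [← algebraMap_smul (Dbl G) c w, ← algebraMap_smul (Dbl G) c (b • w), smul_smul,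
            smul_smul, Algebra.commutes]
        refine map_smul_of_gen G (M := Triv G) (N := M) (ofInv' w) ?_ ?_ ?_ ?_ ?_ a m
        · intro ν c
          rw [ofInv'_apply, ofInv'_apply, hc, e_inv he, triv_smul]
          have : aug G ((gen G).e ν) = if ν = 0 then 1 else 0 := lift_e (augOps G) ν
          rw [this]
          show ((if ν = 0 then (1 : k) else 0) * (show k from c)) • w = _
          split_ifs
          · rw [one_mul]
          · rw [zero_mul, zero_smul, smul_zero]
        · intro c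
          rw [ofInv'_apply, ofInv'_apply, hc, par_inv he, triv_smul]
          have : aug G (gen G).par = 1 := lift_par (augOps G)
          rw [this]
          show ((1 : k) * (show k from c)) • w = _
          rw [one_mul]
        · intro μ c
          rw [ofInv'_apply, ofInv'_apply, hc, hs, s_triv]
        · intro i c
          rw [show (gen G).x i • c = 0 from opg_triv (Sum.inl i) c, map_zero, ofInv'_apply, hc,
            show (gen G).x i • w = 0 from hv (Sum.inl i), smul_zero]
        · intro i c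
          rw [show (gen G).xi i • c = 0 from opg_triv (Sum.inr i) c, map_zero, ofInv'_apply, hc,
            show (gen G).xi i • w = 0 from hv (Sum.inr i), smul_zero] }

theorem ofInv_uv {M : ModuleCat.{u} (Dbl G)} (w : M) (he : eps G 0 • w = w)
    (hv : ∀ v, opg G v • w = 0) (hs : ∀ μ, (gen G).s μ • w = w) :
    kl (ofInv w he hv hs) (uv G) = w := by
  show (1 : k) • w = w
  rw [one_smul]

/-- the functorial resolution -/
noncomputable def res (h2 : (2 : k) ≠ 0) : Res.{u, u, u + 1, u} k (unitObj G) where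
  C := Ch G r
  instG n M := inferInstance
  instM n M := inferInstance
  map n _ _ f := chMap r n f
  map_comp n _ _ _ f g x := Subtype.ext (by
    rw [chMap_val, chMap_val, chMap_val, kl_comp, mapC_comp])
  map_add n _ _ f g x := Subtype.ext (by
    rw [chMap_val, kl_add, mapC_add]
    rfl)
  map_smul n _ _ c f x := Subtype.ext (by
    rw [chMap_val, kl_smul, mapC_smul]
    rfl)
  d n M := Δ.chD n M
  d_d n M x := Subtype.ext (by
    rw [chD_val, chD_val]
    exact Δ.D_D x.2.2)
  d_map n M N f x := Subtype.ext (by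
    rw [chD_val, chMap_val, chMap_val, chD_val]
    exact (Δ.nat _ _ _ (kl_lin f) _).symm)
  inj n S hS x hx := Subtype.ext (mapC_injective (φ := kl S.f) hS.moduleCat_injective_f _
    (congrArg Subtype.val hx))
  surj n S hS x := by
    obtain ⟨g, hg, hg'⟩ := mapC_surjective_gr (φ := kl S.g) hS.moduleCat_surjective_g x.2.1
    refine ⟨⟨E0 G _ r g, E0_gr _ _ hg, E0_E0 h2 _⟩, Subtype.ext ?_⟩
    rw [chMap_val]
    show mapC _ r (kl S.g) (E0 G _ r g) = _
    rw [E0_mapC _ (kl_lin S.g), hg']
    exact x.2.2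
  exact n S hS x hx := by
    obtain ⟨g, hg, hg'⟩ := mapC_exact_gr (φ := kl S.f) (ψ := kl S.g)
      ((ShortComplex.ShortExact.moduleCat_exact_iff_function_exact S).1 hS.exact) x.2.1
      (congrArg Subtype.val hx)
    refine ⟨⟨E0 G _ r g, E0_gr _ _ hg, E0_E0 h2 _⟩, Subtype.ext ?_⟩
    rw [chMap_val]
    show mapC _ r (kl S.f) (E0 G _ r g) = _
    rw [E0_mapC _ (kl_lin S.f), hg']
    exact x.2.2
  acyc I _ n x hx := by
    obtain ⟨g, hg, hg'⟩ := Δ.acyc' (M := I) h2 (inferInstanceAs (Injective I)) x.2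
      (congrArg Subtype.val hx)
    exact ⟨⟨g, hg⟩, Subtype.ext hg'⟩
  e := ⟨uc0 G r, uc0_mem h2⟩
  d_e := Subtype.ext Δ.D_uc0
  e_inj {M} f hf := by
    have h1 : mapC _ r (kl f) (uc0 G r) = 0 := congrArg Subtype.val hf
    rw [kl_uc0] at h1
    have h3 := congrArg (fun g : CC k M (Fin G.m ⊕ Fin G.m) r => coW k M 0 (g 0)) h1
    simp only [Finsupp.single_eq_same, coW_tmul, Finsupp.zero_apply, map_zero,
      MvPolynomial.coeff_zero_one, one_smul] at h3
    refine eq_of_uv f 0 ?_
    exact h3
  e_surj {M} x hx := by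
    obtain ⟨w, hw⟩ := GrC_zero x.2.1
    have h1 : Δ.D M (Finsupp.single 0 (w ⊗ₜ[k] 1)) = 0 := by
      rw [← hw]
      exact congrArg Subtype.val hx
    rw [Δ.one] at h1
    obtain ⟨hv, hl⟩ := one_zero _ _ h1
    have he : eps G 0 • w = w := by
      have h3 : E0 G M r (x : CC k M (Fin G.m ⊕ Fin G.m) r) = x := x.2.2
      rw [hw, E0_single, E0W_tmul (isWeightedHomogeneous_one k _), neg_zero] at h3
      have h4 := congrArg (fun g : CC k M (Fin G.m ⊕ Fin G.m) r => coW k M 0 (g 0)) h3
      simp only [Finsupp.single_eq_same, coW_tmul, MvPolynomial.coeff_zero_one, one_smul] at h4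
      exact h4
    have hs : ∀ μ, (gen G).s μ • w = w := by
      intro μ
      have hμ : μ ∈ AddSubgroup.closure (Set.range Δ.gens) := by rw [Δ.hgens]; trivial
      induction hμ using AddSubgroup.closure_induction with
      | mem ν hν =>
        obtain ⟨l, rfl⟩ := hν
        exact sub_eq_zero.1 (hl l)
      | zero => rw [(gen G).s_zero, one_smul]
      | add ν ν' _ _ h h' => rw [← (gen G).s_add, ← smul_smul, h', h]
      | neg ν _ h =>
        conv_lhs => rw [← h]
        rw [smul_smul, (gen G).s_add, neg_add_cancel, (gen G).s_zero, one_smul]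
    refine ⟨ofInv w he hv hs, Subtype.ext ?_⟩
    rw [chMap_val, hw]
    show mapC _ r (kl (ofInv w he hv hs)) (uc0 G r) = _
    rw [kl_uc0, ofInv_uv]

end Dif

end Pool.Agent.Work.MP_0c1793_al
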