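import Pool.Agent.Work.MP_0c1793_al.LemK

/-!
# The complex of the divided power type for commuting operators
-/

namespace Pool.Agent.DG

open Finsupp

variable {k M : Type*} [CommRing k] [AddCommGroup M] [Module k M] {r : ℕ}

/-- the exponent of a variable -/
noncomputable abbrev ev (l : Fin r) : Fin r →₀ ℕ := Finsupp.single l 1

theorem ev_same (l : Fin r) : ev l l = 1 := Finsupp.single_eq_same

theorem ev_ne {l l' : Fin r} (h : l ≠ l') : ev l l' = 0 := Finsupp.single_eq_of_ne' h

/-- the sign -/
def sg (k : Type*) [Ring k] {r : ℕ} (l : Fin r) (a : Fin r →₀ ℕ) : k :=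
  (-1) ^ ∑ l' ∈ Finset.Iio l, a l'

theorem sg_add (l : Fin r) (a b : Fin r →₀ ℕ) : sg k l (a + b) = sg k l a * sg k l b := by
  unfold sg
  rw [← pow_add, ← Finset.sum_add_distrib]
  rfl

theorem sg_mul_self (l : Fin r) (a : Fin r →₀ ℕ) : sg k l a * sg k l a = 1 := by
  unfold sg
  rw [← pow_add, ← two_mul, pow_mul]
  simp

theorem sg_single (l j : Fin r) : sg k l (ev j) = if j < l then -1 else 1 := by
  unfold sg
  have : ∑ l' ∈ Finset.Iio l, ev j l' = if j < l then 1 else 0 := by
    simp [ev, Finsupp.single_apply]
  rw [this]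
  split_ifs <;> simp

/-- the operator `P l` for even `n`, `N l` for odd `n` -/
def opn (P N : Fin r → M →ₗ[k] M) (l : Fin r) (n : ℕ) : M →ₗ[k] M := if Even n then P l else N l

theorem opn_add_two (P N : Fin r → M →ₗ[k] M) (l : Fin r) (n : ℕ) :
    opn P N l (n + 1 + 1) = opn P N l n := by
  unfold opn
  have : Even (n + 1 + 1) ↔ Even n := by
    rw [Nat.even_add_one, Nat.even_add_one, not_not]
  simp only [this]

/-- the differential -/
noncomputable def dd (P N : Fin r → M →ₗ[k] M) (b : Fin r →₀ ℕ) :
    ((Fin r →₀ ℕ) →₀ M) →ₗ[k] ((Fin r →₀ ℕ) →₀ M) :=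
  Finsupp.lsum k fun a => ∑ l : Fin r,
    sg k l (a + b) • (Finsupp.lsingle (a + ev l) ∘ₗ opn P N l ((a + b) l))

theorem dd_single (P N : Fin r → M →ₗ[k] M) (b a : Fin r →₀ ℕ) (m : M) :
    dd P N b (single a m) =
      ∑ l : Fin r, sg k l (a + b) • single (a + ev l) (opn P N l ((a + b) l) m) := by
  unfold dd
  rw [Finsupp.lsum_single, LinearMap.sum_apply]
  rfl

theorem dd_add_two (P N : Fin r → M →ₗ[k] M) (b : Fin r →₀ ℕ) (l : Fin r) :
    dd P N (b + ev l + ev l) = dd P N b := by
  refine Finsupp.lhom_ext fun a m => ?_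
  rw [dd_single, dd_single]
  refine Finset.sum_congr rfl fun l' _ => ?_
  have h1 : sg k l' (a + (b + ev l + ev l)) = sg k l' (a + b) := by
    rw [sg_add, sg_add (a := b + ev l), sg_add (a := b), mul_assoc (sg k l' b), sg_mul_self,
      mul_one, ← sg_add]
  have h2 : opn P N l' ((a + (b + ev l + ev l)) l') = opn P N l' ((a + b) l') := by
    by_cases h : l = l'
    · subst h
      rw [show (a + (b + ev l + ev l)) l = (a + b) l + 1 + 1 by
        simp only [Finsupp.add_apply, ev_same]; omega, opn_add_two]
    · rw [show (a + (b + ev l + ev l)) l' = (a + b) l' by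
        simp only [Finsupp.add_apply, ev_ne h]; omega]
  rw [h1, h2]

/-- commuting operators with `P l N l = 0` -/
structure Comm (P N : Fin r → M →ₗ[k] M) : Prop where
  comm : ∀ l l' (n n' : ℕ) (m : M), l ≠ l' →
    opn P N l n (opn P N l' n' m) = opn P N l' n' (opn P N l n m)
  zero : ∀ l (n : ℕ) (m : M), opn P N l (n + 1) (opn P N l n m) = 0

theorem dd_dd {P N : Fin r → M →ₗ[k] M} (h : Comm P N) (b : Fin r →₀ ℕ)
    (f : (Fin r →₀ ℕ) →₀ M) : dd P N b (dd P N b f) = 0 := by
  have h1 : dd P N b ∘ₗ dd P N b = 0 := by
    refine Finsupp.lhom_ext fun a m => ?_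
    rw [LinearMap.comp_apply, dd_single, map_sum, LinearMap.zero_apply]
    simp only [map_smul, dd_single, Finset.smul_sum]
    rw [← Finset.sum_product']
    refine Finset.sum_involution (fun p _ => (p.2, p.1)) ?_ ?_ ?_ ?_
    · rintro ⟨l, l'⟩ _
      by_cases hl : l = l'
      · subst hl
        have : (a + ev l + b) l = (a + b) l + 1 := by
          simp only [Finsupp.add_apply, ev_same]
          omega
        simp only [this, h.zero, single_zero, smul_zero, add_zero]
      · have e1 : (a + ev l + b) l' = (a + b) l' := by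
          simp only [Finsupp.add_apply, ev_ne hl]
          omega
        have e2 : (a + ev l' + b) l = (a + b) l := by
          simp only [Finsupp.add_apply, ev_ne (Ne.symm hl)]
          omega
        have e3 : sg k l' (a + ev l + b) = sg k l' (a + b) * (if l < l' then -1 else 1) := by
          rw [sg_add, sg_add, sg_single, sg_add]
          ring
        have e4 : sg k l (a + ev l' + b) = sg k l (a + b) * (if l' < l then -1 else 1) := by
          rw [sg_add, sg_add, sg_single, sg_add]
          ring
        simp only [e1, e2, e3, e4]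
        rw [h.comm l' l _ _ _ (Ne.symm hl), add_right_comm a (ev l') (ev l), smul_smul,
          smul_smul, ← add_smul]
        have e5 : sg k l (a + b) * (sg k l' (a + b) * (if l < l' then -1 else 1)) +
            sg k l' (a + b) * (sg k l (a + b) * (if l' < l then -1 else 1)) = 0 := by
          rcases lt_or_gt_of_ne hl with h' | h'
          · rw [if_pos h', if_neg (not_lt.2 h'.le)]
            ring
          · rw [if_pos h', if_neg (not_lt.2 h'.le)]
            ring
        rw [e5, zero_smul]
    · rintro ⟨l, l'⟩ _ hne heq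
      simp only [Prod.mk.injEq] at heq
      obtain ⟨rfl, _⟩ := heq
      apply hne
      have : (a + ev l' + b) l' = (a + b) l' + 1 := by
        simp only [Finsupp.add_apply, ev_same]
        omega
      simp only [this, h.zero, single_zero, smul_zero]
    · rintro ⟨l, l'⟩ _
      simp
    · rintro ⟨l, l'⟩ _
      rfl
  exact LinearMap.congr_fun h1 f

/-- the elements of degree `n` -/
def gr (k M : Type*) [CommRing k] [AddCommGroup M] [Module k M] (r n : ℕ) :
    Submodule k ((Fin r →₀ ℕ) →₀ M) :=
  Finsupp.supported M k {a | a.degree = n}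

theorem single_mem_gr {n : ℕ} {a : Fin r →₀ ℕ} (h : a.degree = n) (m : M) :
    single a m ∈ gr k M r n :=
  Finsupp.single_mem_supported k m h

theorem gr_map {n n' : ℕ} (φ : ((Fin r →₀ ℕ) →₀ M) →ₗ[k] ((Fin r →₀ ℕ) →₀ M))
    (h : ∀ a : Fin r →₀ ℕ, a.degree = n → ∀ m : M, φ (single a m) ∈ gr k M r n') :
    ∀ f ∈ gr k M r n, φ f ∈ gr k M r n' := by
  intro f hf
  rw [← Finsupp.sum_single f, Finsupp.sum, map_sum]
  exact Submodule.sum_mem _ fun a ha => h a ((Finsupp.mem_supported k f).1 hf ha) _

theorem degree_ev (l : Fin r) : (ev l).degree = 1 := Finsupp.degree_single l 1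

/-- the projection which sets the variables with index at least `j` equal to zero -/
noncomputable def res (k M : Type*) [CommRing k] [AddCommGroup M] [Module k M] (r j : ℕ) :
    ((Fin r →₀ ℕ) →₀ M) →ₗ[k] ((Fin r →₀ ℕ) →₀ M) :=
  open Classical in
  Finsupp.lsum k fun a => if ∀ l : Fin r, j ≤ l.val → a l = 0 then Finsupp.lsingle a else 0

open Classical in
theorem res_single (j : ℕ) (a : Fin r →₀ ℕ) (m : M) : res k M r j (single a m) =
    if ∀ l : Fin r, j ≤ l.val → a l = 0 then single a m else 0 := by
  unfold res
  rw [Finsupp.lsum_single]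
  split_ifs <;> rfl

/-- the part without the variable `l` -/
noncomputable def resl (k M : Type*) [CommRing k] [AddCommGroup M] [Module k M] {r : ℕ}
    (l : Fin r) : ((Fin r →₀ ℕ) →₀ M) →ₗ[k] ((Fin r →₀ ℕ) →₀ M) :=
  Finsupp.lsum k fun a => if a l = 0 then Finsupp.lsingle a else 0

theorem resl_single (l : Fin r) (a : Fin r →₀ ℕ) (m : M) : resl k M l (single a m) =
    if a l = 0 then single a m else 0 := by
  unfold resl
  rw [Finsupp.lsum_single]
  split_ifs <;> rfl

/-- multiplication by the variable `l` -/
noncomputable def vv (k M : Type*) [CommRing k] [AddCommGroup M] [Module k M] {r : ℕ}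
    (l : Fin r) : ((Fin r →₀ ℕ) →₀ M) →ₗ[k] ((Fin r →₀ ℕ) →₀ M) :=
  Finsupp.lsum k fun a => Finsupp.lsingle (a + ev l)

theorem vv_single (l : Fin r) (a : Fin r →₀ ℕ) (m : M) :
    vv k M l (single a m) = single (a + ev l) m := by
  unfold vv
  rw [Finsupp.lsum_single]
  rfl

/-- division by the variable `l` -/
noncomputable def dlt (k M : Type*) [CommRing k] [AddCommGroup M] [Module k M] {r : ℕ}
    (l : Fin r) : ((Fin r →₀ ℕ) →₀ M) →ₗ[k] ((Fin r →₀ ℕ) →₀ M) :=
  Finsupp.lsum k fun a => if a l = 0 then 0 else Finsupp.lsingle (a - ev l)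

theorem dlt_single (l : Fin r) (a : Fin r →₀ ℕ) (m : M) : dlt k M l (single a m) =
    if a l = 0 then 0 else single (a - ev l) m := by
  unfold dlt
  rw [Finsupp.lsum_single]
  split_ifs <;> rfl

theorem sub_ev_add {l : Fin r} {a : Fin r →₀ ℕ} (h : a l ≠ 0) : a - ev l + ev l = a :=
  tsub_add_cancel_of_le (Finsupp.single_le_iff.2 (Nat.one_le_iff_ne_zero.2 h))

theorem add_ev_ne (l : Fin r) (a : Fin r →₀ ℕ) : (a + ev l) l ≠ 0 := by
  rw [Finsupp.add_apply, ev_same]
  omega

theorem add_ev_apply {l l' : Fin r} (h : l ≠ l') (a : Fin r →₀ ℕ) : (a + ev l) l' = a l' := by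
  rw [Finsupp.add_apply, ev_ne h, add_zero]

theorem dlt_vv (l : Fin r) (f : (Fin r →₀ ℕ) →₀ M) : dlt k M l (vv k M l f) = f := by
  have : dlt k M l ∘ₗ vv k M l = LinearMap.id := by
    refine Finsupp.lhom_ext fun a m => ?_
    rw [LinearMap.comp_apply, vv_single, dlt_single, if_neg (add_ev_ne l a), LinearMap.id_apply,
      add_tsub_cancel_right]
  exact LinearMap.congr_fun this f

/-- the condition on the operators in degree zero -/
def DS (P N : Fin r → M →ₗ[k] M) : Prop :=
  ∀ (b : Fin r →₀ ℕ) (l : Fin r) (w : M), (∀ l' < l, opn P N l' (b l') w = 0) →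
    opn P N l (b l + 1) w = 0 →
    ∃ v, opn P N l (b l) v = w ∧ ∀ l' < l, opn P N l' (b l') v = 0

open Classical in
theorem shift_dd {P N : Fin r → M →ₗ[k] M} (h : Comm P N) (hDS : DS P N) (l : Fin r)
    (b : Fin r →₀ ℕ) : Shift (gr k M r) (res k M r (l.val + 1)) (resl k M l) (vv k M l)
      (dlt k M l) (dd P N b) (dd P N (b + ev l)) where
  FF f := by
    have : res k M r (l.val + 1) ∘ₗ res k M r (l.val + 1) = res k M r (l.val + 1) := by
      refine Finsupp.lhom_ext fun a m => ?_
      rw [LinearMap.comp_apply, res_single]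
      split_ifs with h1
      · rw [res_single, if_pos h1]
      · rw [map_zero]
    exact LinearMap.congr_fun this f
  FDF f := by
    have : res k M r (l.val + 1) ∘ₗ dd P N b ∘ₗ res k M r (l.val + 1) =
        res k M r (l.val + 1) ∘ₗ dd P N b := by
      refine Finsupp.lhom_ext fun a m => ?_
      simp only [LinearMap.comp_apply]
      rw [res_single]
      split_ifs with h1
      · rfl
      · rw [map_zero, map_zero, dd_single, map_sum]
        symm
        refine Finset.sum_eq_zero fun l' _ => ?_
        rw [map_smul, res_single, if_neg, smul_zero]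
        intro h2
        apply h1
        intro l'' hl''
        have := h2 l'' hl''
        rw [Finsupp.add_apply] at this
        omega
    exact LinearMap.congr_fun this f
  Fv f := by
    have : res k M r (l.val + 1) ∘ₗ vv k M l = vv k M l ∘ₗ res k M r (l.val + 1) := by
      refine Finsupp.lhom_ext fun a m => ?_
      rw [LinearMap.comp_apply, LinearMap.comp_apply, vv_single, res_single, res_single]
      have h1 : (∀ l' : Fin r, l.val + 1 ≤ l'.val → (a + ev l) l' = 0) ↔
          (∀ l' : Fin r, l.val + 1 ≤ l'.val → a l' = 0) := by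
        refine forall_congr' fun l' => forall_congr' fun h2 => ?_
        rw [add_ev_apply (fun h3 => by subst h3; omega)]
      by_cases h2 : ∀ l' : Fin r, l.val + 1 ≤ l'.val → a l' = 0
      · rw [if_pos h2, if_pos (h1.2 h2), vv_single]
      · rw [if_neg h2, if_neg (fun h3 => h2 (h1.1 h3)), map_zero]
    exact LinearMap.congr_fun this f
  vdl f := by
    have : vv k M l ∘ₗ dlt k M l + resl k M l = LinearMap.id := by
      refine Finsupp.lhom_ext fun a m => ?_
      rw [LinearMap.add_apply, LinearMap.comp_apply, dlt_single, resl_single, LinearMap.id_apply]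
      split_ifs with h1
      · rw [map_zero, zero_add]
      · rw [vv_single, add_zero, sub_ev_add h1]
    exact LinearMap.congr_fun this f
  v_inj f hf := by rw [← dlt_vv (k := k) l f, hf, map_zero]
  Dv f := by
    congr 1
    have : dd P N b ∘ₗ vv k M l = vv k M l ∘ₗ dd P N (b + ev l) := by
      refine Finsupp.lhom_ext fun a m => ?_
      rw [LinearMap.comp_apply, LinearMap.comp_apply, vv_single, dd_single, dd_single, map_sum]
      refine Finset.sum_congr rfl fun l' _ => ?_
      rw [map_smul, vv_single, add_right_comm a (ev l) (ev l'), add_right_comm a (ev l) b,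
        add_assoc a b (ev l)]
    exact LinearMap.congr_fun this f
  DD f := by rw [dd_dd h, map_zero]
  gr_F n := gr_map _ fun a ha m => by
    rw [res_single]
    split_ifs
    · exact single_mem_gr ha m
    · exact Submodule.zero_mem _
  gr_v n := gr_map _ fun a ha m => by
    rw [vv_single]
    exact single_mem_gr (by rw [map_add, ha, degree_ev]) m
  gr_dl n := gr_map _ fun a ha m => by
    rw [dlt_single]
    split_ifs with h1
    · exact Submodule.zero_mem _
    · refine single_mem_gr ?_ m
      have := congrArg Finsupp.degree (sub_ev_add h1)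
      rw [map_add, degree_ev, ha] at this
      omega
  gr_D n := gr_map _ fun a ha m => by
    rw [dd_single]
    exact Submodule.sum_mem _ fun l' _ => Submodule.smul_mem _ _
      (single_mem_gr (by rw [map_add, ha, degree_ev]) _)
  zero f hf hDf := by
    obtain ⟨w, rfl⟩ : ∃ w, f = single 0 w := by
      refine ⟨f 0, ?_⟩
      ext a
      by_cases ha : a = 0
      · subst ha
        rw [Finsupp.single_eq_same]
      · rw [Finsupp.single_eq_of_ne ha]
        by_contra h1
        exact ha (Finsupp.degree_eq_zero_iff a |>.1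
          ((Finsupp.mem_supported k f).1 hf (Finsupp.mem_support_iff.2 h1)))
    have hres : ∀ (b : Fin r →₀ ℕ) (w : M), res k M r (l.val + 1) (dd P N b (single 0 w)) =
        ∑ l' : Fin r, if l' ≤ l then sg k l' b • single (ev l') (opn P N l' (b l') w) else 0 := by
      intro b w
      rw [dd_single, map_sum]
      refine Finset.sum_congr rfl fun l' _ => ?_
      rw [map_smul, res_single, zero_add, zero_add]
      by_cases h1 : l' ≤ l
      · rw [if_pos h1, if_pos]
        intro l'' h2
        refine ev_ne fun h3 => ?_
        subst h3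
        exact absurd (Fin.le_def.1 h1) (by omega)
      · rw [if_neg h1, if_neg, smul_zero]
        intro h2
        have := h2 l' (by have := Fin.lt_def.1 (not_le.1 h1); omega)
        rw [ev_same] at this
        exact one_ne_zero this
    rw [hres] at hDf
    have h1 : ∀ l' ≤ l, opn P N l' ((b + ev l) l') w = 0 := by
      intro l' hl'
      have h2 := DFunLike.congr_fun hDf (ev l')
      rw [Finsupp.finsetSum_apply, Finset.sum_eq_single l'] at h2
      · rw [if_pos hl', Finsupp.smul_apply, Finsupp.single_eq_same, Finsupp.zero_apply] at h2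
        have h3 := congrArg (fun x => sg k l' (b + ev l) • x) h2
        simp only [smul_smul, sg_mul_self, one_smul, smul_zero] at h3
        exact h3
      · intro l'' _ hne
        split_ifs
        · rw [Finsupp.smul_apply, Finsupp.single_eq_of_ne, smul_zero]
          intro h3
          have := DFunLike.congr_fun h3 l''
          rw [ev_same, ev_ne (Ne.symm hne)] at this
          exact zero_ne_one this
        · rfl
      · intro h3
        exact absurd (Finset.mem_univ _) h3
    obtain ⟨v, hv1, hv2⟩ := hDS b l w (fun l' hl' => by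
      have := h1 l' hl'.le
      rwa [add_ev_apply (ne_of_gt hl')] at this) (by
      have := h1 l le_rfl
      rwa [Finsupp.add_apply, ev_same] at this)
    refine ⟨single 0 (sg k l b • v), single_mem_gr (map_zero _) _, ?_⟩
    rw [map_sub, hres, vv_single, zero_add, res_single, if_pos (fun l' h2 => ev_ne (fun h3 => by
      subst h3; omega)), Finset.sum_eq_single l]
    · rw [if_pos le_rfl, map_smul, hv1, Finsupp.smul_single, smul_smul, sg_mul_self, one_smul,
        sub_self]
    · intro l' _ hne
      split_ifs with h2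
      · rw [map_smul, hv2 l' (lt_of_le_of_ne h2 hne), smul_zero, Finsupp.single_zero, smul_zero]
      · rfl
    · intro h3
      exact absurd (Finset.mem_univ _) h3

open Classical in
/-- The complex is acyclic in positive degrees. -/
theorem dd_acyclic {P N : Fin r → M →ₗ[k] M} (h : Comm P N) (hDS : DS P N)
    (b : Fin r →₀ ℕ) (n : ℕ) (f : (Fin r →₀ ℕ) →₀ M) (hf : f ∈ gr k M r (n + 1))
    (hDf : dd P N b f = 0) : ∃ g ∈ gr k M r n, dd P N b g = f := by
  have key : ∀ j ≤ r, ∀ b, Ac (gr k M r) (res k M r j) (dd P N b) := by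
    intro j
    induction j with
    | zero =>
      intro _ b n f hf _
      refine ⟨0, Submodule.zero_mem _, ?_⟩
      rw [map_zero, sub_zero]
      have : ∀ f ∈ gr k M r (n + 1), res k M r 0 f = 0 := by
        intro f hf
        rw [← Finsupp.sum_single f, Finsupp.sum, map_sum]
        refine Finset.sum_eq_zero fun a ha => ?_
        rw [res_single, if_neg]
        intro h1
        have h2 : a = 0 := by
          ext l
          exact h1 l (Nat.zero_le _)
        have h3 : a.degree = n + 1 := (Finsupp.mem_supported k f).1 hf ha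
        rw [h2, map_zero] at h3
        omega
      exact this f hf
    | succ j ih =>
      intro hj b
      have h1 : resl k M (⟨j, hj⟩ : Fin r) ∘ₗ res k M r (j + 1) = res k M r j := by
        refine Finsupp.lhom_ext fun a m => ?_
        rw [LinearMap.comp_apply, res_single, res_single]
        by_cases h2 : ∀ l : Fin r, j ≤ l.val → a l = 0
        · rw [if_pos h2, if_pos (fun l hl => h2 l (by omega)), resl_single,
            if_pos (h2 _ le_rfl)]
        · rw [if_neg h2]
          by_cases h3 : ∀ l : Fin r, j + 1 ≤ l.val → a l = 0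
          · rw [if_pos h3, resl_single, if_neg]
            intro h4
            apply h2
            intro l hl
            rcases Nat.eq_or_lt_of_le hl with h5 | h5
            · rwa [show l = ⟨j, hj⟩ from Fin.ext h5.symm]
            · exact h3 l h5
          · rw [if_neg h3, map_zero]
      have h2 := shift_dd h hDS (⟨j, hj⟩ : Fin r) b
      have h3 := shift_dd h hDS (⟨j, hj⟩ : Fin r) (b + ev ⟨j, hj⟩)
      rw [dd_add_two] at h3
      exact (h2.ac h3 (by rw [h1]; exact ih (by omega) _) (by rw [h1]; exact ih (by omega) _)).1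
  have hid : res k M r r = LinearMap.id := by
    refine Finsupp.lhom_ext fun a m => ?_
    rw [res_single, if_pos (fun l hl => absurd l.isLt (by omega)), LinearMap.id_apply]
  obtain ⟨g, hg, hg'⟩ := key r le_rfl b n f hf (by rw [hDf, map_zero])
  rw [hid, LinearMap.id_apply, sub_eq_zero] at hg'
  exact ⟨g, hg, hg'.symm⟩

end Pool.Agent.DG
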