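import Pool.Agent.Work.MP_0c1793_al.Ops
import Pool.Agent.Work.MP_0c1793_al.StageS

/-! # The coinduced module and divisibility in injective modules -/

set_option autoImplicit false

universe u v

namespace Pool.Agent.Work.MP_0c1793_al.J

/-! ## Signs -/

section Sign

variable {m : ℕ} (k : Type u) [Field k]

/-- the sign of moving `j` to its place in `J` -/
def sn (j : Fin m) (J : Finset (Fin m)) : k := (-1) ^ (J.filter (fun i => j < i)).card

variable {k}

lemma sn_sq (j : Fin m) (J : Finset (Fin m)) : sn k j J * sn k j J = 1 := by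
  unfold sn
  rw [← pow_add, ← two_mul, pow_mul]
  simp

lemma sn_insert {i : Fin m} {J : Finset (Fin m)} (hi : i ∉ J) (j : Fin m) :
    sn k j (insert i J) = (if j < i then -1 else 1) * sn k j J := by
  unfold sn
  rw [Finset.filter_insert]
  split_ifs with h
  · rw [Finset.card_insert_of_notMem (fun h' => hi (Finset.mem_of_mem_filter i h')), pow_succ]
    ring
  · rw [one_mul]

lemma sn_erase {i : Fin m} {J : Finset (Fin m)} (hi : i ∈ J) (j : Fin m) :
    sn k j (J.erase i) = (if j < i then -1 else 1) * sn k j J := by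
  conv_rhs => rw [← Finset.insert_erase hi, sn_insert (Finset.notMem_erase i J)]
  split_ifs <;> ring

lemma sn_insert_self (j : Fin m) {J : Finset (Fin m)} (hj : j ∉ J) :
    sn k j (insert j J) = sn k j J := by
  rw [sn_insert hj, if_neg (lt_irrefl j), one_mul]

lemma sn_erase_self (j : Fin m) {J : Finset (Fin m)} (hj : j ∈ J) :
    sn k j (J.erase j) = sn k j J := by
  rw [sn_erase hj, if_neg (lt_irrefl j), one_mul]

end Sign

/-! ## Operators on functions -/

section Op

variable {m : ℕ} {k : Type u} [Field k] {X : Type} [AddCommGroup X]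
variable {M : Type v} [AddCommGroup M] [Module k M]

variable (k X M) in
/-- removing a fermion -/
def opK (j : Fin m) : Module.End k (X → Finset (Fin m) → M) where
  toFun F μ J := if j ∈ J then 0 else sn k j J • F μ (insert j J)
  map_add' F F' := by
    funext μ J
    simp only [Pi.add_apply]
    split_ifs
    · rw [add_zero]
    · rw [smul_add]
  map_smul' r F := by
    funext μ J
    simp only [Pi.smul_apply, RingHom.id_apply]
    split_ifs
    · rw [smul_zero]
    · rw [smul_comm]

variable (k X M) in
/-- adding a fermion -/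
def opS (j : Fin m) : Module.End k (X → Finset (Fin m) → M) where
  toFun F μ J := if j ∈ J then sn k j J • F μ (J.erase j) else 0
  map_add' F F' := by
    funext μ J
    simp only [Pi.add_apply]
    split_ifs
    · rw [smul_add]
    · rw [add_zero]
  map_smul' r F := by
    funext μ J
    simp only [Pi.smul_apply, RingHom.id_apply]
    split_ifs
    · rw [smul_comm]
    · rw [smul_zero]

variable (k X M m) in
/-- the sign operator -/
def opG : Module.End k (X → Finset (Fin m) → M) where
  toFun F μ J := (-1 : k) ^ J.card • F μ J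
  map_add' F F' := by
    funext μ J
    simp only [Pi.add_apply, smul_add]
  map_smul' r F := by
    funext μ J
    simp only [Pi.smul_apply, RingHom.id_apply]
    rw [smul_comm]

variable (k M m) in
/-- the translation -/
def opT (ν : X) : Module.End k (X → Finset (Fin m) → M) where
  toFun F μ J := F (μ + ν) J
  map_add' _ _ := rfl
  map_smul' _ _ := rfl

variable (M m) in
/-- the multiplication by a function -/
def opC (c : X → k) : Module.End k (X → Finset (Fin m) → M) where
  toFun F μ J := c μ • F μ J
  map_add' F F' := by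
    funext μ J
    simp only [Pi.add_apply, smul_add]
  map_smul' r F := by
    funext μ J
    simp only [Pi.smul_apply, RingHom.id_apply]
    rw [smul_comm]

variable (X m) in
/-- the action on the values -/
def opV (f : Finset (Fin m) → Module.End k M) : Module.End k (X → Finset (Fin m) → M) where
  toFun F μ J := f J (F μ J)
  map_add' F F' := by
    funext μ J
    simp only [Pi.add_apply, map_add]
  map_smul' r F := by
    funext μ J
    simp only [Pi.smul_apply, RingHom.id_apply, map_smul]

@[simp] lemma opK_apply (j : Fin m) (F : X → Finset (Fin m) → M) (μ : X) (J : Finset (Fin m)) :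
    opK k X M j F μ J = if j ∈ J then 0 else sn k j J • F μ (insert j J) := rfl

@[simp] lemma opS_apply (j : Fin m) (F : X → Finset (Fin m) → M) (μ : X) (J : Finset (Fin m)) :
    opS k X M j F μ J = if j ∈ J then sn k j J • F μ (J.erase j) else 0 := rfl

@[simp] lemma opG_apply (F : X → Finset (Fin m) → M) (μ : X) (J : Finset (Fin m)) :
    opG m k X M F μ J = (-1 : k) ^ J.card • F μ J := rfl

@[simp] lemma opT_apply (ν : X) (F : X → Finset (Fin m) → M) (μ : X) (J : Finset (Fin m)) :
    opT m k M ν F μ J = F (μ + ν) J := rfl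

@[simp] lemma opC_apply (c : X → k) (F : X → Finset (Fin m) → M) (μ : X) (J : Finset (Fin m)) :
    opC m M c F μ J = c μ • F μ J := rfl

@[simp] lemma opV_apply (f : Finset (Fin m) → Module.End k M) (F : X → Finset (Fin m) → M)
    (μ : X) (J : Finset (Fin m)) : opV m X f F μ J = f J (F μ J) := rfl

lemma end_ext {A B : Module.End k (X → Finset (Fin m) → M)}
    (h : ∀ F μ J, A F μ J = B F μ J) : A = B :=
  LinearMap.ext fun F => funext fun μ => funext fun J => h F μ J

/-- the anticommutator -/
def ac {R : Type*} [Ring R] (a b : R) : R := a * b + b * a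

lemma ac_comm {R : Type*} [Ring R] (a b : R) : ac a b = ac b a := add_comm _ _

lemma ac_add {R : Type*} [Ring R] (a b c : R) : ac a (b + c) = ac a b + ac a c := by
  unfold ac; noncomm_ring

lemma ac_neg {R : Type*} [Ring R] (a b : R) : ac a (-b) = -ac a b := by
  unfold ac; noncomm_ring

lemma ac_sum {R : Type*} [Ring R] {ι : Type*} (s : Finset ι) (a : R) (b : ι → R) :
    ac a (∑ i ∈ s, b i) = ∑ i ∈ s, ac a (b i) := by
  unfold ac
  rw [Finset.mul_sum, Finset.sum_mul, Finset.sum_add_distrib]

lemma ac_mul {R : Type*} [Ring R] {p q a b : R} (h1 : a * q = q * a) (h2 : b * p = p * b)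
    (h3 : a * b = b * a) : ac (p * a) (q * b) = ac p q * (a * b) := by
  unfold ac
  rw [show p * a * (q * b) = p * (a * q) * b by noncomm_ring,
    show q * b * (p * a) = q * (b * p) * a by noncomm_ring, h1, h2, add_mul]
  rw [show p * (q * a) * b = p * q * (a * b) by noncomm_ring,
    show q * (p * b) * a = q * p * (b * a) by noncomm_ring, h3]

lemma lin1 {R : Type*} [Ring R] {a b c e e' : R} (h1 : a * e = e' * a) (h2 : b * e = e' * b)
    (h3 : c * e = e' * c) : (a + b + -c) * e = e' * (a + b + -c) := by
  rw [add_mul, add_mul, mul_add, mul_add, neg_mul, mul_neg, h1, h2, h3]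

lemma lin2 {R : Type*} [Ring R] {a b c p : R} (h1 : p * a = -(a * p)) (h2 : p * b = -(b * p))
    (h3 : p * c = -(c * p)) : p * (a + b + -c) = -((a + b + -c) * p) := by
  rw [add_mul, add_mul, mul_add, mul_add, neg_mul, mul_neg, h1, h2, h3]
  abel

lemma lin3 {R : Type*} [Ring R] {a b c t d : R} (h1 : a * t = t * a) (h2 : b * t = t * b)
    (h3 : t * c = c * t + t * d) : (a + b + -c) * t - t * (a + b + -c) = t * d := by
  rw [add_mul, add_mul, mul_add, mul_add, neg_mul, mul_neg, h1, h2, h3]
  abel

lemma anti_mul {R : Type*} [Ring R] {p s a : R} (h1 : p * s = -(s * p)) (h2 : p * a = a * p) :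
    p * (s * a) = -(s * a * p) := by
  rw [← mul_assoc, h1, neg_mul, mul_assoc, h2, mul_assoc]

lemma anti_sum {R : Type*} [Ring R] {ι : Type*} {t : Finset ι} {p : R} {c : ι → R}
    (h : ∀ i ∈ t, p * c i = -(c i * p)) : p * (∑ i ∈ t, c i) = -((∑ i ∈ t, c i) * p) := by
  rw [Finset.mul_sum, Finset.sum_mul, Finset.sum_congr rfl h, Finset.sum_neg_distrib]

lemma anti_of_ac {R : Type*} [Ring R] {g s v : R} (h1 : ac g s = 0) (h2 : v * s = s * v) :
    g * v * s = -(s * (g * v)) := by
  unfold ac at h1
  rw [mul_assoc, h2, ← mul_assoc, ← mul_assoc, eq_neg_of_add_eq_zero_left h1, neg_mul]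

lemma ac_KK (i j : Fin m) : ac (opK k X M i) (opK k X M j) = 0 := by
  refine end_ext fun F μ J => ?_
  show opK k X M i (opK k X M j F) μ J + opK k X M j (opK k X M i F) μ J = 0
  simp only [opK_apply]
  by_cases hi : i ∈ J
  · have : i ∈ insert j J := Finset.mem_insert_of_mem hi
    simp [hi]
  · by_cases hj : j ∈ J
    · have : j ∈ insert i J := Finset.mem_insert_of_mem hj
      simp [hj]
    · by_cases hij : i = j
      · subst hij
        simp [hi]
      · have h1 : j ∉ insert i J := by
          simp only [Finset.mem_insert, not_or]; exact ⟨Ne.symm hij, hj⟩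
        have h2 : i ∉ insert j J := by
          simp only [Finset.mem_insert, not_or]; exact ⟨hij, hi⟩
        rw [if_neg hi, if_neg hj, if_neg h1, if_neg h2, Finset.insert_comm, smul_smul, smul_smul,
          ← add_smul, sn_insert hi, sn_insert hj]
        have h3 : sn k i J * ((if j < i then -1 else 1) * sn k j J) +
            sn k j J * ((if i < j then -1 else 1) * sn k i J) = 0 := by
          rcases lt_or_gt_of_ne hij with h | h
          · rw [if_neg (not_lt.2 h.le), if_pos h]; ring
          · rw [if_pos h, if_neg (not_lt.2 h.le)]; ring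
        rw [h3, zero_smul]

lemma ac_SS (i j : Fin m) : ac (opS k X M i) (opS k X M j) = 0 := by
  refine end_ext fun F μ J => ?_
  show opS k X M i (opS k X M j F) μ J + opS k X M j (opS k X M i F) μ J = 0
  simp only [opS_apply]
  by_cases hij : i = j
  · subst hij
    simp
  · by_cases hi : i ∈ J
    · by_cases hj : j ∈ J
      · have h1 : j ∈ J.erase i := Finset.mem_erase.2 ⟨Ne.symm hij, hj⟩
        have h2 : i ∈ J.erase j := Finset.mem_erase.2 ⟨hij, hi⟩
        rw [if_pos hi, if_pos hj, if_pos h1, if_pos h2, Finset.erase_right_comm, smul_smul,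
          smul_smul, ← add_smul, sn_erase hi, sn_erase hj]
        have h3 : sn k i J * ((if j < i then -1 else 1) * sn k j J) +
            sn k j J * ((if i < j then -1 else 1) * sn k i J) = 0 := by
          rcases lt_or_gt_of_ne hij with h | h
          · rw [if_neg (not_lt.2 h.le), if_pos h]; ring
          · rw [if_pos h, if_neg (not_lt.2 h.le)]; ring
        rw [h3, zero_smul]
      · have h1 : j ∉ J.erase i := fun h => hj (Finset.mem_of_mem_erase h)
        rw [if_pos hi, if_neg hj, if_neg h1, smul_zero, add_zero]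
    · have h1 : i ∉ J.erase j := fun h => hi (Finset.mem_of_mem_erase h)
      rw [if_neg hi, zero_add]
      split_ifs
      · rw [smul_zero]
      · rfl

lemma ac_KS (i j : Fin m) : ac (opK k X M i) (opS k X M j) = if i = j then 1 else 0 := by
  refine end_ext fun F μ J => ?_
  have h0 : ac (opK k X M i) (opS k X M j) F μ J =
    opK k X M i (opS k X M j F) μ J + opS k X M j (opK k X M i F) μ J := rfl
  rw [h0]
  simp only [opS_apply, opK_apply]
  by_cases hij : i = j
  · subst hij
    rw [if_pos rfl]
    show _ = F μ J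
    by_cases hi : i ∈ J
    · rw [if_pos hi, if_pos hi, if_neg (Finset.notMem_erase i J), zero_add, smul_smul,
        sn_erase_self i hi, sn_sq, one_smul, Finset.insert_erase hi]
    · rw [if_neg hi, if_neg hi, if_pos (Finset.mem_insert_self i J), add_zero, smul_smul,
        sn_insert_self i hi, sn_sq, one_smul, Finset.erase_insert hi]
  · rw [if_neg hij]
    show _ = (0 : M)
    by_cases hi : i ∈ J
    · have h1 : i ∈ J.erase j := Finset.mem_erase.2 ⟨hij, hi⟩
      rw [if_pos hi, zero_add]
      split_ifs
      · rw [smul_zero]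
      · rfl
    · by_cases hj : j ∈ J
      · have h1 : j ∈ insert i J := Finset.mem_insert_of_mem hj
        have h2 : i ∉ J.erase j := fun h => hi (Finset.mem_of_mem_erase h)
        rw [if_neg hi, if_pos hj, if_pos h1, if_neg h2, smul_smul, smul_smul,
          Finset.erase_insert_of_ne hij, ← add_smul, sn_insert hi, sn_erase hj]
        have h3 : sn k i J * ((if j < i then -1 else 1) * sn k j J) +
            sn k j J * ((if i < j then -1 else 1) * sn k i J) = 0 := by
          rcases lt_or_gt_of_ne hij with h | h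
          · rw [if_neg (not_lt.2 h.le), if_pos h]; ring
          · rw [if_pos h, if_neg (not_lt.2 h.le)]; ring
        rw [h3, zero_smul]
      · have h1 : j ∉ insert i J := by
          simp only [Finset.mem_insert, not_or]; exact ⟨Ne.symm hij, hj⟩
        rw [if_neg hi, if_neg hj, if_neg h1, smul_zero, add_zero]

lemma ac_GK (j : Fin m) : ac (opG m k X M) (opK k X M j) = 0 := by
  refine end_ext fun F μ J => ?_
  show opG m k X M (opK k X M j F) μ J + opK k X M j (opG m k X M F) μ J = 0
  simp only [opG_apply, opK_apply]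
  split_ifs with hj
  · simp
  · rw [Finset.card_insert_of_notMem hj, smul_smul, smul_smul, ← add_smul, pow_succ]
    rw [show (-1 : k) ^ J.card * sn k j J + sn k j J * ((-1) ^ J.card * -1) = 0 by ring, zero_smul]

lemma ac_GS (j : Fin m) : ac (opG m k X M) (opS k X M j) = 0 := by
  refine end_ext fun F μ J => ?_
  show opG m k X M (opS k X M j F) μ J + opS k X M j (opG m k X M F) μ J = 0
  simp only [opG_apply, opS_apply]
  split_ifs with hj
  · rw [← Finset.card_erase_add_one hj, smul_smul, smul_smul, ← add_smul, pow_succ]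
    rw [show (-1 : k) ^ (J.erase j).card * -1 * sn k j J + sn k j J * (-1) ^ (J.erase j).card = 0
      by ring, zero_smul]
  · simp

lemma G_G : opG m k X M * opG m k X M = 1 := by
  refine end_ext fun F μ J => ?_
  show opG m k X M (opG m k X M F) μ J = F μ J
  simp only [opG_apply]
  rw [smul_smul, ← pow_add, ← two_mul, pow_mul]
  simp

lemma T_T (ν ν' : X) : opT m k M ν * opT m k M ν' = opT m k M (ν + ν') := by
  refine end_ext fun F μ J => ?_
  show F (μ + ν + ν') J = F (μ + (ν + ν')) J
  rw [add_assoc]

lemma T_comm (ν ν' : X) : opT m k M ν * opT m k M ν' = opT m k M ν' * opT m k M ν := by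
  rw [T_T, T_T, add_comm]

lemma T_zero : opT m k M (0 : X) = 1 := by
  refine end_ext fun F μ J => ?_
  show F (μ + 0) J = F μ J
  rw [add_zero]

lemma T_K (ν : X) (j : Fin m) : opT m k M ν * opK k X M j = opK k X M j * opT m k M ν := rfl

lemma T_S (ν : X) (j : Fin m) : opT m k M ν * opS k X M j = opS k X M j * opT m k M ν := rfl

lemma T_G (ν : X) : opT m k M ν * opG m k X M = opG m k X M * opT m k M ν := rfl

lemma T_V (ν : X) (f : Finset (Fin m) → Module.End k M) :
    opT m k M ν * opV m X f = opV m X f * opT m k M ν := rfl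

lemma C_K (c : X → k) (j : Fin m) : opC m M c * opK k X M j = opK k X M j * opC m M c := by
  refine end_ext fun F μ J => ?_
  show opC m M c (opK k X M j F) μ J = opK k X M j (opC m M c F) μ J
  simp only [opC_apply, opK_apply]
  split_ifs
  · rw [smul_zero]
  · rw [smul_comm]

lemma C_S (c : X → k) (j : Fin m) : opC m M c * opS k X M j = opS k X M j * opC m M c := by
  refine end_ext fun F μ J => ?_
  show opC m M c (opS k X M j F) μ J = opS k X M j (opC m M c F) μ J
  simp only [opC_apply, opS_apply]
  split_ifs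
  · rw [smul_comm]
  · rw [smul_zero]

lemma C_G (c : X → k) : opC m M c * opG m k X M = opG m k X M * opC m M c := by
  refine end_ext fun F μ J => ?_
  show opC m M c (opG m k X M F) μ J = opG m k X M (opC m M c F) μ J
  simp only [opC_apply, opG_apply]
  rw [smul_comm]

lemma C_V (c : X → k) (f : Finset (Fin m) → Module.End k M) :
    opC m M c * opV m X f = opV m X f * opC m M c := by
  refine end_ext fun F μ J => ?_
  show opC m M c (opV m X f F) μ J = opV m X f (opC m M c F) μ J
  simp only [opC_apply, opV_apply]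
  rw [map_smul]

lemma C_C (c c' : X → k) : opC m M c * opC m M c' = opC m M c' * opC m M c := by
  refine end_ext fun F μ J => ?_
  show opC m M c (opC m M c' F) μ J = opC m M c' (opC m M c F) μ J
  simp only [opC_apply]
  rw [smul_comm]

lemma T_C (ν : X) (c : X →+ k) :
    opT m k M ν * opC m M c = opC m M c * opT m k M ν + c ν • opT m k M ν := by
  refine end_ext fun F μ J => ?_
  show c (μ + ν) • F (μ + ν) J = c μ • F (μ + ν) J + c ν • F (μ + ν) J
  rw [map_add, add_smul]

lemma G_V (f : Finset (Fin m) → Module.End k M) :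
    opG m k X M * opV m X f = opV m X f * opG m k X M := by
  refine end_ext fun F μ J => ?_
  show opG m k X M (opV m X f F) μ J = opV m X f (opG m k X M F) μ J
  simp only [opG_apply, opV_apply]
  rw [map_smul]

/-- constant operators on the values -/
abbrev opV0 (m : ℕ) (X : Type) (f : Module.End k M) : Module.End k (X → Finset (Fin m) → M) :=
  opV m X fun _ => f

lemma V_K (f : Module.End k M) (j : Fin m) :
    opV0 m X f * opK k X M j = opK k X M j * opV0 m X f := by
  refine end_ext fun F μ J => ?_
  show opV0 m X f (opK k X M j F) μ J = opK k X M j (opV0 m X f F) μ J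
  simp only [opV_apply, opK_apply]
  split_ifs
  · rw [map_zero]
  · rw [map_smul]

lemma V_S (f : Module.End k M) (j : Fin m) :
    opV0 m X f * opS k X M j = opS k X M j * opV0 m X f := by
  refine end_ext fun F μ J => ?_
  show opV0 m X f (opS k X M j F) μ J = opS k X M j (opV0 m X f F) μ J
  simp only [opV_apply, opS_apply]
  split_ifs
  · rw [map_smul]
  · rw [map_zero]

end Op

/-! ## The module -/

section JM

variable {k : Type u} [Field k] {X : Type} [AddCommGroup X] [Fintype X] [DecidableEq X]
variable (G : HCData k X) (M : Type v) [AddCommGroup M] [Module k M] [Module (Dbl G) M]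
  [IsScalarTower k (Dbl G) M]

/-- the weight of a set of fermions -/
def wtS (J : Finset (Fin G.m)) : X := ∑ j ∈ J, G.wt j

variable {G} in
lemma wtS_insert {j : Fin G.m} {J : Finset (Fin G.m)} (hj : j ∉ J) :
    wtS G (insert j J) = wtS G J + G.wt j := by
  unfold wtS
  rw [Finset.sum_insert hj, add_comm]

variable {G} in
lemma wtS_erase {j : Fin G.m} {J : Finset (Fin G.m)} (hj : j ∈ J) :
    wtS G J = wtS G (J.erase j) + G.wt j := by
  conv_lhs => rw [← Finset.insert_erase hj, wtS_insert (Finset.notMem_erase j J)]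

/-- the action of an element on the values -/
noncomputable def lact (a : Dbl G) : Module.End k M := Algebra.lsmul k k M a

lemma lact_apply (a : Dbl G) (m : M) : lact G M a m = a • m := rfl

lemma lact_mul (a b : Dbl G) : lact G M a * lact G M b = lact G M (a * b) := by
  unfold lact
  rw [map_mul]

/-- the difference of translations -/
noncomputable def opA (i : Fin G.m) : Module.End k (X → Finset (Fin G.m) → M) :=
  (2⁻¹ : k) • (opT G.m k M (G.wt i) - opT G.m k M (-G.wt i))

/-- the idempotents -/
noncomputable def opE (ν : X) : Module.End k (X → Finset (Fin G.m) → M) :=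
  opV G.m X fun J => lact G M ((gen G).e (ν - wtS G J))

/-- the odd elements -/
noncomputable def opX (i : Fin G.m) : Module.End k (X → Finset (Fin G.m) → M) :=
  opG G.m k X M * opV0 G.m X (lact G M ((gen G).x i)) + opS k X M i * opA G M i +
    -∑ j, opK k X M j * opC G.m M (G.c i j)

lemma A_K (i j : Fin G.m) : opA G M i * opK k X M j = opK k X M j * opA G M i := by
  unfold opA
  rw [smul_mul_assoc, mul_smul_comm, sub_mul, mul_sub, T_K, T_K]

lemma A_S (i j : Fin G.m) : opA G M i * opS k X M j = opS k X M j * opA G M i := by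
  unfold opA
  rw [smul_mul_assoc, mul_smul_comm, sub_mul, mul_sub, T_S, T_S]

lemma A_G (i : Fin G.m) : opA G M i * opG G.m k X M = opG G.m k X M * opA G M i := by
  unfold opA
  rw [smul_mul_assoc, mul_smul_comm, sub_mul, mul_sub, T_G, T_G]

lemma A_V (i : Fin G.m) (f : Finset (Fin G.m) → Module.End k M) :
    opA G M i * opV G.m X f = opV G.m X f * opA G M i := by
  unfold opA
  rw [smul_mul_assoc, mul_smul_comm, sub_mul, mul_sub, T_V, T_V]

lemma A_T (i : Fin G.m) (ν : X) : opA G M i * opT G.m k M ν = opT G.m k M ν * opA G M i := by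
  unfold opA
  rw [smul_mul_assoc, mul_smul_comm, sub_mul, mul_sub, T_comm, T_comm (-G.wt i)]

lemma A_A (i j : Fin G.m) : opA G M i * opA G M j = opA G M j * opA G M i := by
  show opA G M i * ((2⁻¹ : k) • (opT G.m k M (G.wt j) - opT G.m k M (-G.wt j))) = _
  rw [mul_smul_comm, mul_sub, A_T, A_T, ← sub_mul, ← smul_mul_assoc]
  rfl

lemma A_C (i j l : Fin G.m) : opA G M i * opC G.m M (G.c j l) = opC G.m M (G.c j l) * opA G M i := by
  unfold opA
  rw [smul_mul_assoc, mul_smul_comm, sub_mul, mul_sub, T_C, T_C, map_neg, G.jac]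
  simp

/-- the sum of the two terms vanishes -/
lemma c_A (i j : Fin G.m) : opC G.m M (G.c j i) * opA G M i + opC G.m M (G.c i j) * opA G M j = 0 := by
  rw [G.symm j i, ← mul_add]
  by_cases h : G.c i j = 0
  · rw [h]
    have : opC G.m M (fun μ => (0 : X →+ k) μ) = 0 := by
      refine end_ext fun F μ J => ?_
      show (0 : k) • F μ J = 0
      rw [zero_smul]
    rw [this, zero_mul]
  · have h1 := G.inv i j h
    have h2 : G.wt j = -G.wt i := by rw [eq_neg_iff_add_eq_zero, add_comm]; exact h1
    have h3 : opA G M i + opA G M j = 0 := by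
      unfold opA
      rw [h2, neg_neg, ← smul_add]
      simp
    rw [h3, mul_zero]

lemma ac_UU (i j : Fin G.m) :
    ac (opG G.m k X M * opV0 G.m X (lact G M ((gen G).x i)))
      (opG G.m k X M * opV0 G.m X (lact G M ((gen G).x j))) =
      ∑ ν : X, G.c i j ν • opE G M ν := by
  unfold ac
  rw [show ∀ a b : Module.End k (X → Finset (Fin G.m) → M), opG G.m k X M * a *
    (opG G.m k X M * b) = opG G.m k X M * (a * opG G.m k X M) * b from fun a b => by noncomm_ring,
    show ∀ a b : Module.End k (X → Finset (Fin G.m) → M), opG G.m k X M * a *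
    (opG G.m k X M * b) = opG G.m k X M * (a * opG G.m k X M) * b from fun a b => by noncomm_ring,
    ← G_V, ← G_V, ← mul_assoc, ← mul_assoc, G_G, one_mul, one_mul]
  refine end_ext fun F μ J => ?_
  have h1 : (opV0 G.m X (lact G M ((gen G).x i)) * opV0 G.m X (lact G M ((gen G).x j)) +
      opV0 G.m X (lact G M ((gen G).x j)) * opV0 G.m X (lact G M ((gen G).x i))) F μ J =
      (gen G).x i • (gen G).x j • F μ J + (gen G).x j • (gen G).x i • F μ J := rfl
  rw [h1, ← mul_smul, ← mul_smul, ← add_smul, (gen G).x_x, Finset.sum_smul]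
  have h2 : (∑ ν : X, G.c i j ν • opE G M ν) F μ J =
      ∑ ν : X, G.c i j ν • ((gen G).e (ν - wtS G J) • F μ J) := by
    rw [LinearMap.sum_apply, Finset.sum_apply, Finset.sum_apply]
    rfl
  rw [h2, ← Equiv.sum_comp (Equiv.addRight (wtS G J))
    (fun ν => G.c i j ν • ((gen G).e (ν - wtS G J) • F μ J))]
  refine Finset.sum_congr rfl fun ν _ => ?_
  simp only [Equiv.coe_addRight, add_sub_cancel_right, map_add]
  have h3 : G.c i j (wtS G J) = 0 := by
    unfold wtS
    rw [map_sum]
    exact Finset.sum_eq_zero fun h _ => G.jac i j h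
  rw [h3, add_zero, smul_assoc]

lemma ac_UK (i j : Fin G.m) (b : Module.End k (X → Finset (Fin G.m) → M))
    (h1 : b * opG G.m k X M = opG G.m k X M * b)
    (h2 : opV0 G.m X (lact G M ((gen G).x i)) * b = b * opV0 G.m X (lact G M ((gen G).x i))) :
    ac (opG G.m k X M * opV0 G.m X (lact G M ((gen G).x i))) (opK k X M j * b) = 0 := by
  rw [ac_mul (V_K _ j) h1 h2, ac_GK, zero_mul]

lemma ac_US (i j : Fin G.m) (b : Module.End k (X → Finset (Fin G.m) → M))
    (h1 : b * opG G.m k X M = opG G.m k X M * b)
    (h2 : opV0 G.m X (lact G M ((gen G).x i)) * b = b * opV0 G.m X (lact G M ((gen G).x i))) :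
    ac (opG G.m k X M * opV0 G.m X (lact G M ((gen G).x i))) (opS k X M j * b) = 0 := by
  rw [ac_mul (V_S _ j) h1 h2, ac_GS, zero_mul]

lemma ac_X_K (i j : Fin G.m) : ac (opX G M i) (opK k X M j) = if i = j then opA G M i else 0 := by
  rw [ac_comm]
  unfold opX
  rw [ac_add, ac_add, ac_neg, ac_sum]
  have h1 : ac (opK k X M j) (opG G.m k X M * opV0 G.m X (lact G M ((gen G).x i))) = 0 := by
    have := ac_UK G M i j 1 (by simp) (by simp)
    rw [mul_one] at this
    rw [ac_comm, this]
  have h2 : ac (opK k X M j) (opS k X M i * opA G M i) = if i = j then opA G M i else 0 := by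
    have := ac_mul (p := opK k X M j) (a := 1) (q := opS k X M i) (b := opA G M i) (by simp)
      (A_K G M i j) (by simp)
    rw [mul_one, one_mul, ac_KS] at this
    rw [this]
    by_cases h : i = j
    · rw [if_pos h, if_pos h.symm, one_mul]
    · rw [if_neg h, if_neg (Ne.symm h), zero_mul]
  have h3 : ∀ l, ac (opK k X M j) (opK k X M l * opC G.m M (G.c i l)) = 0 := by
    intro l
    have := ac_mul (p := opK k X M j) (a := 1) (q := opK k X M l) (b := opC G.m M (G.c i l))
      (by simp) (C_K _ j) (by simp)
    rw [mul_one, one_mul, ac_KK, zero_mul] at this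
    exact this
  rw [h1, h2, Finset.sum_eq_zero fun l _ => h3 l]
  simp

lemma ac_X_X (i j : Fin G.m) : ac (opX G M i) (opX G M j) = ∑ ν : X, G.c i j ν • opE G M ν := by
  have hU : ∀ i j, ac (opG G.m k X M * opV0 G.m X (lact G M ((gen G).x i)))
      (opS k X M j * opA G M j) = 0 := fun i j =>
    ac_US G M i j _ (A_G G M j) (A_V G M j _).symm
  have hD : ∀ i j, ac (opG G.m k X M * opV0 G.m X (lact G M ((gen G).x i)))
      (∑ l, opK k X M l * opC G.m M (G.c j l)) = 0 := fun i j => by
    rw [ac_sum]
    exact Finset.sum_eq_zero fun l _ => ac_UK G M i l _ (C_G _) (C_V _ _).symm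
  have hS : ∀ i j, ac (opS k X M i * opA G M i) (opS k X M j * opA G M j) = 0 := fun i j => by
    rw [ac_mul (A_S G M i j) (A_S G M j i) (A_A G M i j), ac_SS, zero_mul]
  have hSD : ∀ i j, ac (opS k X M i * opA G M i) (∑ l, opK k X M l * opC G.m M (G.c j l)) =
      opC G.m M (G.c j i) * opA G M i := fun i j => by
    rw [ac_sum, Finset.sum_eq_single i]
    · rw [ac_mul (A_K G M i i) (C_S _ i) (A_C G M i j i), ac_comm, ac_KS, if_pos rfl, one_mul,
        A_C]
    · intro l _ hl
      rw [ac_mul (A_K G M i l) (C_S _ i) (A_C G M i j l), ac_comm, ac_KS, if_neg hl, zero_mul]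
    · intro h
      exact absurd (Finset.mem_univ _) h
  have hDD : ∀ i j, ac (∑ l, opK k X M l * opC G.m M (G.c i l))
      (∑ l, opK k X M l * opC G.m M (G.c j l)) = 0 := fun i j => by
    rw [ac_sum]
    refine Finset.sum_eq_zero fun l _ => ?_
    rw [ac_comm, ac_sum]
    refine Finset.sum_eq_zero fun l' _ => ?_
    rw [ac_mul (C_K _ l') (C_K _ l) (C_C _ _), ac_KK, zero_mul]
  have hX : ∀ (a : Module.End k (X → Finset (Fin G.m) → M)) (j : Fin G.m), ac a (opX G M j) =
      ac a (opG G.m k X M * opV0 G.m X (lact G M ((gen G).x j))) +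
      ac a (opS k X M j * opA G M j) + -ac a (∑ l, opK k X M l * opC G.m M (G.c j l)) := by
    intro a j
    unfold opX
    rw [ac_add, ac_add, ac_neg]
  rw [hX, ac_comm (opX G M i), ac_comm (opX G M i), ac_comm (opX G M i), hX, hX, hX, ac_UU, hS,
    hDD, hU, hD, ac_comm (opS k X M j * opA G M j)
      (opG G.m k X M * opV0 G.m X (lact G M ((gen G).x i))), hU, hSD,
    ac_comm (∑ l, opK k X M l * opC G.m M (G.c j l))
      (opG G.m k X M * opV0 G.m X (lact G M ((gen G).x i))), hD,
    ac_comm (∑ l, opK k X M l * opC G.m M (G.c j l)) (opS k X M i * opA G M i), hSD, G.symm j i]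
  have h := c_A G M i j
  rw [G.symm j i] at h
  rw [eq_neg_of_add_eq_zero_left h]
  abel

lemma E_apply (ν : X) (F : X → Finset (Fin G.m) → M) (μ : X) (J : Finset (Fin G.m)) :
    opE G M ν F μ J = (gen G).e (ν - wtS G J) • F μ J := rfl

lemma K_E (j : Fin G.m) (ν : X) :
    opK k X M j * opE G M ν = opE G M (ν - G.wt j) * opK k X M j := by
  refine end_ext fun F μ J => ?_
  show opK k X M j (opE G M ν F) μ J = opE G M (ν - G.wt j) (opK k X M j F) μ J
  rw [E_apply, opK_apply, opK_apply]
  split_ifs with h
  · rw [smul_zero]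
  · rw [E_apply, wtS_insert h, smul_comm, show ν - (wtS G J + G.wt j) = ν - G.wt j - wtS G J by abel]

lemma S_E (j : Fin G.m) (ν : X) :
    opS k X M j * opE G M ν = opE G M (ν + G.wt j) * opS k X M j := by
  refine end_ext fun F μ J => ?_
  show opS k X M j (opE G M ν F) μ J = opE G M (ν + G.wt j) (opS k X M j F) μ J
  rw [E_apply, opS_apply, opS_apply]
  split_ifs with h
  · rw [E_apply, wtS_erase h, smul_comm,
      show ν + G.wt j - (wtS G (J.erase j) + G.wt j) = ν - wtS G (J.erase j) by abel]
  · rw [smul_zero]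

lemma X_E (i : Fin G.m) (ν : X) : opX G M i * opE G M ν = opE G M (ν + G.wt i) * opX G M i := by
  refine lin1 ?_ ?_ ?_
  · refine end_ext fun F μ J => ?_
    show (-1 : k) ^ J.card • ((gen G).x i • ((gen G).e (ν - wtS G J) • F μ J)) =
      (gen G).e (ν + G.wt i - wtS G J) • ((-1 : k) ^ J.card • ((gen G).x i • F μ J))
    rw [← mul_smul, (gen G).x_e, smul_comm ((gen G).e (ν + G.wt i - wtS G J)), ← mul_smul,
      show ν - wtS G J + G.wt i = ν + G.wt i - wtS G J by abel]
  · rw [mul_assoc, show opA G M i * opE G M ν = opE G M ν * opA G M i from A_V G M i _,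
      ← mul_assoc, S_E, mul_assoc]
  · rw [Finset.sum_mul, Finset.mul_sum]
    refine Finset.sum_congr rfl fun j _ => ?_
    by_cases h : G.c i j = 0
    · have h1 : opC G.m M (G.c i j) = 0 := by
        refine end_ext fun F μ J => ?_
        show G.c i j μ • F μ J = 0
        rw [h, AddMonoidHom.zero_apply, zero_smul]
      rw [h1, mul_zero, zero_mul, mul_zero]
    · have h1 := G.inv i j h
      rw [mul_assoc, show opC G.m M (G.c i j) * opE G M ν = opE G M ν * opC G.m M (G.c i j) from
        C_V _ _, ← mul_assoc, K_E, mul_assoc,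
        show ν - G.wt j = ν + G.wt i by rw [sub_eq_add_neg, eq_neg_of_add_eq_zero_left h1]]

/-- the parity operator -/
noncomputable def opP : Module.End k (X → Finset (Fin G.m) → M) :=
  opG G.m k X M * opV0 G.m X (lact G M (gen G).par)

lemma P_E (ν : X) : opP G M * opE G M ν = opE G M ν * opP G M := by
  refine end_ext fun F μ J => ?_
  show (-1 : k) ^ J.card • ((gen G).par • ((gen G).e (ν - wtS G J) • F μ J)) =
    (gen G).e (ν - wtS G J) • ((-1 : k) ^ J.card • ((gen G).par • F μ J))
  rw [← mul_smul, (gen G).par_e, smul_comm ((gen G).e (ν - wtS G J)), ← mul_smul]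

lemma P_K (j : Fin G.m) : opP G M * opK k X M j = -(opK k X M j * opP G M) :=
  anti_of_ac (ac_GK j) (V_K _ j)

lemma P_S (j : Fin G.m) : opP G M * opS k X M j = -(opS k X M j * opP G M) :=
  anti_of_ac (ac_GS j) (V_S _ j)

lemma P_A (i : Fin G.m) : opP G M * opA G M i = opA G M i * opP G M := by
  unfold opP
  rw [mul_assoc, ← A_V, ← mul_assoc, ← mul_assoc, ← A_G]

lemma P_C (c : X → k) : opP G M * opC G.m M c = opC G.m M c * opP G M := by
  unfold opP
  rw [mul_assoc, ← C_V, ← mul_assoc, ← mul_assoc, ← C_G]

lemma P_X (i : Fin G.m) : opP G M * opX G M i = -(opX G M i * opP G M) := by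
  refine lin2 ?_ (anti_mul (P_S G M i) (P_A G M i))
    (anti_sum fun j _ => anti_mul (P_K G M j) (P_C G M _))
  refine end_ext fun F μ J => ?_
  show (-1 : k) ^ J.card • ((gen G).par • ((-1 : k) ^ J.card • ((gen G).x i • F μ J))) =
    -((-1 : k) ^ J.card • ((gen G).x i • ((-1 : k) ^ J.card • ((gen G).par • F μ J))))
  rw [smul_comm (gen G).par, smul_comm ((gen G).x i), ← mul_smul (gen G).par, (gen G).par_x,
    neg_smul, smul_neg, smul_neg, mul_smul]

/-- The operators satisfy the relations. -/
noncomputable def jOps : Ops G (Module.End k (X → Finset (Fin G.m) → M)) where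
  e := opE G M
  par := opP G M
  s := opT G.m k M
  x := opX G M
  xi := opK k X M
  e_mul ν ν' := by
    refine end_ext fun F μ J => ?_
    show (gen G).e (ν - wtS G J) • ((gen G).e (ν' - wtS G J) • F μ J) = _
    rw [← mul_smul, (gen G).e_mul]
    by_cases h : ν = ν'
    · rw [if_pos h, if_pos (by rw [h]), E_apply]
    · rw [if_neg h, if_neg (fun h' => h (sub_left_injective h'))]
      rw [zero_smul]; rfl
  e_sum := by
    refine end_ext fun F μ J => ?_
    rw [LinearMap.sum_apply, Finset.sum_apply, Finset.sum_apply]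
    refine (Equiv.sum_comp (Equiv.subRight (wtS G J)) (fun ν => (gen G).e ν • F μ J)).trans ?_
    rw [← Finset.sum_smul, (gen G).e_sum, one_smul]
    rfl
  par_sq := by
    refine end_ext fun F μ J => ?_
    show (-1 : k) ^ J.card • ((gen G).par • ((-1 : k) ^ J.card • ((gen G).par • F μ J))) = F μ J
    rw [smul_comm (gen G).par, smul_smul, ← pow_add, ← two_mul, pow_mul, ← mul_smul (gen G).par,
      (gen G).par_sq]
    simp
  par_e := P_E G M
  par_s μ := by
    show opP G M * opT G.m k M μ = opT G.m k M μ * opP G M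
    rfl
  par_x := P_X G M
  par_xi := P_K G M
  s_zero := T_zero
  s_add := T_T
  s_e μ ν := T_V _ _
  x_e := X_E G M
  xi_e := K_E G M
  x_x := ac_X_X G M
  xi_xi := ac_KK
  xi_s i μ := (T_K μ i).symm
  x_xi := ac_X_K G M
  x_s i μ := by
    refine lin3 rfl ?_ ?_
    · rw [mul_assoc, A_T]
      rfl
    · rw [Finset.mul_sum, Finset.mul_sum, Finset.sum_mul, ← Finset.sum_add_distrib]
      refine Finset.sum_congr rfl fun j _ => ?_
      rw [← mul_assoc, T_K, mul_assoc, T_C, mul_add, mul_assoc, mul_smul_comm, mul_smul_comm, T_K]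

end JM

/-! ## Products of the odd coordinate functions -/

section XI

variable {k : Type u} [Field k] {X : Type} [AddCommGroup X] [Fintype X] [DecidableEq X]
variable (G : HCData k X)

/-- the increasing product -/
noncomputable def XI (J : Finset (Fin G.m)) : Dbl G := ((J.sort (· ≤ ·)).map (gen G).xi).prod

lemma XI_empty : XI G ∅ = 1 := by
  unfold XI
  rw [Finset.sort_empty, List.map_nil, List.prod_nil]

variable {G} in
lemma XI_insert {a : Fin G.m} {J : Finset (Fin G.m)} (h : ∀ b ∈ J, a < b) :
    XI G (insert a J) = (gen G).xi a * XI G J := by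
  unfold XI
  rw [Finset.sort_insert (· ≤ ·) (fun b hb => (h b hb).le) (fun ha => lt_irrefl a (h a ha)),
    List.map_cons, List.prod_cons]

lemma xi_anti (i j : Fin G.m) : (gen G).xi i * (gen G).xi j = -((gen G).xi j * (gen G).xi i) :=
  eq_neg_of_add_eq_zero_left ((gen G).xi_xi i j)

lemma xi_sq (h2 : (2 : k) ≠ 0) (i : Fin G.m) : (gen G).xi i * (gen G).xi i = 0 := by
  have h := (gen G).xi_xi i i
  rw [← two_smul k ((gen G).xi i * (gen G).xi i)] at h
  exact (smul_eq_zero_iff_right h2).1 h

/-- the element `{x i, xi i}` -/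
noncomputable def aa (i : Fin G.m) : Dbl G :=
  (2⁻¹ : k) • ((gen G).s (G.wt i) - (gen G).s (-G.wt i))

lemma aa_xi (i j : Fin G.m) : (gen G).xi j * aa G i = aa G i * (gen G).xi j := by
  unfold aa
  rw [mul_smul_comm, smul_mul_assoc, mul_sub, sub_mul, (gen G).xi_s, (gen G).xi_s]

lemma XI_mul_xi (h2 : (2 : k) ≠ 0) (J : Finset (Fin G.m)) (j : Fin G.m) :
    XI G J * (gen G).xi j = if j ∈ J then 0 else sn k j J • XI G (insert j J) := by
  induction J using Finset.induction_on_min with
  | empty =>
    rw [XI_empty, one_mul, if_neg (Finset.notMem_empty j), XI_insert (by simp), XI_empty]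
    simp [sn]
  | insert a s ha ih =>
    have has : a ∉ s := fun h => lt_irrefl a (ha a h)
    rw [XI_insert ha, mul_assoc, ih]
    by_cases hj : j ∈ s
    · rw [if_pos hj, if_pos (Finset.mem_insert_of_mem hj), mul_zero]
    · rw [if_neg hj, mul_smul_comm]
      rcases lt_trichotomy j a with h | h | h
      · have h1 : j ∉ insert a s := by
          rw [Finset.mem_insert, not_or]
          exact ⟨ne_of_lt h, hj⟩
        have h3 : ∀ b ∈ s, j < b := fun b hb => h.trans (ha b hb)
        have h4 : ∀ b ∈ insert a s, j < b := by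
          intro b hb
          rcases Finset.mem_insert.1 hb with rfl | hb
          · exact h
          · exact h3 b hb
        rw [if_neg h1, XI_insert h3, XI_insert h4, XI_insert ha, sn_insert has, if_pos h,
          ← mul_assoc, ← mul_assoc, xi_anti G a j, neg_mul, smul_neg, neg_one_mul, neg_smul]
      · subst h
        rw [if_pos (Finset.mem_insert_self j s), XI_insert ha, ← mul_assoc, xi_sq G h2, zero_mul,
          smul_zero]
      · have h1 : j ∉ insert a s := by
          rw [Finset.mem_insert, not_or]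
          exact ⟨ne_of_gt h, hj⟩
        have h4 : ∀ b ∈ insert j s, a < b := by
          intro b hb
          rcases Finset.mem_insert.1 hb with rfl | hb
          · exact h
          · exact ha b hb
        rw [if_neg h1, Finset.insert_comm, XI_insert h4, sn_insert has, if_neg (not_lt.2 h.le),
          one_mul]

lemma XI_mul_x (J : Finset (Fin G.m)) (i : Fin G.m) :
    XI G J * (gen G).x i = (-1 : k) ^ J.card • ((gen G).x i * XI G J) +
      if i ∈ J then sn k i J • (aa G i * XI G (J.erase i)) else 0 := by
  induction J using Finset.induction_on_min with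
  | empty =>
    rw [XI_empty, one_mul, if_neg (Finset.notMem_empty i)]
    simp
  | insert a s ha ih =>
    have has : a ∉ s := fun h => lt_irrefl a (ha a h)
    have hax : (gen G).xi a * (gen G).x i = -((gen G).x i * (gen G).xi a) +
        if i = a then aa G i else 0 := by
      have h := (gen G).x_xi i a
      rw [← eq_sub_iff_add_eq'] at h
      rw [h]
      unfold aa
      abel
    rw [XI_insert ha, mul_assoc, ih, mul_add, mul_smul_comm, ← mul_assoc, hax, add_mul,
      smul_add, Finset.card_insert_of_notMem has, pow_succ, mul_neg_one, neg_smul, neg_mul,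
      smul_neg, mul_assoc, add_assoc]
    congr 1
    by_cases hi : i = a
    · subst hi
      rw [if_pos rfl, if_neg has, if_pos (Finset.mem_insert_self i s), Finset.erase_insert has,
        mul_zero, add_zero, sn_insert has, if_neg (lt_irrefl i), one_mul]
      have : sn k i s = (-1) ^ s.card := by
        unfold sn
        rw [Finset.filter_true_of_mem ha]
      rw [this]
    · rw [if_neg hi, zero_mul, smul_zero, zero_add]
      by_cases his : i ∈ s
      · have h1 : ∀ b ∈ s.erase i, a < b := fun b hb => ha b (Finset.mem_of_mem_erase hb)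
        rw [if_pos his, if_pos (Finset.mem_insert_of_mem his), mul_smul_comm, ← mul_assoc, aa_xi,
          mul_assoc, ← XI_insert h1, Finset.erase_insert_of_ne (Ne.symm hi), sn_insert has,
          if_neg (not_lt.2 (ha i his).le), one_mul]
      · have h1 : i ∉ insert a s := by
          rw [Finset.mem_insert, not_or]
          exact ⟨hi, his⟩
        rw [if_neg his, if_neg h1, mul_zero]

lemma XI_mul_s (J : Finset (Fin G.m)) (μ : X) : XI G J * (gen G).s μ = (gen G).s μ * XI G J := by
  induction J using Finset.induction_on_min with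
  | empty => rw [XI_empty, one_mul, mul_one]
  | insert a s ha ih => rw [XI_insert ha, mul_assoc, ih, ← mul_assoc, (gen G).xi_s, mul_assoc]

lemma XI_mul_par (J : Finset (Fin G.m)) :
    XI G J * (gen G).par = (-1 : k) ^ J.card • ((gen G).par * XI G J) := by
  induction J using Finset.induction_on_min with
  | empty =>
    rw [XI_empty, one_mul, mul_one]
    simp
  | insert a s ha ih =>
    have has : a ∉ s := fun h => lt_irrefl a (ha a h)
    have h1 : (gen G).xi a * (gen G).par = -((gen G).par * (gen G).xi a) := by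
      rw [(gen G).par_xi, neg_neg]
    rw [XI_insert ha, mul_assoc, ih, mul_smul_comm, ← mul_assoc, h1,
      Finset.card_insert_of_notMem has, pow_succ, mul_neg_one, neg_smul, neg_mul, smul_neg,
      mul_assoc]

lemma XI_mul_e (J : Finset (Fin G.m)) (ν : X) :
    XI G J * (gen G).e ν = (gen G).e (ν - wtS G J) * XI G J := by
  induction J using Finset.induction_on_min with
  | empty =>
    rw [XI_empty, one_mul, mul_one]
    simp [wtS]
  | insert a s ha ih =>
    have has : a ∉ s := fun h => lt_irrefl a (ha a h)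
    rw [XI_insert ha, mul_assoc, ih, ← mul_assoc, (gen G).xi_e, mul_assoc, wtS_insert has,
      sub_sub]

lemma XI_s_x (h2 : (2 : k) ≠ 0) (J : Finset (Fin G.m)) (μ : X) (i : Fin G.m) :
    XI G J * (gen G).s μ * (gen G).x i = (-1 : k) ^ J.card • ((gen G).x i * (XI G J * (gen G).s μ)) +
      (if i ∈ J then sn k i J • ((2⁻¹ : k) • (XI G (J.erase i) * (gen G).s (μ + G.wt i) -
        XI G (J.erase i) * (gen G).s (μ + -G.wt i))) else 0) +
      -∑ j, (if j ∈ J then 0 else sn k j J • (G.c i j μ • (XI G (insert j J) * (gen G).s μ))) := by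
  have h1 : (gen G).s μ * (gen G).x i =
      (gen G).x i * (gen G).s μ - (gen G).s μ * ∑ j, G.c i j μ • (gen G).xi j := by
    rw [← (gen G).x_s, sub_sub_cancel]
  have h3 : ∀ J', aa G i * XI G J' * (gen G).s μ = (2⁻¹ : k) • (XI G J' * (gen G).s (μ + G.wt i) -
        XI G J' * (gen G).s (μ + -G.wt i)) := by
    intro J'
    unfold aa
    rw [smul_mul_assoc, smul_mul_assoc, sub_mul, sub_mul, ← XI_mul_s, ← XI_mul_s, mul_assoc,
      mul_assoc, (gen G).s_add, (gen G).s_add, add_comm μ, add_comm μ]
  rw [mul_assoc, h1, mul_sub, ← mul_assoc, XI_mul_x, add_mul, smul_mul_assoc, mul_assoc,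
    sub_eq_add_neg]
  congr 1
  · congr 1
    split_ifs
    · rw [smul_mul_assoc, h3]
    · rw [zero_mul]
  · congr 1
    rw [Finset.mul_sum, Finset.mul_sum]
    refine Finset.sum_congr rfl fun j _ => ?_
    rw [mul_smul_comm, mul_smul_comm, ← (gen G).xi_s, ← mul_assoc, XI_mul_xi G h2]
    split_ifs
    · rw [zero_mul, smul_zero]
    · rw [smul_mul_assoc, smul_comm]

end XI

/-! ## The embedding -/

section Emb

variable {k : Type u} [Field k] {X : Type} [AddCommGroup X] [Fintype X] [DecidableEq X]

/-- the coinduced module -/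
def JM (G : HCData k X) (M : Type v) : Type v := X → Finset (Fin G.m) → M

variable (G : HCData k X) (M : Type v) [AddCommGroup M]

noncomputable instance : AddCommGroup (JM G M) :=
  inferInstanceAs (AddCommGroup (X → Finset (Fin G.m) → M))

variable [Module k M]

noncomputable instance : Module k (JM G M) :=
  inferInstanceAs (Module k (X → Finset (Fin G.m) → M))

variable [Module (Dbl G) M] [IsScalarTower k (Dbl G) M]

noncomputable instance : Module (Dbl G) (JM G M) :=
  Module.compHom (X → Finset (Fin G.m) → M) (jOps G M).lift.toRingHom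

lemma JM_smul (a : Dbl G) (F : JM G M) : a • F = (jOps G M).lift a F := rfl

instance : IsScalarTower k (Dbl G) (JM G M) where
  smul_assoc r a F := by
    rw [JM_smul, JM_smul, map_smul]
    rfl

variable {G M} in
/-- the operators on the coinduced module -/
def ap (S : Module.End k (X → Finset (Fin G.m) → M)) (F : JM G M) : JM G M := S F

variable {G M} in
lemma ap_zero (S : Module.End k (X → Finset (Fin G.m) → M)) : ap S (0 : JM G M) = 0 := map_zero S

variable {G M} in
lemma ap_sum {ι : Type*} (s : Finset ι) (S : ι → Module.End k (X → Finset (Fin G.m) → M))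
    (F : JM G M) : ap (∑ a ∈ s, S a) F = ∑ a ∈ s, ap (S a) F := LinearMap.sum_apply s S F

variable {G M} in
lemma ap_mul (S S' : Module.End k (X → Finset (Fin G.m) → M)) (F : JM G M) :
    ap (S * S') F = ap S (ap S' F) := rfl

lemma JM_e (ν : X) (F : JM G M) : (gen G).e ν • F = ap (opE G M ν) F := by
  rw [JM_smul, lift_e]; rfl

lemma JM_par (F : JM G M) : (gen G).par • F = ap (opP G M) F := by
  rw [JM_smul, lift_par]; rfl

lemma JM_s (μ : X) (F : JM G M) : (gen G).s μ • F = ap (opT G.m k M μ) F := by
  rw [JM_smul, lift_s]; rfl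

lemma JM_x (i : Fin G.m) (F : JM G M) : (gen G).x i • F = ap (opX G M i) F := by
  rw [JM_smul, lift_x]; rfl

lemma JM_xi (i : Fin G.m) (F : JM G M) : (gen G).xi i • F = ap (opK k X M i) F := by
  rw [JM_smul, lift_xi]; rfl

lemma X_apply (i : Fin G.m) (F : X → Finset (Fin G.m) → M) (μ : X) (J : Finset (Fin G.m)) :
    opX G M i F μ J = (-1 : k) ^ J.card • ((gen G).x i • F μ J) +
      (if i ∈ J then sn k i J • ((2⁻¹ : k) • (F (μ + G.wt i) (J.erase i) -
        F (μ + -G.wt i) (J.erase i))) else 0) +
      -∑ j, (if j ∈ J then 0 else sn k j J • (G.c i j μ • F μ (insert j J))) := by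
  have h : (∑ j, opK k X M j * opC G.m M (G.c i j)) F μ J =
      ∑ j, (if j ∈ J then 0 else sn k j J • (G.c i j μ • F μ (insert j J))) := by
    rw [LinearMap.sum_apply, Finset.sum_apply, Finset.sum_apply]
    rfl
  rw [← h]
  rfl

/-- the embedding as a map over the field -/
noncomputable def emb0 : M →ₗ[k] JM G M where
  toFun m := fun μ J => (XI G J * (gen G).s μ) • m
  map_add' m m' := by
    funext μ J
    exact smul_add _ _ _
  map_smul' r m := by
    funext μ J
    exact smul_comm _ _ _

lemma emb0_apply (m : M) (μ : X) (J : Finset (Fin G.m)) :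
    emb0 G M m μ J = (XI G J * (gen G).s μ) • m := rfl

/-- the embedding -/
noncomputable def emb (h2 : (2 : k) ≠ 0) : M →ₗ[Dbl G] JM G M where
  toFun := emb0 G M
  map_add' := map_add _
  map_smul' := map_smul_of_gen G (emb0 G M)
    (fun ν m => by
      rw [JM_e]
      funext μ J
      show _ = (gen G).e (ν - wtS G J) • emb0 G M m μ J
      rw [emb0_apply, emb0_apply, ← mul_smul, ← mul_smul, mul_assoc, (gen G).s_e,
        ← mul_assoc, XI_mul_e, mul_assoc])
    (fun m => by
      rw [JM_par]
      funext μ J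
      show _ = (-1 : k) ^ J.card • ((gen G).par • emb0 G M m μ J)
      rw [emb0_apply, emb0_apply, ← mul_smul, ← mul_smul, mul_assoc, ← (gen G).par_s,
        ← mul_assoc, XI_mul_par, smul_mul_assoc, smul_assoc, mul_assoc])
    (fun ν m => by
      rw [JM_s]
      funext μ J
      show _ = emb0 G M m (μ + ν) J
      rw [emb0_apply, emb0_apply, ← mul_smul, mul_assoc, (gen G).s_add])
    (fun i m => by
      rw [JM_x]
      funext μ J
      refine Eq.trans ?_ (X_apply G M i (emb0 G M m) μ J).symm
      simp only [emb0_apply]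
      rw [← mul_smul, XI_s_x G h2, add_smul, add_smul, neg_smul, Finset.sum_smul, smul_assoc,
        mul_smul]
      congr 1
      · congr 1
        split_ifs
        · rw [smul_assoc, smul_assoc, sub_smul]
        · rw [zero_smul]
      · congr 1
        refine Finset.sum_congr rfl fun j _ => ?_
        split_ifs
        · rw [zero_smul]
        · rw [smul_assoc, smul_assoc])
    (fun j m => by
      rw [JM_xi]
      funext μ J
      show _ = if j ∈ J then 0 else sn k j J • emb0 G M m μ (insert j J)
      rw [emb0_apply, emb0_apply, ← mul_smul, mul_assoc, ← (gen G).xi_s, ← mul_assoc,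
        XI_mul_xi G h2]
      split_ifs
      · rw [zero_mul, zero_smul]
      · rw [smul_mul_assoc, smul_assoc])

lemma emb_injective (h2 : (2 : k) ≠ 0) : Function.Injective (emb G M h2) := by
  intro m m' h
  have h1 := congrFun (congrFun h 0) ∅
  have h3 : ∀ m : M, emb G M h2 m 0 ∅ = m := by
    intro m
    show (XI G ∅ * (gen G).s 0) • m = m
    rw [XI_empty, one_mul, (gen G).s_zero, one_smul]
  rwa [h3, h3] at h1

end Emb

/-! ## Coordinates -/

section Coord

variable {m : ℕ} {k : Type u} [Field k] {X : Type} [AddCommGroup X]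
variable {M : Type v} [AddCommGroup M] [Module k M]
variable {r : ℕ} {ql : Fin r → ℕ} [∀ l, NeZero (ql l)] (φ : (∀ l, ZMod (ql l)) ≃+ X)

omit [∀ l, NeZero (ql l)] in
lemma symm_add (μ : X) (l : Fin r) (a : ℕ) :
    φ.symm (μ + a • φ (Pi.single l 1)) = φ.symm μ + a • Pi.single l 1 := by
  rw [map_add, map_nsmul, AddEquiv.symm_apply_apply]

omit [∀ l, NeZero (ql l)] in
lemma coord_ne (x : ∀ l, ZMod (ql l)) {l l' : Fin r} (h : l ≠ l') (a : ℕ) :
    (x + a • (Pi.single l' 1 : ∀ l, ZMod (ql l))) l = x l := by
  rw [Pi.add_apply, Pi.smul_apply, Pi.single_eq_of_ne h, smul_zero, add_zero]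

omit [∀ l, NeZero (ql l)] in
lemma coord_eq (x : ∀ l, ZMod (ql l)) (l : Fin r) (a : ℕ) :
    (x + a • (Pi.single l 1 : ∀ l, ZMod (ql l))) l = x l + a := by
  rw [Pi.add_apply, Pi.smul_apply, Pi.single_eq_same, nsmul_one]

omit [∀ l, NeZero (ql l)] in
lemma update_add (x : ∀ l, ZMod (ql l)) {l l' : Fin r} (h : l ≠ l') (a : ℕ) (c : ZMod (ql l)) :
    Function.update (x + a • (Pi.single l' 1 : ∀ l, ZMod (ql l))) l c =
      Function.update x l c + a • (Pi.single l' 1 : ∀ l, ZMod (ql l)) := by
  funext i
  by_cases hi : i = l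
  · subst hi
    rw [Function.update_self, coord_ne _ h, Function.update_self]
  · rw [Function.update_of_ne hi, Pi.add_apply, Pi.add_apply, Function.update_of_ne hi]

omit [∀ l, NeZero (ql l)] in
lemma update_add_same (x : ∀ l, ZMod (ql l)) (l : Fin r) (a : ℕ) (c : ZMod (ql l)) :
    Function.update (x + a • (Pi.single l 1 : ∀ l, ZMod (ql l))) l c = Function.update x l c := by
  funext i
  by_cases hi : i = l
  · subst hi
    rw [Function.update_self, Function.update_self]
  · rw [Function.update_of_ne hi, Function.update_of_ne hi, coord_ne _ hi]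

omit [∀ l, NeZero (ql l)] in
lemma update_nat (x : ∀ l, ZMod (ql l)) (l : Fin r) (a : ℕ) :
    Function.update x l 0 + a • (Pi.single l 1 : ∀ l, ZMod (ql l)) =
      Function.update x l (a : ZMod (ql l)) := by
  funext i
  by_cases hi : i = l
  · subst hi
    rw [coord_eq, Function.update_self, Function.update_self, zero_add]
  · rw [coord_ne _ hi, Function.update_of_ne hi, Function.update_of_ne hi]

variable (k m M) in
/-- restriction to the hyperplane where a coordinate vanishes -/
def opSN (l : Fin r) : Module.End k (X → Finset (Fin m) → M) where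
  toFun F μ J := if φ.symm μ l = 0 then F μ J else 0
  map_add' F F' := by
    funext μ J
    simp only [Pi.add_apply]
    split_ifs
    · rfl
    · rw [add_zero]
  map_smul' r F := by
    funext μ J
    simp only [Pi.smul_apply, RingHom.id_apply]
    split_ifs
    · rfl
    · rw [smul_zero]

variable (k m M) in
/-- partial sums along a coordinate -/
def opSP (l : Fin r) : Module.End k (X → Finset (Fin m) → M) where
  toFun F μ J := ∑ c ∈ Finset.range (φ.symm μ l).val,
    F (φ (Function.update (φ.symm μ) l (c : ZMod (ql l)))) J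
  map_add' F F' := by
    funext μ J
    simp only [Pi.add_apply, Finset.sum_add_distrib]
  map_smul' r F := by
    funext μ J
    simp only [Pi.smul_apply, RingHom.id_apply, Finset.smul_sum]

omit [∀ l, NeZero (ql l)] in
lemma T_SN {l l' : Fin r} (h : l ≠ l') (a : ℕ) :
    opT m k M (a • φ (Pi.single l' 1)) * opSN m k M φ l =
      opSN m k M φ l * opT m k M (a • φ (Pi.single l' 1)) := by
  refine end_ext fun F μ J => ?_
  show (if φ.symm (μ + a • φ (Pi.single l' 1)) l = 0 then F (μ + a • φ (Pi.single l' 1)) J else 0) =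
    if φ.symm μ l = 0 then F (μ + a • φ (Pi.single l' 1)) J else 0
  rw [symm_add, coord_ne _ h]

omit [∀ l, NeZero (ql l)] in
lemma T_SP {l l' : Fin r} (h : l ≠ l') (a : ℕ) :
    opT m k M (a • φ (Pi.single l' 1)) * opSP m k M φ l =
      opSP m k M φ l * opT m k M (a • φ (Pi.single l' 1)) := by
  refine end_ext fun F μ J => ?_
  show (∑ c ∈ Finset.range (φ.symm (μ + a • φ (Pi.single l' 1)) l).val,
      F (φ (Function.update (φ.symm (μ + a • φ (Pi.single l' 1))) l (c : ZMod (ql l)))) J) =
    ∑ c ∈ Finset.range (φ.symm μ l).val,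
      F (φ (Function.update (φ.symm μ) l (c : ZMod (ql l))) + a • φ (Pi.single l' 1)) J
  rw [symm_add, coord_ne _ h]
  refine Finset.sum_congr rfl fun c _ => ?_
  rw [update_add _ h, map_add, map_nsmul]

variable (k m M) in
/-- the difference operator -/
noncomputable def opPT (l : Fin r) : Module.End k (X → Finset (Fin m) → M) :=
  opT m k M (φ (Pi.single l 1)) - 1

variable (k m M) in
/-- the norm operator -/
noncomputable def opNT (l : Fin r) : Module.End k (X → Finset (Fin m) → M) :=
  ∑ a ∈ Finset.range (ql l), opT m k M (a • φ (Pi.single l 1))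

omit [∀ l, NeZero (ql l)] in
lemma NT_apply (l : Fin r) (F : X → Finset (Fin m) → M) (μ : X) (J : Finset (Fin m)) :
    opNT m k M φ l F μ J = ∑ a ∈ Finset.range (ql l), F (μ + a • φ (Pi.single l 1)) J := by
  unfold opNT
  rw [LinearMap.sum_apply, Finset.sum_apply, Finset.sum_apply]
  rfl

omit [∀ l, NeZero (ql l)] in
lemma PT_apply (l : Fin r) (F : X → Finset (Fin m) → M) (μ : X) (J : Finset (Fin m)) :
    opPT m k M φ l F μ J = F (μ + φ (Pi.single l 1)) J - F μ J := rfl

lemma PT_comm_of {S : Module.End k (X → Finset (Fin m) → M)} {l' : Fin r}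
    (h : ∀ a : ℕ, opT m k M (a • φ (Pi.single l' 1)) * S = S * opT m k M (a • φ (Pi.single l' 1))) :
    opPT m k M φ l' * S = S * opPT m k M φ l' := by
  have h1 := h 1
  rw [one_smul] at h1
  unfold opPT
  rw [sub_mul, mul_sub, h1, one_mul, mul_one]

lemma NT_comm_of {S : Module.End k (X → Finset (Fin m) → M)} {l' : Fin r}
    (h : ∀ a : ℕ, opT m k M (a • φ (Pi.single l' 1)) * S = S * opT m k M (a • φ (Pi.single l' 1))) :
    opNT m k M φ l' * S = S * opNT m k M φ l' := by
  unfold opNT
  rw [Finset.sum_mul, Finset.mul_sum]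
  exact Finset.sum_congr rfl fun a _ => h a

lemma NT_SN (l : Fin r) (F : X → Finset (Fin m) → M) (hF : opPT m k M φ l F = 0) :
    opNT m k M φ l (opSN m k M φ l F) = F := by
  have h1 : ∀ (a : ℕ) (μ : X) (J : Finset (Fin m)), F (μ + a • φ (Pi.single l 1)) J = F μ J := by
    intro a
    induction a with
    | zero => intro μ J; rw [zero_smul, add_zero]
    | succ a ih =>
      intro μ J
      have h2 := congrFun (congrFun hF (μ + a • φ (Pi.single l 1))) J
      rw [PT_apply] at h2
      rw [succ_nsmul, ← add_assoc, sub_eq_zero.1 h2, ih]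
  funext μ J
  rw [NT_apply]
  show ∑ a ∈ Finset.range (ql l), (if φ.symm (μ + a • φ (Pi.single l 1)) l = 0 then
    F (μ + a • φ (Pi.single l 1)) J else 0) = F μ J
  rw [Finset.sum_eq_single_of_mem (-(φ.symm μ l)).val (Finset.mem_range.2 (ZMod.val_lt _))]
  · rw [if_pos, h1]
    rw [symm_add, coord_eq, ZMod.natCast_zmod_val, add_neg_cancel]
  · intro a ha hne
    rw [if_neg]
    intro h2
    rw [symm_add, coord_eq] at h2
    apply hne
    rw [← eq_neg_iff_add_eq_zero] at h2
    rw [h2, neg_neg, ZMod.val_natCast_of_lt (Finset.mem_range.1 ha)]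

lemma PT_SP (l : Fin r) (F : X → Finset (Fin m) → M) (hF : opNT m k M φ l F = 0) :
    opPT m k M φ l (opSP m k M φ l F) = F := by
  funext μ J
  rw [PT_apply]
  show (∑ c ∈ Finset.range (φ.symm (μ + φ (Pi.single l 1)) l).val,
      F (φ (Function.update (φ.symm (μ + φ (Pi.single l 1))) l (c : ZMod (ql l)))) J) -
    (∑ c ∈ Finset.range (φ.symm μ l).val,
      F (φ (Function.update (φ.symm μ) l (c : ZMod (ql l)))) J) = F μ J
  have e1 := symm_add φ μ l 1
  rw [one_smul] at e1
  rw [e1, coord_eq, Nat.cast_one]
  simp only [update_add_same]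
  set x := φ.symm μ with hx
  have hμ : φ (Function.update x l (((x l).val : ℕ) : ZMod (ql l))) = μ := by
    rw [ZMod.natCast_zmod_val, Function.update_eq_self, hx, AddEquiv.apply_symm_apply]
  have hval : (x l + 1).val = ((x l).val + 1) % ql l := by
    rw [ZMod.val_add, ZMod.val_one_eq_one_mod, Nat.add_mod_mod]
  have hlt := ZMod.val_lt (x l)
  rcases Nat.lt_or_ge ((x l).val + 1) (ql l) with h | h
  · rw [hval, Nat.mod_eq_of_lt h, Finset.sum_range_succ, hμ]
    abel
  · have h2 : (x l).val + 1 = ql l := by omega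
    rw [hval, h2, Nat.mod_self, Finset.sum_range_zero]
    have h3 := congrFun (congrFun hF (φ (Function.update x l 0))) J
    have h5 : Finset.range (ql l) = Finset.range ((x l).val + 1) := by rw [h2]
    rw [NT_apply, h5, Finset.sum_range_succ] at h3
    have h4 : ∀ a : ℕ, φ (Function.update x l 0) + a • φ (Pi.single l 1) =
        φ (Function.update x l (a : ZMod (ql l))) := by
      intro a
      rw [← map_nsmul, ← map_add, update_nat]
    simp only [h4] at h3
    rw [hμ] at h3
    rw [zero_sub, neg_eq_iff_add_eq_zero]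
    exact h3

end Coord

/-! ## Divisibility in injective modules -/

section Div

variable {k : Type u} [Field k] {X : Type} [AddCommGroup X] [Fintype X] [DecidableEq X]
variable (G : HCData k X) (I : Type v) [AddCommGroup I] [Module k I] [Module (Dbl G) I]
  [IsScalarTower k (Dbl G) I]

theorem exists_retract [Module.Injective (Dbl G) I] (h2 : (2 : k) ≠ 0) :
    ∃ ρ : JM G I →ₗ[Dbl G] I, ∀ w, ρ (emb G I h2 w) = w :=
  Module.Injective.out (emb G I h2) (emb_injective G I h2) LinearMap.id

/-- Divisibility for the odd coordinate functions. -/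
theorem div_xi [Module.Injective (Dbl G) I] (h2 : (2 : k) ≠ 0) {j : Fin G.m}
    {J : Finset (Fin G.m)} (hj : j ∉ J) (w : I) (hJ : ∀ i ∈ J, (gen G).xi i • w = 0)
    (hw : (gen G).xi j • w = 0) (hs : ∀ μ, (gen G).s μ • w = w) :
    ∃ b : I, (gen G).xi j • b = w ∧ (∀ i ∈ J, (gen G).xi i • b = 0) ∧
      ∀ μ, (gen G).s μ • b = b := by
  obtain ⟨ρ, hρ⟩ := exists_retract G I h2
  have hK : ∀ i, (gen G).xi i • w = 0 → ap (opK k X I i) (emb G I h2 w) = 0 := by
    intro i hi
    rw [← JM_xi, ← map_smul, hi, map_zero]
  have hKb : ∀ i, (gen G).xi i • w = 0 → ap (opK k X I i) (ap (opS k X I j) (emb G I h2 w)) =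
      if i = j then emb G I h2 w else 0 := by
    intro i hi
    have h : ap (ac (opK k X I i) (opS k X I j)) (emb G I h2 w) =
        ap (opK k X I i) (ap (opS k X I j) (emb G I h2 w)) +
        ap (opS k X I j) (ap (opK k X I i) (emb G I h2 w)) := rfl
    rw [hK i hi, ap_zero, add_zero, ac_KS] at h
    rw [← h]
    split_ifs
    · rfl
    · rfl
  refine ⟨ρ (ap (opS k X I j) (emb G I h2 w)), ?_, fun i hi => ?_, fun μ => ?_⟩
  · rw [← map_smul, JM_xi, hKb j hw, if_pos rfl, hρ]
  · rw [← map_smul, JM_xi, hKb i (hJ i hi), if_neg (fun h => hj (by rw [← h]; exact hi)),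
      map_zero]
  · rw [← map_smul, JM_s, ← ap_mul, T_S, ap_mul, ← JM_s, ← map_smul, hs]

variable {r : ℕ} {ql : Fin r → ℕ} (φ : (∀ l, ZMod (ql l)) ≃+ X)

/-- the action of the difference -/
noncomputable def PP (l : Fin r) : I →ₗ[k] I := lact G I ((gen G).s (φ (Pi.single l 1)) - 1)

/-- the action of the norm -/
noncomputable def NN (l : Fin r) : I →ₗ[k] I :=
  lact G I (∑ a ∈ Finset.range (ql l), (gen G).s (a • φ (Pi.single l 1)))

lemma PP_apply (l : Fin r) (w : I) : PP G I φ l w = ((gen G).s (φ (Pi.single l 1)) - 1) • w := rfl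

lemma NN_apply (l : Fin r) (w : I) :
    NN G I φ l w = (∑ a ∈ Finset.range (ql l), (gen G).s (a • φ (Pi.single l 1))) • w := rfl

lemma JM_PP (l : Fin r) (F : JM G I) :
    ((gen G).s (φ (Pi.single l 1)) - 1) • F = ap (opPT G.m k I φ l) F := by
  rw [sub_smul, one_smul, JM_s]
  rfl

lemma JM_NN (l : Fin r) (F : JM G I) :
    (∑ a ∈ Finset.range (ql l), (gen G).s (a • φ (Pi.single l 1))) • F =
      ap (opNT G.m k I φ l) F := by
  unfold opNT
  rw [ap_sum, Finset.sum_smul]
  exact Finset.sum_congr rfl fun a _ => JM_s G I _ F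

/-- Divisibility for the group-like elements. -/
theorem DS_s [∀ l, NeZero (ql l)] [Module.Injective (Dbl G) I] (h2 : (2 : k) ≠ 0) :
    Pool.Agent.DG.DS (PP G I φ) (NN G I φ) := by
  classical
  intro b l w hlt hw
  obtain ⟨ρ, hρ⟩ := exists_retract G I h2
  have hP : ∀ l', PP G I φ l' w = 0 → ap (opPT G.m k I φ l') (emb G I h2 w) = 0 := by
    intro l' h
    rw [← JM_PP, ← map_smul, ← PP_apply, h, map_zero]
  have hN : ∀ l', NN G I φ l' w = 0 → ap (opNT G.m k I φ l') (emb G I h2 w) = 0 := by
    intro l' h
    rw [← JM_NN, ← map_smul, ← NN_apply, h, map_zero]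
  have hfin : ∀ S : Module.End k (X → Finset (Fin G.m) → I),
      (∀ l' < l, ∀ a : ℕ, opT G.m k I (a • φ (Pi.single l' 1)) * S =
        S * opT G.m k I (a • φ (Pi.single l' 1))) →
      ∀ l' < l, Pool.Agent.DG.opn (PP G I φ) (NN G I φ) l' (b l')
        (ρ (ap S (emb G I h2 w))) = 0 := by
    intro S hS l' hl'
    have h3 := hlt l' hl'
    unfold Pool.Agent.DG.opn at h3 ⊢
    split_ifs at h3 ⊢ with he
    · rw [PP_apply, ← map_smul, JM_PP, ← ap_mul, PT_comm_of φ (hS l' hl'), ap_mul, hP l' h3,
        ap_zero, map_zero]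
    · rw [NN_apply, ← map_smul, JM_NN, ← ap_mul, NT_comm_of φ (hS l' hl'), ap_mul, hN l' h3,
        ap_zero, map_zero]
  by_cases he : Even (b l)
  · have he' : ¬ Even (b l + 1) := by rwa [Nat.even_add_one, not_not]
    have hw' : NN G I φ l w = 0 := by
      unfold Pool.Agent.DG.opn at hw
      rwa [if_neg he'] at hw
    refine ⟨ρ (ap (opSP G.m k I φ l) (emb G I h2 w)), ?_,
      hfin _ fun l' hl' a => T_SP φ (ne_of_gt hl') a⟩
    unfold Pool.Agent.DG.opn
    rw [if_pos he, PP_apply, ← map_smul, JM_PP]
    exact (congrArg ρ (PT_SP φ l (emb G I h2 w) (hN l hw'))).trans (hρ w)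
  · have he' : Even (b l + 1) := by rwa [Nat.even_add_one]
    have hw' : PP G I φ l w = 0 := by
      unfold Pool.Agent.DG.opn at hw
      rwa [if_pos he'] at hw
    refine ⟨ρ (ap (opSN G.m k I φ l) (emb G I h2 w)), ?_,
      hfin _ fun l' hl' a => T_SN φ (ne_of_gt hl') a⟩
    unfold Pool.Agent.DG.opn
    rw [if_neg he, NN_apply, ← map_smul, JM_NN]
    exact (congrArg ρ (NT_SN φ l (emb G I h2 w) (hP l hw'))).trans (hρ w)

end Div

end Pool.Agent.Work.MP_0c1793_al.J
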