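import Pool.Agent.Work.MP_0c1793_al.Cx4
import Pool.Agent.Work.MP_0c1793_al.JO

/-! # Divisibility in injective modules for a system of coordinates -/

set_option autoImplicit false

universe u v

namespace Pool.Agent.Work.MP_0c1793_al

variable {k : Type u} [Field k] {X : Type} [AddCommGroup X] [Fintype X] [DecidableEq X]

/-- Divisibility for the group-like elements. -/
theorem DS_PM (G : HCData k X) (κ : Coord X) (I : Type v) [AddCommGroup I] [Module k I]
    [Module (Dbl G) I] [IsScalarTower k (Dbl G) I] [Module.Injective (Dbl G) I]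
    (h2 : (2 : k) ≠ 0) : Pool.Agent.DG.DS (PM G κ I) (NM G κ I) := by
  have := κ.ne
  exact J.DS_s G I κ.phi h2

/-- Divisibility for the odd coordinate functions. -/
theorem div_xi (G : HCData k X) (I : Type v) [AddCommGroup I] [Module k I]
    [Module (Dbl G) I] [IsScalarTower k (Dbl G) I] [Module.Injective (Dbl G) I]
    (h2 : (2 : k) ≠ 0) {j : Fin G.m} {K : Finset (Fin G.m)} (hj : j ∉ K) (w : I)
    (hJ : ∀ i ∈ K, (gen G).xi i • w = 0) (hw : (gen G).xi j • w = 0)
    (hs : ∀ μ, (gen G).s μ • w = w) :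
    ∃ b : I, (gen G).xi j • b = w ∧ (∀ i ∈ K, (gen G).xi i • b = 0) ∧
      ∀ μ, (gen G).s μ • b = b :=
  J.div_xi G I h2 hj w hJ hw hs

end Pool.Agent.Work.MP_0c1793_al
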