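import Pool.Agent.Work.MP_0c1793_al.Cx4
import Pool.Agent.Work.MP_0c1793_al.JO2

/-! # Divisibility by the odd elements `x i` on injective modules -/

set_option autoImplicit false
set_option linter.unusedSectionVars false

universe u v

namespace Pool.Agent.Work.MP_0c1793_al

open Pool.Agent.DG

variable {k : Type u} [Field k] {X : Type} [AddCommGroup X] [Fintype X] [DecidableEq X]

section Elements

variable (G : HCData k X)

/-- the brackets -/
noncomputable def cc (i j : Fin G.m) : Dbl G := ∑ ν : X, G.c i j ν • (gen G).e ν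

/-- the odd part of the coadjoint action -/
noncomputable def sx (i : Fin G.m) (μ : X) : Dbl G := ∑ j, G.c i j μ • (gen G).xi j

variable {G}

theorem cc_symm (i j : Fin G.m) : cc G i j = cc G j i := by
  unfold cc
  rw [G.symm i j]

theorem cc_shift (i j : Fin G.m) {h : X} (hh : G.c i j h = 0) :
    ∑ ν : X, G.c i j ν • (gen G).e (ν + h) = cc G i j := by
  unfold cc
  rw [← Equiv.sum_comp (Equiv.addRight h) fun ν => G.c i j ν • (gen G).e ν]
  refine Finset.sum_congr rfl fun ν _ => ?_
  rw [Equiv.coe_addRight, map_add, hh, add_zero]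

theorem x_cc (h i j : Fin G.m) : (gen G).x h * cc G i j = cc G i j * (gen G).x h := by
  rw [cc, Finset.mul_sum, Finset.sum_mul]
  have e1 : ∀ ν : X, (gen G).x h * G.c i j ν • (gen G).e ν =
      (G.c i j ν • (gen G).e (ν + G.wt h)) * (gen G).x h := by
    intro ν
    rw [mul_smul_comm, smul_mul_assoc, (gen G).x_e]
  rw [Finset.sum_congr rfl fun ν _ => e1 ν, ← Finset.sum_mul, cc_shift i j (G.jac i j h),
    ← Finset.sum_mul]
  rfl

theorem xi_cc (h i j : Fin G.m) : (gen G).xi h * cc G i j = cc G i j * (gen G).xi h := by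
  rw [cc, Finset.mul_sum, Finset.sum_mul]
  have e1 : ∀ ν : X, (gen G).xi h * G.c i j ν • (gen G).e ν =
      (G.c i j ν • (gen G).e (ν + -G.wt h)) * (gen G).xi h := by
    intro ν
    rw [mul_smul_comm, smul_mul_assoc, (gen G).xi_e, sub_eq_add_neg]
  rw [Finset.sum_congr rfl fun ν _ => e1 ν, ← Finset.sum_mul,
    cc_shift i j (by rw [map_neg, G.jac i j h, neg_zero]), ← Finset.sum_mul]
  rfl

theorem s_cc (μ : X) (i j : Fin G.m) : (gen G).s μ * cc G i j = cc G i j * (gen G).s μ := by
  rw [cc, Finset.mul_sum, Finset.sum_mul]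
  refine Finset.sum_congr rfl fun ν _ => ?_
  rw [mul_smul_comm, smul_mul_assoc, (gen G).s_e]

theorem par_cc (i j : Fin G.m) : (gen G).par * cc G i j = cc G i j * (gen G).par := by
  rw [cc, Finset.mul_sum, Finset.sum_mul]
  refine Finset.sum_congr rfl fun ν _ => ?_
  rw [mul_smul_comm, smul_mul_assoc, (gen G).par_e]

theorem cc_e (i j : Fin G.m) (ν : X) : cc G i j * (gen G).e ν = G.c i j ν • (gen G).e ν := by
  rw [cc, Finset.sum_mul, Finset.sum_eq_single ν]
  · rw [smul_mul_assoc, (gen G).e_mul, if_pos rfl]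
  · intro ν' _ hne
    rw [smul_mul_assoc, (gen G).e_mul, if_neg hne, smul_zero]
  · intro h
    exact absurd (Finset.mem_univ _) h

theorem e_cc (i j : Fin G.m) (ν : X) : (gen G).e ν * cc G i j = G.c i j ν • (gen G).e ν := by
  rw [cc, Finset.mul_sum, Finset.sum_eq_single ν]
  · rw [mul_smul_comm, (gen G).e_mul, if_pos rfl]
  · intro ν' _ hne
    rw [mul_smul_comm, (gen G).e_mul, if_neg (Ne.symm hne), smul_zero]
  · intro h
    exact absurd (Finset.mem_univ _) h

/-- the bracket and a shifted idempotent -/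
theorem cc_e_shift (i j : Fin G.m) (ν : X) :
    cc G i j * (gen G).e ν = (gen G).e (ν + G.wt j + G.wt i) * cc G i j := by
  by_cases h : G.c i j = 0
  · have : cc G i j = 0 := by
      unfold cc
      rw [h]
      simp
    rw [this, zero_mul, mul_zero]
  · have h1 := G.inv i j h
    rw [add_assoc, add_comm (G.wt j), h1, add_zero, cc_e, e_cc]

theorem x_av (l i : Fin G.m) : (gen G).x l * av G i = av G i * (gen G).x l := by
  have h : ∀ μ : X, (∀ j, G.c l j μ = 0) → (gen G).x l * (gen G).s μ =
      (gen G).s μ * (gen G).x l := by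
    intro μ hμ
    have h1 := (gen G).x_s l μ
    rw [Finset.sum_eq_zero (fun j _ => by rw [hμ j, zero_smul]), mul_zero, sub_eq_zero] at h1
    exact h1
  unfold av
  rw [mul_smul_comm, smul_mul_assoc, mul_sub, sub_mul, h _ fun j => G.jac l j i,
    h _ fun j => by rw [map_neg, G.jac l j i, neg_zero]]

theorem xi_av (l i : Fin G.m) : (gen G).xi l * av G i = av G i * (gen G).xi l := by
  unfold av
  rw [mul_smul_comm, smul_mul_assoc, mul_sub, sub_mul, (gen G).xi_s, (gen G).xi_s]

theorem par_av (i : Fin G.m) : (gen G).par * av G i = av G i * (gen G).par := by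
  unfold av
  rw [mul_smul_comm, smul_mul_assoc, mul_sub, sub_mul, (gen G).par_s, (gen G).par_s]

theorem s_comm (μ μ' : X) : (gen G).s μ * (gen G).s μ' = (gen G).s μ' * (gen G).s μ := by
  rw [(gen G).s_add, (gen G).s_add, add_comm]

theorem s_av (μ : X) (i : Fin G.m) : (gen G).s μ * av G i = av G i * (gen G).s μ := by
  unfold av
  rw [mul_smul_comm, smul_mul_assoc, mul_sub, sub_mul, s_comm, s_comm μ]

theorem av_e (i : Fin G.m) (ν : X) : av G i * (gen G).e ν = (gen G).e ν * av G i := by
  unfold av
  rw [mul_smul_comm, smul_mul_assoc, mul_sub, sub_mul, (gen G).s_e, (gen G).s_e]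

/-- the antisymmetry -/
theorem c_av (i l : Fin G.m) (μ : X) : -(G.c i l μ • av G l) = G.c l i μ • av G i := by
  by_cases h : G.c i l = 0
  · rw [G.symm l i, h]
    simp
  · have h1 := G.inv i l h
    have h2 : G.wt l = -G.wt i := (neg_eq_of_add_eq_zero_right h1).symm
    rw [G.symm l i, ← smul_neg]
    congr 1
    unfold av
    rw [h2, neg_neg, ← smul_neg, neg_sub]

theorem x_xi' (i j : Fin G.m) : (gen G).x i * (gen G).xi j + (gen G).xi j * (gen G).x i =
    if i = j then av G i else 0 := (gen G).x_xi i j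

theorem x_x' (i j : Fin G.m) : (gen G).x i * (gen G).x j + (gen G).x j * (gen G).x i = cc G i j :=
  (gen G).x_x i j

theorem x_s' (i : Fin G.m) (μ : X) : (gen G).x i * (gen G).s μ =
    (gen G).s μ * (gen G).x i + (gen G).s μ * sx G i μ := by
  have := (gen G).x_s i μ
  rw [sub_eq_iff_eq_add] at this
  rw [this, add_comm]
  rfl

theorem xi_xi' (i j : Fin G.m) : (gen G).xi i * (gen G).xi j = -((gen G).xi j * (gen G).xi i) :=
  eq_neg_of_add_eq_zero_left ((gen G).xi_xi i j)

theorem xi_sx (j i : Fin G.m) (μ : X) : (gen G).xi j * sx G i μ = -(sx G i μ * (gen G).xi j) := by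
  unfold sx
  rw [Finset.mul_sum, Finset.sum_mul, ← Finset.sum_neg_distrib]
  refine Finset.sum_congr rfl fun h _ => ?_
  rw [mul_smul_comm, smul_mul_assoc, xi_xi', smul_neg]

theorem par_sx (i : Fin G.m) (μ : X) :
    (gen G).par * sx G i μ = -(sx G i μ * (gen G).par) := by
  unfold sx
  rw [Finset.mul_sum, Finset.sum_mul, ← Finset.sum_neg_distrib]
  refine Finset.sum_congr rfl fun h _ => ?_
  rw [mul_smul_comm, smul_mul_assoc, (gen G).par_xi, smul_neg]

theorem sx_s (i : Fin G.m) (μ μ' : X) : sx G i μ * (gen G).s μ' = (gen G).s μ' * sx G i μ := by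
  unfold sx
  rw [Finset.mul_sum, Finset.sum_mul]
  refine Finset.sum_congr rfl fun h _ => ?_
  rw [mul_smul_comm, smul_mul_assoc, (gen G).xi_s]

theorem sx_sx (i l : Fin G.m) (μ μ' : X) : sx G i μ * sx G l μ' = -(sx G l μ' * sx G i μ) := by
  rw [sx, Finset.sum_mul, Finset.mul_sum, ← Finset.sum_neg_distrib]
  refine Finset.sum_congr rfl fun h _ => ?_
  rw [mul_smul_comm, smul_mul_assoc, xi_sx, smul_neg]

theorem sx_sq (h2 : (2 : k) ≠ 0) (i : Fin G.m) (μ : X) : sx G i μ * sx G i μ = 0 := by
  have h1 := sx_sx i i μ μ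
  have h3 : (2 : k) • (sx G i μ * sx G i μ) = 0 := by
    rw [two_smul]
    nth_rewrite 1 [h1]
    exact neg_add_cancel _
  rcases smul_eq_zero.1 h3 with h4 | h4
  · exact absurd h4 h2
  · exact h4

theorem sx_add (i : Fin G.m) (μ μ' : X) : sx G i (μ + μ') = sx G i μ + sx G i μ' := by
  unfold sx
  rw [← Finset.sum_add_distrib]
  refine Finset.sum_congr rfl fun h _ => ?_
  rw [map_add, add_smul]

theorem sx_zero (i : Fin G.m) : sx G i 0 = 0 := by
  unfold sx
  exact Finset.sum_eq_zero fun h _ => by rw [map_zero, zero_smul]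

theorem sx_wt (i l : Fin G.m) : sx G i (G.wt l) = 0 := by
  unfold sx
  exact Finset.sum_eq_zero fun h _ => by rw [G.jac, zero_smul]

theorem sx_neg_wt (i l : Fin G.m) : sx G i (-G.wt l) = 0 := by
  unfold sx
  exact Finset.sum_eq_zero fun h _ => by rw [map_neg, G.jac, neg_zero, zero_smul]

theorem sx_e (i : Fin G.m) (μ ν : X) :
    sx G i μ * (gen G).e ν = (gen G).e (ν + G.wt i) * sx G i μ := by
  unfold sx
  rw [Finset.mul_sum, Finset.sum_mul]
  refine Finset.sum_congr rfl fun j _ => ?_
  by_cases h : G.c i j = 0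
  · rw [h]
    simp
  · have h1 := G.inv i j h
    have h3 : -G.wt j = G.wt i := neg_eq_of_add_eq_zero_left h1
    rw [mul_smul_comm, smul_mul_assoc, (gen G).xi_e, sub_eq_add_neg, h3]

/-- the anticommutator of an odd element and the coadjoint term -/
theorem x_sx (l i : Fin G.m) (μ : X) :
    (gen G).x l * sx G i μ + sx G i μ * (gen G).x l = G.c i l μ • av G l := by
  unfold sx
  rw [Finset.mul_sum, Finset.sum_mul, ← Finset.sum_add_distrib]
  have h1 : ∀ j, (gen G).x l * G.c i j μ • (gen G).xi j + G.c i j μ • (gen G).xi j *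
      (gen G).x l = if l = j then G.c i j μ • av G l else 0 := by
    intro j
    rw [mul_smul_comm, smul_mul_assoc, ← smul_add, x_xi']
    split_ifs
    · rfl
    · rw [smul_zero]
  rw [Finset.sum_congr rfl fun j _ => h1 j, Finset.sum_ite_eq, if_pos (Finset.mem_univ l)]

end Elements

/-! ## The matrices -/

section Mat

variable (G : HCData k X) (i : Fin G.m)

/-- the matrices of the odd elements -/
noncomputable def mx (l : Fin G.m) : Matrix (Fin 2) (Fin 2) (Dbl G) :=
  if l = i then !![0, 1; (2⁻¹ : k) • cc G i i, 0]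
  else !![(gen G).x l, 0; cc G i l, -(gen G).x l]

/-- the matrices of the odd functions -/
noncomputable def mxi (j : Fin G.m) : Matrix (Fin 2) (Fin 2) (Dbl G) :=
  !![(gen G).xi j, 0; (if i = j then av G i else 0), -(gen G).xi j]

/-- the matrices of the group-like elements -/
noncomputable def ms (μ : X) : Matrix (Fin 2) (Fin 2) (Dbl G) :=
  !![(gen G).s μ, 0; (gen G).s μ * sx G i μ, (gen G).s μ]

/-- the matrices of the idempotents -/
noncomputable def me (ν : X) : Matrix (Fin 2) (Fin 2) (Dbl G) :=
  !![(gen G).e ν, 0; 0, (gen G).e (ν + G.wt i)]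

/-- the matrix of the parity -/
noncomputable def mpar : Matrix (Fin 2) (Fin 2) (Dbl G) := !![(gen G).par, 0; 0, -(gen G).par]

variable {G i}

theorem mat_ext {a b c d a' b' c' d' : Dbl G} (h1 : a = a') (h2 : b = b') (h3 : c = c')
    (h4 : d = d') : (!![a, b; c, d] : Matrix (Fin 2) (Fin 2) (Dbl G)) = !![a', b'; c', d'] := by
  rw [h1, h2, h3, h4]

theorem mat_add (a b c d a' b' c' d' : Dbl G) :
    (!![a, b; c, d] + !![a', b'; c', d'] : Matrix (Fin 2) (Fin 2) (Dbl G)) =
      !![a + a', b + b'; c + c', d + d'] := by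
  ext p q
  fin_cases p <;> fin_cases q <;> rfl

theorem mat_neg (a b c d : Dbl G) :
    (-!![a, b; c, d] : Matrix (Fin 2) (Fin 2) (Dbl G)) = !![-a, -b; -c, -d] := by
  ext p q
  fin_cases p <;> fin_cases q <;> rfl

theorem mat_smul (t : k) (a b c d : Dbl G) :
    (t • !![a, b; c, d] : Matrix (Fin 2) (Fin 2) (Dbl G)) =
      !![t • a, t • b; t • c, t • d] := by
  ext p q
  fin_cases p <;> fin_cases q <;> rfl

theorem mat_zero : (0 : Matrix (Fin 2) (Fin 2) (Dbl G)) = !![0, 0; 0, 0] := by
  ext p q
  fin_cases p <;> fin_cases q <;> rfl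

theorem mat_one : (1 : Matrix (Fin 2) (Fin 2) (Dbl G)) = !![1, 0; 0, 1] := by
  ext p q
  fin_cases p <;> fin_cases q <;> rfl

theorem mat_sum {ι : Type*} (s : Finset ι) (a b c d : ι → Dbl G) :
    (∑ j ∈ s, !![a j, b j; c j, d j] : Matrix (Fin 2) (Fin 2) (Dbl G)) =
      !![∑ j ∈ s, a j, ∑ j ∈ s, b j; ∑ j ∈ s, c j, ∑ j ∈ s, d j] := by
  classical
  induction s using Finset.induction_on with
  | empty => simp only [Finset.sum_empty]; exact mat_zero
  | insert j s hj ih =>
    simp only [Finset.sum_insert hj]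
    rw [ih, mat_add]

theorem mx_self : mx G i i = !![0, 1; (2⁻¹ : k) • cc G i i, 0] := if_pos rfl

theorem mx_ne {l : Fin G.m} (h : l ≠ i) :
    mx G i l = !![(gen G).x l, 0; cc G i l, -(gen G).x l] := if_neg h

theorem smul_mxi_sum (l : Fin G.m) (μ : X) : ∑ j, G.c l j μ • mxi G i j =
    !![sx G l μ, 0; G.c l i μ • av G i, -sx G l μ] := by
  have h1 : ∀ j, G.c l j μ • mxi G i j = !![G.c l j μ • (gen G).xi j, 0;
      (if i = j then G.c l j μ • av G i else 0), -(G.c l j μ • (gen G).xi j)] := by
    intro j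
    unfold mxi
    rw [mat_smul, smul_zero, smul_neg]
    refine mat_ext rfl rfl ?_ rfl
    split_ifs
    · rfl
    · rw [smul_zero]
  rw [Finset.sum_congr rfl fun j _ => h1 j, mat_sum]
  refine mat_ext rfl Finset.sum_const_zero ?_ ?_
  · rw [Finset.sum_ite_eq, if_pos (Finset.mem_univ i)]
  · rw [Finset.sum_neg_distrib]
    rfl

theorem cc_me (l l' : Fin G.m) :
    ∑ ν : X, G.c l l' ν • me G i ν = !![cc G l l', 0; 0, cc G l l'] := by
  have h1 : ∀ ν : X, G.c l l' ν • me G i ν = !![G.c l l' ν • (gen G).e ν, 0; 0,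
      G.c l l' ν • (gen G).e (ν + G.wt i)] := by
    intro ν
    unfold me
    rw [mat_smul, smul_zero]
  rw [Finset.sum_congr rfl fun j _ => h1 j, mat_sum]
  exact mat_ext rfl Finset.sum_const_zero Finset.sum_const_zero (cc_shift l l' (G.jac l l' i))

theorem ms_wt (l : Fin G.m) : ms G i (G.wt l) = !![(gen G).s (G.wt l), 0; 0,
    (gen G).s (G.wt l)] := by
  unfold ms
  rw [sx_wt, mul_zero]

theorem ms_neg_wt (l : Fin G.m) : ms G i (-G.wt l) = !![(gen G).s (-G.wt l), 0; 0,
    (gen G).s (-G.wt l)] := by
  unfold ms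
  rw [sx_neg_wt, mul_zero]

theorem mat_av (l : Fin G.m) : (2⁻¹ : k) • (ms G i (G.wt l) - ms G i (-G.wt l)) =
    !![av G l, 0; 0, av G l] := by
  rw [ms_wt, ms_neg_wt, sub_eq_add_neg, mat_neg, mat_add, mat_smul]
  refine mat_ext ?_ ?_ ?_ ?_
  · rw [← sub_eq_add_neg]; rfl
  · simp
  · simp
  · rw [← sub_eq_add_neg]; rfl

/-- `x_l x_l' + x_l' x_l` -/
theorem mx_mx (h2 : (2 : k) ≠ 0) (l l' : Fin G.m) :
    mx G i l * mx G i l' + mx G i l' * mx G i l = ∑ ν : X, G.c l l' ν • me G i ν := by
  have hhalf : ∀ a : Dbl G, (2⁻¹ : k) • a + (2⁻¹ : k) • a = a := by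
    intro a
    rw [← add_smul]
    have : (2⁻¹ : k) + 2⁻¹ = 1 := by field_simp; norm_num
    rw [this, one_smul]
  rw [cc_me]
  by_cases hl : l = i
  · by_cases hl' : l' = i
    · subst hl
      subst hl'
      rw [mx_self, Matrix.mul_fin_two, mat_add]
      refine mat_ext ?_ ?_ ?_ ?_
      · rw [zero_mul, one_mul, zero_add, hhalf]
      · simp
      · simp
      · rw [mul_one, zero_mul, add_zero, hhalf]
    · subst hl
      rw [mx_self, mx_ne hl', Matrix.mul_fin_two, Matrix.mul_fin_two, mat_add]
      refine mat_ext ?_ ?_ ?_ ?_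
      · simp
      · simp
      · rw [zero_mul, add_zero, mul_zero, zero_add, smul_mul_assoc, neg_mul, mul_smul_comm,
          x_cc, add_neg_cancel]
      · simp
  · by_cases hl' : l' = i
    · subst hl'
      rw [mx_self, mx_ne hl, Matrix.mul_fin_two, Matrix.mul_fin_two, mat_add]
      refine mat_ext ?_ ?_ ?_ ?_
      · simp [cc_symm]
      · simp
      · rw [zero_mul, add_zero, mul_zero, zero_add, smul_mul_assoc, neg_mul, mul_smul_comm,
          x_cc, neg_add_cancel]
      · simp [cc_symm]
    · rw [mx_ne hl, mx_ne hl', Matrix.mul_fin_two, Matrix.mul_fin_two, mat_add]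
      refine mat_ext ?_ ?_ ?_ ?_
      · rw [zero_mul, zero_mul, add_zero, add_zero, x_x']
      · simp
      · rw [neg_mul, neg_mul, x_cc, x_cc]
        abel
      · rw [mul_zero, mul_zero, zero_add, zero_add, neg_mul_neg, neg_mul_neg, x_x']

theorem mxi_mxi (j j' : Fin G.m) : mxi G i j * mxi G i j' + mxi G i j' * mxi G i j = 0 := by
  unfold mxi
  rw [Matrix.mul_fin_two, Matrix.mul_fin_two, mat_add, mat_zero]
  refine mat_ext ?_ ?_ ?_ ?_
  · rw [zero_mul, zero_mul, add_zero, add_zero, (gen G).xi_xi]
  · simp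
  · split_ifs
    · rw [neg_mul, neg_mul, xi_av, xi_av]
      abel
    · rw [neg_mul, neg_mul, xi_av, mul_zero, zero_mul]
      abel
    · rw [neg_mul, neg_mul, xi_av, mul_zero, zero_mul]
      abel
    · simp
  · rw [mul_zero, mul_zero, zero_add, zero_add, neg_mul_neg, neg_mul_neg, (gen G).xi_xi]

theorem mx_mxi (l j : Fin G.m) : mx G i l * mxi G i j + mxi G i j * mx G i l =
    if l = j then (2⁻¹ : k) • (ms G i (G.wt l) - ms G i (-G.wt l)) else 0 := by
  have hR : (if l = j then (2⁻¹ : k) • (ms G i (G.wt l) - ms G i (-G.wt l)) else 0) =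
      !![(if l = j then av G l else 0), 0; 0, (if l = j then av G l else 0)] := by
    split_ifs
    · exact mat_av l
    · exact mat_zero
  rw [hR]
  by_cases hl : l = i
  · subst hl
    unfold mxi
    rw [mx_self, Matrix.mul_fin_two, Matrix.mul_fin_two, mat_add]
    refine mat_ext ?_ ?_ ?_ ?_
    · simp
    · simp
    · rw [zero_mul, add_zero, mul_zero, zero_add, smul_mul_assoc, neg_mul, mul_smul_comm, xi_cc,
        add_neg_cancel]
    · simp
  · unfold mxi
    rw [mx_ne hl, Matrix.mul_fin_two, Matrix.mul_fin_two, mat_add]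
    refine mat_ext ?_ ?_ ?_ ?_
    · rw [zero_mul, zero_mul, add_zero, add_zero, x_xi']
    · simp
    · split_ifs
      · rw [neg_mul, neg_mul, x_av, xi_cc]
        abel
      · rw [mul_zero, zero_mul, neg_mul, xi_cc]
        abel
    · rw [mul_zero, mul_zero, zero_add, zero_add, neg_mul_neg, neg_mul_neg, x_xi']

theorem ms_mxi_sum (l : Fin G.m) (μ : X) : ms G i μ * ∑ j, G.c l j μ • mxi G i j =
    !![(gen G).s μ * sx G l μ, 0; (gen G).s μ * (sx G i μ * sx G l μ + G.c l i μ • av G i),
      -((gen G).s μ * sx G l μ)] := by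
  rw [smul_mxi_sum]
  unfold ms
  rw [Matrix.mul_fin_two]
  refine mat_ext ?_ ?_ ?_ ?_
  · rw [zero_mul, add_zero]
  · simp
  · rw [mul_assoc, ← mul_add]
  · rw [mul_zero, zero_add, mul_neg]

theorem mx_ms (h2 : (2 : k) ≠ 0) (l : Fin G.m) (μ : X) : mx G i l * ms G i μ - ms G i μ *
    mx G i l = ms G i μ * ∑ j, G.c l j μ • mxi G i j := by
  rw [ms_mxi_sum]
  by_cases hl : l = i
  · subst hl
    unfold ms
    rw [mx_self, Matrix.mul_fin_two, Matrix.mul_fin_two, sub_eq_add_neg, mat_neg, mat_add]
    have hav : G.c l l μ • av G l = 0 := by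
      have h1 := c_av l l μ
      have h3 : (2 : k) • (G.c l l μ • av G l) = 0 := by
        rw [two_smul]
        nth_rewrite 1 [← h1]
        exact neg_add_cancel _
      rcases smul_eq_zero.1 h3 with h4 | h4
      · exact absurd h4 h2
      · exact h4
    refine mat_ext ?_ ?_ ?_ ?_
    · simp
    · simp
    · rw [hav, sx_sq h2, add_zero, mul_zero, smul_mul_assoc, mul_smul_comm, s_cc]
      simp
    · simp
  · unfold ms
    rw [mx_ne hl, Matrix.mul_fin_two, Matrix.mul_fin_two, sub_eq_add_neg, mat_neg, mat_add]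
    refine mat_ext ?_ ?_ ?_ ?_
    · rw [zero_mul, zero_mul, add_zero, add_zero, x_s']
      abel
    · simp
    · rw [← c_av i l μ, sx_sx i l, ← x_sx l i μ, neg_mul, ← mul_assoc, x_s', s_cc, add_mul,
        mul_add]
      simp only [mul_neg, mul_assoc, mul_add]
      abel
    · rw [mul_zero, mul_zero, zero_add, zero_add, neg_mul, x_s', mul_neg]
      abel

/-- the matrices satisfy the relations -/
noncomputable def matOps (h2 : (2 : k) ≠ 0) (i : Fin G.m) :
    Ops G (Matrix (Fin 2) (Fin 2) (Dbl G)) where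
  e := me G i
  par := mpar G
  s := ms G i
  x := mx G i
  xi := mxi G i
  e_mul ν ν' := by
    unfold me
    rw [Matrix.mul_fin_two, (gen G).e_mul, (gen G).e_mul]
    by_cases h : ν = ν'
    · subst h
      simp
    · rw [if_neg h, if_neg h, if_neg fun hh => h (add_right_cancel hh), mat_zero]
      simp
  e_sum := by
    unfold me
    rw [mat_sum, mat_one]
    refine mat_ext (gen G).e_sum Finset.sum_const_zero Finset.sum_const_zero ?_
    rw [← (gen G).e_sum]
    exact Equiv.sum_comp (Equiv.addRight (G.wt i)) (gen G).e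
  par_sq := by
    unfold mpar
    rw [Matrix.mul_fin_two, mat_one]
    refine mat_ext ?_ ?_ ?_ ?_
    · rw [zero_mul, add_zero, (gen G).par_sq]
    · simp
    · simp
    · rw [mul_zero, zero_add, neg_mul_neg, (gen G).par_sq]
  par_e ν := by
    unfold mpar me
    rw [Matrix.mul_fin_two, Matrix.mul_fin_two]
    refine mat_ext ?_ ?_ ?_ ?_
    · rw [zero_mul, (gen G).par_e]
    · simp
    · simp
    · rw [neg_mul, (gen G).par_e]
      simp
  par_s μ := by
    unfold mpar ms
    rw [Matrix.mul_fin_two, Matrix.mul_fin_two]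
    refine mat_ext ?_ ?_ ?_ ?_
    · rw [zero_mul, (gen G).par_s]
      simp
    · simp
    · rw [neg_mul, ← mul_assoc, (gen G).par_s, mul_assoc, par_sx]
      simp [mul_assoc]
    · rw [neg_mul, (gen G).par_s]
      simp
  par_x l := by
    by_cases hl : l = i
    · subst hl
      unfold mpar
      rw [mx_self, Matrix.mul_fin_two, Matrix.mul_fin_two, mat_neg]
      refine mat_ext ?_ ?_ ?_ ?_
      · simp
      · simp
      · rw [neg_mul, mul_smul_comm, par_cc]
        simp
      · simp
    · unfold mpar
      rw [mx_ne hl, Matrix.mul_fin_two, Matrix.mul_fin_two, mat_neg]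
      refine mat_ext ?_ ?_ ?_ ?_
      · rw [(gen G).par_x]
        simp
      · simp
      · rw [neg_mul, par_cc]
        simp
      · rw [neg_mul_neg, (gen G).par_x]
        simp
  par_xi j := by
    unfold mpar mxi
    rw [Matrix.mul_fin_two, Matrix.mul_fin_two, mat_neg]
    refine mat_ext ?_ ?_ ?_ ?_
    · rw [(gen G).par_xi]
      simp
    · simp
    · split_ifs
      · rw [neg_mul, par_av]
        simp
      · simp
    · rw [neg_mul_neg, (gen G).par_xi]
      simp
  s_zero := by
    unfold ms
    rw [sx_zero, mul_zero, (gen G).s_zero, mat_one]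
  s_add μ μ' := by
    unfold ms
    rw [Matrix.mul_fin_two]
    refine mat_ext ?_ ?_ ?_ ?_
    · rw [zero_mul, add_zero, (gen G).s_add]
    · simp
    · rw [sx_add, mul_assoc, sx_s, ← mul_assoc, ← mul_assoc, (gen G).s_add, mul_add]
    · rw [mul_zero, zero_add, (gen G).s_add]
  s_e μ ν := by
    unfold ms me
    rw [Matrix.mul_fin_two, Matrix.mul_fin_two]
    refine mat_ext ?_ ?_ ?_ ?_
    · rw [(gen G).s_e]
      simp
    · simp
    · rw [mul_assoc, sx_e, ← mul_assoc, (gen G).s_e]
      simp [mul_assoc]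
    · rw [(gen G).s_e]
      simp
  x_e l ν := by
    by_cases hl : l = i
    · subst hl
      unfold me
      rw [mx_self, Matrix.mul_fin_two, Matrix.mul_fin_two]
      refine mat_ext ?_ ?_ ?_ ?_
      · simp
      · simp
      · rw [smul_mul_assoc, cc_e_shift, mul_smul_comm]
        simp
      · simp
    · unfold me
      rw [mx_ne hl, Matrix.mul_fin_two, Matrix.mul_fin_two]
      refine mat_ext ?_ ?_ ?_ ?_
      · rw [(gen G).x_e]
        simp
      · simp
      · rw [cc_e_shift]
        simp
      · rw [neg_mul, (gen G).x_e, add_right_comm]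
        simp
  xi_e j ν := by
    unfold me mxi
    rw [Matrix.mul_fin_two, Matrix.mul_fin_two]
    refine mat_ext ?_ ?_ ?_ ?_
    · rw [(gen G).xi_e]
      simp
    · simp
    · split_ifs with h
      · subst h
        rw [av_e, sub_add_cancel]
        simp
      · simp
    · rw [neg_mul, (gen G).xi_e, add_sub_right_comm]
      simp
  x_x := mx_mx h2
  xi_xi := mxi_mxi
  xi_s j μ := by
    unfold ms mxi
    rw [Matrix.mul_fin_two, Matrix.mul_fin_two]
    refine mat_ext ?_ ?_ ?_ ?_
    · rw [(gen G).xi_s]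
      simp
    · simp
    · have h1 : -(gen G).xi j * ((gen G).s μ * sx G i μ) =
          (gen G).s μ * sx G i μ * (gen G).xi j := by
        rw [neg_mul, ← mul_assoc, (gen G).xi_s, mul_assoc, xi_sx, mul_neg, neg_neg, mul_assoc]
      rw [h1]
      split_ifs
      · rw [s_av, add_comm]
      · rw [zero_mul, mul_zero, add_comm]
    · rw [neg_mul, (gen G).xi_s]
      simp
  x_xi := mx_mxi
  x_s := mx_ms h2

end Mat

/-! ## The module `M × M` -/

section Mod

variable (G : HCData k X) (M : Type v) [AddCommGroup M] [Module k M] [Module (Dbl G) M]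
  [IsScalarTower k (Dbl G) M]

/-- the action of matrices on pairs -/
noncomputable def matAct : Matrix (Fin 2) (Fin 2) (Dbl G) →ₐ[k] Module.End k (M × M) :=
  AlgHom.ofLinearMap
    { toFun := fun A =>
        { toFun := fun p => (A 0 0 • p.1 + A 0 1 • p.2, A 1 0 • p.1 + A 1 1 • p.2)
          map_add' := fun p q => by
            simp only [Prod.fst_add, Prod.snd_add, smul_add, Prod.mk_add_mk]
            exact Prod.ext (by simp only; abel) (by simp only; abel)
          map_smul' := fun c p => by
            simp only [Prod.smul_fst, Prod.smul_snd, Prod.smul_mk, smul_add, RingHom.id_apply,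
              smul_algebra_smul_comm] }
      map_add' := fun A B => by
        refine LinearMap.ext fun p => ?_
        simp only [Matrix.add_apply, add_smul, LinearMap.coe_mk, AddHom.coe_mk,
          LinearMap.add_apply, Prod.mk_add_mk]
        exact Prod.ext (by simp only; abel) (by simp only; abel)
      map_smul' := fun c A => by
        refine LinearMap.ext fun p => ?_
        simp only [Matrix.smul_apply, smul_assoc, LinearMap.coe_mk, AddHom.coe_mk,
          LinearMap.smul_apply, RingHom.id_apply, Prod.smul_mk, smul_add] }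
    (by
      refine LinearMap.ext fun p => ?_
      simp)
    (fun A B => by
      refine LinearMap.ext fun p => ?_
      simp only [Matrix.mul_apply, Fin.sum_univ_two, add_smul, mul_smul, LinearMap.coe_mk,
        AddHom.coe_mk, Module.End.mul_apply, smul_add]
      exact Prod.ext (by simp only; abel) (by simp only; abel))

theorem matAct_apply (a b c d : Dbl G) (m n : M) :
    matAct G M !![a, b; c, d] (m, n) = (a • m + b • n, c • m + d • n) := rfl

end Mod

/-- the coinduced module -/
def JX (G : HCData k X) (_ : Fin G.m) (_ : (2 : k) ≠ 0) (M : Type v) : Type v := M × M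

section Coind

variable (G : HCData k X) (i : Fin G.m) (h2 : (2 : k) ≠ 0) (M : Type v) [AddCommGroup M]
  [Module k M] [Module (Dbl G) M] [IsScalarTower k (Dbl G) M]

instance : AddCommGroup (JX G i h2 M) := inferInstanceAs (AddCommGroup (M × M))

instance : Module k (JX G i h2 M) := inferInstanceAs (Module k (M × M))

/-- the action -/
noncomputable def jact : Dbl G →ₐ[k] Module.End k (M × M) := (matAct G M).comp (matOps h2 i).lift

noncomputable instance : Module (Dbl G) (JX G i h2 M) :=
  Module.compHom (M × M) (jact G i h2 M).toRingHom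

theorem jx_smul (a : Dbl G) (p : JX G i h2 M) :
    a • p = (jact G i h2 M a (show M × M from p) : M × M) := rfl

instance : IsScalarTower k (Dbl G) (JX G i h2 M) where
  smul_assoc r a p := by
    rw [jx_smul, jx_smul, map_smul]
    rfl

variable {G i h2 M}

theorem jx_e (ν : X) (m n : M) : (gen G).e ν • (show JX G i h2 M from (m, n)) =
    (show JX G i h2 M from ((gen G).e ν • m, (gen G).e (ν + G.wt i) • n)) := by
  rw [jx_smul, jact, AlgHom.comp_apply, lift_e]
  refine (matAct_apply G M _ _ _ _ m n).trans ?_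
  rw [zero_smul, zero_smul, zero_add, add_zero]

theorem jx_par (m n : M) : (gen G).par • (show JX G i h2 M from (m, n)) =
    (show JX G i h2 M from ((gen G).par • m, -((gen G).par • n))) := by
  rw [jx_smul, jact, AlgHom.comp_apply, lift_par]
  refine (matAct_apply G M _ _ _ _ m n).trans ?_
  rw [zero_smul, zero_smul, zero_add, add_zero, neg_smul]

theorem jx_s (μ : X) (m n : M) : (gen G).s μ • (show JX G i h2 M from (m, n)) =
    (show JX G i h2 M from ((gen G).s μ • m, ((gen G).s μ * sx G i μ) • m +
      (gen G).s μ • n)) := by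
  rw [jx_smul, jact, AlgHom.comp_apply, lift_s]
  refine (matAct_apply G M _ _ _ _ m n).trans ?_
  rw [zero_smul, add_zero]

theorem jx_xi (j : Fin G.m) (m n : M) : (gen G).xi j • (show JX G i h2 M from (m, n)) =
    (show JX G i h2 M from ((gen G).xi j • m, (if i = j then av G i else 0) • m -
      (gen G).xi j • n)) := by
  rw [jx_smul, jact, AlgHom.comp_apply, lift_xi]
  refine (matAct_apply G M _ _ _ _ m n).trans ?_
  rw [zero_smul, add_zero, neg_smul, sub_eq_add_neg]

theorem jx_x_self (m n : M) : (gen G).x i • (show JX G i h2 M from (m, n)) =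
    (show JX G i h2 M from (n, ((2⁻¹ : k) • cc G i i) • m)) := by
  rw [jx_smul, jact, AlgHom.comp_apply, lift_x]
  show matAct G M (mx G i i) (m, n) = _
  rw [mx_self]
  refine (matAct_apply G M _ _ _ _ m n).trans ?_
  rw [zero_smul, zero_smul, zero_add, add_zero, one_smul]

theorem jx_x_ne {l : Fin G.m} (hl : l ≠ i) (m n : M) :
    (gen G).x l • (show JX G i h2 M from (m, n)) =
    (show JX G i h2 M from ((gen G).x l • m, cc G i l • m - (gen G).x l • n)) := by
  rw [jx_smul, jact, AlgHom.comp_apply, lift_x]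
  show matAct G M (mx G i l) (m, n) = _
  rw [mx_ne hl]
  refine (matAct_apply G M _ _ _ _ m n).trans ?_
  rw [zero_smul, add_zero, neg_smul, sub_eq_add_neg]

theorem x_sq (h2 : (2 : k) ≠ 0) (i : Fin G.m) :
    (gen G).x i * (gen G).x i = (2⁻¹ : k) • cc G i i := by
  rw [← x_x' i i, ← two_smul k, smul_smul, inv_mul_cancel₀ h2, one_smul]

variable (G i h2 M)

/-- the embedding -/
noncomputable def jemb : M →ₗ[Dbl G] JX G i h2 M where
  toFun m := (show JX G i h2 M from (m, (gen G).x i • m))
  map_add' m n := by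
    rw [smul_add]
    rfl
  map_smul' a m := by
    have key := map_smul_of_gen (G := G) (M := M) (N := JX G i h2 M)
      { toFun := fun m => (show JX G i h2 M from (m, (gen G).x i • m))
        map_add' := fun m n => by
          rw [smul_add]
          rfl
        map_smul' := fun c m => by
          rw [smul_algebra_smul_comm]
          rfl }
      (fun ν m => by
        refine Eq.trans ?_ (jx_e ν m _).symm
        show ((gen G).e ν • m, (gen G).x i • (gen G).e ν • m) = _
        rw [smul_smul, smul_smul, (gen G).x_e])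
      (fun m => by
        refine Eq.trans ?_ (jx_par m _).symm
        show ((gen G).par • m, (gen G).x i • (gen G).par • m) = _
        rw [smul_smul, smul_smul, (gen G).par_x, neg_smul, neg_neg])
      (fun μ m => by
        refine Eq.trans ?_ (jx_s μ m _).symm
        show ((gen G).s μ • m, (gen G).x i • (gen G).s μ • m) = _
        rw [smul_smul, smul_smul, x_s', add_smul, add_comm])
      (fun l m => by
        by_cases hl : l = i
        · subst hl
          refine Eq.trans ?_ (jx_x_self m _).symm
          show ((gen G).x l • m, (gen G).x l • (gen G).x l • m) = _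
          rw [smul_smul, x_sq h2]
        · refine Eq.trans ?_ (jx_x_ne hl m _).symm
          show ((gen G).x l • m, (gen G).x i • (gen G).x l • m) = _
          rw [smul_smul, smul_smul, ← sub_smul, ← x_x' i l, add_sub_cancel_right])
      (fun j m => by
        refine Eq.trans ?_ (jx_xi j m _).symm
        show ((gen G).xi j • m, (gen G).x i • (gen G).xi j • m) = _
        rw [smul_smul, smul_smul, ← sub_smul, ← x_xi' i j, add_sub_cancel_right])
    exact key a m

theorem jemb_injective : Function.Injective (jemb G i h2 M) := fun m n h =>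
  congrArg (fun p : JX G i h2 M => (show M × M from p).1) h

include h2 in
/-- divisibility by `x i` on injective modules -/
theorem div_x [Module.Injective (Dbl G) M] (w : M) (hw : (gen G).x i • w = 0)
    (hxi : ∀ j, (gen G).xi j • w = 0) :
    ∃ b : M, (gen G).x i • b = w ∧ (∀ j, (gen G).xi j • b = 0) ∧
      (∀ l, l ≠ i → (gen G).x l • w = 0 → (gen G).x l • b = 0) ∧
      ∀ μ, (gen G).s μ • w = w → (gen G).s μ • b = b := by
  obtain ⟨r, hr⟩ := Module.Injective.out (jemb G i h2 M) (jemb_injective G i h2 M) LinearMap.id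
  refine ⟨r (show JX G i h2 M from ((0 : M), w)), ?_, ?_, ?_, ?_⟩
  · rw [← map_smul, jx_x_self, smul_zero]
    have h1 : jemb G i h2 M w = (show JX G i h2 M from (w, (0 : M))) := by
      show (w, (gen G).x i • w) = _
      rw [hw]
    rw [← h1, hr]
    rfl
  · intro j
    rw [← map_smul, jx_xi, smul_zero, smul_zero, hxi, sub_zero]
    exact map_zero r
  · intro l hl hlw
    rw [← map_smul, jx_x_ne hl, smul_zero, smul_zero, hlw, sub_zero]
    exact map_zero r
  · intro μ hμ
    rw [← map_smul, jx_s, smul_zero, smul_zero, zero_add, hμ]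

end Coind

/-! ## The divisibility condition -/

section Div

variable (G : HCData k X) (κ : Coord X) (h2 : (2 : k) ≠ 0) (M : Type v) [AddCommGroup M]
  [Module k M] [Module (Dbl G) M] [IsScalarTower k (Dbl G) M]

variable {G κ M} in
/-- invariance under the generators implies invariance -/
theorem s_inv_of_PM {w : M} (h : ∀ l, PM G κ M l w = 0) (μ : X) : (gen G).s μ • w = w := by
  have hμ : μ ∈ AddSubgroup.closure (Set.range κ.e) := by rw [κ.closure_e]; trivial
  induction hμ using AddSubgroup.closure_induction with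
  | mem x hx =>
    obtain ⟨l, rfl⟩ := hx
    have h1 := h l
    rw [PM_apply, sub_smul, one_smul, sub_eq_zero] at h1
    exact h1
  | zero => rw [(gen G).s_zero, one_smul]
  | add x y _ _ hx hy => rw [← (gen G).s_add, mul_smul, hy, hx]
  | neg x _ hx =>
    nth_rewrite 1 [← hx]
    rw [← mul_smul, (gen G).s_add, neg_add_cancel, (gen G).s_zero, one_smul]

include h2 in
/-- the divisibility condition on injective modules -/
theorem divC [Module.Injective (Dbl G) M] : DivC (opM G M) (PM G κ M) (idx G) := by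
  rintro (i | j) w hw hP
  · have hs := s_inv_of_PM hP
    have hxi : ∀ j, (gen G).xi j • w = 0 := fun j => hw (Sum.inr j) (by
      simp only [idx, Sum.elim_inl, Sum.elim_inr]
      have := j.2
      omega)
    obtain ⟨b, hb1, hb2, hb3, hb4⟩ := div_x G i h2 M w (hw (Sum.inl i) le_rfl) hxi
    refine ⟨b, hb1, ?_, ?_⟩
    · rintro (l | j) hlt
      · simp only [idx, Sum.elim_inl] at hlt
        exact hb3 l (fun h => by subst h; omega) (hw (Sum.inl l) (by
          simp only [idx, Sum.elim_inl]
          omega))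
      · exact hb2 j
    · intro l
      rw [PM_apply, sub_smul, one_smul, hb4 _ (hs _), sub_self]
  · have hs := s_inv_of_PM hP
    obtain ⟨b, hb1, hb2, hb3⟩ := div_xi G M h2 (K := Finset.univ.filter fun j' => j' < j)
      (j := j) (by simp) w (fun i hi => hw (Sum.inr i) (by
        simp only [idx, Sum.elim_inr]
        have := (Finset.mem_filter.1 hi).2
        omega)) (hw (Sum.inr j) le_rfl) hs
    refine ⟨b, hb1, ?_, ?_⟩
    · rintro (l | j') hlt
      · simp only [idx, Sum.elim_inl, Sum.elim_inr] at hlt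
        have := j.2
        omega
      · refine hb2 j' (Finset.mem_filter.2 ⟨Finset.mem_univ _, ?_⟩)
        simp only [idx, Sum.elim_inr] at hlt
        omega
    · intro l
      rw [PM_apply, sub_smul, one_smul, hb3, sub_self]

end Div

end Pool.Agent.Work.MP_0c1793_al
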