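import Mathlib

/-!
# Adding a variable to a complex

`v` is the multiplication by the variable, `E` the restriction to the part without the variable,
`F` the projection modulo an ideal generated by other variables.
-/

namespace Pool.Agent.DG

variable {k C : Type*} [CommRing k] [AddCommGroup C] [Module k C]

/-- acyclicity in positive degrees of the complex modulo the ideal of `F` -/
def Ac (Gr : ℕ → Submodule k C) (F D : C →ₗ[k] C) : Prop :=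
  ∀ n, ∀ f ∈ Gr (n + 1), F (D f) = 0 → ∃ g ∈ Gr n, F (f - D g) = 0

/-- the shift by a variable, which carries the differential `D` to `D'` -/
structure Shift (Gr : ℕ → Submodule k C) (F E v dl D D' : C →ₗ[k] C) : Prop where
  FF : ∀ f, F (F f) = F f
  FDF : ∀ f, F (D (F f)) = F (D f)
  Fv : ∀ f, F (v f) = v (F f)
  vdl : ∀ f, v (dl f) + E f = f
  v_inj : ∀ f, v f = 0 → f = 0
  Dv : ∀ f, F (D (v f)) = F (v (D' f))
  DD : ∀ f, F (D (D f)) = 0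
  gr_F : ∀ n, ∀ f ∈ Gr n, F f ∈ Gr n
  gr_v : ∀ n, ∀ f ∈ Gr n, v f ∈ Gr (n + 1)
  gr_dl : ∀ n, ∀ f ∈ Gr (n + 1), dl f ∈ Gr n
  gr_D : ∀ n, ∀ f ∈ Gr n, D f ∈ Gr (n + 1)
  zero : ∀ f ∈ Gr 0, F (D' f) = 0 → ∃ b ∈ Gr 0, F (D b - v f) = 0

theorem Shift.step {Gr : ℕ → Submodule k C} {F E v dl D D' : C →ₗ[k] C}
    (h : Shift Gr F E v dl D D') (hac : Ac Gr (E ∘ₗ F) D) (n : ℕ)
    (ih : n = 0 ∨ ∃ m, n = m + 1 ∧ ∀ f ∈ Gr (m + 1), F (D' f) = 0 → ∃ g ∈ Gr m, F (f - D' g) = 0) :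
    ∀ f ∈ Gr (n + 1), F (D f) = 0 → ∃ g ∈ Gr n, F (f - D g) = 0 := by
  intro f hf hDf
  obtain ⟨g, hg, hg'⟩ := hac n f hf (by
    rw [LinearMap.comp_apply, hDf, map_zero])
  rw [LinearMap.comp_apply] at hg'
  set x := F (f - D g) with hx
  have hxg : x ∈ Gr (n + 1) := h.gr_F _ _ (Submodule.sub_mem _ hf (h.gr_D _ _ hg))
  have hv : v (dl x) = x := by
    have := h.vdl x
    rwa [hg', add_zero] at this
  have hFx : F x = x := h.FF _
  have hDx : F (D x) = 0 := by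
    rw [hx, h.FDF, map_sub, map_sub, hDf, h.DD, sub_zero]
  have h1 : F (D' (dl x)) = 0 := by
    apply h.v_inj
    rw [← h.Fv, ← h.Dv, hv, hDx]
  have hdl : dl x ∈ Gr n := h.gr_dl _ _ hxg
  obtain ⟨b, hb, hb'⟩ : ∃ b ∈ Gr n, F (D b - x) = 0 := by
    rcases ih with rfl | ⟨m, rfl, ih⟩
    · obtain ⟨b, hb, hb'⟩ := h.zero _ hdl h1
      rw [hv] at hb'
      exact ⟨b, hb, hb'⟩
    · obtain ⟨g', hg1, hg2⟩ := ih _ hdl h1
      refine ⟨v g', h.gr_v _ _ hg1, ?_⟩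
      have h2 : F (v (dl x - D' g')) = 0 := by rw [h.Fv, hg2, map_zero]
      rw [map_sub, hv, map_sub] at h2
      rw [map_sub, h.Dv, ← neg_sub, h2, neg_zero]
  refine ⟨g + b, Submodule.add_mem _ hg hb, ?_⟩
  rw [map_sub, hFx] at hb'
  rw [map_add, ← sub_sub, map_sub, ← hx, ← neg_sub, hb', neg_zero]

/-- Lemma K. -/
theorem Shift.ac {Gr : ℕ → Submodule k C} {F E v dl D D' : C →ₗ[k] C}
    (h : Shift Gr F E v dl D D') (h' : Shift Gr F E v dl D' D)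
    (hac : Ac Gr (E ∘ₗ F) D) (hac' : Ac Gr (E ∘ₗ F) D') : Ac Gr F D ∧ Ac Gr F D' := by
  have key : ∀ n, (∀ f ∈ Gr (n + 1), F (D f) = 0 → ∃ g ∈ Gr n, F (f - D g) = 0) ∧
      (∀ f ∈ Gr (n + 1), F (D' f) = 0 → ∃ g ∈ Gr n, F (f - D' g) = 0) := by
    intro n
    induction n with
    | zero => exact ⟨h.step hac 0 (Or.inl rfl), h'.step hac' 0 (Or.inl rfl)⟩
    | succ n ih =>
      exact ⟨h.step hac _ (Or.inr ⟨n, rfl, ih.2⟩), h'.step hac' _ (Or.inr ⟨n, rfl, ih.1⟩)⟩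
  exact ⟨fun n => (key n).1, fun n => (key n).2⟩

/-- Lemma K if the variable commutes with the differential. -/
theorem Shift.ac_self {Gr : ℕ → Submodule k C} {F E v dl D : C →ₗ[k] C}
    (h : Shift Gr F E v dl D D) (hac : Ac Gr (E ∘ₗ F) D) : Ac Gr F D :=
  (h.ac h hac hac).1

end Pool.Agent.DG
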