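import Pool.Agent.Work.MP_0c1793_al.Fin
import Pool.Agent.Work.MP_0c1793_al.Cx4
import Pool.Agent.Work.MP_0c1793_al.JO2
import Pool.Agent.Work.MP_0c1793_al.JX
import Pool.Agent.Work.MP_0c1793_al.Crd

/-! # The main theorem -/

set_option autoImplicit false
set_option linter.unusedSectionVars false

universe u v

open MvPolynomial TensorProduct CategoryTheory

namespace Pool.Agent.Work.MP_0c1793_al

open Pool.Agent.DG

variable {k : Type u} [Field k] {X : Type} [AddCommGroup X] [Fintype X] [DecidableEq X]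

section

variable {G : HCData k X} {κ : Coord X} {M : Type v} [AddCommGroup M] [Module k M]
  [Module (Dbl G) M] [IsScalarTower k (Dbl G) M]

/-- the differential in degree zero -/
theorem DC_one (w : M) : DC G κ M (Finsupp.single 0 (w ⊗ₜ 1)) =
      ∑ v, Finsupp.single 0 ((opg G v • w) ⊗ₜ MvPolynomial.X v) +
        ∑ l, Finsupp.single (ev l) (((gen G).s (κ.e l) • w - w) ⊗ₜ 1) := by
  unfold DC
  rw [tot_single, D0_one]
  have e1 : (Finsupp.single 0 (∑ v, opM G M v w ⊗ₜ[k] (MvPolynomial.X v : Pol G)) :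
      CC k M (Fin G.m ⊕ Fin G.m) κ.r) = ∑ v, Finsupp.single 0 (opM G M v w ⊗ₜ[k]
        (MvPolynomial.X v : Pol G)) := map_sum (Finsupp.lsingle (R := k) 0) _ _
  rw [e1, map_zero, pow_zero, one_smul]
  have e2 : (∑ l : Fin κ.r, if Odd ((0 : Fin κ.r →₀ ℕ) l) then sg k l 0 •
      (Finsupp.single (0 - ev l) (KW G κ M l (w ⊗ₜ[k] (1 : Pol G))) :
        CC k M (Fin G.m ⊕ Fin G.m) κ.r) else 0) = 0 :=
    Finset.sum_eq_zero fun l _ => if_neg (by rw [Finsupp.zero_apply]; decide)
  rw [e2, add_zero]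
  congr 1
  refine Finset.sum_congr rfl fun l _ => ?_
  rw [sg_zero, one_smul, zero_add, Finsupp.zero_apply, opn_one]
  have e3 : opn (PM G κ M) (NM G κ M) l 0 w = (gen G).s (κ.e l) • w - w := by
    show ((gen G).s (κ.e l) - 1) • w = _
    rw [sub_smul, one_smul]
  rw [e3]

end

/-- the differential of the complex -/
noncomputable def difDC (G : HCData k X) (h2 : (2 : k) ≠ 0) (κ : Coord X)
    (hdiv : ∀ (M : Type u) [AddCommGroup M] [Module k M] [Module (Dbl G) M]
      [IsScalarTower k (Dbl G) M], Module.Injective (Dbl G) M →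
      DivC (opM G M) (PM G κ M) (idx G)) : Dif G κ.r where
  D M := DC G κ M
  gens := κ.e
  hgens := κ.closure_e
  gr M := DC_gr
  nat _ _ _ _ _ _ _ _ _ _ _ hφ f := DC_mapC hφ f
  e0 _ _ _ _ _ f := DC_E0 f
  one _ _ _ _ _ w := DC_one w
  dd _ _ _ _ _ hN f := DC_DC h2 hN f
  acyc M _ _ _ _ hN hI n f hf hDf := by
    have hI' : Module.Injective (Dbl G) M := Module.injective_module_of_injective_object _ _
    exact (varCx h2 hN).acyclic (idx_injective G) (hdiv M hI') comm_PM_NM (DS_PM G κ M h2) n f hf hDf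

open scoped ModuleCat

/-- The finite generation property of the cohomology of `Dbl G`. -/
theorem main (G : HCData k X) (h2 : (2 : k) ≠ 0) :
    Pool.Agent.DG.FGC.{u} k (unitObj G) (fun V => Module.Finite k V) := by
  obtain ⟨κ⟩ := exists_coord X
  exact (difDC G h2 κ fun M _ _ _ _ _ => divC G κ h2 M).fgc h2 (fun _ _ _ _ _ i f => DC_opsC i f)

end Pool.Agent.Work.MP_0c1793_al
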