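import Mathlib

/-!
# The definitions of the statement

All definitions used in the statement of the hand-in `DiagonalizableEvenPart`.

Let `k` be a field of characteristic different from `2` and `G` a finite supergroup scheme over `k`
whose even part `G₀` is diagonalizable, `G₀ = D(X)` with `X` a finite abelian group.  Then
`k G₀ = k^X` has the orthogonal idempotents `e ν`, `ν ∈ X`, and `O(G₀) = k[X]` has the group-like
elements `s μ`, `μ ∈ X`.  The odd part of the Lie superalgebra of `G` has a basis `x_1, ..., x_m` of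
weight vectors, `x_i` of weight `wt i ∈ X`, and `[x_i, x_j] = c i j` is an element of
`Lie G₀ = Hom(X, k)`.  Invariance under `G₀` means that `c i j ≠ 0` only if `wt i + wt j = 0`, and
the Jacobi identity (with `[[v, v], v] = 0` for odd `v`) means that `c i j (wt h) = 0` for all `h`:
this is the structure `HCData` (the Harish-Chandra pair of `G`).

`k G` is generated by the `e ν` and the `x_i`, the coordinate superalgebra is
`O(G) = k[X] ⊗ Λ(ξ_1, ..., ξ_m)` in the coordinates `g = g₀ exp(∑ ξ_j x_j)` (the brackets are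
central, so the exponential series only needs `1/2`), and `D(G) = O(G) # k G` for the action of
`k G` on `O(G)` by conjugation, as for every cocommutative Hopf superalgebra.  For an odd parameter
`t` the conjugate `exp(-t x_i) g exp(t x_i)` has the coordinates `ξ_j + δ_ij t (1 - s^(-wt i))` and
`s^μ (1 + (1/2) t (1 + s^(-wt i)) ∑_j ξ_j c i j (μ))`, which gives the relations `x_xi` and `x_s`
below.  So the supermodules over `D(G)` are the modules over the algebra `DoubleAlg G` with the generators
`e ν`, `par` (the parity), `s μ`, `x i`, `xi i` and the relations `RelD`.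
-/

set_option autoImplicit false

namespace Pool.Agent.DG

/-! ## The finite generation property -/

open CategoryTheory Abelian

universe w v₁ u₀ u₁

/-- The smallest family of subspaces of `Ext one one n`, `n : ℕ`, which contains the identity and
the classes `g i` and is closed under (Yoneda) composition. -/
inductive Gen (k : Type u₀) [CommRing k] {𝓒 : Type u₁} [Category.{v₁} 𝓒] [Abelian 𝓒]
    [HasExt.{w} 𝓒] [Linear k 𝓒] {one : 𝓒} {ι : Type} {a : ι → ℕ}
    (g : ∀ i, Ext.{w} one one (a i)) : ∀ n : ℕ, Ext.{w} one one n → Prop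
  | one : Gen k g 0 (Ext.mk₀ (𝟙 one))
  | gen (i : ι) : Gen k g (a i) (g i)
  | zero (n : ℕ) : Gen k g n 0
  | add {n : ℕ} {x y : Ext.{w} one one n} : Gen k g n x → Gen k g n y → Gen k g n (x + y)
  | smul {n : ℕ} (c : k) {x : Ext.{w} one one n} : Gen k g n x → Gen k g n (c • x)
  | comp {m n l : ℕ} (h : m + n = l) {x : Ext.{w} one one m} {y : Ext.{w} one one n} :
      Gen k g m x → Gen k g n y → Gen k g l (x.comp y h)

/-- The finite generation property of the cohomology `Ext one V n`, for the objects `V` with
`P V`: (1) the algebra `Ext one one` (with the Yoneda product) is generated by finitely many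
homogeneous elements; (2) for every object `V` with `P V` there are finitely many homogeneous
elements `v j` of `Ext one V` such that every element of `Ext one V n` is a sum of compositions
`w.comp (v j)` with `w` in `Ext one one`. -/
def FGC (k : Type u₀) [CommRing k] {𝓒 : Type u₁} [Category.{v₁} 𝓒] [Abelian 𝓒]
    [HasExt.{w} 𝓒] [Linear k 𝓒] (one : 𝓒) (P : 𝓒 → Prop) : Prop :=
  (∃ (ι : Type) (_ : Finite ι) (a : ι → ℕ) (g : ∀ i, Ext.{w} one one (a i)),
    ∀ (n : ℕ) (x : Ext.{w} one one n), Gen k g n x) ∧
  ∀ V : 𝓒, P V → ∃ (κ : Type) (_ : Finite κ) (b : κ → ℕ) (v : ∀ j, Ext.{w} one V (b j)),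
    ∀ (n : ℕ) (x : Ext.{w} one V n),
      x ∈ Submodule.span k {y : Ext.{w} one V n |
        ∃ (j : κ) (m : ℕ) (h : m + b j = n) (w : Ext.{w} one one m), y = w.comp (v j) h}

end Pool.Agent.DG

namespace Pool.Agent.Work.MP_0c1793_al

universe u

/-! ## The finite supergroup schemes with diagonalizable even part -/

/-- The data of a finite supergroup scheme `G` over `k` whose even part is the diagonalizable group
scheme with character group `X`: the odd part of the Lie superalgebra has a basis `x_i` of weights
`wt i`, and `[x_i, x_j] = c i j`, an element of the Lie algebra `Hom(X, k)` of `G_0`. The two last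
conditions are the invariance of the bracket and the Jacobi identity. -/
structure HCData (k : Type u) [Field k] (X : Type) [AddCommGroup X] where
  m : ℕ
  wt : Fin m → X
  c : Fin m → Fin m → (X →+ k)
  symm : ∀ i j, c i j = c j i
  inv : ∀ i j, c i j ≠ 0 → wt i + wt j = 0
  jac : ∀ i j h, c i j (wt h) = 0

/-- The generators of `D(G) ⋊ ℤ/2`: the idempotents `e ν` of `k G_0 = k^X`, the parity `par`, the
group-like elements `s μ` of `O(G_0) = k[X]`, the odd elements `x i` of the Lie superalgebra of `G`
and the odd coordinate functions `xi i`. -/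
inductive Gen (X : Type) (m : ℕ) : Type
  | e (ν : X) : Gen X m
  | par : Gen X m
  | s (μ : X) : Gen X m
  | x (i : Fin m) : Gen X m
  | xi (i : Fin m) : Gen X m

variable {k : Type u} [Field k] {X : Type} [AddCommGroup X] [Fintype X] [DecidableEq X]

/-- a generator as an element of the free algebra -/
abbrev fg (k : Type u) [Field k] {X : Type} {m : ℕ} (g : Gen X m) : FreeAlgebra k (Gen X m) :=
  FreeAlgebra.ι k g

/-- The defining relations of `D(G) ⋊ ℤ/2 = (O(G) # kG) ⋊ ℤ/2`. -/
inductive RelD (G : HCData k X) : FreeAlgebra k (Gen X G.m) → FreeAlgebra k (Gen X G.m) → Prop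
  | e_mul (ν ν' : X) : RelD G (fg k (.e ν) * fg k (.e ν')) (if ν = ν' then fg k (.e ν) else 0)
  | e_sum : RelD G (∑ ν : X, fg k (.e ν)) 1
  | par_sq : RelD G (fg k .par * fg k .par) 1
  | par_e (ν : X) : RelD G (fg k .par * fg k (.e ν)) (fg k (.e ν) * fg k .par)
  | par_s (μ : X) : RelD G (fg k .par * fg k (.s μ)) (fg k (.s μ) * fg k .par)
  | par_x (i : Fin G.m) : RelD G (fg k .par * fg k (.x i)) (-(fg k (.x i) * fg k .par))
  | par_xi (i : Fin G.m) : RelD G (fg k .par * fg k (.xi i)) (-(fg k (.xi i) * fg k .par))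
  | s_zero : RelD G (fg k (.s 0)) 1
  | s_add (μ μ' : X) : RelD G (fg k (.s μ) * fg k (.s μ')) (fg k (.s (μ + μ')))
  | s_e (μ ν : X) : RelD G (fg k (.s μ) * fg k (.e ν)) (fg k (.e ν) * fg k (.s μ))
  | x_e (i : Fin G.m) (ν : X) :
      RelD G (fg k (.x i) * fg k (.e ν)) (fg k (.e (ν + G.wt i)) * fg k (.x i))
  | xi_e (i : Fin G.m) (ν : X) :
      RelD G (fg k (.xi i) * fg k (.e ν)) (fg k (.e (ν - G.wt i)) * fg k (.xi i))
  | x_x (i j : Fin G.m) :
      RelD G (fg k (.x i) * fg k (.x j) + fg k (.x j) * fg k (.x i))
        (∑ ν : X, G.c i j ν • fg k (.e ν))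
  | xi_xi (i j : Fin G.m) :
      RelD G (fg k (.xi i) * fg k (.xi j) + fg k (.xi j) * fg k (.xi i)) 0
  | xi_s (i : Fin G.m) (μ : X) :
      RelD G (fg k (.xi i) * fg k (.s μ)) (fg k (.s μ) * fg k (.xi i))
  | x_xi (i j : Fin G.m) :
      RelD G (fg k (.x i) * fg k (.xi j) + fg k (.xi j) * fg k (.x i))
        (if i = j then 1 - fg k (.s (-G.wt i)) else 0)
  | x_s (i : Fin G.m) (μ : X) :
      RelD G (fg k (.x i) * fg k (.s μ) - fg k (.s μ) * fg k (.x i))
        ((2⁻¹ : k) • ((1 + fg k (.s (-G.wt i))) * fg k (.s μ) * ∑ j, G.c i j μ • fg k (.xi j)))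

/-- `D(G) ⋊ ℤ/2`: its modules are the supermodules over the Drinfeld double `D(G)`. -/
abbrev DoubleAlg (G : HCData k X) : Type u := RingQuot (RelD G)

/-! ## The unit object -/

/-- the values of the generators on the unit object -/
def augFun (G : HCData k X) : Gen X G.m → k
  | .e ν => if ν = 0 then 1 else 0
  | .par => 1
  | .s _ => 1
  | .x _ => 0
  | .xi _ => 0

theorem augFun_rel (G : HCData k X) {a b : FreeAlgebra k (Gen X G.m)} (h : RelD G a b) :
    FreeAlgebra.lift k (augFun G) a = FreeAlgebra.lift k (augFun G) b := by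
  induction h with
  | e_mul ν ν' =>
    rw [map_mul, FreeAlgebra.lift_ι_apply, FreeAlgebra.lift_ι_apply]
    by_cases h : ν = ν'
    · subst h
      rw [if_pos rfl, FreeAlgebra.lift_ι_apply]
      show (if ν = 0 then (1 : k) else 0) * (if ν = 0 then 1 else 0) = if ν = 0 then 1 else 0
      split_ifs
      · exact one_mul _
      · exact zero_mul _
    · rw [if_neg h, map_zero]
      show (if ν = 0 then (1 : k) else 0) * (if ν' = 0 then 1 else 0) = 0
      by_cases h1 : ν = 0
      · have h2 : ν' ≠ 0 := fun h2 => h (h1.trans h2.symm)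
        rw [if_neg h2, mul_zero]
      · rw [if_neg h1, zero_mul]
  | e_sum =>
    rw [map_sum, map_one]
    simp only [FreeAlgebra.lift_ι_apply, augFun]
    simp
  | par_sq =>
    rw [map_mul, map_one, FreeAlgebra.lift_ι_apply]
    exact one_mul _
  | par_e ν => rw [map_mul, map_mul, mul_comm]
  | par_s μ => rw [map_mul, map_mul, mul_comm]
  | par_x i =>
    rw [map_mul, map_neg, map_mul, FreeAlgebra.lift_ι_apply, FreeAlgebra.lift_ι_apply]
    simp [augFun]
  | par_xi i =>
    rw [map_mul, map_neg, map_mul, FreeAlgebra.lift_ι_apply, FreeAlgebra.lift_ι_apply]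
    simp [augFun]
  | s_zero => rw [FreeAlgebra.lift_ι_apply, map_one]; rfl
  | s_add μ μ' =>
    rw [map_mul, FreeAlgebra.lift_ι_apply, FreeAlgebra.lift_ι_apply, FreeAlgebra.lift_ι_apply]
    exact one_mul _
  | s_e μ ν => rw [map_mul, map_mul, mul_comm]
  | x_e i ν =>
    simp only [map_mul, FreeAlgebra.lift_ι_apply, augFun, zero_mul, mul_zero]
  | xi_e i ν =>
    simp only [map_mul, FreeAlgebra.lift_ι_apply, augFun, zero_mul, mul_zero]
  | x_x i j =>
    simp only [map_mul, map_add, map_sum, map_smul, FreeAlgebra.lift_ι_apply, augFun, zero_mul]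
    simp
  | xi_xi i j =>
    simp only [map_mul, map_add, map_zero, FreeAlgebra.lift_ι_apply, augFun, zero_mul, add_zero]
  | xi_s i μ => rw [map_mul, map_mul, mul_comm]
  | x_xi i j =>
    rw [map_add, map_mul, map_mul]
    simp only [FreeAlgebra.lift_ι_apply, augFun, zero_mul, add_zero]
    split_ifs
    · rw [map_sub, map_one, FreeAlgebra.lift_ι_apply]
      exact (sub_self _).symm
    · rw [map_zero]
  | x_s i μ =>
    simp only [map_mul, map_sub, map_sum, map_smul, FreeAlgebra.lift_ι_apply, augFun, zero_mul,
      mul_zero, sub_self, smul_zero, Finset.sum_const_zero]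

/-- the augmentation -/
noncomputable def augm (G : HCData k X) : DoubleAlg G →ₐ[k] k :=
  RingQuot.liftAlgHom k ⟨FreeAlgebra.lift k (augFun G), fun _ _ h => augFun_rel G h⟩

/-- the unit object of the category of supermodules over `D(G)`: the field `k` in degree zero and
of weight zero, with the action through the augmentation -/
noncomputable def unitMod (G : HCData k X) : ModuleCat.{u} (DoubleAlg G) :=
  letI : Module (DoubleAlg G) k := Module.compHom k (augm G).toRingHom
  ModuleCat.of (DoubleAlg G) k

end Pool.Agent.Work.MP_0c1793_al
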