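import Pool.Agent.Work.MP_0c1793_al.Cx
import Pool.Agent.Work.MP_0c1793_al.StageW

/-! # Finite generation of the cocycles -/

set_option autoImplicit false

universe u v

open MvPolynomial TensorProduct

namespace Pool.Agent.Work.MP_0c1793_al

/-! ## Abstract part: homogeneous generators of stable subspaces -/

section Abstract

variable {k C ι : Type*} [Field k] [AddCommGroup C] [Module k C]

/-- The elements which are obtained from the `z j` (of degree `b j`) by the operators `r i` (of
degree `deg i`) and linear combinations, with their degrees. -/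
inductive HGen (r : ι → Module.End k C) (deg : ι → ℕ) {κ : Type} (b : κ → ℕ) (z : κ → C) :
    ℕ → C → Prop
  | base (j : κ) : HGen r deg b z (b j) (z j)
  | op (i : ι) {n : ℕ} {x : C} : HGen r deg b z n x → HGen r deg b z (deg i + n) (r i x)
  | zero (n : ℕ) : HGen r deg b z n 0
  | add {n : ℕ} {x y : C} : HGen r deg b z n x → HGen r deg b z n y → HGen r deg b z n (x + y)
  | smul {n : ℕ} (c : k) {x : C} : HGen r deg b z n x → HGen r deg b z n (c • x)

theorem HGen.mem {r : ι → Module.End k C} {deg : ι → ℕ} {κ : Type} {b : κ → ℕ} {z : κ → C}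
    (S : ℕ → Submodule k C) (hz : ∀ j, z j ∈ S (b j))
    (hr : ∀ i n, ∀ x ∈ S n, r i x ∈ S (deg i + n)) {n : ℕ} {x : C}
    (h : HGen r deg b z n x) : x ∈ S n := by
  induction h with
  | base j => exact hz j
  | op i _ ih => exact hr i _ _ ih
  | zero n => exact zero_mem _
  | add _ _ h1 h2 => exact add_mem h1 h2
  | smul c _ ih => exact (S _).smul_mem c ih

/-- The induction principle on the graded pieces. -/
theorem HGen.sub {r : ι → Module.End k C} {deg : ι → ℕ} {κ : Type} {b : κ → ℕ} {z : κ → C}
    (S : ℕ → Submodule k C) (hz : ∀ j, z j ∈ S (b j))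
    (hr : ∀ i n, ∀ x ∈ S n, r i x ∈ S (deg i + n)) (Wd : ∀ n, S n → Prop)
    (base : ∀ j, Wd (b j) ⟨z j, hz j⟩)
    (op : ∀ i n (x : C) (hx : x ∈ S n), Wd n ⟨x, hx⟩ → Wd (deg i + n) ⟨r i x, hr i n x hx⟩)
    (zero : ∀ n, Wd n 0) (add : ∀ n x y, Wd n x → Wd n y → Wd n (x + y))
    (smul : ∀ n (c : k) x, Wd n x → Wd n (c • x)) {n : ℕ} {x : C}
    (h : HGen r deg b z n x) : ∀ hx : x ∈ S n, Wd n ⟨x, hx⟩ := by
  induction h with
  | base j => exact fun _ => base j
  | op i h ih => exact fun _ => op i _ _ (h.mem S hz hr) (ih _)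
  | zero n => exact fun _ => zero n
  | add h1 h2 ih1 ih2 =>
    exact fun _ => add _ ⟨_, h1.mem S hz hr⟩ ⟨_, h2.mem S hz hr⟩ (ih1 _) (ih2 _)
  | smul c h ih => exact fun _ => smul _ c ⟨_, h.mem S hz hr⟩ (ih _)

/-- the algebra of operators -/
abbrev OpAlg (r : ι → Module.End k C) : Subalgebra k (Module.End k C) :=
  Algebra.adjoin k (Set.range r)

/-- a subspace which is stable under the operators is a submodule over the algebra of operators -/
def toOp (r : ι → Module.End k C) (T : Submodule k C) (hT : ∀ i, ∀ x ∈ T, r i x ∈ T) :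
    Submodule (OpAlg r) C where
  carrier := T
  add_mem' := T.add_mem
  zero_mem' := T.zero_mem
  smul_mem' := by
    rintro ⟨a, ha⟩ x hx
    show a x ∈ T
    induction ha using Algebra.adjoin_induction generalizing x with
    | mem a ha =>
      obtain ⟨i, rfl⟩ := ha
      exact hT i x hx
    | algebraMap c =>
      show c • x ∈ T
      exact T.smul_mem c hx
    | add a b _ _ iha ihb => exact T.add_mem (iha hx) (ihb hx)
    | mul a b _ _ iha ihb => exact iha (ihb hx)

/-- Finiteness of `C` over the operators. -/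
def OpFin (r : ι → Module.End k C) : Prop :=
  ∃ F : Finset C, ∀ T : Submodule k C, (∀ f ∈ F, f ∈ T) → (∀ i, ∀ x ∈ T, r i x ∈ T) → T = ⊤

theorem OpFin.isNoetherian [Finite ι] {r : ι → Module.End k C} (h : OpFin r)
    (hc : ∀ i j, Commute (r i) (r j)) : IsNoetherian (OpAlg r) C := by
  classical
  let _ : CommRing (OpAlg r) := Algebra.adjoinCommRingOfComm k (by
    rintro _ ⟨i, rfl⟩ _ ⟨j, rfl⟩
    exact hc i j)
  have : Algebra.FiniteType k (OpAlg r) :=
    (Subalgebra.fg_iff_finiteType _).1 (Subalgebra.fg_def.2 ⟨_, Set.finite_range r, rfl⟩)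
  have : IsNoetherianRing (OpAlg r) := Algebra.FiniteType.isNoetherianRing k _
  have : Module.Finite (OpAlg r) C := by
    obtain ⟨F, hF⟩ := h
    refine ⟨⟨F, ?_⟩⟩
    have h1 := hF ((Submodule.span (OpAlg r) (F : Set C)).restrictScalars k)
      (fun f hf => Submodule.subset_span hf)
      (fun i x hx => (Submodule.span (OpAlg r) (F : Set C)).smul_mem
        ⟨r i, Algebra.subset_adjoin ⟨i, rfl⟩⟩ hx)
    rw [eq_top_iff]
    intro x _
    have : x ∈ (Submodule.span (OpAlg r) (F : Set C)).restrictScalars k := by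
      rw [h1]; trivial
    exact this
  exact isNoetherian_of_isNoetherianRing_of_finite (OpAlg r) C

theorem exists_homog_gens [Finite ι] (r : ι → Module.End k C) (h : OpFin r)
    (hc : ∀ i j, Commute (r i) (r j)) (deg : ι → ℕ) (pi : ℕ → Module.End k C)
    (hpi : ∀ n m x, pi n (pi m x) = if n = m then pi m x else 0)
    (hsum : ∀ x, ∃ s : Finset ℕ, x = ∑ n ∈ s, pi n x)
    (hr : ∀ i n x, r i (pi n x) = pi (deg i + n) (r i x))
    (Z : Submodule k C) (hZr : ∀ i, ∀ x ∈ Z, r i x ∈ Z) (hZpi : ∀ n, ∀ x ∈ Z, pi n x ∈ Z) :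
    ∃ (κ : Type) (_ : Finite κ) (b : κ → ℕ) (z : κ → C),
      (∀ j, z j ∈ Z ∧ pi (b j) (z j) = z j) ∧
      ∀ n x, x ∈ Z → pi n x = x → HGen r deg b z n x := by
  classical
  have := h.isNoetherian hc
  obtain ⟨F, hF⟩ := IsNoetherian.noetherian (toOp r Z hZr)
  choose s hs using hsum
  -- components outside `s x` vanish
  have hcomp : ∀ x n, n ∉ s x → pi n x = 0 := by
    intro x n hn
    have h1 : pi n x = pi n (∑ m ∈ s x, pi m x) := by rw [← hs x]
    rw [h1, map_sum]
    refine Finset.sum_eq_zero fun m hm => ?_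
    rw [hpi, if_neg]
    rintro rfl
    exact hn hm
  have hrlow : ∀ i x n, (∀ m, n ≠ deg i + m) → pi n (r i x) = 0 := by
    intro i x n hn
    have h1 : r i x = ∑ m ∈ s x, pi (deg i + m) (r i x) := by
      conv_lhs => rw [hs x]
      rw [map_sum]
      exact Finset.sum_congr rfl fun m _ => hr i m x
    rw [h1, map_sum]
    refine Finset.sum_eq_zero fun m _ => ?_
    rw [hpi, if_neg (hn m)]
  let Q : Finset (C × ℕ) := F.biUnion fun f => (s f).image fun n => (f, n)
  let eqv := Q.equivFin
  let b : Fin Q.card → ℕ := fun j => ((eqv.symm j : Q) : C × ℕ).2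
  let z : Fin Q.card → C := fun j => pi (b j) ((eqv.symm j : Q) : C × ℕ).1
  refine ⟨Fin Q.card, inferInstance, b, z, fun j => ⟨?_, ?_⟩, ?_⟩
  · refine hZpi _ _ ?_
    obtain ⟨f, hf, hf'⟩ := Finset.mem_biUnion.1 (eqv.symm j).2
    obtain ⟨n, hn, hn'⟩ := Finset.mem_image.1 hf'
    rw [← hn']
    have : f ∈ Submodule.span (OpAlg r) (F : Set C) := Submodule.subset_span hf
    rw [hF] at this
    exact this
  · show pi (b j) (pi (b j) _) = _
    rw [hpi, if_pos rfl]
  · -- the elements all of whose components are generated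
    let T : Submodule k C :=
      { carrier := {x | ∀ n, HGen r deg b z n (pi n x)}
        add_mem' := fun {x y} hx hy n => by rw [map_add]; exact HGen.add (hx n) (hy n)
        zero_mem' := fun n => by rw [map_zero]; exact HGen.zero n
        smul_mem' := fun c {x} hx n => by rw [map_smul]; exact HGen.smul c (hx n) }
    have hTr : ∀ i, ∀ x ∈ T, r i x ∈ T := by
      intro i x hx n
      by_cases hn : ∃ m, n = deg i + m
      · obtain ⟨m, rfl⟩ := hn
        rw [← hr]
        exact HGen.op i (hx m)
      · push Not at hn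
        rw [hrlow i x n hn]
        exact HGen.zero n
    have hFT : ∀ f ∈ F, f ∈ T := by
      intro f hf n
      by_cases hn : n ∈ s f
      · have hmem : (f, n) ∈ Q := Finset.mem_biUnion.2 ⟨f, hf, Finset.mem_image.2 ⟨n, hn, rfl⟩⟩
        have h1 := HGen.base (r := r) (deg := deg) (b := b) (z := z) (eqv ⟨(f, n), hmem⟩)
        have h2 : b (eqv ⟨(f, n), hmem⟩) = n := by simp [b]
        have h3 : z (eqv ⟨(f, n), hmem⟩) = pi n f := by
          show pi (b (eqv ⟨(f, n), hmem⟩)) _ = _
          rw [h2]
          simp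
        rw [h2, h3] at h1
        exact h1
      · rw [hcomp f n hn]
        exact HGen.zero n
    have hle : toOp r Z hZr ≤ toOp r T hTr := by
      rw [← hF, Submodule.span_le]
      exact hFT
    intro n x hx hxn
    have := hle hx n
    rwa [hxn] at this

end Abstract

/-! ## Integrality -/

section Integral

/-- Finiteness from monic equations of a special form. -/
theorem finite_aux {k R B : Type*} [Field k] [CommRing R] [CommRing B] [Nontrivial B] [Algebra k B]
    (f : R →+* B) (hk : ∀ c : k, algebraMap k B c ∈ f.range) {ι X : Type*} [Finite ι] [Fintype ι]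
    (y z : ι → B) (hgen : Algebra.adjoin k (Set.range y ∪ Set.range z) = ⊤)
    [Fintype X] [Nonempty X] (c : X → ι → ι → k)
    (hy : ∀ i, ∃ n, 0 < n ∧ y i ^ n ∈ f.range)
    (hz : ∀ j, ∃ n, 0 < n ∧ (∏ μ, (z j + ∑ i, c μ i j • y i)) ^ n ∈ f.range) : f.Finite := by
  classical
  let _ : Algebra R B := f.toAlgebra
  obtain ⟨A, hA⟩ : ∃ A : Subalgebra R B, A = integralClosure R B := ⟨_, rfl⟩
  have hmem : ∀ x : B, x ∈ A ↔ IsIntegral R x := fun x => by rw [hA]; rfl
  have hAint : Algebra.IsIntegral R A := by
    subst hA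
    infer_instance
  have hrange : ∀ x ∈ f.range, x ∈ A := by
    rintro _ ⟨r, rfl⟩
    exact A.algebraMap_mem r
  have hyA : ∀ i, y i ∈ A := fun i => by
    obtain ⟨n, hn, h⟩ := hy i
    rw [hmem]
    exact IsIntegral.of_pow hn ((hmem _).1 (hrange _ h))
  have hkA : ∀ a : k, algebraMap k B a ∈ A := fun a => hrange _ (hk a)
  have hL : ∀ j (μ : X), (∑ i, c μ i j • y i) ∈ A := fun j μ => by
    refine sum_mem fun i _ => ?_
    rw [Algebra.smul_def]
    exact mul_mem (hkA _) (hyA i)
  have hzA : ∀ j, z j ∈ A := fun j => by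
    obtain ⟨n, hn, h⟩ := hz j
    have h2 := IsIntegral.of_pow hn ((hmem _).1 (hrange _ h))
    let P : Polynomial A := ∏ μ : X, (Polynomial.X + Polynomial.C (⟨_, hL j μ⟩ : A))
    have hP : P.Monic := Polynomial.monic_prod_of_monic _ _ fun μ _ => Polynomial.monic_X_add_C _
    have hdeg : P.natDegree ≠ 0 := by
      rw [Polynomial.natDegree_prod_of_monic _ _ fun μ _ => Polynomial.monic_X_add_C _,
        Finset.sum_congr rfl fun μ _ => Polynomial.natDegree_X_add_C _]
      simp
    have haev : Polynomial.aeval (z j) P = ∏ μ : X, (z j + ∑ i, c μ i j • y i) := by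
      rw [map_prod]
      refine Finset.prod_congr rfl fun μ _ => ?_
      rw [map_add, Polynomial.aeval_X, Polynomial.aeval_C]
      rfl
    have h3 : IsIntegral A (Polynomial.aeval (z j) P) := by
      rw [haev]
      exact h2.tower_top
    have h4 : IsIntegral A (z j) := IsIntegral.of_aeval_monic hP hdeg h3
    rw [hmem]
    exact isIntegral_trans _ h4
  have hfin : (Set.range y ∪ Set.range z).Finite := (Set.finite_range y).union (Set.finite_range z)
  have hall : ∀ x : B, x ∈ A := by
    intro x
    have hx : x ∈ Algebra.adjoin k (Set.range y ∪ Set.range z) := by rw [hgen]; trivial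
    induction hx using Algebra.adjoin_induction with
    | mem x hx =>
      rcases hx with ⟨i, rfl⟩ | ⟨i, rfl⟩
      · exact hyA i
      · exact hzA i
    | algebraMap c => exact hkA c
    | add a b _ _ iha ihb => exact add_mem iha ihb
    | mul a b _ _ iha ihb => exact mul_mem iha ihb
  have hint : f.IsIntegral := fun x => (hmem x).1 (hall x)
  refine hint.to_finite ?_
  show Algebra.FiniteType R B
  refine ⟨Subalgebra.fg_def.2 ⟨_, hfin, ?_⟩⟩
  rw [eq_top_iff]
  intro x _
  have hx : x ∈ Algebra.adjoin k (Set.range y ∪ Set.range z) := by rw [hgen]; trivial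
  induction hx using Algebra.adjoin_induction with
  | mem x hx => exact Algebra.subset_adjoin hx
  | algebraMap c =>
    obtain ⟨r, hr⟩ := hk c
    rw [← hr]
    exact Subalgebra.algebraMap_mem _ r
  | add a b _ _ iha ihb => exact add_mem (iha trivial) (ihb trivial)
  | mul a b _ _ iha ihb => exact mul_mem (iha trivial) (ihb trivial)

theorem finite_span {R B : Type*} [CommRing R] [CommRing B] (f : R →+* B) (hf : f.Finite) :
    ∃ S : Finset B, ∀ (p : B) (T : AddSubmonoid B), (∀ x ∈ S, x ∈ T) →
      (∀ (q : R), ∀ x ∈ T, f q * x ∈ T) → p ∈ T := by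
  let _ : Algebra R B := f.toAlgebra
  obtain ⟨S, hS⟩ := (show Module.Finite R B from hf)
  refine ⟨S, fun p T h1 h2 => ?_⟩
  have hp : p ∈ Submodule.span R (S : Set B) := by rw [hS]; trivial
  induction hp using Submodule.span_induction with
  | mem x hx => exact h1 x hx
  | zero => exact zero_mem _
  | add x y _ _ hx hy => exact add_mem hx hy
  | smul c x _ hx =>
    rw [Algebra.smul_def]
    exact h2 c x hx

end Integral

/-! ## The ring of polynomials is finite over the invariants -/

section Poly

variable {k : Type u} [Field k] {X : Type} [AddCommGroup X] [Fintype X] (G : HCData k X)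

/-- the squares of the norms of the variables -/
noncomputable def rr (u : Fin G.m ⊕ Fin G.m) : Pol G :=
  (∏ μ : X, trans G μ (MvPolynomial.X u)) ^ 2

theorem trans_rr (μ : X) (u : Fin G.m ⊕ Fin G.m) : trans G μ (rr G u) = rr G u := by
  classical
  unfold rr
  rw [map_pow, map_prod]
  have h : ∀ ν : X, trans G μ (trans G ν (MvPolynomial.X u)) =
      trans G (μ + ν) (MvPolynomial.X u) := fun ν => by
    rw [trans_add, AlgHom.comp_apply]
  rw [Finset.prod_congr rfl fun ν _ => h ν]
  rw [Fintype.prod_equiv (Equiv.addLeft μ) (fun ν => trans G (μ + ν) (MvPolynomial.X u))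
    (fun ν => trans G ν (MvPolynomial.X u)) (fun ν => rfl)]

theorem finite_rr : (aeval (R := k) (rr G)).toRingHom.Finite := by
  classical
  have hX : ∀ u, (aeval (R := k) (rr G)).toRingHom (MvPolynomial.X u) = rr G u :=
    fun u => aeval_X _ _
  refine finite_aux (k := k) _ (fun c => ⟨MvPolynomial.C c, aeval_C _ _⟩) (vy G) (vz G) ?_
    (fun μ i j => G.c i j μ) (fun i => ?_) (fun j => ?_)
  · rw [eq_top_iff, ← MvPolynomial.adjoin_range_X]
    refine Algebra.adjoin_mono ?_
    rintro _ ⟨i | j, rfl⟩
    · exact Or.inl ⟨i, rfl⟩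
    · exact Or.inr ⟨j, rfl⟩
  · refine ⟨Fintype.card X * 2, ?_, MvPolynomial.X (Sum.inl i), ?_⟩
    · have : 0 < Fintype.card X := Fintype.card_pos_iff.2 ⟨0⟩
      positivity
    · rw [hX]
      unfold rr
      rw [Finset.prod_congr rfl fun μ _ => trans_y G μ i, Finset.prod_const, ← pow_mul]
      rfl
  · refine ⟨2, by norm_num, MvPolynomial.X (Sum.inr j), ?_⟩
    rw [hX]
    unfold rr
    rw [Finset.prod_congr rfl fun μ _ => trans_z G μ j]

theorem rr_homog (u : Fin G.m ⊕ Fin G.m) : (rr G u).IsHomogeneous (Fintype.card X * 2) := by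
  classical
  unfold rr
  refine IsHomogeneous.pow ?_ 2
  have h1 : ∀ μ : X, (trans G μ (MvPolynomial.X u)).IsHomogeneous 1 := by
    intro μ
    rcases u with i | j
    · rw [show trans G μ (MvPolynomial.X (Sum.inl i)) = vy G i from trans_y G μ i]
      exact isHomogeneous_X _ _
    · rw [show trans G μ (MvPolynomial.X (Sum.inr j)) = _ from trans_z G μ j]
      refine (isHomogeneous_X _ _).add ?_
      refine IsHomogeneous.sum _ _ _ fun i _ => ?_
      rw [MvPolynomial.smul_eq_C_mul]
      exact (isHomogeneous_X _ _).C_mul _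
  have h2 := IsHomogeneous.prod (Finset.univ : Finset X)
    (fun μ => trans G μ (MvPolynomial.X u)) (fun _ => 1) (fun μ _ => h1 μ)
  simpa using h2

end Poly

/-! ## The graded pieces of the complex -/

section Graded

open Pool.Agent.DG

variable {k : Type*} {M : Type*} [Field k] [AddCommGroup M] [Module k M] {σ : Type*} {r : ℕ}

/-- the component of total degree `n` -/
noncomputable def piN (k M : Type*) [Field k] [AddCommGroup M] [Module k M] (σ : Type*) (r : ℕ)
    (n : ℕ) : Module.End k (CC k M σ r) :=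
  Finsupp.lsum k fun a : Fin r →₀ ℕ =>
    if a.degree ≤ n then
      Finsupp.lsingle a ∘ₗ LinearMap.lTensor M (homogeneousComponent (n - a.degree)) else 0

theorem piN_single (n : ℕ) (a : Fin r →₀ ℕ) (m : M) {d : ℕ} {p : MvPolynomial σ k}
    (hp : p.IsHomogeneous d) : piN k M σ r n (Finsupp.single a (m ⊗ₜ p)) =
      if a.degree + d = n then Finsupp.single a (m ⊗ₜ p) else 0 := by
  unfold piN
  rw [Finsupp.lsum_single]
  by_cases h : a.degree ≤ n
  · rw [if_pos h, LinearMap.comp_apply, LinearMap.lTensor_tmul,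
      homogeneousComponent_of_mem ((mem_homogeneousSubmodule _ _).2 hp)]
    by_cases h2 : a.degree + d = n
    · rw [if_pos h2, if_pos (by omega)]
      rfl
    · rw [if_neg h2, if_neg (by omega), TensorProduct.tmul_zero, map_zero]
  · rw [if_neg h, if_neg (by omega), LinearMap.zero_apply]

/-- the complex is spanned by the homogeneous elements -/
theorem cc_induction {Q : CC k M σ r → Prop} (hadd : ∀ f g, Q f → Q g → Q (f + g))
    (hzero : Q 0) (h : ∀ a m d p, MvPolynomial.IsHomogeneous (R := k) (σ := σ) p d →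
      Q (Finsupp.single a (m ⊗ₜ p))) (f : CC k M σ r) : Q f := by
  classical
  induction f using Finsupp.induction_linear with
  | zero => exact hzero
  | add f g hf hg => exact hadd f g hf hg
  | single a w =>
    induction w using TensorProduct.induction_on with
    | zero => rw [Finsupp.single_zero]; exact hzero
    | add x y hx hy => rw [Finsupp.single_add]; exact hadd _ _ hx hy
    | tmul m p =>
      rw [← sum_homogeneousComponent p, TensorProduct.tmul_sum, Finsupp.single_finsetSum]
      refine Finset.sum_induction _ Q hadd hzero fun d _ => ?_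
      exact h a m d _ (homogeneousComponent_isHomogeneous d p)

theorem piN_mem {n N : ℕ} {f : CC k M σ r} (hf : f ∈ GrC k M σ r N) :
    piN k M σ r n f = if N = n then f else 0 := by
  have h := GrC_map (k := k) (M := M) (σ := σ) (r := r) (n := N) (⊥ : Submodule k (CC k M σ r))
    (piN k M σ r n - (if N = n then LinearMap.id else 0)) (fun a d m p h1 h2 => by
      rw [LinearMap.sub_apply, piN_single n a m h2, h1, Submodule.mem_bot]
      split_ifs
      · exact sub_self _
      · exact sub_self _) f hf
  rw [Submodule.mem_bot, LinearMap.sub_apply, sub_eq_zero] at h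
  rw [h]
  split_ifs <;> rfl

theorem piN_mem_GrC (n : ℕ) (f : CC k M σ r) : piN k M σ r n f ∈ GrC k M σ r n := by
  induction f using cc_induction with
  | hadd f g hf hg => rw [map_add]; exact add_mem hf hg
  | hzero => rw [map_zero]; exact zero_mem _
  | h a m d p hp =>
    rw [piN_single n a m hp]
    split_ifs with h
    · exact single_mem_GrC h m hp
    · exact zero_mem _

theorem mem_GrC_iff {n : ℕ} {f : CC k M σ r} : f ∈ GrC k M σ r n ↔ piN k M σ r n f = f := by
  constructor
  · intro h
    rw [piN_mem h, if_pos rfl]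
  · intro h
    rw [← h]
    exact piN_mem_GrC n f

theorem piN_piN (n m : ℕ) (f : CC k M σ r) :
    piN k M σ r n (piN k M σ r m f) = if n = m then piN k M σ r m f else 0 := by
  rw [piN_mem (piN_mem_GrC m f)]
  simp only [eq_comm]

theorem piN_sum (f : CC k M σ r) : ∃ s : Finset ℕ, f = ∑ n ∈ s, piN k M σ r n f := by
  classical
  -- a bound for the degrees
  suffices h : ∃ B : ℕ, ∀ B', B ≤ B' → f = ∑ n ∈ Finset.range B', piN k M σ r n f by
    obtain ⟨B, hB⟩ := h
    exact ⟨_, hB B le_rfl⟩
  induction f using cc_induction with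
  | hadd f g hf hg =>
    obtain ⟨B, hB⟩ := hf
    obtain ⟨B', hB'⟩ := hg
    refine ⟨max B B', fun C hC => ?_⟩
    simp only [map_add, Finset.sum_add_distrib]
    rw [← hB C (le_trans (le_max_left _ _) hC), ← hB' C (le_trans (le_max_right _ _) hC)]
  | hzero => exact ⟨0, fun _ _ => by simp⟩
  | h a m d p hp =>
    refine ⟨a.degree + d + 1, fun C hC => ?_⟩
    simp only [piN_single _ a m hp]
    rw [Finset.sum_ite_eq, if_pos (Finset.mem_range.2 (by omega))]

/-- homogeneous operators commute with the projections -/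
theorem piN_comm {c : ℕ} (φ : Module.End k (CC k M σ r))
    (h : ∀ n, ∀ f ∈ GrC k M σ r n, φ f ∈ GrC k M σ r (c + n)) (n : ℕ) (f : CC k M σ r) :
    φ (piN k M σ r n f) = piN k M σ r (c + n) (φ f) := by
  induction f using cc_induction with
  | hadd f g hf hg => rw [map_add, map_add, map_add, map_add, hf, hg]
  | hzero => rw [map_zero, map_zero, map_zero]
  | h a m d p hp =>
    have h1 := single_mem_GrC (k := k) (σ := σ) (r := r) (n := a.degree + d) rfl m hp
    rw [piN_mem h1, piN_mem (h _ _ h1)]
    by_cases h2 : a.degree + d = n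
    · rw [if_pos h2, if_pos (by omega)]
    · rw [if_neg h2, if_neg (by omega), map_zero]

/-! ## The operators -/

/-- multiplication by `χ_l` -/
noncomputable def chiC (k M : Type*) [Field k] [AddCommGroup M] [Module k M] (σ : Type*) {r : ℕ}
    (l : Fin r) : Module.End k (CC k M σ r) :=
  Finsupp.lmapDomain (M ⊗[k] MvPolynomial σ k) k fun a => a + Finsupp.single l 2

theorem chiC_single (l : Fin r) (a : Fin r →₀ ℕ) (w : M ⊗[k] MvPolynomial σ k) :
    chiC k M σ l (Finsupp.single a w) = Finsupp.single (a + Finsupp.single l 2) w := by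
  unfold chiC
  rw [Finsupp.lmapDomain_apply, Finsupp.mapDomain_single]

theorem chiC_GrC (l : Fin r) (n : ℕ) (f : CC k M σ r) (hf : f ∈ GrC k M σ r n) :
    chiC k M σ l f ∈ GrC k M σ r (2 + n) := by
  refine GrC_map _ _ (fun a d m p h1 h2 => ?_) f hf
  rw [chiC_single]
  refine single_mem_GrC (d := d) ?_ m h2
  rw [map_add, Finsupp.degree_single]
  omega

theorem mul_GrC {c : ℕ} {g : MvPolynomial σ k} (hg : g.IsHomogeneous c) (n : ℕ)
    (f : CC k M σ r) (hf : f ∈ GrC k M σ r n) :
    cm M r (LinearMap.mulLeft k g) f ∈ GrC k M σ r (c + n) := by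
  refine GrC_map _ _ (fun a d m p h1 h2 => ?_) f hf
  rw [cm_single]
  refine single_mem_GrC (d := c + d) (by omega) m ?_
  exact hg.mul h2

/-- the operators: multiplication by the polynomials `g u` and by the `χ_l` -/
noncomputable def opsC (M : Type*) [AddCommGroup M] [Module k M] (r : ℕ)
    (g : σ → MvPolynomial σ k) : σ ⊕ Fin r → Module.End k (CC k M σ r) :=
  Sum.elim (fun u => cm M r (LinearMap.mulLeft k (g u))) (fun l => chiC k M σ l)

/-- their degrees -/
def degC (σ : Type*) (r c : ℕ) : σ ⊕ Fin r → ℕ := Sum.elim (fun _ => c) (fun _ => 2)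

theorem opsC_comm (g : σ → MvPolynomial σ k) (i j : σ ⊕ Fin r) :
    Commute (opsC M r g i) (opsC M r g j) := by
  have key : ∀ i j : σ ⊕ Fin r, ∀ a m p,
      opsC M r g i (opsC M r g j (Finsupp.single a (m ⊗ₜ p))) =
        opsC M r g j (opsC M r g i (Finsupp.single a (m ⊗ₜ p))) := by
    rintro (u | l) (u' | l') a m p
    · show cm M r _ (cm M r _ _) = cm M r _ (cm M r _ _)
      rw [cm_single, cm_single, cm_single, cm_single]
      show Finsupp.single a (m ⊗ₜ (g u * (g u' * p))) = Finsupp.single a (m ⊗ₜ (g u' * (g u * p)))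
      rw [mul_left_comm]
    · show cm M r _ (chiC k M σ l' _) = chiC k M σ l' (cm M r _ _)
      rw [cm_single, chiC_single, chiC_single, cm_single]
    · show chiC k M σ l (cm M r _ _) = cm M r _ (chiC k M σ l _)
      rw [cm_single, chiC_single, chiC_single, cm_single]
    · show chiC k M σ l (chiC k M σ l' _) = chiC k M σ l' (chiC k M σ l _)
      rw [chiC_single, chiC_single, chiC_single, chiC_single, add_right_comm]
  exact cc_ext fun a m p => key i j a m p

theorem opsC_GrC {c : ℕ} {g : σ → MvPolynomial σ k} (hg : ∀ u, (g u).IsHomogeneous c)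
    (i : σ ⊕ Fin r) (n : ℕ) (f : CC k M σ r) (hf : f ∈ GrC k M σ r n) :
    opsC M r g i f ∈ GrC k M σ r (degC σ r c i + n) := by
  rcases i with u | l
  · exact mul_GrC (hg u) n f hf
  · exact chiC_GrC l n f hf

theorem opsC_fin [Module.Finite k M] {g : σ → MvPolynomial σ k}
    (hg : (aeval (R := k) g).toRingHom.Finite) : OpFin (opsC M r g) := by
  classical
  obtain ⟨S, hS⟩ := (inferInstance : Module.Finite k M)
  obtain ⟨S', hS'⟩ := finite_span _ hg
  let F : Finset (CC k M σ r) := (Finset.univ : Finset (Finset (Fin r))).biUnion fun A =>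
    S.biUnion fun m => S'.image fun p =>
      (Finsupp.single (∑ l ∈ A, Finsupp.single l 1) (m ⊗ₜ p))
  refine ⟨F, fun T hF hT => ?_⟩
  have h1 : ∀ A : Finset (Fin r), ∀ m ∈ S, ∀ p : MvPolynomial σ k,
      (Finsupp.single (∑ l ∈ A, Finsupp.single l 1) (m ⊗ₜ p) : CC k M σ r) ∈ T := by
    intro A m hm p
    refine hS' p
      { carrier := {p | (Finsupp.single (∑ l ∈ A, Finsupp.single l 1) (m ⊗ₜ p) : CC k M σ r) ∈ T}
        add_mem' := fun {x y} hx hy => by
          show (Finsupp.single _ (m ⊗ₜ (x + y)) : CC k M σ r) ∈ T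
          rw [TensorProduct.tmul_add, Finsupp.single_add]
          exact add_mem hx hy
        zero_mem' := by
          show (Finsupp.single _ (m ⊗ₜ (0 : MvPolynomial σ k)) : CC k M σ r) ∈ T
          rw [TensorProduct.tmul_zero, Finsupp.single_zero]
          exact zero_mem _ } ?_ ?_
    · intro x hx
      refine hF _ ?_
      refine Finset.mem_biUnion.2 ⟨A, Finset.mem_univ _, Finset.mem_biUnion.2 ⟨m, hm, ?_⟩⟩
      exact Finset.mem_image.2 ⟨x, hx, rfl⟩
    · intro q
      induction q using MvPolynomial.induction_on with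
      | C a =>
        intro x hx
        show (Finsupp.single _ (m ⊗ₜ[k] (aeval g (MvPolynomial.C a) * x)) : CC k M σ r) ∈ T
        rw [aeval_C, ← Algebra.smul_def, TensorProduct.tmul_smul, ← Finsupp.smul_single]
        exact T.smul_mem a hx
      | add q q' hq hq' =>
        intro x hx
        rw [map_add, add_mul]
        exact add_mem (hq x hx) (hq' x hx)
      | mul_X q u hq =>
        intro x hx
        show aeval g (q * MvPolynomial.X u) * x ∈ _
        rw [map_mul, aeval_X, mul_assoc]
        refine hq _ ?_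
        have := hT (Sum.inl u) _ hx
        show (Finsupp.single _ (m ⊗ₜ (g u * x)) : CC k M σ r) ∈ T
        rw [show opsC M r g (Sum.inl u) = cm M r (LinearMap.mulLeft k (g u)) from rfl,
          cm_single] at this
        exact this
  have h2 : ∀ A : Finset (Fin r), ∀ m : M, ∀ p : MvPolynomial σ k,
      (Finsupp.single (∑ l ∈ A, Finsupp.single l 1) (m ⊗ₜ p) : CC k M σ r) ∈ T := by
    intro A m p
    have hm : m ∈ Submodule.span k (S : Set M) := by rw [hS]; trivial
    induction hm using Submodule.span_induction with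
    | mem x hx => exact h1 A x hx p
    | zero => rw [TensorProduct.zero_tmul, Finsupp.single_zero]; exact zero_mem _
    | add x y _ _ hx hy => rw [TensorProduct.add_tmul, Finsupp.single_add]; exact add_mem hx hy
    | smul c x _ hx =>
      rw [← TensorProduct.smul_tmul', ← Finsupp.smul_single]
      exact T.smul_mem c hx
  have h3 : ∀ n : ℕ, ∀ a : Fin r →₀ ℕ, a.degree = n → ∀ (m : M) (p : MvPolynomial σ k),
      (Finsupp.single a (m ⊗ₜ p) : CC k M σ r) ∈ T := by
    intro n
    induction n using Nat.strong_induction_on with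
    | _ n ih =>
      intro a ha m p
      by_cases h : ∃ l, 2 ≤ a l
      · obtain ⟨l, hl⟩ := h
        have h4 : a = (a - Finsupp.single l 2) + Finsupp.single l 2 := by
          ext l'
          by_cases h5 : l = l'
          · subst h5
            simp only [Finsupp.add_apply, Finsupp.tsub_apply, Finsupp.single_eq_same]
            omega
          · simp [Finsupp.single_eq_of_ne' h5]
        have h5 : (a - Finsupp.single l 2).degree + 2 = n := by
          rw [← ha]
          conv_rhs => rw [h4]
          rw [map_add, Finsupp.degree_single]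
        have h6 := hT (Sum.inr l) _ (ih _ (by omega) (a - Finsupp.single l 2) rfl m p)
        rw [show opsC M r g (Sum.inr l) = chiC k M σ l from rfl, chiC_single, ← h4] at h6
        exact h6
      · push Not at h
        have h4 : a = ∑ l ∈ Finset.univ.filter (fun l => a l = 1), Finsupp.single l 1 := by
          ext l'
          rw [Finsupp.finsetSum_apply]
          simp only [Finsupp.single_apply]
          rw [Finset.sum_ite_eq']
          have := h l'
          by_cases h5 : a l' = 1
          · simp [h5]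
          · simp [h5]
            omega
        rw [h4]
        exact h2 _ m p
  rw [eq_top_iff]
  intro f _
  induction f using cc_induction with
  | hadd f g hf hg => exact add_mem (hf trivial) (hg trivial)
  | hzero => exact zero_mem _
  | h a m d p hp => exact h3 _ a rfl m p

/-- Finitely many homogeneous cocycles generate all cocycles in the image of the projection `E`. -/
theorem exists_cocycle_gens [Module.Finite k M] [Finite σ] {g : σ → MvPolynomial σ k}
    (hg : (aeval (R := k) g).toRingHom.Finite) {c : ℕ} (hgc : ∀ u, (g u).IsHomogeneous c)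
    (D E : Module.End k (CC k M σ r))
    (hD : ∀ n, ∀ f ∈ GrC k M σ r n, D f ∈ GrC k M σ r (n + 1))
    (hE : ∀ n, ∀ f ∈ GrC k M σ r n, E f ∈ GrC k M σ r n)
    (hDr : ∀ i f, D (opsC M r g i f) = opsC M r g i (D f))
    (hEr : ∀ i f, E (opsC M r g i f) = opsC M r g i (E f)) :
    ∃ (κ : Type) (_ : Finite κ) (b : κ → ℕ) (z : κ → CC k M σ r),
      (∀ j, z j ∈ GrC k M σ r (b j) ∧ D (z j) = 0 ∧ E (z j) = z j) ∧
      ∀ n, ∀ x ∈ GrC k M σ r n, D x = 0 → E x = x →
        HGen (opsC M r g) (degC σ r c) b z n x := by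
  let Z : Submodule k (CC k M σ r) := LinearMap.ker D ⊓ LinearMap.ker (E - LinearMap.id)
  have hZ : ∀ x, x ∈ Z ↔ D x = 0 ∧ E x = x := fun x => by
    show x ∈ LinearMap.ker D ⊓ LinearMap.ker (E - LinearMap.id) ↔ _
    rw [Submodule.mem_inf, LinearMap.mem_ker, LinearMap.mem_ker, LinearMap.sub_apply,
      LinearMap.id_apply, sub_eq_zero]
  obtain ⟨κ, hκ, b, z, h1, h2⟩ := exists_homog_gens (opsC M r g) (opsC_fin hg) (opsC_comm g)
    (degC σ r c) (piN k M σ r) piN_piN piN_sum
    (fun i n x => piN_comm (opsC M r g i) (opsC_GrC hgc i) n x) Z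
    (fun i x hx => by
      rw [hZ] at hx ⊢
      rw [hDr, hEr, hx.1, hx.2, map_zero]
      exact ⟨rfl, rfl⟩)
    (fun n x hx => by
      rw [hZ] at hx ⊢
      have e1 := piN_comm (c := 1) D (fun n f hf => by rw [add_comm]; exact hD n f hf) n x
      have e2 := piN_comm (c := 0) E (fun n f hf => by rw [zero_add]; exact hE n f hf) n x
      rw [e1, e2, hx.1, hx.2, map_zero, zero_add]
      exact ⟨rfl, rfl⟩)
  refine ⟨κ, hκ, b, z, fun j => ?_, fun n x hx hDx hEx => ?_⟩
  · obtain ⟨h3, h4⟩ := h1 j
    rw [hZ] at h3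
    exact ⟨mem_GrC_iff.2 h4, h3.1, h3.2⟩
  · exact h2 n x ((hZ x).2 ⟨hDx, hEx⟩) (mem_GrC_iff.1 hx)

end Graded

section Link

open Pool.Agent.DG

variable {k : Type u} [Field k] {X : Type} [AddCommGroup X] (G : HCData k X)
  (M : Type v) [AddCommGroup M] [Module k M] {r : ℕ}

theorem cm_mulLeft (g : Pol G) : cm (k := k) M r (LinearMap.mulLeft k g) =
    Finsupp.mapRange.linearMap (mu G M g) := by
  refine cc_ext fun a m p => ?_
  rw [cm_single, Finsupp.mapRange.linearMap_apply, Finsupp.mapRange_single]
  rfl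

end Link

end Pool.Agent.Work.MP_0c1793_al
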