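import Pool.Agent.Work.MP_0c1793_al.Defs

/-! # Representations of the presented algebra -/

set_option autoImplicit false

universe u v

open CategoryTheory

namespace Pool.Agent.Work.MP_0c1793_al

variable {k : Type u} [Field k] {X : Type} [AddCommGroup X] [Fintype X] [DecidableEq X]

/-- images of the generators which satisfy the relations -/
structure Ops (G : HCData k X) (B : Type v) [Ring B] [Algebra k B] where
  e : X → B
  par : B
  s : X → B
  x : Fin G.m → B
  xi : Fin G.m → B
  e_mul : ∀ ν ν', e ν * e ν' = if ν = ν' then e ν else 0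
  e_sum : ∑ ν : X, e ν = 1
  par_sq : par * par = 1
  par_e : ∀ ν, par * e ν = e ν * par
  par_s : ∀ μ, par * s μ = s μ * par
  par_x : ∀ i, par * x i = -(x i * par)
  par_xi : ∀ i, par * xi i = -(xi i * par)
  s_zero : s 0 = 1
  s_add : ∀ μ μ', s μ * s μ' = s (μ + μ')
  s_e : ∀ μ ν, s μ * e ν = e ν * s μ
  x_e : ∀ i ν, x i * e ν = e (ν + G.wt i) * x i
  xi_e : ∀ i ν, xi i * e ν = e (ν - G.wt i) * xi i
  x_x : ∀ i j, x i * x j + x j * x i = ∑ ν : X, G.c i j ν • e ν
  xi_xi : ∀ i j, xi i * xi j + xi j * xi i = 0
  xi_s : ∀ i μ, xi i * s μ = s μ * xi i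
  x_xi : ∀ i j, x i * xi j + xi j * x i =
    if i = j then (2⁻¹ : k) • (s (G.wt i) - s (-G.wt i)) else 0
  x_s : ∀ i μ, x i * s μ - s μ * x i = s μ * ∑ j, G.c i j μ • xi j

namespace Ops

variable {G : HCData k X} {B : Type v} [Ring B] [Algebra k B]

/-- the assignment on generators -/
def onGen (o : Ops G B) : Gen X G.m → B
  | .e ν => o.e ν
  | .par => o.par
  | .s μ => o.s μ
  | .x i => o.x i
  | .xi i => o.xi i

/-- the homomorphism from the presented algebra -/
noncomputable def lift (o : Ops G B) : Dbl G →ₐ[k] B :=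
  RingQuot.liftAlgHom k ⟨FreeAlgebra.lift k o.onGen, by
    intro a b h
    induction h with
    | e_mul ν ν' =>
      rw [map_mul, FreeAlgebra.lift_ι_apply, FreeAlgebra.lift_ι_apply]
      refine (o.e_mul ν ν').trans ?_
      split_ifs
      · rw [FreeAlgebra.lift_ι_apply]; rfl
      · rw [map_zero]
    | e_sum =>
      rw [map_sum, map_one]
      simp only [FreeAlgebra.lift_ι_apply]
      exact o.e_sum
    | par_sq => simp only [map_mul, map_one, FreeAlgebra.lift_ι_apply]; exact o.par_sq
    | par_e ν => simp only [map_mul, FreeAlgebra.lift_ι_apply]; exact o.par_e ν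
    | par_s μ => simp only [map_mul, FreeAlgebra.lift_ι_apply]; exact o.par_s μ
    | par_x i => simp only [map_mul, map_neg, FreeAlgebra.lift_ι_apply]; exact o.par_x i
    | par_xi i => simp only [map_mul, map_neg, FreeAlgebra.lift_ι_apply]; exact o.par_xi i
    | s_zero => simp only [map_one, FreeAlgebra.lift_ι_apply]; exact o.s_zero
    | s_add μ μ' => simp only [map_mul, FreeAlgebra.lift_ι_apply]; exact o.s_add μ μ'
    | s_e μ ν => simp only [map_mul, FreeAlgebra.lift_ι_apply]; exact o.s_e μ ν
    | x_e i ν => simp only [map_mul, FreeAlgebra.lift_ι_apply]; exact o.x_e i ν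
    | xi_e i ν => simp only [map_mul, FreeAlgebra.lift_ι_apply]; exact o.xi_e i ν
    | x_x i j =>
      simp only [map_mul, map_add, map_sum, map_smul, FreeAlgebra.lift_ι_apply]
      exact o.x_x i j
    | xi_xi i j =>
      simp only [map_mul, map_add, map_zero, FreeAlgebra.lift_ι_apply]
      exact o.xi_xi i j
    | xi_s i μ => simp only [map_mul, FreeAlgebra.lift_ι_apply]; exact o.xi_s i μ
    | x_xi i j =>
      simp only [map_mul, map_add, FreeAlgebra.lift_ι_apply]
      refine (o.x_xi i j).trans ?_
      split_ifs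
      · simp only [map_smul, map_sub, FreeAlgebra.lift_ι_apply]; rfl
      · rw [map_zero]
    | x_s i μ =>
      simp only [map_mul, map_sub, map_sum, map_smul, FreeAlgebra.lift_ι_apply]
      exact o.x_s i μ⟩

/-- transport along an algebra homomorphism -/
def map {B' : Type*} [Ring B'] [Algebra k B'] (o : Ops G B) (f : B →ₐ[k] B') : Ops G B' where
  e ν := f (o.e ν)
  par := f o.par
  s μ := f (o.s μ)
  x i := f (o.x i)
  xi i := f (o.xi i)
  e_mul ν ν' := by
    rw [← map_mul, o.e_mul]; split_ifs
    · rfl
    · exact map_zero f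
  e_sum := by rw [← map_sum, o.e_sum, map_one]
  par_sq := by rw [← map_mul, o.par_sq, map_one]
  par_e ν := by rw [← map_mul, o.par_e, map_mul]
  par_s ν := by rw [← map_mul, o.par_s, map_mul]
  par_x ν := by rw [← map_mul, o.par_x, map_neg, map_mul]
  par_xi ν := by rw [← map_mul, o.par_xi, map_neg, map_mul]
  s_zero := by rw [o.s_zero, map_one]
  s_add μ μ' := by rw [← map_mul, o.s_add]
  s_e μ ν := by rw [← map_mul, o.s_e, map_mul]
  x_e i ν := by rw [← map_mul, o.x_e, map_mul]
  xi_e i ν := by rw [← map_mul, o.xi_e, map_mul]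
  x_x i j := by
    simp only [← map_mul, ← map_add, ← map_smul, ← map_sum]
    rw [o.x_x]
  xi_xi i j := by
    simp only [← map_mul, ← map_add]
    rw [o.xi_xi, map_zero]
  xi_s i μ := by rw [← map_mul, o.xi_s, map_mul]
  x_xi i j := by
    simp only [← map_mul, ← map_add, ← map_sub, ← map_smul]
    rw [o.x_xi]
    split_ifs
    · rfl
    · exact map_zero f
  x_s i μ := by
    simp only [← map_mul, ← map_sub, ← map_smul, ← map_sum]
    rw [o.x_s]

end Ops

variable (G : HCData k X)

/-- the quotient map -/
noncomputable def q (G : HCData k X) : FreeAlgebra k (Gen X G.m) →ₐ[k] Dbl G :=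
  RingQuot.mkAlgHom k (Rel G)

theorem q_surjective : Function.Surjective (q G) := RingQuot.mkAlgHom_surjective k (Rel G)

theorem q_rel {a b : FreeAlgebra k (Gen X G.m)} (h : Rel G a b) : q G a = q G b :=
  RingQuot.mkAlgHom_rel k h

/-- the generators of the presented algebra -/
noncomputable def gen : Ops G (Dbl G) where
  e ν := q G (fg k (.e ν))
  par := q G (fg k .par)
  s μ := q G (fg k (.s μ))
  x i := q G (fg k (.x i))
  xi i := q G (fg k (.xi i))
  e_mul ν ν' := by
    rw [← map_mul, q_rel G (.e_mul ν ν')]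
    split_ifs
    · rfl
    · exact map_zero _
  e_sum := by rw [← map_sum, q_rel G .e_sum, map_one]
  par_sq := by rw [← map_mul, q_rel G .par_sq, map_one]
  par_e ν := by rw [← map_mul, q_rel G (.par_e ν), map_mul]
  par_s ν := by rw [← map_mul, q_rel G (.par_s ν), map_mul]
  par_x ν := by rw [← map_mul, q_rel G (.par_x ν), map_neg, map_mul]
  par_xi ν := by rw [← map_mul, q_rel G (.par_xi ν), map_neg, map_mul]
  s_zero := by rw [q_rel G .s_zero, map_one]
  s_add μ μ' := by rw [← map_mul, q_rel G (.s_add μ μ')]
  s_e μ ν := by rw [← map_mul, q_rel G (.s_e μ ν), map_mul]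
  x_e i ν := by rw [← map_mul, q_rel G (.x_e i ν), map_mul]
  xi_e i ν := by rw [← map_mul, q_rel G (.xi_e i ν), map_mul]
  x_x i j := by
    simp only [← map_mul, ← map_add, ← map_smul, ← map_sum]
    rw [q_rel G (.x_x i j)]
  xi_xi i j := by
    simp only [← map_mul, ← map_add]
    rw [q_rel G (.xi_xi i j), map_zero]
  xi_s i μ := by rw [← map_mul, q_rel G (.xi_s i μ), map_mul]
  x_xi i j := by
    simp only [← map_mul, ← map_add, ← map_sub, ← map_smul]
    rw [q_rel G (.x_xi i j)]
    split_ifs
    · rfl
    · exact map_zero _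
  x_s i μ := by
    simp only [← map_mul, ← map_sub, ← map_smul, ← map_sum]
    rw [q_rel G (.x_s i μ)]

section lift

variable {G} {B : Type v} [Ring B] [Algebra k B] (o : Ops G B)

theorem lift_q (a : FreeAlgebra k (Gen X G.m)) : o.lift (q G a) = FreeAlgebra.lift k o.onGen a :=
  RingQuot.liftAlgHom_mkAlgHom_apply k _ _ _

@[simp] theorem lift_e (ν : X) : o.lift ((gen G).e ν) = o.e ν := by
  show o.lift (q G _) = _
  rw [lift_q, FreeAlgebra.lift_ι_apply]; rfl

@[simp] theorem lift_par : o.lift (gen G).par = o.par := by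
  show o.lift (q G _) = _
  rw [lift_q, FreeAlgebra.lift_ι_apply]; rfl

@[simp] theorem lift_s (μ : X) : o.lift ((gen G).s μ) = o.s μ := by
  show o.lift (q G _) = _
  rw [lift_q, FreeAlgebra.lift_ι_apply]; rfl

@[simp] theorem lift_x (i : Fin G.m) : o.lift ((gen G).x i) = o.x i := by
  show o.lift (q G _) = _
  rw [lift_q, FreeAlgebra.lift_ι_apply]; rfl

@[simp] theorem lift_xi (i : Fin G.m) : o.lift ((gen G).xi i) = o.xi i := by
  show o.lift (q G _) = _
  rw [lift_q, FreeAlgebra.lift_ι_apply]; rfl

end lift

/-- an additive map which commutes with the generators and with `k` is linear over the presented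
algebra -/
theorem map_smul_of_gen {M N : Type*} [AddCommGroup M] [AddCommGroup N] [Module (Dbl G) M]
    [Module (Dbl G) N] [Module k M] [Module k N] [IsScalarTower k (Dbl G) M]
    [IsScalarTower k (Dbl G) N] (f : M →ₗ[k] N)
    (he : ∀ ν m, f ((gen G).e ν • m) = (gen G).e ν • f m)
    (hpar : ∀ m, f ((gen G).par • m) = (gen G).par • f m)
    (hs : ∀ μ m, f ((gen G).s μ • m) = (gen G).s μ • f m)
    (hx : ∀ i m, f ((gen G).x i • m) = (gen G).x i • f m)
    (hxi : ∀ i m, f ((gen G).xi i • m) = (gen G).xi i • f m) :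
    ∀ (a : Dbl G) (m : M), f (a • m) = a • f m := by
  intro a
  obtain ⟨b, rfl⟩ := q_surjective G a
  induction b using FreeAlgebra.induction with
  | grade0 r =>
    intro m
    rw [AlgHom.commutes, algebraMap_smul, algebraMap_smul, map_smul]
  | grade1 g =>
    cases g with
    | e ν => exact he ν
    | par => exact hpar
    | s μ => exact hs μ
    | x i => exact hx i
    | xi i => exact hxi i
  | mul a b ha hb =>
    intro m
    rw [map_mul, mul_smul, ha, hb, mul_smul]
  | add a b ha hb =>
    intro m
    rw [map_add, add_smul, map_add, ha, hb, add_smul]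

/-! ## The trivial module -/

/-- the augmentation -/
noncomputable def augOps : Ops G k where
  e ν := if ν = 0 then 1 else 0
  par := 1
  s _ := 1
  x _ := 0
  xi _ := 0
  e_mul ν ν' := by
    by_cases h : ν = 0
    · by_cases h' : ν' = 0
      · simp [h, h']
      · simp [h, h', Ne.symm h']
    · simp [h]
  e_sum := by simp
  par_sq := one_mul 1
  par_e _ := by ring
  par_s _ := by ring
  par_x _ := by ring
  par_xi _ := by ring
  s_zero := rfl
  s_add _ _ := one_mul 1
  s_e _ _ := by ring
  x_e _ _ := by ring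
  xi_e _ _ := by ring
  x_x i j := by simp
  xi_xi _ _ := by ring
  xi_s _ _ := by ring
  x_xi i j := by simp
  x_s _ _ := by simp

/-- the augmentation -/
noncomputable def aug : Dbl G →ₐ[k] k := (augOps G).lift

/-- the trivial supermodule -/
def Triv (_ : HCData k X) : Type u := k

noncomputable instance : AddCommGroup (Triv G) := inferInstanceAs (AddCommGroup k)

noncomputable instance : Module k (Triv G) := inferInstanceAs (Module k k)

noncomputable instance : Module (Dbl G) (Triv G) := Module.compHom k (aug G).toRingHom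

theorem triv_smul (a : Dbl G) (m : Triv G) : a • m = (aug G a • (show k from m) : k) := rfl

instance : IsScalarTower k (Dbl G) (Triv G) where
  smul_assoc r a m := by
    rw [triv_smul, triv_smul, map_smul, smul_assoc]
    rfl

/-- the unit object of the category of supermodules over `D(G)` -/
noncomputable def unitObj : ModuleCat.{u} (Dbl G) := ModuleCat.of (Dbl G) (Triv G)

end Pool.Agent.Work.MP_0c1793_al
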