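import Pool.Agent.Work.MP_0c1793_al.Abs

/-!
# Transfer of a functorial complex along an exact functor
-/

namespace Pool.Agent.DG

open CategoryTheory Abelian

universe w v₁ v₂ u₀ u₁ u₂ u₃

namespace Res

variable {k : Type u₀} [CommRing k] {𝓒 : Type u₁} [Category.{v₁} 𝓒] [Abelian 𝓒] [Linear k 𝓒]
  {𝓒' : Type u₃} [Category.{v₂} 𝓒'] [Abelian 𝓒'] [Linear k 𝓒']

/-- The conditions on the functor. -/
structure PullData (F : 𝓒 ⥤ 𝓒') [F.Additive] (one : 𝓒) (one' : 𝓒') where
  φ : one' ⟶ F.obj one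
  ses : ∀ S : ShortComplex 𝓒, S.ShortExact → (S.map F).ShortExact
  inj : ∀ I : 𝓒, Injective I → Injective (F.obj I)
  bij : ∀ M : 𝓒, Function.Bijective (fun f : one ⟶ M => φ ≫ F.map f)

variable {F : 𝓒 ⥤ 𝓒'} [F.Additive] [F.Linear k] {one : 𝓒} {one' : 𝓒'}
  (D : Res.{v₂, u₀, u₃, u₂} k one') (h : PullData F one one')

/-- The complex `M ↦ C (F M)`. -/
def pull : Res.{v₁, u₀, u₁, u₂} k one where
  C n M := D.C n (F.obj M)
  instG n M := D.instG n (F.obj M)
  instM n M := D.instM n (F.obj M)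
  map n _ _ f := D.map n (F.map f)
  map_comp n _ _ _ f g x := by rw [F.map_comp, D.map_comp]
  map_add n _ _ f g x := by rw [F.map_add, D.map_add]
  map_smul n _ _ c f x := by rw [F.map_smul, D.map_smul]
  d n M := D.d n (F.obj M)
  d_d n M x := D.d_d n (F.obj M) x
  d_map n _ _ f x := D.d_map n (F.map f) x
  inj n S hS x hx := D.inj n (S.map F) (h.ses S hS) x hx
  surj n S hS x := D.surj n (S.map F) (h.ses S hS) x
  exact n S hS x hx := D.exact n (S.map F) (h.ses S hS) x hx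
  acyc I hI n x hx := by
    have := h.inj I hI
    exact D.acyc (F.obj I) n x hx
  e := D.map 0 h.φ D.e
  d_e := by rw [D.d_map, D.d_e, LinearMap.map_zero]
  e_inj {M} f hf := by
    rw [← D.map_comp] at hf
    have h1 := D.e_inj _ hf
    refine (h.bij M).1 ?_
    show h.φ ≫ F.map f = h.φ ≫ F.map 0
    rw [h1, F.map_zero, Limits.comp_zero]
  e_surj {M} x hx := by
    obtain ⟨g, hg⟩ := D.e_surj x hx
    obtain ⟨f, hf⟩ := (h.bij M).2 g
    refine ⟨f, ?_⟩
    rw [← D.map_comp]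
    have h1 : h.φ ≫ F.map f = g := hf
    rw [h1, hg]

variable {D} {ρ : Type} (O : D.Ops ρ)

/-- The operators. -/
def Ops.pull : (D.pull h).Ops ρ where
  deg := O.deg
  r i n M := O.r i n (F.obj M)
  r_map i n _ _ f x := O.r_map i n (F.map f) x
  r_d i n M x := O.r_d i n (F.obj M) x

theorem Ops.Word.pull {κ : Type} {M : 𝓒} {b : κ → ℕ} {z : ∀ j, D.C (b j) (F.obj M)} {n : ℕ}
    {x : D.C n (F.obj M)} (hx : O.Word z n x) :
    (O.pull h).Word (M := M) (fun j => (z j : (D.pull h).C (b j) M)) n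
      (x : (D.pull h).C n M) := by
  induction hx with
  | base j => exact Ops.Word.base (O := O.pull h) (M := M) j
  | op i _ ih => exact Ops.Word.op (O := O.pull h) (M := M) i ih
  | zero n => exact Ops.Word.zero (O := O.pull h) (M := M) n
  | add _ _ ih₁ ih₂ => exact Ops.Word.add (O := O.pull h) (M := M) ih₁ ih₂
  | smul c _ ih => exact Ops.Word.smul (O := O.pull h) (M := M) c ih
  | bd x => exact Ops.Word.bd (O := O.pull h) (M := M) x

include h in
/-- The finite generation property for the source of the functor. -/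
theorem Ops.fgc_pull [HasExt.{w} 𝓒] [EnoughInjectives 𝓒] [Finite ρ] (P : 𝓒 → Prop)
    (P' : 𝓒' → Prop) (hPP' : ∀ V, P V → P' (F.obj V)) (hP : P one)
    (hfg : ∀ V : 𝓒', P' V → ∃ (κ : Type) (_ : Finite κ) (b : κ → ℕ) (z : ∀ j, D.C (b j) V),
      (∀ j, D.d (b j) V (z j) = 0) ∧ ∀ (n : ℕ) (x : D.C n V), D.d n V x = 0 → O.Word z n x) :
    FGC.{w} k one P := by
  refine (O.pull h).fgc P hP fun V hV => ?_
  obtain ⟨κ, hκ, b, z, hz, hw⟩ := hfg _ (hPP' V hV)
  exact ⟨κ, hκ, b, z, hz, fun n x hx => Ops.Word.pull h O (hw n x hx)⟩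

end Res

end Pool.Agent.DG
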